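import Pool.Agent.Lib.MP_dac83a.Lambda
import Pool.Agent.Lib.MP_dac83a.Segment

set_option autoImplicit false

open MeasureTheory Set Filter Topology
open scoped ContDiff

namespace Pool.Agent.Lib.MP_dac83a

/-- the inner square -/
abbrev S34 : Set P := Set.Ioo (-(3/4):ℝ) (3/4) ×ˢ Set.Ioo (-(3/4):ℝ) (3/4)

theorem S34_subset : S34 ⊆ Om := by
  rintro z ⟨⟨h1, h2⟩, h3, h4⟩
  refine Sq_subset ⟨?_, ?_⟩ <;> rw [abs_lt] <;> constructor <;> linarith

theorem S34_finite : IsFiniteMeasure ((volume : Measure P).restrict S34) := by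
  constructor
  rw [Measure.restrict_apply_univ]
  exact (Bornology.IsBounded.prod (Metric.isBounded_Ioo _ _) (Metric.isBounded_Ioo _ _)).measure_lt_top

theorem chi_exists : ∃ χ : P → ℝ, IsTest Om χ ∧ 0 < ∫ z in S34, χ z := by
  let f : ContDiffBump (0 : P) := ⟨1 / 4, 1 / 2, by norm_num, by norm_num⟩
  have hsub : Metric.closedBall (0 : P) (1 / 2) ⊆ S34 := by
    intro z hz
    rw [mem_closedBall_zero_iff, Prod.norm_def, max_le_iff, Real.norm_eq_abs, Real.norm_eq_abs,
      abs_le, abs_le] at hz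
    obtain ⟨⟨h1, h2⟩, h3, h4⟩ := hz
    exact ⟨⟨by linarith, by linarith⟩, by linarith, by linarith⟩
  refine ⟨f, ⟨f.contDiff, f.hasCompactSupport, ?_⟩, ?_⟩
  · rw [f.tsupport_eq]
    exact hsub.trans S34_subset
  · rw [setIntegral_eq_integral_of_forall_compl_eq_zero]
    · exact f.integral_pos
    · intro z hz
      apply f.zero_of_le_dist
      by_contra hcon
      push Not at hcon
      exact hz (hsub (Metric.mem_closedBall.2 hcon.le))

theorem Conv2.scal_zero {α : Type} [MeasurableSpace α] {ν : Measure α} {c : ℕ → ℝ}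
    (hc : Tendsto c atTop (𝓝 0)) {g : α → ℝ} (hg : MemLp g 2 ν) :
    Conv2 ν (fun n z => c n * g z) (fun _ => 0) := by
  refine ⟨fun n => hg.const_mul (c n), MemLp.zero', ?_⟩
  have e : ∀ n, ∫ a, (c n * g a - 0) ^ 2 ∂ν = c n ^ 2 * ∫ a, g a ^ 2 ∂ν := by
    intro n
    rw [← integral_const_mul]
    congr 1
    ext a
    ring
  simp only [e]
  have := (hc.pow 2).mul_const (∫ a, g a ^ 2 ∂ν)
  simpa using this

theorem IsTest.setInt {φ : P → ℝ} {F : P → ℝ} (hF : ∀ z, z ∉ tsupport φ → F z = 0)
    (h : IsTest Om φ) : ∫ z in Om, F z = ∫ z, F z :=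
  setIntegral_eq_integral_of_forall_compl_eq_zero (fun z hz => hF z (fun h' => hz (h.sub h')))

theorem rayleigh_limit {φ : ℕ → P → ℝ} {f fx fy : P → ℝ} (hφ : ∀ n, IsTest Om (φ n))
    (h : Conv2 (volume.restrict Om) φ f)
    (hx : Conv2 (volume.restrict Om) (fun n => dd ex (φ n)) fx)
    (hy : Conv2 (volume.restrict Om) (fun n => dd ey (φ n)) fy)
    (h0 : ∫ z in S34, f z = 0) :
    muO * ∫ z in Om, f z ^ 2 ≤ (∫ z in Om, fx z ^ 2) + ∫ z in Om, fy z ^ 2 := by
  obtain ⟨χ, hχ, hpos⟩ := chi_exists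
  set c : ℕ → ℝ := fun n => -(∫ z in S34, φ n z) / (∫ z in S34, χ z) with hc
  have hfin := S34_finite
  have hc0 : Tendsto c atTop (𝓝 0) := by
    have h1 := (h.mono S34_subset).integral_mul
      (Conv2.const (g := fun _ => (1 : ℝ)) (memLp_const (μ := volume.restrict S34) (1 : ℝ)))
    simp only [mul_one, h0] at h1
    have h2 := (h1.neg).div_const (∫ z in S34, χ z)
    simpa using h2
  have hd : ∀ n v z, dd v (fun z => 1 * φ n z + c n * χ z) z
      = 1 * dd v (φ n) z + c n * dd v χ z := fun n v z => dd_comb (hφ n) hχ 1 (c n) v z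
  have hG : ∀ n, IsTest Om (fun z => 1 * φ n z + c n * χ z) := fun n => (hφ n).comb hχ 1 (c n)
  have m : ∀ {g : P → ℝ}, IsTest Om g → MemLp g 2 (volume.restrict Om) := fun h =>
    h.memLp.restrict Om
  have c0 : Conv2 (volume.restrict Om) (fun n z => 1 * φ n z + c n * χ z) f :=
    (h.comb (Conv2.scal_zero hc0 (m hχ)) 1 1).congr
      (fun n => Eventually.of_forall fun z => by simp only; ring)
      (Eventually.of_forall fun z => by simp only; ring)
  have cx : Conv2 (volume.restrict Om) (fun n => dd ex (fun z => 1 * φ n z + c n * χ z)) fx :=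
    (hx.comb (Conv2.scal_zero hc0 (m (hχ.dd ex))) 1 1).congr
      (fun n => Eventually.of_forall fun z => by rw [hd]; simp only; ring)
      (Eventually.of_forall fun z => by simp only; ring)
  have cy : Conv2 (volume.restrict Om) (fun n => dd ey (fun z => 1 * φ n z + c n * χ z)) fy :=
    (hy.comb (Conv2.scal_zero hc0 (m (hχ.dd ey))) 1 1).congr
      (fun n => Eventually.of_forall fun z => by rw [hd]; simp only; ring)
      (Eventually.of_forall fun z => by simp only; ring)
  have key : ∀ n, muO * ∫ z in Om, (1 * φ n z + c n * χ z) ^ 2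
      ≤ (∫ z in Om, (dd ex (fun z => 1 * φ n z + c n * χ z) z) ^ 2)
        + ∫ z in Om, (dd ey (fun z => 1 * φ n z + c n * χ z) z) ^ 2 := by
    intro n
    have i0 : ∫ z in S34, (1 * φ n z + c n * χ z) = 0 := by
      rw [integral_add ((hφ n).integrable.integrableOn.const_mul _)
        (hχ.integrable.integrableOn.const_mul _), integral_const_mul, integral_const_mul]
      simp only [hc]
      field_simp
      ring
    have h1 := rayleigh_ge (hG n) i0
    simp only [Nm, En] at h1
    rw [integral_add ((hG n).dd ex).int_sq ((hG n).dd ey).int_sq] at h1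
    rw [(hG n).setInt (F := fun z => (1 * φ n z + c n * χ z) ^ 2),
      (hG n).setInt (F := fun z => (dd ex (fun z => 1 * φ n z + c n * χ z) z) ^ 2),
      (hG n).setInt (F := fun z => (dd ey (fun z => 1 * φ n z + c n * χ z) z) ^ 2)]
    · exact h1
    · intro z hz
      show (dd ey _ z) ^ 2 = 0
      rw [dd_zero_of_notMem_tsupport hz ey]
      norm_num
    · intro z hz
      show (dd ex _ z) ^ 2 = 0
      rw [dd_zero_of_notMem_tsupport hz ex]
      norm_num
    · intro z hz
      have h2 : 1 * φ n z + c n * χ z = 0 :=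
        image_eq_zero_of_notMem_tsupport (f := fun z => 1 * φ n z + c n * χ z) hz
      show (1 * φ n z + c n * χ z) ^ 2 = 0
      rw [h2]
      norm_num
  exact le_of_tendsto_of_tendsto' (c0.integral_sq.const_mul muO)
    (cx.integral_sq.add cy.integral_sq) key

/-- the weak form of the eigenvalue equation against functions of `H¹₀` -/
theorem Eig.form {a : ℝ} {u : P → ℝ} (hu : Eig Om a u) {φ : ℕ → P → ℝ} {w wx wy : P → ℝ}
    (hφ : ∀ n, IsTest Om (φ n)) (h : Conv2 (volume.restrict Om) φ w)
    (hx : Conv2 (volume.restrict Om) (fun n => dd ex (φ n)) wx)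
    (hy : Conv2 (volume.restrict Om) (fun n => dd ey (φ n)) wy) :
    (∫ z in Om, wx z * dd ex u z) + (∫ z in Om, wy z * dd ey u z) = a * ∫ z in Om, w z * u z := by
  obtain ⟨ψ, -, k2, k3, k4⟩ := hu.approx
  have l1 := (hx.integral_mul (Conv2.const k3.mem)).add (hy.integral_mul (Conv2.const k4.mem))
  have l2 := (h.integral_mul (Conv2.const k2.mem)).const_mul a
  refine tendsto_nhds_unique l1 (l2.congr fun n => ?_)
  have h1 := weak_form isOpen_Om (hφ n).isTest1 (hu.smooth.of_le two_le_inf) hu.eq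
  rw [(hφ n).setInt (F := fun z => φ n z * u z), ← h1,
    ← integral_add (integrable_mul2 (hx.memn n) k3.mem) (integrable_mul2 (hy.memn n) k4.mem),
    (hφ n).setInt (F := fun z => dd ex (φ n) z * dd ex u z + dd ey (φ n) z * dd ey u z)]
  · intro z hz
    simp [dd_zero_of_notMem_tsupport hz]
  · intro z hz
    simp [image_eq_zero_of_notMem_tsupport hz]

theorem sq_expand {α : Type} [MeasurableSpace α] {ν : Measure α} {f g : α → ℝ}
    (hf : MemLp f 2 ν) (hg : MemLp g 2 ν) (s t : ℝ) :
    ∫ z, (s * f z + t * g z) ^ 2 ∂ν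
      = s ^ 2 * (∫ z, f z * f z ∂ν) + 2 * s * t * (∫ z, f z * g z ∂ν)
        + t ^ 2 * ∫ z, g z * g z ∂ν := by
  rw [← int3 (integrable_mul2 hf hf) (integrable_mul2 hf hg) (integrable_mul2 hg hg)]
  congr 1
  ext z
  ring

/-- at most one eigenvalue, counted with multiplicity, lies below `muO` -/
theorem at_most_one {a b : ℝ} (ha : a < muO) (hb : b < muO) {u v : P → ℝ} (hu : Eig Om a u)
    (hv : Eig Om b v) : ∃ s t : ℝ, (s ≠ 0 ∨ t ≠ 0) ∧ ∀ z ∈ Om, s * u z + t * v z = 0 := by
  obtain ⟨φ, p1, p2, p3, p4⟩ := hu.approx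
  obtain ⟨ψ, q1, q2, q3, q4⟩ := hv.approx
  have hfin := S34_finite
  have m1 : MemLp (fun _ : P => (1 : ℝ)) 2 (volume.restrict S34) := memLp_const 1
  have iu : Integrable u (volume.restrict S34) := by
    have := integrable_mul2 (p2.mono S34_subset).mem m1
    simpa using this
  have iv : Integrable v (volume.restrict S34) := by
    have := integrable_mul2 (q2.mono S34_subset).mem m1
    simpa using this
  obtain ⟨s, t, hst, hst0⟩ : ∃ s t : ℝ, (s ≠ 0 ∨ t ≠ 0) ∧
      s * (∫ z in S34, u z) + t * (∫ z in S34, v z) = 0 := by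
    by_cases h : (∫ z in S34, u z) = 0
    · exact ⟨1, 0, Or.inl one_ne_zero, by rw [h]; ring⟩
    · exact ⟨-(∫ z in S34, v z), ∫ z in S34, u z, Or.inr h, by ring⟩
  refine ⟨s, t, hst, ?_⟩
  have i0 : ∫ z in S34, (s * u z + t * v z) = 0 := by
    rw [integral_add (iu.const_mul _) (iv.const_mul _), integral_const_mul, integral_const_mul]
    exact hst0
  have hd : ∀ n w z, dd w (fun z => s * φ n z + t * ψ n z) z
      = s * dd w (φ n) z + t * dd w (ψ n) z := fun n w z => dd_comb (p1 n) (q1 n) s t w z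
  have r := rayleigh_limit (φ := fun n z => s * φ n z + t * ψ n z)
    (f := fun z => s * u z + t * v z)
    (fx := fun z => s * dd ex u z + t * dd ex v z) (fy := fun z => s * dd ey u z + t * dd ey v z)
    (fun n => (p1 n).comb (q1 n) s t) (p2.comb q2 s t)
    ((p3.comb q3 s t).congr (fun n => Eventually.of_forall fun z => (hd n ex z).symm)
      (Eventually.of_forall fun z => rfl))
    ((p4.comb q4 s t).congr (fun n => Eventually.of_forall fun z => (hd n ey z).symm)
      (Eventually.of_forall fun z => rfl)) i0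
  have e1 := hu.form p1 p2 p3 p4
  have e2 := hu.form q1 q2 q3 q4
  have e3 := hv.form p1 p2 p3 p4
  have e4 := hv.form q1 q2 q3 q4
  have hN := sq_expand p2.mem q2.mem s t
  rw [hN, sq_expand p3.mem q3.mem s t, sq_expand p4.mem q4.mem s t] at r
  have s1 : ∫ z in Om, v z * u z = ∫ z in Om, u z * v z := by
    congr 1; ext z; ring
  have s2 : ∫ z in Om, dd ex v z * dd ex u z = ∫ z in Om, dd ex u z * dd ex v z := by
    congr 1; ext z; ring
  have s3 : ∫ z in Om, dd ey v z * dd ey u z = ∫ z in Om, dd ey u z * dd ey v z := by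
    congr 1; ext z; ring
  rw [s1, s2, s3] at e2
  set UU := ∫ z in Om, u z * u z with hUU
  set UV := ∫ z in Om, u z * v z with hUV
  set VV := ∫ z in Om, v z * v z with hVV
  set Nf := ∫ z in Om, (s * u z + t * v z) ^ 2 with hNf
  have hUU0 : 0 ≤ UU := integral_nonneg fun z => mul_self_nonneg _
  have hVV0 : 0 ≤ VV := integral_nonneg fun z => mul_self_nonneg _
  have hNf0 : 0 ≤ Nf := integral_nonneg fun z => by positivity
  have hzero : Nf = 0 := by
    by_cases hab : a = b
    · subst hab
      have h1 : muO * Nf ≤ a * Nf := by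
        rw [hN]
        calc _ ≤ _ := r
          _ = _ := by linear_combination s ^ 2 * e1 + 2 * s * t * e2 + t ^ 2 * e4
      nlinarith
    · have hUV0 : UV = 0 := by
        have h1 : (a - b) * UV = 0 := by linear_combination e3 - e2
        rcases mul_eq_zero.1 h1 with h2 | h2
        · exact absurd (by linarith) hab
        · exact h2
      rw [hUV0] at hN r e2
      have h1 : muO * (s ^ 2 * UU + t ^ 2 * VV) ≤ s ^ 2 * (a * UU) + t ^ 2 * (b * VV) := by
        calc _ = muO * (s ^ 2 * UU + 2 * s * t * 0 + t ^ 2 * VV) := by ring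
          _ ≤ _ := r
          _ = _ := by linear_combination s ^ 2 * e1 + 2 * s * t * e2 + t ^ 2 * e4
      have h2 : 0 ≤ s ^ 2 * UU := by positivity
      have h3 : 0 ≤ t ^ 2 * VV := by positivity
      have h4 : s ^ 2 * UU ≤ 0 := by nlinarith [mul_nonneg (sub_pos.2 ha).le h2, mul_nonneg (sub_pos.2 hb).le h3]
      have h5 : t ^ 2 * VV ≤ 0 := by nlinarith [mul_nonneg (sub_pos.2 ha).le h2, mul_nonneg (sub_pos.2 hb).le h3]
      rw [hN]
      linarith
  have hint : Integrable (fun z => (s * u z + t * v z) ^ 2) (volume.restrict Om) :=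
    (((p2.comb q2 s t).mem).integrable_sq)
  have hae : (fun z => (s * u z + t * v z) ^ 2) =ᵐ[volume.restrict Om] 0 :=
    (integral_eq_zero_iff_of_nonneg (fun z => by positivity) hint).1 hzero
  have hcont : ContinuousOn (fun z => s * u z + t * v z) Om :=
    (continuousOn_const.mul hu.smooth.continuousOn).add
      (continuousOn_const.mul hv.smooth.continuousOn)
  have hE := Measure.eqOn_open_of_ae_eq hae isOpen_Om (hcont.pow 2) continuousOn_const
  intro z hz
  have := hE hz
  simp only [Pi.zero_apply] at this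
  exact pow_eq_zero_iff (two_ne_zero) |>.1 this

end Pool.Agent.Lib.MP_dac83a
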