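import Pool.Agent.Lib.MP_dac83a.Transfer
import Pool.Agent.Lib.MP_dac83a.Multi

set_option autoImplicit false

open MeasureTheory Set Filter Topology
open scoped ContDiff

namespace Pool.Agent.Lib.MP_dac83a

theorem conv2_of {α : Type} [MeasurableSpace α] {ν : Measure α} {ψ : ℕ → α → ℝ} {f : α → ℝ}
    {F : ℕ → α → ℝ} (hψ : ∀ n, MemLp (ψ n) 2 ν) (hf : AEStronglyMeasurable f ν)
    (hF : ∀ n, Integrable (F n) ν) (hle : ∀ n z, (ψ n z - f z) ^ 2 ≤ F n z)
    (hlim : Tendsto (fun n => ∫ z, F n z ∂ν) atTop (𝓝 0)) : Conv2 ν ψ f := by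
  have hm : ∀ n, AEStronglyMeasurable (fun z => ψ n z - f z) ν := fun n =>
    (hψ n).aestronglyMeasurable.sub hf
  have hi : ∀ n, Integrable (fun z => (ψ n z - f z) ^ 2) ν := fun n =>
    (hF n).mono' ((hm n).pow 2) (Eventually.of_forall fun z => by
      rw [Real.norm_eq_abs, abs_of_nonneg (sq_nonneg _)]
      exact hle n z)
  have h2 : ∀ n, MemLp (fun z => ψ n z - f z) 2 ν := fun n =>
    (memLp_two_iff_integrable_sq (hm n)).2 (hi n)
  refine ⟨hψ, ?_, ?_⟩
  · have h3 := (hψ 0).sub (h2 0)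
    have e : (ψ 0 - fun z => ψ 0 z - f z) = f := by
      ext z
      simp
    rwa [e] at h3
  · exact squeeze_zero (fun n => integral_nonneg fun z => by positivity)
      (fun n => integral_mono (hi n) (hF n) (hle n)) hlim

theorem eig_of_E2 {a : ℝ} {u : E2 → ℝ}
    (h1 : ContDiffOn ℝ ((⊤ : ℕ∞) : WithTop ℕ∞) u (ee ⁻¹' Om))
    (h2 : ∀ x ∈ ee ⁻¹' Om,
      -(∑ i : Fin 2, iteratedFDeriv ℝ 2 u x (fun _ => EuclideanSpace.single i (1 : ℝ)))
        = a * u x)
    (h3 : ∃ φ : ℕ → E2 → ℝ,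
      (∀ n, ContDiff ℝ ((⊤ : ℕ∞) : WithTop ℕ∞) (φ n) ∧ HasCompactSupport (φ n) ∧
          tsupport (φ n) ⊆ ee ⁻¹' Om ∧
          MeasureTheory.IntegrableOn
            (fun x => (φ n x - u x) ^ 2 + ‖fderiv ℝ (φ n) x - fderiv ℝ u x‖ ^ 2) (ee ⁻¹' Om)) ∧
      Filter.Tendsto
        (fun n => ∫ x in ee ⁻¹' Om,
          ((φ n x - u x) ^ 2 + ‖fderiv ℝ (φ n) x - fderiv ℝ u x‖ ^ 2))
        Filter.atTop (nhds 0)) : Eig Om a (u ∘ ee.symm) := by
  set f : P → ℝ := u ∘ ee.symm with hf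
  have hfe : f ∘ ee = u := by ext x; simp [hf]
  have hs : ContDiffOn ℝ ∞ f Om :=
    h1.comp ee.symm.contDiff.contDiffOn (fun z hz => by simpa using hz)
  refine ⟨hs, ?_, ?_⟩
  · intro z hz
    have hz' : ee (ee.symm z) ∈ Om := by simpa using hz
    have h4 := lap_transfer isOpen_Om (hs.of_le two_le_inf) hz'
    rw [hfe] at h4
    have h5 := h2 (ee.symm z) hz'
    rw [h4] at h5
    simp only [ContinuousLinearEquiv.apply_symm_apply] at h5
    have h6 : f z = u (ee.symm z) := rfl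
    rw [h6]
    linarith
  · obtain ⟨φ, hφ, hlim⟩ := h3
    set ψ : ℕ → P → ℝ := fun n => φ n ∘ ee.symm with hψ
    have hψe : ∀ n, ψ n ∘ ee = φ n := by intro n; ext x; simp [hψ]
    have ht : ∀ n, IsTest Om (ψ n) := by
      intro n
      apply test_transfer.1
      rw [hψe]
      exact ⟨(hφ n).1, (hφ n).2.1, (hφ n).2.2.1⟩
    set F : ℕ → P → ℝ := fun n z => (ψ n z - f z) ^ 2 + ((dd ex (ψ n) z - dd ex f z) ^ 2
      + (dd ey (ψ n) z - dd ey f z) ^ 2) with hF
    have hFe : ∀ n (x : E2), (φ n x - u x) ^ 2 + ‖fderiv ℝ (φ n) x - fderiv ℝ u x‖ ^ 2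
        = F n (ee x) := by
      intro n x
      rw [← hψe n, ← hfe, norm_transfer_sub]
      rfl
    have hmpr : MeasurePreserving ee (volume.restrict (ee ⁻¹' Om)) (volume.restrict Om) :=
      ee_mp.restrict_preimage_emb ee_emb Om
    have hFi : ∀ n, Integrable (F n) (volume.restrict Om) := by
      intro n
      have := (hφ n).2.2.2
      simp only [hFe] at this
      exact (hmpr.integrable_comp_emb ee_emb).1 this
    have hFl : Tendsto (fun n => ∫ z in Om, F n z) atTop (𝓝 0) := by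
      simp only [hFe] at hlim
      refine hlim.congr fun n => ?_
      exact hmpr.integral_comp ee_emb (F n)
    have hdm : ∀ v, AEStronglyMeasurable (dd v f) (volume.restrict Om) := fun v =>
      (dd_contDiffOn (m := 0) isOpen_Om (hs.of_le one_le_inf) (by norm_num)
        v).continuousOn.aestronglyMeasurable isOpen_Om.measurableSet
    refine ⟨ψ, ht, ?_, ?_, ?_⟩
    · exact conv2_of (fun n => (ht n).memLp.restrict Om)
        (hs.continuousOn.aestronglyMeasurable isOpen_Om.measurableSet) hFi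
        (fun n z => by
          simp only [hF]
          nlinarith [sq_nonneg (dd ex (ψ n) z - dd ex f z), sq_nonneg (dd ey (ψ n) z - dd ey f z)])
        hFl
    · exact conv2_of (fun n => ((ht n).dd ex).memLp.restrict Om) (hdm ex) hFi
        (fun n z => by
          simp only [hF]
          nlinarith [sq_nonneg (ψ n z - f z), sq_nonneg (dd ey (ψ n) z - dd ey f z)])
        hFl
    · exact conv2_of (fun n => ((ht n).dd ey).memLp.restrict Om) (hdm ey) hFi
        (fun n z => by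
          simp only [hF]
          nlinarith [sq_nonneg (ψ n z - f z), sq_nonneg (dd ex (ψ n) z - dd ex f z)])
        hFl

/-- the ground state among the odd functions and its rotation are linearly independent -/
theorem ground_indep {u : P → ℝ} (hodd : ∀ z, u (-z) = -u z) {z : P} (hz : z ∈ Om)
    (hne : u z ≠ 0) {s t : ℝ} (h : ∀ w ∈ Om, s * u w + t * u (rot w) = 0) : s = 0 ∧ t = 0 := by
  have h1 := h z hz
  have h2 := h (rot z) ((Om_rot z).2 hz)
  rw [rot_rot, hodd] at h2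
  have h3 : (s ^ 2 + t ^ 2) * u z = 0 := by linear_combination s * h1 - t * h2
  have h4 : s ^ 2 + t ^ 2 = 0 := (mul_eq_zero.1 h3).resolve_right hne
  constructor <;> nlinarith [sq_nonneg s, sq_nonneg t]

/-- the boundary segment in the Euclidean plane -/
theorem segment_transfer {w : P → ℝ}
    (h : ∀ y0 : ℝ, |y0| ≤ 1 / 8 →
      ((17 / 16 : ℝ), y0) ∈ closure {z | z ∈ Om ∧ w z = 0} ∩ frontier Om) :
    ∃ p q : E2, p ≠ q ∧ segment ℝ p q ⊆
      closure {x | x ∈ ee ⁻¹' Om ∧ (w ∘ ee) x = 0} ∩ frontier (ee ⁻¹' Om) := by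
  refine ⟨ee.symm (17 / 16, -(1 / 8)), ee.symm (17 / 16, 1 / 8), ?_, ?_⟩
  · intro hpq
    have := congrArg Prod.snd (ee.symm.injective hpq)
    norm_num at this
  · rintro x ⟨a, b, ha, hb, hab, rfl⟩
    have e1 : {x | x ∈ ee ⁻¹' Om ∧ (w ∘ ee) x = 0} = ee ⁻¹' {z | z ∈ Om ∧ w z = 0} := rfl
    have e2 : closure (ee ⁻¹' {z | z ∈ Om ∧ w z = 0}) = ee ⁻¹' closure {z | z ∈ Om ∧ w z = 0} :=
      (ee.toHomeomorph.preimage_closure _).symm
    have e3 : frontier (ee ⁻¹' Om) = ee ⁻¹' frontier Om :=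
      (ee.toHomeomorph.preimage_frontier _).symm
    rw [e1, e2, e3, ← preimage_inter, mem_preimage, map_add, map_smul, map_smul,
      ContinuousLinearEquiv.apply_symm_apply, ContinuousLinearEquiv.apply_symm_apply]
    have e4 : a • (((17 / 16 : ℝ), (-(1 / 8) : ℝ)) : P) + b • (((17 / 16 : ℝ), (1 / 8 : ℝ)) : P)
        = ((17 / 16 : ℝ), (b - a) / 8) := by
      ext
      · simp only [Prod.smul_mk, Prod.mk_add_mk, smul_eq_mul]
        linear_combination (17 / 16 : ℝ) * hab
      · simp only [Prod.smul_mk, Prod.mk_add_mk, smul_eq_mul]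
        ring
    rw [e4]
    apply h
    rw [abs_le]
    constructor <;> linarith

end Pool.Agent.Lib.MP_dac83a
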