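import Mathlib

set_option autoImplicit false

open MeasureTheory Set Filter Topology
open scoped ContDiff

namespace Pool.Agent.Lib.MP_dac83a

theorem one_le_inf : (1 : WithTop ℕ∞) ≤ ∞ := by exact_mod_cast le_top
theorem two_le_inf : (2 : WithTop ℕ∞) ≤ ∞ := by
  have : ((2 : ℕ∞) : WithTop ℕ∞) ≤ ((⊤ : ℕ∞) : WithTop ℕ∞) := WithTop.coe_le_coe.2 le_top
  exact this

/-- The plane in coordinates. -/
abbrev P : Type := ℝ × ℝ

abbrev ex : P := (1, 0)
abbrev ey : P := (0, 1)

/-- directional derivative -/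
noncomputable def dd (v : P) (f : P → ℝ) (z : P) : ℝ := fderiv ℝ f z v

/-- Laplacian -/
noncomputable def lap (f : P → ℝ) (z : P) : ℝ := dd ex (dd ex f) z + dd ey (dd ey f) z

theorem dd_contDiffOn {U : Set P} (hU : IsOpen U) {m n : WithTop ℕ∞} {f : P → ℝ}
    (hf : ContDiffOn ℝ n f U) (hmn : m + 1 ≤ n) (v : P) : ContDiffOn ℝ m (dd v f) U :=
  (hf.fderiv_of_isOpen hU hmn).clm_apply contDiffOn_const

theorem dd_contDiff {m n : WithTop ℕ∞} {f : P → ℝ}
    (hf : ContDiff ℝ n f) (hmn : m + 1 ≤ n) (v : P) : ContDiff ℝ m (dd v f) :=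
  (hf.fderiv_right hmn).clm_apply contDiff_const

theorem dd_congr {U : Set P} (hU : IsOpen U) {f g : P → ℝ} (h : ∀ z ∈ U, f z = g z) (v : P) :
    ∀ z ∈ U, dd v f z = dd v g z := by
  intro z hz
  have : f =ᶠ[𝓝 z] g := by
    filter_upwards [hU.mem_nhds hz] with w hw using h w hw
  simp only [dd, this.fderiv_eq]

theorem lap_congr {U : Set P} (hU : IsOpen U) {f g : P → ℝ} (h : ∀ z ∈ U, f z = g z) :
    ∀ z ∈ U, lap f z = lap g z := by
  intro z hz
  simp only [lap]
  rw [dd_congr hU (dd_congr hU h ex) ex z hz, dd_congr hU (dd_congr hU h ey) ey z hz]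

theorem dd_add {f g : P → ℝ} {z : P} (hf : DifferentiableAt ℝ f z) (hg : DifferentiableAt ℝ g z)
    (v : P) : dd v (fun z => f z + g z) z = dd v f z + dd v g z := by
  simp only [dd]
  rw [fderiv_fun_add hf hg]; rfl

theorem dd_sub {f g : P → ℝ} {z : P} (hf : DifferentiableAt ℝ f z) (hg : DifferentiableAt ℝ g z)
    (v : P) : dd v (fun z => f z - g z) z = dd v f z - dd v g z := by
  simp only [dd]
  rw [fderiv_fun_sub hf hg]; rfl

theorem dd_const_mul {f : P → ℝ} {z : P} (hf : DifferentiableAt ℝ f z) (c : ℝ)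
    (v : P) : dd v (fun z => c * f z) z = c * dd v f z := by
  simp only [dd]
  rw [fderiv_const_mul hf c]; rfl

theorem dd_mul {f g : P → ℝ} {z : P} (hf : DifferentiableAt ℝ f z) (hg : DifferentiableAt ℝ g z)
    (v : P) : dd v (fun z => f z * g z) z = f z * dd v g z + g z * dd v f z := by
  simp only [dd]
  rw [fderiv_fun_mul hf hg]; rfl

theorem lap_comb {U : Set P} (hU : IsOpen U) {f g : P → ℝ} (hf : ContDiffOn ℝ 2 f U)
    (hg : ContDiffOn ℝ 2 g U) (a b : ℝ) :
    ∀ z ∈ U, lap (fun z => a * f z + b * g z) z = a * lap f z + b * lap g z := by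
  have hfd : ∀ z ∈ U, DifferentiableAt ℝ f z := fun z hz =>
    ((hf.contDiffAt (hU.mem_nhds hz)).differentiableAt (by norm_num))
  have hgd : ∀ z ∈ U, DifferentiableAt ℝ g z := fun z hz =>
    ((hg.contDiffAt (hU.mem_nhds hz)).differentiableAt (by norm_num))
  have h1 : ∀ v : P, ∀ z ∈ U, dd v (fun z => a * f z + b * g z) z = a * dd v f z + b * dd v g z := by
    intro v z hz
    rw [dd_add ((hfd z hz).const_mul a) ((hgd z hz).const_mul b), dd_const_mul (hfd z hz),
      dd_const_mul (hgd z hz)]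
  have hfv : ∀ v : P, ContDiffOn ℝ 1 (dd v f) U := fun v => dd_contDiffOn hU hf (by norm_num) v
  have hgv : ∀ v : P, ContDiffOn ℝ 1 (dd v g) U := fun v => dd_contDiffOn hU hg (by norm_num) v
  have hfvd : ∀ v : P, ∀ z ∈ U, DifferentiableAt ℝ (dd v f) z := fun v z hz =>
    (((hfv v).contDiffAt (hU.mem_nhds hz)).differentiableAt (by norm_num))
  have hgvd : ∀ v : P, ∀ z ∈ U, DifferentiableAt ℝ (dd v g) z := fun v z hz =>
    (((hgv v).contDiffAt (hU.mem_nhds hz)).differentiableAt (by norm_num))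
  intro z hz
  have h2 : ∀ v : P, dd v (dd v (fun z => a * f z + b * g z)) z
      = a * dd v (dd v f) z + b * dd v (dd v g) z := by
    intro v
    rw [dd_congr hU (h1 v) v z hz]
    rw [dd_add ((hfvd v z hz).const_mul a) ((hgvd v z hz).const_mul b), dd_const_mul (hfvd v z hz),
      dd_const_mul (hgvd v z hz)]
  simp only [lap]
  rw [h2 ex, h2 ey]; ring

/-- test functions -/
structure IsTest (U : Set P) (φ : P → ℝ) : Prop where
  smooth : ContDiff ℝ ∞ φ
  cpt : HasCompactSupport φ
  sub : tsupport φ ⊆ U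

/-- once continuously differentiable test functions -/
structure IsTest1 (U : Set P) (φ : P → ℝ) : Prop where
  smooth : ContDiff ℝ 1 φ
  cpt : HasCompactSupport φ
  sub : tsupport φ ⊆ U

theorem IsTest.isTest1 {U : Set P} {φ : P → ℝ} (h : IsTest U φ) : IsTest1 U φ :=
  ⟨h.smooth.of_le (by exact_mod_cast le_top), h.cpt, h.sub⟩

theorem IsTest.mono {U V : Set P} {φ : P → ℝ} (h : IsTest U φ) (hUV : U ⊆ V) : IsTest V φ :=
  ⟨h.smooth, h.cpt, h.sub.trans hUV⟩

theorem dd_zero_of_notMem_tsupport {f : P → ℝ} {z : P} (hz : z ∉ tsupport f) (v : P) :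
    dd v f z = 0 := by
  have h : f =ᶠ[𝓝 z] (fun _ => (0 : ℝ)) := by
    rw [notMem_tsupport_iff_eventuallyEq] at hz
    exact hz
  simp only [dd, h.fderiv_eq, fderiv_fun_const]
  rfl

theorem tsupport_dd_subset (f : P → ℝ) (v : P) : tsupport (dd v f) ⊆ tsupport f := by
  apply closure_minimal _ (isClosed_tsupport f)
  intro z hz
  by_contra h
  exact hz (dd_zero_of_notMem_tsupport h v)

theorem dd_hasCompactSupport {f : P → ℝ} (hf : HasCompactSupport f) (v : P) :
    HasCompactSupport (dd v f) :=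
  IsCompact.of_isClosed_subset hf (isClosed_tsupport _) (tsupport_dd_subset f v)

theorem IsTest.dd {U : Set P} {φ : P → ℝ} (h : IsTest U φ) (v : P) : IsTest U (dd v φ) :=
  ⟨dd_contDiff h.smooth (by simp) v, dd_hasCompactSupport h.cpt v,
    (tsupport_dd_subset φ v).trans h.sub⟩

theorem IsTest.add {U : Set P} {φ ψ : P → ℝ} (h : IsTest U φ) (h' : IsTest U ψ) :
    IsTest U (fun z => φ z + ψ z) :=
  ⟨h.smooth.add h'.smooth, h.cpt.add h'.cpt,
    (tsupport_add φ ψ).trans (union_subset h.sub h'.sub)⟩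

theorem IsTest.const_mul {U : Set P} {φ : P → ℝ} (h : IsTest U φ) (c : ℝ) :
    IsTest U (fun z => c * φ z) :=
  ⟨contDiff_const.mul h.smooth, h.cpt.mul_left,
    (tsupport_mul_subset_right).trans h.sub⟩

theorem IsTest.comb {U : Set P} {φ ψ : P → ℝ} (h : IsTest U φ) (h' : IsTest U ψ) (a b : ℝ) :
    IsTest U (fun z => a * φ z + b * ψ z) := (h.const_mul a).add (h'.const_mul b)

/-- a function which is `C^n` on an open set `D` and vanishes outside a compact subset of it -/
theorem contDiff_of_vanish {D K : Set P} (hD : IsOpen D) (hK : IsCompact K) (hKD : K ⊆ D)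
    {n : WithTop ℕ∞} {f : P → ℝ} (hf : ContDiffOn ℝ n f D) (h0 : ∀ z, z ∉ K → f z = 0) :
    ContDiff ℝ n f ∧ HasCompactSupport f ∧ tsupport f ⊆ K := by
  refine ⟨?_, HasCompactSupport.intro hK (fun z hz => h0 z hz), ?_⟩
  · rw [contDiff_iff_contDiffAt]
    intro z
    by_cases hz : z ∈ K
    · exact hf.contDiffAt (hD.mem_nhds (hKD hz))
    · have : f =ᶠ[𝓝 z] (fun _ => (0 : ℝ)) := by
        filter_upwards [hK.isClosed.isOpen_compl.mem_nhds hz] with w hw using h0 w hw
      exact contDiffAt_const.congr_of_eventuallyEq this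
  · apply closure_minimal _ hK.isClosed
    intro z hz
    by_contra h
    exact hz (h0 z h)

/-- continuous on an open set and vanishing outside a compact subset: integrable -/
theorem integrable_of_vanish {D K : Set P} (hD : IsOpen D) (hK : IsCompact K) (hKD : K ⊆ D)
    {f : P → ℝ} (hf : ContinuousOn f D) (h0 : ∀ z, z ∉ K → f z = 0) : Integrable f := by
  have hc : Continuous f := by
    rw [continuous_iff_continuousAt]
    intro z
    by_cases hz : z ∈ K
    · exact hf.continuousAt (hD.mem_nhds (hKD hz))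
    · have : f =ᶠ[𝓝 z] (fun _ => (0 : ℝ)) := by
        filter_upwards [hK.isClosed.isOpen_compl.mem_nhds hz] with w hw using h0 w hw
      exact continuousAt_const.congr this.symm
  exact hc.integrable_of_hasCompactSupport (HasCompactSupport.intro hK (fun z hz => h0 z hz))

/-- integration by parts against a `C^1` compactly supported function -/
theorem ibp {D : Set P} (hD : IsOpen D) {ψ G : P → ℝ} (hψ : IsTest1 D ψ)
    (hG : ContDiffOn ℝ 1 G D) (v : P) :
    ∫ z, ψ z * dd v G z = - ∫ z, dd v ψ z * G z := by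
  have hK : IsCompact (tsupport ψ) := hψ.cpt
  have hψc : Continuous ψ := hψ.smooth.continuous
  have hψ' : Continuous (dd v ψ) := (dd_contDiff (m := 0) hψ.smooth (by norm_num) v).continuous
  have hGc : ContinuousOn G D := hG.continuousOn
  have hG' : ContinuousOn (dd v G) D := (dd_contDiffOn (m := 0) hD hG (by norm_num) v).continuousOn
  apply integral_mul_fderiv_eq_neg_fderiv_mul_of_integrable
  · apply integrable_of_vanish hD hK hψ.sub (f := fun x => fderiv ℝ ψ x v * G x)
    · exact (hψ'.continuousOn.mul hGc)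
    · intro z hz
      have := dd_zero_of_notMem_tsupport hz v
      simp only [dd] at this
      simp [this]
  · apply integrable_of_vanish hD hK hψ.sub (f := fun x => ψ x * fderiv ℝ G x v)
    · exact (hψc.continuousOn.mul hG')
    · intro z hz
      simp [image_eq_zero_of_notMem_tsupport hz]
  · apply integrable_of_vanish hD hK hψ.sub (f := fun x => ψ x * G x)
    · exact (hψc.continuousOn.mul hGc)
    · intro z hz
      simp [image_eq_zero_of_notMem_tsupport hz]
  · intro x _
    exact (hψ.smooth.differentiable (by norm_num)) x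
  · intro x hx
    exact (hG.contDiffAt (hD.mem_nhds (hψ.sub hx))).differentiableAt (by norm_num)

/-- weak form of the Helmholtz equation -/
theorem weak_form {D : Set P} (hD : IsOpen D) {ψ g : P → ℝ} (hψ : IsTest1 D ψ)
    (hg : ContDiffOn ℝ 2 g D) {μ : ℝ} (heq : ∀ z ∈ D, lap g z = -μ * g z) :
    ∫ z, (dd ex ψ z * dd ex g z + dd ey ψ z * dd ey g z) = μ * ∫ z, ψ z * g z := by
  have hK : IsCompact (tsupport ψ) := hψ.cpt
  have hψc : Continuous ψ := hψ.smooth.continuous
  have hgc : ContinuousOn g D := hg.continuousOn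
  have hgv : ∀ v : P, ContDiffOn ℝ 1 (dd v g) D := fun v => dd_contDiffOn hD hg (by norm_num) v
  have hgv2 : ∀ v : P, ContinuousOn (dd v (dd v g)) D := fun v =>
    (dd_contDiffOn (m := 0) hD (hgv v) (by norm_num) v).continuousOn
  have hψ' : ∀ v : P, Continuous (dd v ψ) := fun v =>
    (dd_contDiff (m := 0) hψ.smooth (by norm_num) v).continuous
  have i1 : ∀ v : P, Integrable (fun z => dd v ψ z * dd v g z) := by
    intro v
    apply integrable_of_vanish hD hK hψ.sub
    · exact (hψ' v).continuousOn.mul (hgv v).continuousOn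
    · intro z hz
      simp [dd_zero_of_notMem_tsupport hz v]
  have i2 : ∀ v : P, Integrable (fun z => ψ z * dd v (dd v g) z) := by
    intro v
    apply integrable_of_vanish hD hK hψ.sub
    · exact (hψc).continuousOn.mul (hgv2 v)
    · intro z hz
      simp [image_eq_zero_of_notMem_tsupport hz]
  rw [integral_add (i1 ex) (i1 ey)]
  have e1 : ∀ v : P, ∫ z, dd v ψ z * dd v g z = - ∫ z, ψ z * dd v (dd v g) z := by
    intro v
    rw [ibp hD hψ (hgv v) v]; ring
  rw [e1 ex, e1 ey, ← neg_add, ← integral_add (i2 ex) (i2 ey), ← integral_neg,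
    ← integral_const_mul]
  congr 1
  ext z
  by_cases hz : z ∈ D
  · have := heq z hz
    simp only [lap] at this
    rw [← mul_add, this]; ring
  · have : z ∉ tsupport ψ := fun h => hz (hψ.sub h)
    simp [image_eq_zero_of_notMem_tsupport this]

end Pool.Agent.Lib.MP_dac83a
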