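import Mathlib

set_option autoImplicit false

open MeasureTheory Set Filter Topology
open scoped ContDiff

namespace Pool.Agent.Lib.MP_dac83a

/-- Cauchy-Schwarz -/
theorem cauchy_schwarz {α : Type} [MeasurableSpace α] {ν : Measure α} {f g : α → ℝ}
    (hf : MemLp f 2 ν) (hg : MemLp g 2 ν) :
    ∫ a, |f a| * |g a| ∂ν ≤ √(∫ a, f a ^ 2 ∂ν) * √(∫ a, g a ^ 2 ∂ν) := by
  have h := integral_mul_norm_le_Lp_mul_Lq (μ := ν) (f := f) (g := g) (p := 2) (q := 2)
    Real.HolderConjugate.two_two (by simpa using hf) (by simpa using hg)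
  simpa [Real.sqrt_eq_rpow] using h

theorem integrable_abs_mul {α : Type} [MeasurableSpace α] {ν : Measure α} {f g : α → ℝ}
    (hf : MemLp f 2 ν) (hg : MemLp g 2 ν) : Integrable (fun a => |f a| * |g a|) ν := by
  have := hf.abs.integrable_mul (p := 2) (q := 2) hg.abs
  exact this

theorem integrable_mul2 {α : Type} [MeasurableSpace α] {ν : Measure α} {f g : α → ℝ}
    (hf : MemLp f 2 ν) (hg : MemLp g 2 ν) : Integrable (fun a => f a * g a) ν := by
  have := hf.integrable_mul (p := 2) (q := 2) hg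
  exact this

/-- `L²` convergence -/
structure Conv2 {α : Type} [MeasurableSpace α] (ν : Measure α) (f : ℕ → α → ℝ) (g : α → ℝ) :
    Prop where
  memn : ∀ n, MemLp (f n) 2 ν
  mem : MemLp g 2 ν
  lim : Tendsto (fun n => ∫ a, (f n a - g a) ^ 2 ∂ν) atTop (𝓝 0)

variable {α : Type} [MeasurableSpace α] {ν : Measure α}

theorem tendsto_mul_zero {h k : ℕ → α → ℝ} (hh : ∀ n, MemLp (h n) 2 ν) (hk : ∀ n, MemLp (k n) 2 ν)
    (h0 : Tendsto (fun n => ∫ a, (h n a) ^ 2 ∂ν) atTop (𝓝 0)) {C : ℝ}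
    (hC : ∀ n, ∫ a, (k n a) ^ 2 ∂ν ≤ C) :
    Tendsto (fun n => ∫ a, |h n a| * |k n a| ∂ν) atTop (𝓝 0) := by
  have h1 : Tendsto (fun n => √(∫ a, (h n a) ^ 2 ∂ν) * √C) atTop (𝓝 0) := by
    have := ((Real.continuous_sqrt.tendsto 0).comp h0).mul_const √C
    simpa using this
  refine squeeze_zero (fun n => integral_nonneg fun a => by positivity) (fun n => ?_) h1
  refine (cauchy_schwarz (hh n) (hk n)).trans ?_
  gcongr
  exact hC n

theorem Conv2.sub_mem {f : ℕ → α → ℝ} {g : α → ℝ} (h : Conv2 ν f g) (n : ℕ) :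
    MemLp (fun a => f n a - g a) 2 ν := (h.memn n).sub h.mem

theorem Conv2.bdd {f : ℕ → α → ℝ} {g : α → ℝ} (h : Conv2 ν f g) :
    ∃ C, ∀ n, ∫ a, (f n a) ^ 2 ∂ν ≤ C := by
  obtain ⟨C, hC⟩ := h.lim.bddAbove_range
  refine ⟨2 * C + 2 * ∫ a, g a ^ 2 ∂ν, fun n => ?_⟩
  have hCn : ∫ a, (f n a - g a) ^ 2 ∂ν ≤ C := hC ⟨n, rfl⟩
  have : ∫ a, (f n a) ^ 2 ∂ν ≤ ∫ a, (2 * (f n a - g a) ^ 2 + 2 * g a ^ 2) ∂ν := by
    apply integral_mono (h.memn n).integrable_sq
    · exact ((h.sub_mem n).integrable_sq.const_mul 2).add (h.mem.integrable_sq.const_mul 2)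
    · intro a
      simp only
      nlinarith [sq_nonneg (f n a - 2 * g a)]
  rw [integral_add ((h.sub_mem n).integrable_sq.const_mul 2) (h.mem.integrable_sq.const_mul 2),
    integral_const_mul, integral_const_mul] at this
  linarith

theorem Conv2.integral_mul {f f' : ℕ → α → ℝ} {g g' : α → ℝ} (h : Conv2 ν f g)
    (h' : Conv2 ν f' g') :
    Tendsto (fun n => ∫ a, f n a * f' n a ∂ν) atTop (𝓝 (∫ a, g a * g' a ∂ν)) := by
  obtain ⟨C', hC'⟩ := h'.bdd
  have t1 : Tendsto (fun n => ∫ a, |f n a - g a| * |f' n a| ∂ν) atTop (𝓝 0) :=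
    tendsto_mul_zero h.sub_mem h'.memn h.lim hC'
  have t2 : Tendsto (fun n => ∫ a, |f' n a - g' a| * |g a| ∂ν) atTop (𝓝 0) :=
    tendsto_mul_zero (k := fun _ => g) h'.sub_mem (fun _ => h.mem) h'.lim
      (C := ∫ a, g a ^ 2 ∂ν) (fun _ => le_rfl)
  rw [tendsto_iff_norm_sub_tendsto_zero]
  have t3 := t1.add t2
  rw [add_zero] at t3
  refine squeeze_zero (fun n => norm_nonneg _) (fun n => ?_) t3
  have i1 := integrable_abs_mul (h.sub_mem n) (h'.memn n)
  have i2 := integrable_abs_mul (h'.sub_mem n) h.mem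
  rw [← integral_sub (integrable_mul2 (h.memn n) (h'.memn n)) (integrable_mul2 h.mem h'.mem),
    ← integral_add i1 i2]
  refine (norm_integral_le_integral_norm _).trans ?_
  apply integral_mono ((integrable_mul2 (h.memn n) (h'.memn n)).sub
    (integrable_mul2 h.mem h'.mem)).norm (i1.add i2)
  intro a
  have : f n a * f' n a - g a * g' a = (f n a - g a) * f' n a + (f' n a - g' a) * g a := by ring
  change |f n a * f' n a - g a * g' a| ≤ |f n a - g a| * |f' n a| + |f' n a - g' a| * |g a|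
  rw [this, ← abs_mul, ← abs_mul]
  exact abs_add_le _ _

theorem Conv2.integral_sq {f : ℕ → α → ℝ} {g : α → ℝ} (h : Conv2 ν f g) :
    Tendsto (fun n => ∫ a, (f n a) ^ 2 ∂ν) atTop (𝓝 (∫ a, g a ^ 2 ∂ν)) := by
  simpa [sq] using h.integral_mul h

theorem Conv2.const {g : α → ℝ} (h : MemLp g 2 ν) : Conv2 ν (fun _ => g) g :=
  ⟨fun _ => h, h, by simp⟩

theorem Conv2.comb {f f' : ℕ → α → ℝ} {g g' : α → ℝ} (h : Conv2 ν f g)
    (h' : Conv2 ν f' g') (a b : ℝ) :
    Conv2 ν (fun n z => a * f n z + b * f' n z) (fun z => a * g z + b * g' z) := by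
  refine ⟨fun n => ((h.memn n).const_mul a).add ((h'.memn n).const_mul b),
    (h.mem.const_mul a).add (h'.mem.const_mul b), ?_⟩
  have t := (h.lim.const_mul (2 * a ^ 2)).add (h'.lim.const_mul (2 * b ^ 2))
  simp only [mul_zero, add_zero] at t
  refine squeeze_zero (fun n => integral_nonneg fun z => by positivity) (fun n => ?_) t
  rw [← integral_const_mul, ← integral_const_mul,
    ← integral_add ((h.sub_mem n).integrable_sq.const_mul _)
      ((h'.sub_mem n).integrable_sq.const_mul _)]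
  apply integral_mono
  · exact ((((h.memn n).const_mul a).add ((h'.memn n).const_mul b)).sub
      ((h.mem.const_mul a).add (h'.mem.const_mul b))).integrable_sq
  · exact ((h.sub_mem n).integrable_sq.const_mul _).add
      ((h'.sub_mem n).integrable_sq.const_mul _)
  · intro z
    simp only
    nlinarith [sq_nonneg (a * (f n z - g z) - b * (f' n z - g' z))]

theorem Conv2.subseq {f : ℕ → α → ℝ} {g : α → ℝ} (h : Conv2 ν f g) {k : ℕ → ℕ}
    (hk : StrictMono k) : Conv2 ν (fun n => f (k n)) g :=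
  ⟨fun _ => h.memn _, h.mem, h.lim.comp hk.tendsto_atTop⟩

theorem Conv2.mono {f : ℕ → α → ℝ} {g : α → ℝ} {s t : Set α} (hst : s ⊆ t)
    (h : Conv2 (ν.restrict t) f g) : Conv2 (ν.restrict s) f g := by
  have hle : ν.restrict s ≤ ν.restrict t := Measure.restrict_mono hst le_rfl
  refine ⟨fun n => (h.memn n).mono_measure hle, h.mem.mono_measure hle, ?_⟩
  refine squeeze_zero (fun n => integral_nonneg fun z => by positivity) (fun n => ?_) h.lim
  exact integral_mono_measure hle (Eventually.of_forall fun z => by positivity)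
    (h.sub_mem n).integrable_sq

theorem Conv2.congr {f f' : ℕ → α → ℝ} {g g' : α → ℝ} (h : Conv2 ν f g)
    (hf : ∀ n, f n =ᵐ[ν] f' n) (hg : g =ᵐ[ν] g') : Conv2 ν f' g' := by
  refine ⟨fun n => (memLp_congr_ae (hf n)).1 (h.memn n), (memLp_congr_ae hg).1 h.mem, ?_⟩
  refine h.lim.congr fun n => ?_
  apply integral_congr_ae
  filter_upwards [hf n, hg] with a h1 h2
  rw [h1, h2]

theorem Conv2.exists_ae {f : ℕ → α → ℝ} {g : α → ℝ} (h : Conv2 ν f g) :
    ∃ k : ℕ → ℕ, StrictMono k ∧ ∀ᵐ a ∂ν, Tendsto (fun n => f (k n) a) atTop (𝓝 (g a)) := by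
  apply TendstoInMeasure.exists_seq_tendsto_ae
  apply tendstoInMeasure_of_tendsto_eLpNorm (p := 2) (by norm_num)
    (fun n => (h.memn n).aestronglyMeasurable) h.mem.aestronglyMeasurable
  have e : ∀ n, eLpNorm (f n - g) 2 ν = ENNReal.ofReal (√(∫ a, (f n a - g a) ^ 2 ∂ν)) := by
    intro n
    have := (h.sub_mem n).eLpNorm_eq_integral_rpow_norm (by norm_num) (by norm_num)
    rw [show (f n - g) = fun a => f n a - g a from rfl, this]
    congr 1
    simp [Real.sqrt_eq_rpow]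
  simp only [e]
  have := ((Real.continuous_sqrt.tendsto 0).comp h.lim)
  rw [Real.sqrt_zero] at this
  have h2 := (ENNReal.continuous_ofReal.tendsto 0).comp this
  rw [ENNReal.ofReal_zero] at h2
  exact h2

theorem Conv2.comp {β : Type} [MeasurableSpace β] {ρ : Measure β} {f : ℕ → α → ℝ} {g : α → ℝ}
    (h : Conv2 ν f g) {T : β → α} (hT : MeasurePreserving T ρ ν) (hTe : MeasurableEmbedding T) :
    Conv2 ρ (fun n b => f n (T b)) (fun b => g (T b)) := by
  refine ⟨fun n => (h.memn n).comp_measurePreserving hT, h.mem.comp_measurePreserving hT, ?_⟩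
  refine h.lim.congr fun n => ?_
  exact (hT.integral_comp hTe (fun a => (f n a - g a) ^ 2)).symm

end Pool.Agent.Lib.MP_dac83a
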