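import Pool.Agent.Lib.MP_dac83a.Basic
import Pool.Agent.Lib.MP_dac83a.Conv

set_option autoImplicit false

open MeasureTheory Set Filter Topology
open scoped ContDiff

namespace Pool.Agent.Lib.MP_dac83a

/-- negative part -/
noncomputable def nn (s : ℝ) : ℝ := max (-s) 0

theorem nn_nonneg (s : ℝ) : 0 ≤ nn s := le_max_right _ _

theorem nn_of_nonneg {s : ℝ} (h : 0 ≤ s) : nn s = 0 := by
  simp [nn, h]

theorem nn_of_nonpos {s : ℝ} (h : s ≤ 0) : nn s = -s := by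
  simp [nn, h]

theorem mul_nn (s : ℝ) : s * nn s = - nn s ^ 2 := by
  rcases le_total 0 s with h | h
  · simp [nn_of_nonneg h]
  · rw [nn_of_nonpos h]; ring

theorem nn_sq_le (s : ℝ) : nn s ^ 2 ≤ s ^ 2 := by
  rcases le_total 0 s with h | h
  · simp [nn_of_nonneg h]; positivity
  · rw [nn_of_nonpos h]; nlinarith

theorem nn_le_abs (s : ℝ) : nn s ≤ |s| := by
  simp only [nn]
  exact max_le (neg_le_abs s) (abs_nonneg s)

theorem continuous_nn : Continuous nn := by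
  unfold nn; fun_prop

theorem hasDerivAt_nn_pow (k : ℕ) (s : ℝ) :
    HasDerivAt (fun s => nn s ^ (k + 2)) (-((k : ℝ) + 2) * nn s ^ (k + 1)) s := by
  rcases lt_trichotomy s 0 with h | h | h
  · have h1 : (fun s => nn s ^ (k + 2)) =ᶠ[𝓝 s] fun s => (-s) ^ (k + 2) := by
      filter_upwards [Iio_mem_nhds h] with t ht
      rw [nn_of_nonpos (le_of_lt ht)]
    have h2 : HasDerivAt (fun s : ℝ => (-s) ^ (k + 2)) (((k + 2 : ℕ) : ℝ) * (-s) ^ (k + 2 - 1) * (-1)) s :=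
      (hasDerivAt_neg s).pow (k + 2)
    rw [nn_of_nonpos h.le]
    refine (h2.congr_of_eventuallyEq h1).congr_deriv ?_
    rw [show k + 2 - 1 = k + 1 by omega]
    push_cast
    ring
  · subst h
    rw [nn_of_nonneg le_rfl]
    have : HasDerivAt (fun s => nn s ^ (k + 2)) 0 0 := by
      rw [hasDerivAt_iff_isLittleO_nhds_zero]
      simp only [zero_add, nn_of_nonneg le_rfl, ne_eq, Nat.add_eq_zero_iff, OfNat.ofNat_ne_zero,
        and_false, not_false_eq_true, zero_pow, sub_zero, smul_zero]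
      have h1 : (fun h : ℝ => nn h ^ (k + 2)) =O[𝓝 0] fun h => h ^ (k + 2) := by
        refine Asymptotics.IsBigO.of_bound 1 (Eventually.of_forall fun h => ?_)
        rw [one_mul, norm_pow, norm_pow, Real.norm_eq_abs, Real.norm_eq_abs, abs_of_nonneg (nn_nonneg h)]
        exact pow_le_pow_left₀ (nn_nonneg h) (nn_le_abs h) _
      refine h1.trans_isLittleO ?_
      have := Asymptotics.isLittleO_pow_id (𝕜 := ℝ) (n := k + 2) (by omega)
      exact this
    refine this.congr_deriv ?_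
    simp
  · have h1 : (fun s => nn s ^ (k + 2)) =ᶠ[𝓝 s] fun _ => 0 := by
      filter_upwards [Ioi_mem_nhds h] with t ht
      rw [nn_of_nonneg (le_of_lt ht)]
      simp
    rw [nn_of_nonneg h.le]
    refine ((hasDerivAt_const s (0 : ℝ)).congr_of_eventuallyEq h1).congr_deriv ?_
    simp

theorem contDiff_nn_pow (k : ℕ) : ContDiff ℝ 1 (fun s => nn s ^ (k + 2)) := by
  rw [contDiff_one_iff_deriv]
  refine ⟨fun s => (hasDerivAt_nn_pow k s).differentiableAt, ?_⟩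
  have : deriv (fun s => nn s ^ (k + 2)) = fun s => -((k : ℝ) + 2) * nn s ^ (k + 1) := by
    ext s; exact (hasDerivAt_nn_pow k s).deriv
  rw [this]
  exact continuous_const.mul (continuous_nn.pow _)

theorem hasDerivAt_inv_pow (k : ℕ) {x : ℝ} (hx : x ≠ 0) :
    HasDerivAt (fun x : ℝ => (x ^ k)⁻¹) (-(k : ℝ) * (x ^ (k + 1))⁻¹) x := by
  have h := hasDerivAt_zpow (-(k : ℤ)) x (Or.inl hx)
  have e : (fun x : ℝ => (x ^ k)⁻¹) = fun x => x ^ (-(k : ℤ)) := by
    ext y; rw [zpow_neg, zpow_natCast]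
  rw [e]
  refine h.congr_deriv ?_
  push_cast
  congr 1
  rw [show (-(k : ℤ) - 1) = -((k + 1 : ℕ) : ℤ) by push_cast; ring, zpow_neg, zpow_natCast]

/-- the comparison function -/
noncomputable def Mf (a b k : ℕ) (s t : ℝ) : ℝ :=
  nn s ^ (a + 2) * nn t ^ (b + 2) * ((1 + s ^ 2 + t ^ 2) ^ k)⁻¹

noncomputable def Ma (a b k : ℕ) (s t : ℝ) : ℝ :=
  -((a : ℝ) + 2) * (nn s ^ (a + 1) * nn t ^ (b + 2) * ((1 + s ^ 2 + t ^ 2) ^ k)⁻¹)
  + 2 * k * (nn s ^ (a + 3) * nn t ^ (b + 2) * ((1 + s ^ 2 + t ^ 2) ^ (k + 1))⁻¹)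

noncomputable def Mb (a b k : ℕ) (s t : ℝ) : ℝ :=
  -((b : ℝ) + 2) * (nn s ^ (a + 2) * nn t ^ (b + 1) * ((1 + s ^ 2 + t ^ 2) ^ k)⁻¹)
  + 2 * k * (nn s ^ (a + 2) * nn t ^ (b + 3) * ((1 + s ^ 2 + t ^ 2) ^ (k + 1))⁻¹)

theorem Mf_eq_zero (a b k : ℕ) {s t : ℝ} (h : ¬ (s < 0 ∧ t < 0)) : Mf a b k s t = 0 := by
  simp only [Mf]
  by_cases hs : s < 0
  · have : 0 ≤ t := by
      by_contra ht; exact h ⟨hs, not_le.1 ht⟩
    rw [nn_of_nonneg this]; simp
  · rw [nn_of_nonneg (not_lt.1 hs)]; simp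

theorem Mf_contDiff (a b k : ℕ) : ContDiff ℝ 1 (fun p : ℝ × ℝ => Mf a b k p.1 p.2) := by
  unfold Mf
  have h1 : ContDiff ℝ 1 (fun p : ℝ × ℝ => nn p.1 ^ (a + 2)) :=
    (contDiff_nn_pow a).comp contDiff_fst
  have h2 : ContDiff ℝ 1 (fun p : ℝ × ℝ => nn p.2 ^ (b + 2)) :=
    (contDiff_nn_pow b).comp contDiff_snd
  have h3 : ContDiff ℝ 1 (fun p : ℝ × ℝ => ((1 + p.1 ^ 2 + p.2 ^ 2) ^ k)⁻¹) := by
    apply ContDiff.inv
    · exact ((contDiff_const.add (contDiff_fst.pow 2)).add (contDiff_snd.pow 2)).pow k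
    · intro p; positivity
  exact (h1.mul h2).mul h3

theorem bound_aux {s t : ℝ} (i j k : ℕ) (hk : i + j = 2 * k) :
    nn s ^ i * nn t ^ j * ((1 + s ^ 2 + t ^ 2) ^ k)⁻¹ ≤ 1 := by
  have hX : 0 < 1 + s ^ 2 + t ^ 2 := by positivity
  set Y := √(1 + s ^ 2 + t ^ 2) with hY
  have hY2 : Y ^ 2 = 1 + s ^ 2 + t ^ 2 := Real.sq_sqrt hX.le
  have hs : nn s ≤ Y := by
    rw [hY]; apply Real.le_sqrt_of_sq_le
    have := nn_sq_le s; nlinarith [sq_nonneg t]
  have ht : nn t ≤ Y := by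
    rw [hY]; apply Real.le_sqrt_of_sq_le
    have := nn_sq_le t; nlinarith [sq_nonneg s]
  have hY0 : 0 ≤ Y := Real.sqrt_nonneg _
  rw [mul_inv_le_iff₀ (by positivity), one_mul, ← hY2, ← pow_mul, ← hk, pow_add]
  exact mul_le_mul (pow_le_pow_left₀ (nn_nonneg s) hs i) (pow_le_pow_left₀ (nn_nonneg t) ht j)
    (pow_nonneg (nn_nonneg t) _) (by positivity)

theorem bound_nonneg (s t : ℝ) (i j k : ℕ) :
    0 ≤ nn s ^ i * nn t ^ j * ((1 + s ^ 2 + t ^ 2) ^ k)⁻¹ := by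
  have := nn_nonneg s
  have := nn_nonneg t
  positivity

theorem Ma_bound {a b k : ℕ} (h : a + b + 3 = 2 * k) (s t : ℝ) :
    |Ma a b k s t| ≤ a + 2 + 2 * k := by
  have h1 := bound_aux (s := s) (t := t) (a + 1) (b + 2) k (by omega)
  have h2 := bound_aux (s := s) (t := t) (a + 3) (b + 2) (k + 1) (by omega)
  have h1' := bound_nonneg s t (a + 1) (b + 2) k
  have h2' := bound_nonneg s t (a + 3) (b + 2) (k + 1)
  simp only [Ma]
  have ha : (0 : ℝ) ≤ a := by positivity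
  have hk : (0 : ℝ) ≤ k := by positivity
  rw [abs_le]
  constructor <;> nlinarith

theorem Mb_bound {a b k : ℕ} (h : a + b + 3 = 2 * k) (s t : ℝ) :
    |Mb a b k s t| ≤ b + 2 + 2 * k := by
  have h1 := bound_aux (s := s) (t := t) (a + 2) (b + 1) k (by omega)
  have h2 := bound_aux (s := s) (t := t) (a + 2) (b + 3) (k + 1) (by omega)
  have h1' := bound_nonneg s t (a + 2) (b + 1) k
  have h2' := bound_nonneg s t (a + 2) (b + 3) (k + 1)
  simp only [Mb]
  have ha : (0 : ℝ) ≤ b := by positivity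
  have hk : (0 : ℝ) ≤ k := by positivity
  rw [abs_le]
  constructor <;> nlinarith

theorem Mf_nonneg (a b k : ℕ) (s t : ℝ) : 0 ≤ Mf a b k s t := bound_nonneg s t _ _ _

theorem Mf_le {a b k : ℕ} (h : a + b + 3 = 2 * k) (s t : ℝ) : Mf a b k s t ≤ |s| := by
  have h1 := bound_aux (s := s) (t := t) (a + 1) (b + 2) k (by omega)
  have h1' := bound_nonneg s t (a + 1) (b + 2) k
  have e : Mf a b k s t = nn s * (nn s ^ (a + 1) * nn t ^ (b + 2) * ((1 + s ^ 2 + t ^ 2) ^ k)⁻¹) := by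
    simp only [Mf]; ring
  rw [e]
  calc _ ≤ nn s * 1 := by gcongr; exact nn_nonneg s
    _ ≤ |s| := by rw [mul_one]; exact nn_le_abs s

theorem dd_Mf {a b k : ℕ} {g h : P → ℝ} {z : P} (hg : DifferentiableAt ℝ g z)
    (hh : DifferentiableAt ℝ h z) (v : P) :
    dd v (fun z => Mf a b k (g z) (h z)) z
      = Ma a b k (g z) (h z) * dd v g z + Mb a b k (g z) (h z) * dd v h z := by
  have hX : (1 + g z ^ 2 + h z ^ 2) ≠ 0 := by positivity
  have h1 : HasFDerivAt (fun z => nn (g z) ^ (a + 2))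
      ((-((a : ℝ) + 2) * nn (g z) ^ (a + 1)) • fderiv ℝ g z) z :=
    (hasDerivAt_nn_pow a (g z)).comp_hasFDerivAt z hg.hasFDerivAt
  have h2 : HasFDerivAt (fun z => nn (h z) ^ (b + 2))
      ((-((b : ℝ) + 2) * nn (h z) ^ (b + 1)) • fderiv ℝ h z) z :=
    (hasDerivAt_nn_pow b (h z)).comp_hasFDerivAt z hh.hasFDerivAt
  have h3 : HasFDerivAt (fun z => 1 + g z ^ 2 + h z ^ 2)
      ((2 * g z) • fderiv ℝ g z + (2 * h z) • fderiv ℝ h z) z := by
    have e1 := (hg.hasFDerivAt.pow 2)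
    have e2 := (hh.hasFDerivAt.pow 2)
    have e3 := (e1.const_add 1).add e2
    refine e3.congr_fderiv ?_
    simp [two_mul]
  have h4 : HasFDerivAt (fun z => ((1 + g z ^ 2 + h z ^ 2) ^ k)⁻¹)
      ((-(k : ℝ) * ((1 + g z ^ 2 + h z ^ 2) ^ (k + 1))⁻¹) •
        ((2 * g z) • fderiv ℝ g z + (2 * h z) • fderiv ℝ h z)) z :=
    HasDerivAt.comp_hasFDerivAt (h₂ := fun x : ℝ => (x ^ k)⁻¹) z (hasDerivAt_inv_pow k hX) h3
  have h5 := (h1.mul h2).mul h4
  have e : fderiv ℝ (fun z => Mf a b k (g z) (h z)) z = _ := HasFDerivAt.fderiv h5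
  simp only [dd]
  rw [e]
  simp only [Pi.mul_apply, Ma, Mb, _root_.add_apply, _root_.smul_apply, smul_eq_mul]
  have m1 : g z * nn (g z) ^ (a + 2) = - nn (g z) ^ (a + 3) := by
    have := mul_nn (g z)
    calc g z * nn (g z) ^ (a + 2) = (g z * nn (g z)) * nn (g z) ^ (a + 1) := by ring
      _ = _ := by rw [this]; ring
  have m2 : h z * nn (h z) ^ (b + 2) = - nn (h z) ^ (b + 3) := by
    have := mul_nn (h z)
    calc h z * nn (h z) ^ (b + 2) = (h z * nn (h z)) * nn (h z) ^ (b + 1) := by ring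
      _ = _ := by rw [this]; ring
  linear_combination
    (-2 * k * nn (h z) ^ (b + 2) * ((1 + g z ^ 2 + h z ^ 2) ^ (k + 1))⁻¹ * fderiv ℝ g z v) * m1
    + (-2 * k * nn (g z) ^ (a + 2) * ((1 + g z ^ 2 + h z ^ 2) ^ (k + 1))⁻¹ * fderiv ℝ h z v) * m2

/-- key algebraic inequality on the diagonal -/
theorem diag_ineq (s : ℝ) :
    (Ma 0 1 2 s s + Mb 0 1 2 s s) ^ 2 ≤ - 3 * (Ma 2 3 4 s s + Mb 2 3 4 s s) := by
  rcases le_total 0 s with h | h
  · simp [Ma, Mb, nn_of_nonneg h]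
  · simp only [Ma, Mb, nn_of_nonpos h]
    set p := -s with hp
    have hs : s = -p := by ring
    have hp0 : 0 ≤ p := by linarith
    rw [hs]
    have hX : 0 < 1 + (-p) ^ 2 + (-p) ^ 2 := by positivity
    have e1 : (-((0 : ℕ) + 2 : ℝ) * (p ^ (0 + 1) * p ^ (1 + 2) * ((1 + (-p) ^ 2 + (-p) ^ 2) ^ 2)⁻¹) +
          2 * (2 : ℕ) * (p ^ (0 + 3) * p ^ (1 + 2) * ((1 + (-p) ^ 2 + (-p) ^ 2) ^ (2 + 1))⁻¹) +
        (-((1 : ℕ) + 2 : ℝ) * (p ^ (0 + 2) * p ^ (1 + 1) * ((1 + (-p) ^ 2 + (-p) ^ 2) ^ 2)⁻¹) +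
          2 * (2 : ℕ) * (p ^ (0 + 2) * p ^ (1 + 3) * ((1 + (-p) ^ 2 + (-p) ^ 2) ^ (2 + 1))⁻¹)))
        = - (p ^ 4 * (5 + 2 * p ^ 2)) / (1 + 2 * p ^ 2) ^ 3 := by
      have : (1 + (-p) ^ 2 + (-p) ^ 2) = 1 + 2 * p ^ 2 := by ring
      rw [this]
      have h0 : (1 + 2 * p ^ 2) ≠ 0 := by positivity
      field_simp
      push_cast
      ring
    have e2 : (-((2 : ℕ) + 2 : ℝ) * (p ^ (2 + 1) * p ^ (3 + 2) * ((1 + (-p) ^ 2 + (-p) ^ 2) ^ 4)⁻¹) +
          2 * (4 : ℕ) * (p ^ (2 + 3) * p ^ (3 + 2) * ((1 + (-p) ^ 2 + (-p) ^ 2) ^ (4 + 1))⁻¹) +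
        (-((3 : ℕ) + 2 : ℝ) * (p ^ (2 + 2) * p ^ (3 + 1) * ((1 + (-p) ^ 2 + (-p) ^ 2) ^ 4)⁻¹) +
          2 * (4 : ℕ) * (p ^ (2 + 2) * p ^ (3 + 3) * ((1 + (-p) ^ 2 + (-p) ^ 2) ^ (4 + 1))⁻¹)))
        = - (p ^ 8 * (9 + 2 * p ^ 2)) / (1 + 2 * p ^ 2) ^ 5 := by
      have : (1 + (-p) ^ 2 + (-p) ^ 2) = 1 + 2 * p ^ 2 := by ring
      rw [this]
      have h0 : (1 + 2 * p ^ 2) ≠ 0 := by positivity
      field_simp
      push_cast
      ring
    rw [e1, e2]
    have h0 : 0 < (1 + 2 * p ^ 2) := by positivity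
    rw [div_pow, ← sub_nonneg]
    have : -3 * (-(p ^ 8 * (9 + 2 * p ^ 2)) / (1 + 2 * p ^ 2) ^ 5)
        - (-(p ^ 4 * (5 + 2 * p ^ 2))) ^ 2 / ((1 + 2 * p ^ 2) ^ 3) ^ 2
        = p ^ 8 * (2 + 40 * p ^ 2 + 8 * p ^ 4) / (1 + 2 * p ^ 2) ^ 6 := by
      field_simp
      ring
    rw [this]
    positivity

theorem diag_eq (s : ℝ) : s * Mf 2 3 4 s s = - (Mf 0 1 2 s s) ^ 2 := by
  rcases le_total 0 s with h | h
  · simp [Mf, nn_of_nonneg h]
  · simp only [Mf, nn_of_nonpos h]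
    have h0 : (1 + s ^ 2 + s ^ 2) ≠ 0 := by positivity
    field_simp
    ring

theorem Mf_pos {a b k : ℕ} {s : ℝ} (h : s < 0) : 0 < Mf a b k s s := by
  have hpos : 0 < -s := by linarith
  simp only [Mf, nn_of_nonpos h.le]
  positivity

theorem cMab_aux (a b k : ℕ) : Continuous (fun p : ℝ × ℝ => Ma a b k p.1 p.2) ∧
      Continuous (fun p : ℝ × ℝ => Mb a b k p.1 p.2) := by
  have c1 : Continuous (fun p : ℝ × ℝ => nn p.1) := continuous_nn.comp continuous_fst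
  have c2 : Continuous (fun p : ℝ × ℝ => nn p.2) := continuous_nn.comp continuous_snd
  have c3 : ∀ k : ℕ, Continuous (fun p : ℝ × ℝ => ((1 + p.1 ^ 2 + p.2 ^ 2) ^ k)⁻¹) := by
    intro k
    apply Continuous.inv₀
    · fun_prop
    · intro p; positivity
  have c3k := c3 k
  have c3k' := c3 (k + 1)
  constructor
  · unfold Ma; fun_prop
  · unfold Mb; fun_prop

attribute [local irreducible] Mf Ma Mb nn

theorem integral_eq_restrict {D : Set P} {f : P → ℝ} (h : ∀ z, z ∉ D → f z = 0) :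
    ∫ z, f z = ∫ z in D, f z :=
  (setIntegral_eq_integral_of_forall_compl_eq_zero (fun z hz => h z hz)).symm

theorem max_principle {D : Set P} (hD : IsOpen D) {μ Λ : ℝ} (hΛ : 6 * μ < Λ)
    (thin : ∀ ψ, IsTest1 D ψ → Λ * ∫ z, ψ z ^ 2 ≤ ∫ z, (dd ex ψ z ^ 2 + dd ey ψ z ^ 2))
    {g : P → ℝ} (hg : ContDiffOn ℝ 2 g D) (heq : ∀ z ∈ D, lap g z = -μ * g z)
    {gn : ℕ → P → ℝ} (hgn : ∀ n, ContDiffOn ℝ 1 (gn n) D)
    (h0 : Conv2 (volume.restrict D) gn g)
    (hx : Conv2 (volume.restrict D) (fun n => dd ex (gn n)) (dd ex g))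
    (hy : Conv2 (volume.restrict D) (fun n => dd ey (gn n)) (dd ey g))
    (hK : ∀ n, ∃ K, IsCompact K ∧ K ⊆ D ∧ ∀ z ∈ D, g z < 0 → gn n z < 0 → z ∈ K) :
    ∀ z ∈ D, 0 ≤ g z := by
  -- pass to a subsequence converging almost everywhere
  obtain ⟨k, hk, hae⟩ := h0.exists_ae
  replace hgn : ∀ n, ContDiffOn ℝ 1 (gn (k n)) D := fun n => hgn _
  replace h0 := h0.subseq hk
  replace hx := hx.subseq hk
  replace hy := hy.subseq hk
  replace hK : ∀ n, ∃ K, IsCompact K ∧ K ⊆ D ∧ ∀ z ∈ D, g z < 0 → gn (k n) z < 0 → z ∈ K :=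
    fun n => hK _
  generalize hhn : (fun n => gn (k n)) = hn at *
  have hhn' : ∀ n, gn (k n) = hn n := fun n => by rw [← hhn]
  simp only [hhn'] at hgn h0 hx hy hK hae
  clear hhn hhn'
  set ν := (volume : Measure P).restrict D with hν
  have hDm : MeasurableSet D := hD.measurableSet
  have hg1 : ContDiffOn ℝ 1 g D := hg.of_le (by norm_num)
  have hgc : ContinuousOn g D := hg.continuousOn
  have hgd : ∀ z ∈ D, DifferentiableAt ℝ g z := fun z hz =>
    (hg.contDiffAt (hD.mem_nhds hz)).differentiableAt (by norm_num)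
  have hhd : ∀ n, ∀ z ∈ D, DifferentiableAt ℝ (hn n) z := fun n z hz =>
    ((hgn n).contDiffAt (hD.mem_nhds hz)).differentiableAt (by norm_num)
  have hgv : ∀ v : P, ContinuousOn (dd v g) D := fun v =>
    (dd_contDiffOn (m := 0) hD hg1 (by norm_num) v).continuousOn
  have hhv : ∀ n, ∀ v : P, ContinuousOn (dd v (hn n)) D := fun n v =>
    (dd_contDiffOn (m := 0) hD (hgn n) (by norm_num) v).continuousOn
  -- continuity of coefficient functions
  have cMf : ∀ a b k : ℕ, Continuous (fun p : ℝ × ℝ => Mf a b k p.1 p.2) := fun a b k =>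
    (Mf_contDiff a b k).continuous
  have cMab : ∀ a b k : ℕ, Continuous (fun p : ℝ × ℝ => Ma a b k p.1 p.2) ∧
      Continuous (fun p : ℝ × ℝ => Mb a b k p.1 p.2) := by
    intro a b k
    exact cMab_aux a b k
  set Ψ : ℕ → ℕ → ℕ → ℕ → P → ℝ := fun a b k n =>
    D.indicator (fun z => Mf a b k (g z) (hn n z)) with hΨ
  have Ψin : ∀ a b k n, ∀ z ∈ D, Ψ a b k n z = Mf a b k (g z) (hn n z) := by
    intro a b k n z hz; simp only [hΨ, indicator_of_mem hz]
  have Ψout : ∀ a b k n, ∀ z, z ∉ D → Ψ a b k n z = 0 := by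
    intro a b k n z hz; simp only [hΨ, indicator_of_notMem hz]
  have Ψtest : ∀ a b k n, IsTest1 D (Ψ a b k n) := by
    intro a b k n
    obtain ⟨K, hKc, hKD, hKz⟩ := hK n
    have hc : ContDiffOn ℝ 1 (Ψ a b k n) D := by
      have : ContDiffOn ℝ 1 (fun z => Mf a b k (g z) (hn n z)) D :=
        (Mf_contDiff a b k).comp_contDiffOn (hg1.prodMk (hgn n))
      exact this.congr (fun z hz => Ψin a b k n z hz)
    obtain ⟨h1, h2, h3⟩ := contDiff_of_vanish hD hKc hKD hc (by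
      intro z hz
      by_cases hzD : z ∈ D
      · rw [Ψin _ _ _ _ _ hzD]
        exact Mf_eq_zero a b k (fun h => hz (hKz z hzD h.1 h.2))
      · exact Ψout _ _ _ _ _ hzD)
    exact ⟨h1, h2, h3.trans hKD⟩
  have Ψdd : ∀ a b k n, ∀ v : P, ∀ z ∈ D, dd v (Ψ a b k n) z
      = Ma a b k (g z) (hn n z) * dd v g z + Mb a b k (g z) (hn n z) * dd v (hn n) z := by
    intro a b k n v z hz
    rw [dd_congr hD (Ψin a b k n) v z hz]
    exact dd_Mf (hgd z hz) (hhd n z hz) v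
  have Ψddout : ∀ a b k n, ∀ v : P, ∀ z, z ∉ D → dd v (Ψ a b k n) z = 0 := by
    intro a b k n v z hz
    exact dd_zero_of_notMem_tsupport (fun h => hz ((Ψtest a b k n).sub h)) v
  -- gradient square
  set G : P → ℝ := fun z => dd ex g z ^ 2 + dd ey g z ^ 2 with hG
  have Gi : Integrable G ν := hx.mem.integrable_sq.add hy.mem.integrable_sq
  have G0 : ∀ z, 0 ≤ G z := fun z => by simp only [hG]; positivity
  -- measurability helper
  have meas : ∀ f : ℝ × ℝ → ℝ, Continuous f → ∀ n, AEStronglyMeasurable (fun z => f (g z, hn n z)) ν := by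
    intro f hf n
    exact (hf.comp_continuousOn (hgc.prodMk (hgn n).continuousOn)).aestronglyMeasurable hDm
  have meas' : ∀ f : ℝ × ℝ → ℝ, Continuous f → AEStronglyMeasurable (fun z => f (g z, g z)) ν := by
    intro f hf
    exact (hf.comp_continuousOn (hgc.prodMk hgc)).aestronglyMeasurable hDm
  -- dominated convergence helper
  have dct : ∀ f : ℝ × ℝ → ℝ, Continuous f → ∀ C : ℝ, (∀ p, |f p| ≤ C) → ∀ W : P → ℝ,
      Integrable W ν →
      Tendsto (fun n => ∫ z, f (g z, hn n z) * W z ∂ν) atTop (𝓝 (∫ z, f (g z, g z) * W z ∂ν)) := by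
    intro f hf C hC W hW
    apply tendsto_integral_of_dominated_convergence (fun z => C * |W z|)
    · intro n
      exact (meas f hf n).mul hW.aestronglyMeasurable
    · exact hW.abs.const_mul C
    · intro n
      refine Eventually.of_forall fun z => ?_
      rw [Real.norm_eq_abs, abs_mul]
      gcongr
      exact hC _
    · filter_upwards [hae] with z hz
      exact ((hf.tendsto _).comp (tendsto_const_nhds.prodMk_nhds hz)).mul_const _
  have bmul : ∀ f : ℝ × ℝ → ℝ, Continuous f → ∀ C : ℝ, (∀ p, |f p| ≤ C) → ∀ W : P → ℝ,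
      Integrable W ν → ∀ n, Integrable (fun z => f (g z, hn n z) * W z) ν := by
    intro f hf C hC W hW n
    refine Integrable.mono' (hW.abs.const_mul C) ((meas f hf n).mul hW.aestronglyMeasurable)
      (Eventually.of_forall fun z => ?_)
    rw [Real.norm_eq_abs, abs_mul]
    gcongr
    exact hC _
  have bmul' : ∀ f : ℝ × ℝ → ℝ, Continuous f → ∀ C : ℝ, (∀ p, |f p| ≤ C) → ∀ W : P → ℝ,
      Integrable W ν → Integrable (fun z => f (g z, g z) * W z) ν := by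
    intro f hf C hC W hW
    refine Integrable.mono' (hW.abs.const_mul C) ((meas' f hf).mul hW.aestronglyMeasurable)
      (Eventually.of_forall fun z => ?_)
    rw [Real.norm_eq_abs, abs_mul]
    gcongr
    exact hC _
  have Ψsq : ∀ a b k n, ∀ v : P, Integrable (fun z => dd v (Ψ a b k n) z ^ 2) ν := by
    intro a b k n v
    have h := Ψtest a b k n
    have c : Continuous (dd v (Ψ a b k n)) :=
      (dd_contDiff (m := 0) h.smooth (by norm_num) v).continuous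
    have c2 : HasCompactSupport (fun z => dd v (Ψ a b k n) z ^ 2) := by
      have := dd_hasCompactSupport h.cpt v
      exact this.comp_left (g := fun x : ℝ => x ^ 2) (by norm_num)
    exact ((c.pow 2).integrable_of_hasCompactSupport c2).restrict
  -- bounded coefficient functions
  have A1c : Continuous (fun p : ℝ × ℝ => Ma 0 1 2 p.1 p.2 + Mb 0 1 2 p.1 p.2) :=
    (cMab 0 1 2).1.add (cMab 0 1 2).2
  have A1b : ∀ p : ℝ × ℝ, |Ma 0 1 2 p.1 p.2 + Mb 0 1 2 p.1 p.2| ≤ 13 := by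
    intro p
    have e1 := Ma_bound (a := 0) (b := 1) (k := 2) (by norm_num) p.1 p.2
    have e2 := Mb_bound (a := 0) (b := 1) (k := 2) (by norm_num) p.1 p.2
    have := abs_add_le (Ma 0 1 2 p.1 p.2) (Mb 0 1 2 p.1 p.2)
    norm_num at e1 e2
    linarith
  have A1sc : Continuous (fun p : ℝ × ℝ => (Ma 0 1 2 p.1 p.2 + Mb 0 1 2 p.1 p.2) ^ 2) :=
    A1c.pow 2
  have A1sb : ∀ p : ℝ × ℝ, |(Ma 0 1 2 p.1 p.2 + Mb 0 1 2 p.1 p.2) ^ 2| ≤ 169 := by
    intro p
    rw [abs_pow]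
    have := A1b p
    have h0 := abs_nonneg (Ma 0 1 2 p.1 p.2 + Mb 0 1 2 p.1 p.2)
    nlinarith
  have A2c : Continuous (fun p : ℝ × ℝ => Ma 2 3 4 p.1 p.2 + Mb 2 3 4 p.1 p.2) :=
    (cMab 2 3 4).1.add (cMab 2 3 4).2
  have A2b : ∀ p : ℝ × ℝ, |Ma 2 3 4 p.1 p.2 + Mb 2 3 4 p.1 p.2| ≤ 25 := by
    intro p
    have e1 := Ma_bound (a := 2) (b := 3) (k := 4) (by norm_num) p.1 p.2
    have e2 := Mb_bound (a := 2) (b := 3) (k := 4) (by norm_num) p.1 p.2
    have := abs_add_le (Ma 2 3 4 p.1 p.2) (Mb 2 3 4 p.1 p.2)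
    norm_num at e1 e2
    linarith
  have B1 : ∀ s t : ℝ, |Mb 0 1 2 s t| ≤ 7 := by
    intro s t
    have e2 := Mb_bound (a := 0) (b := 1) (k := 2) (by norm_num) s t
    norm_num at e2
    linarith
  have B2 : ∀ s t : ℝ, |Mb 2 3 4 s t| ≤ 13 := by
    intro s t
    have e2 := Mb_bound (a := 2) (b := 3) (k := 4) (by norm_num) s t
    norm_num at e2
    linarith
  -- step A
  have stepA : ∀ n, Λ * ∫ z, (Mf 0 1 2 (g z) (hn n z)) ^ 2 ∂ν ≤
      2 * ∫ z, (Ma 0 1 2 (g z) (hn n z) + Mb 0 1 2 (g z) (hn n z)) ^ 2 * G z ∂ν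
      + 98 * (∫ z, (dd ex (hn n) z - dd ex g z) ^ 2 ∂ν
        + ∫ z, (dd ey (hn n) z - dd ey g z) ^ 2 ∂ν) := by
    intro n
    have t := thin (Ψ 0 1 2 n) (Ψtest 0 1 2 n)
    have e1 : ∫ z, (Ψ 0 1 2 n z) ^ 2 = ∫ z, (Mf 0 1 2 (g z) (hn n z)) ^ 2 ∂ν := by
      rw [integral_eq_restrict (D := D)]
      · exact setIntegral_congr_fun hDm (fun z hz => by simp only [Ψin _ _ _ _ z hz])
      · intro z hz; simp [Ψout _ _ _ _ z hz]
    rw [e1] at t
    refine t.trans ?_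
    rw [integral_eq_restrict (D := D)]
    swap
    · intro z hz; simp [Ψddout _ _ _ _ _ z hz]
    rw [← integral_const_mul, mul_add, ← integral_const_mul, ← integral_const_mul,
      ← integral_add ((hx.sub_mem n).integrable_sq.const_mul _)
        ((hy.sub_mem n).integrable_sq.const_mul _), ← integral_add]
    rotate_left
    · exact (bmul _ A1sc 169 A1sb G Gi n).const_mul 2
    · exact ((hx.sub_mem n).integrable_sq.const_mul _).add
        ((hy.sub_mem n).integrable_sq.const_mul _)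
    apply setIntegral_mono_on
    · exact (Ψsq _ _ _ _ ex).add (Ψsq _ _ _ _ ey)
    · exact ((bmul _ A1sc 169 A1sb G Gi n).const_mul 2).add
        (((hx.sub_mem n).integrable_sq.const_mul _).add
        ((hy.sub_mem n).integrable_sq.const_mul _))
    · exact hDm
    · intro z hz
      rw [Ψdd _ _ _ _ _ z hz, Ψdd _ _ _ _ _ z hz]
      have hb := B1 (g z) (hn n z)
      have hb2 : (Mb 0 1 2 (g z) (hn n z)) ^ 2 ≤ 49 := by
        rw [← sq_abs]; nlinarith [abs_nonneg (Mb 0 1 2 (g z) (hn n z))]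
      set α := Ma 0 1 2 (g z) (hn n z)
      set β := Mb 0 1 2 (g z) (hn n z)
      set gx := dd ex g z with hgx
      set gy := dd ey g z with hgy
      set px := dd ex (hn n) z
      set py := dd ey (hn n) z
      simp only [hG]
      have key : ∀ u w : ℝ, (α * u + β * w) ^ 2 ≤ 2 * ((α + β) ^ 2 * u ^ 2) + 98 * (w - u) ^ 2 := by
        intro u w
        have h1 : (α * u + β * w) = (α + β) * u + β * (w - u) := by ring
        rw [h1]
        nlinarith [sq_nonneg ((α + β) * u - β * (w - u)), mul_le_mul_of_nonneg_right hb2 (sq_nonneg (w - u))]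
      have k1 := key gx px
      have k2 := key gy py
      rw [← hgx, ← hgy]
      nlinarith
  have stepB : ∀ n, ∫ z, (Ma 2 3 4 (g z) (hn n z) + Mb 2 3 4 (g z) (hn n z)) * G z ∂ν
      + ∫ z, Mb 2 3 4 (g z) (hn n z) * (dd ex g z * (dd ex (hn n) z - dd ex g z)
        + dd ey g z * (dd ey (hn n) z - dd ey g z)) ∂ν
      = μ * ∫ z, Mf 2 3 4 (g z) (hn n z) * g z ∂ν := by
    intro n
    have t := weak_form hD (Ψtest 2 3 4 n) hg heq
    have e1 : ∫ z, Ψ 2 3 4 n z * g z = ∫ z, Mf 2 3 4 (g z) (hn n z) * g z ∂ν := by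
      rw [integral_eq_restrict (D := D)]
      · exact setIntegral_congr_fun hDm (fun z hz => by simp only [Ψin _ _ _ _ z hz])
      · intro z hz; simp [Ψout _ _ _ _ z hz]
    rw [e1] at t
    rw [← t, integral_eq_restrict (D := D)]
    swap
    · intro z hz; simp [Ψddout _ _ _ _ _ z hz]
    rw [← integral_add]
    · apply setIntegral_congr_fun hDm
      intro z hz
      simp only
      rw [Ψdd _ _ _ _ _ z hz, Ψdd _ _ _ _ _ z hz]
      simp only [hG]
      ring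
    · exact bmul _ A2c 25 A2b G Gi n
    · refine bmul (fun p => Mb 2 3 4 p.1 p.2) (cMab 2 3 4).2 13 (fun p => B2 _ _) _ ?_ n
      exact (integrable_mul2 hx.mem (hx.sub_mem n)).add (integrable_mul2 hy.mem (hy.sub_mem n))
  -- limits
  have L1 : Tendsto (fun n => ∫ z, (Mf 0 1 2 (g z) (hn n z)) ^ 2 ∂ν) atTop
      (𝓝 (∫ z, (Mf 0 1 2 (g z) (g z)) ^ 2 ∂ν)) := by
    apply tendsto_integral_of_dominated_convergence (fun z => g z ^ 2)
    · intro n
      exact meas _ ((cMf 0 1 2).pow 2) n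
    · exact h0.mem.integrable_sq
    · intro n
      refine Eventually.of_forall fun z => ?_
      rw [Real.norm_eq_abs, abs_pow, ← sq_abs (g z)]
      have := Mf_le (a := 0) (b := 1) (k := 2) (by norm_num) (g z) (hn n z)
      rw [abs_of_nonneg (Mf_nonneg _ _ _ _ _)]
      exact pow_le_pow_left₀ (Mf_nonneg _ _ _ _ _) this 2
    · filter_upwards [hae] with z hz
      exact (((cMf 0 1 2).tendsto (g z, g z)).comp (tendsto_const_nhds.prodMk_nhds hz)).pow 2
  have L2 : Tendsto (fun n => ∫ z, Mf 2 3 4 (g z) (hn n z) * g z ∂ν) atTop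
      (𝓝 (∫ z, Mf 2 3 4 (g z) (g z) * g z ∂ν)) := by
    apply tendsto_integral_of_dominated_convergence (fun z => g z ^ 2)
    · intro n
      exact (meas _ (cMf 2 3 4) n).mul h0.mem.aestronglyMeasurable
    · exact h0.mem.integrable_sq
    · intro n
      refine Eventually.of_forall fun z => ?_
      rw [Real.norm_eq_abs, abs_mul, ← sq_abs (g z), sq]
      have := Mf_le (a := 2) (b := 3) (k := 4) (by norm_num) (g z) (hn n z)
      rw [abs_of_nonneg (Mf_nonneg _ _ _ _ _)]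
      gcongr
    · filter_upwards [hae] with z hz
      exact (((cMf 2 3 4).tendsto (g z, g z)).comp (tendsto_const_nhds.prodMk_nhds hz)).mul_const _
  have L3 := dct _ A1sc 169 A1sb G Gi
  have L4 := dct _ A2c 25 A2b G Gi
  have L5 : Tendsto (fun n => ∫ z, Mb 2 3 4 (g z) (hn n z) * (dd ex g z * (dd ex (hn n) z - dd ex g z)
        + dd ey g z * (dd ey (hn n) z - dd ey g z)) ∂ν) atTop (𝓝 0) := by
    have t1 : Tendsto (fun n => ∫ a, |dd ex (hn n) a - dd ex g a| * |dd ex g a| ∂ν) atTop (𝓝 0) :=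
      tendsto_mul_zero (k := fun _ => dd ex g) hx.sub_mem (fun _ => hx.mem) hx.lim
        (C := ∫ a, dd ex g a ^ 2 ∂ν) (fun _ => le_rfl)
    have t2 : Tendsto (fun n => ∫ a, |dd ey (hn n) a - dd ey g a| * |dd ey g a| ∂ν) atTop (𝓝 0) :=
      tendsto_mul_zero (k := fun _ => dd ey g) hy.sub_mem (fun _ => hy.mem) hy.lim
        (C := ∫ a, dd ey g a ^ 2 ∂ν) (fun _ => le_rfl)
    have t3 := (t1.add t2).const_mul 13
    simp only [add_zero, mul_zero] at t3
    rw [tendsto_zero_iff_norm_tendsto_zero]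
    refine squeeze_zero (fun n => norm_nonneg _) (fun n => ?_) t3
    have i1 := integrable_abs_mul (hx.sub_mem n) hx.mem
    have i2 := integrable_abs_mul (hy.sub_mem n) hy.mem
    rw [← integral_add i1 i2, ← integral_const_mul]
    refine (norm_integral_le_integral_norm _).trans ?_
    apply integral_mono
    · refine (bmul (fun p => Mb 2 3 4 p.1 p.2) (cMab 2 3 4).2 13 (fun p => B2 _ _) _ ?_ n).norm
      exact (integrable_mul2 hx.mem (hx.sub_mem n)).add (integrable_mul2 hy.mem (hy.sub_mem n))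
    · exact (i1.add i2).const_mul 13
    · intro z
      simp only [Real.norm_eq_abs]
      rw [abs_mul]
      have hb := B2 (g z) (hn n z)
      gcongr
      refine (abs_add_le _ _).trans ?_
      rw [abs_mul, abs_mul, mul_comm |dd ex g z|, mul_comm |dd ey g z|]
  have C1 : Λ * ∫ z, (Mf 0 1 2 (g z) (g z)) ^ 2 ∂ν ≤
      2 * ∫ z, (Ma 0 1 2 (g z) (g z) + Mb 0 1 2 (g z) (g z)) ^ 2 * G z ∂ν := by
    have r := (L3.const_mul 2).add ((hx.lim.add hy.lim).const_mul 98)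
    simp only [add_zero, mul_zero] at r
    exact le_of_tendsto_of_tendsto' (L1.const_mul Λ) r stepA
  have C2 : ∫ z, (Ma 2 3 4 (g z) (g z) + Mb 2 3 4 (g z) (g z)) * G z ∂ν
      = μ * ∫ z, Mf 2 3 4 (g z) (g z) * g z ∂ν := by
    have r := L4.add L5
    rw [add_zero] at r
    exact tendsto_nhds_unique (r.congr stepB) (L2.const_mul μ)
  have C3 : ∫ z, Mf 2 3 4 (g z) (g z) * g z ∂ν = - ∫ z, (Mf 0 1 2 (g z) (g z)) ^ 2 ∂ν := by
    rw [← integral_neg]
    congr 1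
    ext z
    rw [mul_comm]; exact diag_eq (g z)
  have C4 : ∫ z, (Ma 0 1 2 (g z) (g z) + Mb 0 1 2 (g z) (g z)) ^ 2 * G z ∂ν
      ≤ -3 * ∫ z, (Ma 2 3 4 (g z) (g z) + Mb 2 3 4 (g z) (g z)) * G z ∂ν := by
    rw [← integral_const_mul]
    apply integral_mono (bmul' _ A1sc 169 A1sb G Gi) ((bmul' _ A2c 25 A2b G Gi).const_mul _)
    intro z
    simp only
    rw [← mul_assoc]
    exact mul_le_mul_of_nonneg_right (diag_ineq (g z)) (G0 z)
  set I := ∫ z, (Mf 0 1 2 (g z) (g z)) ^ 2 ∂ν with hI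
  have hI0 : 0 ≤ I := integral_nonneg fun z => by positivity
  have hIz : I = 0 := by
    rw [C2, C3] at C4
    by_contra hne
    have : 0 < I := lt_of_le_of_ne hI0 (Ne.symm hne)
    nlinarith
  have hii : Integrable (fun z => (Mf 0 1 2 (g z) (g z)) ^ 2) ν := by
    refine Integrable.mono' h0.mem.integrable_sq (meas' _ ((cMf 0 1 2).pow 2))
      (Eventually.of_forall fun z => ?_)
    rw [Real.norm_eq_abs, abs_pow, ← sq_abs (g z)]
    have := Mf_le (a := 0) (b := 1) (k := 2) (by norm_num) (g z) (g z)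
    rw [abs_of_nonneg (Mf_nonneg _ _ _ _ _)]
    exact pow_le_pow_left₀ (Mf_nonneg _ _ _ _ _) this 2
  have hzero := (integral_eq_zero_iff_of_nonneg (fun z => by positivity) hii).1 hIz
  have heqOn : EqOn (fun z => (Mf 0 1 2 (g z) (g z)) ^ 2) (fun _ => 0) D := by
    apply Measure.eqOn_open_of_ae_eq hzero hD _ continuousOn_const
    exact ((cMf 0 1 2).pow 2).comp_continuousOn (hgc.prodMk hgc)
  intro z hz
  by_contra hlt
  push Not at hlt
  have h1 : (Mf 0 1 2 (g z) (g z)) ^ 2 = 0 := heqOn hz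
  have h2 := pow_pos (Mf_pos (a := 0) (b := 1) (k := 2) hlt) 2
  linarith

end Pool.Agent.Lib.MP_dac83a
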