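import Pool.Agent.Lib.MP_dac83a.Basic

set_option autoImplicit false

open MeasureTheory Set Filter Topology
open scoped ContDiff

namespace Pool.Agent.Lib.MP_dac83a

/-- Cauchy-Schwarz on an interval -/
theorem cs_interval {f : ℝ → ℝ} (hf : Continuous f) {a b : ℝ} (hab : a ≤ b) :
    (∫ t in a..b, f t) ^ 2 ≤ (b - a) * ∫ t in a..b, f t ^ 2 := by
  rcases hab.eq_or_lt with rfl | hlt
  · simp
  have hpos : 0 < b - a := by linarith
  set c := (∫ t in a..b, f t) / (b - a) with hc
  have h0 : 0 ≤ ∫ t in a..b, (f t - c) ^ 2 :=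
    intervalIntegral.integral_nonneg hab (fun t _ => by positivity)
  have i1 : IntervalIntegrable (fun t => f t ^ 2) volume a b := (hf.pow 2).intervalIntegrable _ _
  have i2 : IntervalIntegrable f volume a b := hf.intervalIntegrable _ _
  have e : ∫ t in a..b, (f t - c) ^ 2 = (∫ t in a..b, f t ^ 2) - 2 * c * (∫ t in a..b, f t)
      + c ^ 2 * (b - a) := by
    have e1 : (fun t => (f t - c) ^ 2) = fun t => (f t ^ 2 - 2 * c * f t) + c ^ 2 := by
      ext t; ring
    rw [e1, intervalIntegral.integral_add (i1.sub (i2.const_mul _)) (by simp),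
      intervalIntegral.integral_sub i1 (i2.const_mul _), intervalIntegral.integral_const_mul,
      intervalIntegral.integral_const, smul_eq_mul]
    ring
  rw [e] at h0
  have hI : (∫ t in a..b, f t) = c * (b - a) := by rw [hc]; field_simp
  rw [hI] at h0 ⊢
  nlinarith

theorem int_sq_of {f : P → ℝ} (hf : Continuous f) (hc : HasCompactSupport f) :
    Integrable (fun z => f z ^ 2) := by
  have h1 : Continuous (fun z => f z * f z) := hf.mul hf
  have h2 : HasCompactSupport (fun z => f z * f z) := hc.mul_left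
  have := h1.integrable_of_hasCompactSupport (μ := (volume : Measure P)) h2
  simpa only [sq] using this

theorem slice_deriv {ψ : P → ℝ} (hψ : ContDiff ℝ 1 ψ) (x y : ℝ) :
    HasDerivAt (fun t => ψ (t, y)) (dd ex ψ (x, y)) x := by
  have h1 : HasFDerivAt ψ (fderiv ℝ ψ (x, y)) (x, y) :=
    ((hψ.differentiable (by norm_num)) (x, y)).hasFDerivAt
  have h2 : HasDerivAt (fun t : ℝ => (t, y)) ((1 : ℝ), (0 : ℝ)) x :=
    (hasDerivAt_id x).prodMk (hasDerivAt_const x y)
  exact h1.comp_hasDerivAt x h2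

theorem slice_ftc {ψ : P → ℝ} (hψ : ContDiff ℝ 1 ψ) (a b y : ℝ) :
    ∫ t in a..b, dd ex ψ (t, y) = ψ (b, y) - ψ (a, y) := by
  apply intervalIntegral.integral_eq_sub_of_hasDerivAt
  · intro t _; exact slice_deriv hψ t y
  · have : Continuous (dd ex ψ) := (dd_contDiff (m := 0) hψ (by norm_num) ex).continuous
    exact (this.comp (by fun_prop : Continuous fun t : ℝ => (t, y))).intervalIntegrable _ _

/-- Poincaré inequality in thin sets -/
theorem thin_general {D : Set P} {h : ℝ} (hh : 0 < h)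
    (hD : ∀ z ∈ D, ∃ x' ∈ Icc (z.1 - h) z.1, (x', z.2) ∉ D)
    {ψ : P → ℝ} (hψ : IsTest1 D ψ) : ∫ z, ψ z ^ 2 ≤ h ^ 2 * ∫ z, (dd ex ψ z ^ 2) := by
  have hψ0 : ∀ z, z ∉ D → ψ z = 0 := fun z hz =>
    image_eq_zero_of_notMem_tsupport (fun h' => hz (hψ.sub h'))
  have hdc : Continuous (dd ex ψ) := (dd_contDiff (m := 0) hψ.smooth (by norm_num) ex).continuous
  set F : P → ℝ → ℝ := fun z s => dd ex ψ (z - (s, 0)) ^ 2 with hF
  have hFc : Continuous (Function.uncurry F) := by
    simp only [hF, Function.uncurry_def]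
    fun_prop
  have hpt : ∀ z, ψ z ^ 2 ≤ h * ∫ s in (0 : ℝ)..h, F z s := by
    intro z
    have hI : ∀ a b : ℝ, a ≤ b → 0 ≤ ∫ t in a..b, dd ex ψ (t, z.2) ^ 2 := fun a b hab =>
      intervalIntegral.integral_nonneg hab (fun t _ => by positivity)
    have e1 : ∫ s in (0 : ℝ)..h, F z s = ∫ t in (z.1 - h)..z.1, dd ex ψ (t, z.2) ^ 2 := by
      have := intervalIntegral.integral_comp_sub_left (fun t => dd ex ψ (t, z.2) ^ 2) z.1
        (a := 0) (b := h)
      rw [sub_zero] at this
      rw [← this]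
      apply intervalIntegral.integral_congr
      intro s _
      have : z - (s, 0) = (z.1 - s, z.2) := by ext <;> simp
      simp only [hF, this]
    rw [e1]
    by_cases hz : z ∈ D
    · obtain ⟨x', hx', hn⟩ := hD z hz
      have hcc : Continuous (fun t : ℝ => dd ex ψ (t, z.2)) := hdc.comp (by fun_prop)
      have h1 := slice_ftc hψ.smooth x' z.1 z.2
      rw [hψ0 _ hn, sub_zero] at h1
      have h2 := cs_interval hcc hx'.2
      rw [h1] at h2
      have h3 : ∫ t in x'..z.1, dd ex ψ (t, z.2) ^ 2 ≤ ∫ t in (z.1 - h)..z.1, dd ex ψ (t, z.2) ^ 2 := by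
        have h4 := intervalIntegral.integral_add_adjacent_intervals
          ((hcc.pow 2).intervalIntegrable (μ := volume) (z.1 - h) x')
          ((hcc.pow 2).intervalIntegrable (μ := volume) x' z.1)
        have h5 := hI (z.1 - h) x' hx'.1
        simp only [Pi.pow_apply] at h4
        linarith
      have h6 := hI x' z.1 hx'.2
      have h7 : z.1 - x' ≤ h := by linarith [hx'.1]
      calc ψ z ^ 2 ≤ (z.1 - x') * ∫ t in x'..z.1, dd ex ψ (t, z.2) ^ 2 := h2
        _ ≤ h * ∫ t in x'..z.1, dd ex ψ (t, z.2) ^ 2 := by gcongr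
        _ ≤ _ := by gcongr
    · rw [hψ0 z hz]
      have := hI (z.1 - h) z.1 (by linarith)
      nlinarith
  have hsq : Integrable (fun z => dd ex ψ z ^ 2) := int_sq_of hdc (dd_hasCompactSupport hψ.cpt ex)
  have hprod : Integrable (Function.uncurry F) (volume.prod (volume.restrict (Ioc 0 h))) := by
    rw [integrable_prod_iff' hFc.aestronglyMeasurable]
    constructor
    · refine Eventually.of_forall fun s => ?_
      exact hsq.comp_sub_right ((s, 0) : P)
    · have : ∀ s, ∫ z, ‖Function.uncurry F (z, s)‖ = ∫ z, dd ex ψ z ^ 2 := by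
        intro s
        simp only [Function.uncurry_apply_pair, hF, Real.norm_eq_abs, abs_pow, sq_abs]
        exact integral_sub_right_eq_self (fun z => dd ex ψ z ^ 2) ((s, 0) : P)
      simp only [this]
      exact integrableOn_const (by simp)
  have hswap : ∫ z, ∫ s in (0 : ℝ)..h, F z s = h * ∫ z, dd ex ψ z ^ 2 := by
    simp only [intervalIntegral.integral_of_le hh.le]
    rw [integral_integral_swap hprod]
    have : ∀ s : ℝ, ∫ z, F z s = ∫ z, dd ex ψ z ^ 2 := fun s =>
      integral_sub_right_eq_self (fun z => dd ex ψ z ^ 2) ((s, 0) : P)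
    simp only [this]
    rw [setIntegral_const, smul_eq_mul]
    simp [hh.le]
  calc ∫ z, ψ z ^ 2 ≤ ∫ z, h * ∫ s in (0 : ℝ)..h, F z s := by
        apply integral_mono
        · exact int_sq_of hψ.smooth.continuous hψ.cpt
        · apply Integrable.const_mul
          simp only [intervalIntegral.integral_of_le hh.le]
          exact hprod.integral_prod_left
        · exact hpt
    _ = h ^ 2 * ∫ z, dd ex ψ z ^ 2 := by
        rw [integral_const_mul, hswap]; ring

theorem thin_of {D : Set P} {h : ℝ} (hh : 0 < h) (hh' : 400 * h ^ 2 ≤ 1)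
    (hD : ∀ z ∈ D, ∃ x' ∈ Icc (z.1 - h) z.1, (x', z.2) ∉ D)
    (ψ : P → ℝ) (hψ : IsTest1 D ψ) :
    400 * ∫ z, ψ z ^ 2 ≤ ∫ z, (dd ex ψ z ^ 2 + dd ey ψ z ^ 2) := by
  have h1 := thin_general hh hD hψ
  have hc : ∀ v, Integrable (fun z => dd v ψ z ^ 2) := fun v =>
    int_sq_of (dd_contDiff (m := 0) hψ.smooth (by norm_num) v).continuous
      (dd_hasCompactSupport hψ.cpt v)
  have h2 : ∫ z, dd ex ψ z ^ 2 ≤ ∫ z, (dd ex ψ z ^ 2 + dd ey ψ z ^ 2) := by
    have h4 : Integrable (fun z => dd ex ψ z ^ 2 + dd ey ψ z ^ 2) := (hc ex).add (hc ey)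
    apply integral_mono (hc ex) h4
    intro z
    simp only
    linarith [sq_nonneg (dd ey ψ z)]
  have h3 : 0 ≤ ∫ z, dd ex ψ z ^ 2 := integral_nonneg fun z => by positivity
  nlinarith

end Pool.Agent.Lib.MP_dac83a
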