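import Pool.Agent.Lib.MP_dac83a.Geom
import Pool.Agent.Lib.MP_dac83a.Thin
import Pool.Agent.Lib.MP_dac83a.MaxP

set_option autoImplicit false

open MeasureTheory Set Filter Topology
open scoped ContDiff

namespace Pool.Agent.Lib.MP_dac83a

/-- the part of the arm beyond the cross-section at height `y0` of the corridor number `2j` -/
def TT (j : ℕ) (y0 : ℝ) : Set P :=
  {z | z ∈ Arm ∧ X (2 * j) < z.1 ∧ (X (2 * j + 1) < z.1 ∨ y0 < z.2)}

/-- the cross-section -/
def CS (j : ℕ) (y0 : ℝ) : Set P := {z | X (2 * j) < z.1 ∧ z.1 < X (2 * j + 1) ∧ z.2 = y0}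

theorem TT_open (j : ℕ) (y0 : ℝ) : IsOpen (TT j y0) := by
  have e : TT j y0 = Arm ∩ ({z : P | X (2 * j) < z.1} ∩ ({z : P | X (2 * j + 1) < z.1}
      ∪ {z : P | y0 < z.2})) := rfl
  rw [e]
  exact isOpen_Arm.inter ((isOpen_lt continuous_const continuous_fst).inter
    ((isOpen_lt continuous_const continuous_fst).union (isOpen_lt continuous_const continuous_snd)))

theorem TT_subset_Om (j : ℕ) (y0 : ℝ) : TT j y0 ⊆ Om := fun _ hz => Arm_subset hz.1

theorem CS_subset_Om {j : ℕ} {y0 : ℝ} (hy : |y0| < 1 / 2) : CS j y0 ⊆ Om := by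
  intro z hz
  exact Arm_subset (mem_Arm_between hz.1 hz.2.1 (by rw [hz.2.2]; exact hy))

theorem not_even_odd (j : ℕ) : ¬ Even (2 * j + 1) := by simp

theorem TT_closure {j : ℕ} {y0 : ℝ} (hy : |y0| ≤ 1 / 8) {z : P} (hz : z ∈ closure (TT j y0))
    (hO : z ∈ Om) : z ∈ TT j y0 ∨ z ∈ CS j y0 := by
  rw [abs_le] at hy
  have hcl : IsClosed ({z : P | X (2 * j) ≤ z.1} ∩ ({z : P | X (2 * j + 1) ≤ z.1}
      ∪ {z : P | y0 ≤ z.2})) :=
    (isClosed_le continuous_const continuous_fst).inter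
      ((isClosed_le continuous_const continuous_fst).union
        (isClosed_le continuous_const continuous_snd))
  have hz2 := closure_minimal (t := {z : P | X (2 * j) ≤ z.1} ∩ ({z : P | X (2 * j + 1) ≤ z.1}
      ∪ {z : P | y0 ≤ z.2})) (fun w hw => ⟨hw.2.1.le, hw.2.2.imp le_of_lt le_of_lt⟩) hcl hz
  have h1 : X (2 * j) ≤ z.1 := hz2.1
  have h2 : X (2 * j + 1) ≤ z.1 ∨ y0 ≤ z.2 := hz2.2
  have hA : z ∈ Arm := Om_right hO ((one_le_X _).trans h1)
  have hlt := X_lt_succ (2 * j)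
  rcases h1.eq_or_lt with h3 | h3
  · have h4 := Arm_even (even_two_mul j) hA h3.symm
    rcases h2 with h5 | h5
    · linarith
    · linarith
  · rcases lt_trichotomy z.1 (X (2 * j + 1)) with h4 | h4 | h4
    · rcases h2 with h5 | h5
      · linarith
      · rcases h5.eq_or_lt with h6 | h6
        · exact Or.inr ⟨h3, h4, h6.symm⟩
        · exact Or.inl ⟨hA, h3, Or.inr h6⟩
    · have h5 := Arm_odd (not_even_odd j) hA h4
      exact Or.inl ⟨hA, h3, Or.inr (by linarith)⟩
    · exact Or.inl ⟨hA, h3, Or.inl h4⟩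

/-- comparison principle beyond a cross-section -/
theorem TT_comparison {j : ℕ} {y0 : ℝ} (hy : |y0| ≤ 1 / 8) {μ : ℝ} (hμ : 6 * μ < 400) {g : P → ℝ}
    (hg : Eig Om μ g) (hpos : ∀ z ∈ CS j y0, 0 < g z) : ∀ z ∈ TT j y0, 0 ≤ g z := by
  obtain ⟨φ, h1, h2, h3, h4⟩ := hg.approx
  have hsub := TT_subset_Om j y0
  refine max_principle (TT_open j y0) hμ ?_ ((hg.smooth.of_le two_le_inf).mono hsub)
    (fun z hz => hg.eq z (hsub hz)) (gn := φ)
    (fun n => ((h1 n).smooth.of_le one_le_inf).contDiffOn) (h2.mono hsub) (h3.mono hsub)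
    (h4.mono hsub) ?_
  · intro ψ hψ
    exact thin_of (h := 3 / 64) (by norm_num) (by norm_num)
      (thin_arm (fun z hz => hz.1) (fun z hz => lt_of_le_of_lt (one_le_X _) hz.2.1)) ψ hψ
  · intro n
    have hK1 : IsCompact (tsupport (φ n) ∩ closure (TT j y0)) :=
      IsCompact.inter_right (h1 n).cpt isClosed_closure
    have hK1s : tsupport (φ n) ∩ closure (TT j y0) ⊆ Om := fun z hz => (h1 n).sub hz.1
    refine ⟨(tsupport (φ n) ∩ closure (TT j y0)) ∩ g ⁻¹' (Iic 0), ?_, ?_, ?_⟩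
    · apply hK1.of_isClosed_subset _ inter_subset_left
      exact (hg.smooth.continuousOn.mono hK1s).preimage_isClosed_of_isClosed hK1.isClosed isClosed_Iic
    · rintro z ⟨⟨hz1, hz2⟩, hz3⟩
      rcases TT_closure hy hz2 ((h1 n).sub hz1) with h | h
      · exact h
      · have := hpos z h
        have h5 : g z ≤ 0 := hz3
        linarith
    · intro z hz hz1 hz2
      refine ⟨⟨?_, subset_closure hz⟩, hz1.le⟩
      apply subset_tsupport
      exact hz2.ne

/-- strong positivity -/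
theorem pos_of_nonneg {D : Set P} (hD : IsOpen D) (hc : IsPreconnected D) {μ : ℝ} (hμ : 0 ≤ μ)
    {g : P → ℝ} (hg : ContDiffOn ℝ 2 g D) (heq : ∀ z ∈ D, lap g z = -μ * g z)
    (h0 : ∀ z ∈ D, 0 ≤ g z) (hne : ∃ z ∈ D, g z ≠ 0) : ∀ z ∈ D, 0 < g z := by
  by_contra hcon
  push Not at hcon
  obtain ⟨z1, hz1, hz1'⟩ := hcon
  obtain ⟨z2, hz2, hz2'⟩ := hne
  have hgc : ContinuousOn g D := hg.continuousOn
  have hopen1 : IsOpen (D ∩ g ⁻¹' {x | x ≠ 0}) := hgc.isOpen_inter_preimage hD isOpen_ne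
  have hopen2 : IsOpen {z | z ∈ D ∧ g z = 0} := by
    rw [isOpen_iff_mem_nhds]
    rintro z ⟨hz, hgz⟩
    obtain ⟨δ, hδ, hball⟩ := Metric.isOpen_iff.1 hD z hz
    obtain ⟨ρ, hρ0, hρδ, hρ⟩ : ∃ ρ, 0 < ρ ∧ ρ < δ ∧ μ * ρ ^ 2 < 4 := by
      refine ⟨min (δ / 2) (1 / (1 + μ)), ?_, ?_, ?_⟩
      · apply lt_min (by positivity) (by positivity)
      · have := min_le_left (δ / 2) (1 / (1 + μ)); linarith
      · have h1 := min_le_right (δ / 2) (1 / (1 + μ))
        have h0 : 0 < min (δ / 2) (1 / (1 + μ)) := lt_min (by positivity) (by positivity)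
        have h2 : (min (δ / 2) (1 / (1 + μ))) ^ 2 ≤ (1 / (1 + μ)) ^ 2 :=
          pow_le_pow_left₀ h0.le h1 2
        have h3 : μ * (1 / (1 + μ)) ^ 2 ≤ 1 := by
          rw [div_pow, one_pow, mul_one_div, div_le_one (by positivity)]
          nlinarith
        calc _ ≤ μ * (1 / (1 + μ)) ^ 2 := by gcongr
          _ < 4 := by linarith
    have hdisc : disc z ρ ⊆ D := by
      intro w hw
      apply hball
      have := disc_subset_closedBall z hρ0.le hw
      rw [Metric.mem_closedBall] at this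
      rw [Metric.mem_ball]; linarith
    have hmean := circle_mean hD hg hμ hρ0.le hρ hdisc heq hgz
    have hzero : ∀ s ∈ Icc 0 ρ, ∀ θ ∈ Icc (-Real.pi) Real.pi, g (z + s • ue θ) = 0 := by
      intro s hs
      have hcont : Continuous (fun θ => g (z + s • ue θ)) := by
        rw [continuous_iff_continuousAt]
        intro θ
        have h1 : ContinuousAt g (z + s • ue θ) :=
          hgc.continuousAt (hD.mem_nhds (hdisc (ue_mem_disc z hs θ)))
        have h2 : Continuous (fun θ => z + s • ue θ) := by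
          have := continuous_ue; fun_prop
        exact ContinuousAt.comp (f := fun θ => z + s • ue θ) h1 h2.continuousAt
      have hint := hmean s hs
      rw [intervalIntegral.integral_eq_zero_iff_of_nonneg_ae] at hint
      · have := (Continuous.ae_eq_iff_eq (μ := (volume : Measure ℝ)) (f := fun θ => g (z + s • ue θ))
          (g := fun _ => (0 : ℝ)) hcont continuous_const)
        have hpi : -Real.pi < Real.pi := by linarith [Real.pi_pos]
        have hon : EqOn (fun θ => g (z + s • ue θ)) (fun _ => 0) (Icc (-Real.pi) Real.pi) := by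
          apply Measure.eqOn_Icc_of_ae_eq volume hpi.ne
          · have h5 : (Ioc (-Real.pi) Real.pi ∪ Ioc Real.pi (-Real.pi))
                = Ioc (-Real.pi) Real.pi := by
              rw [show Ioc Real.pi (-Real.pi) = ∅ from Ioc_eq_empty_of_le (by linarith), union_empty]
            rw [h5] at hint
            rw [← restrict_Ioc_eq_restrict_Icc]
            exact hint
          · exact hcont.continuousOn
          · exact continuousOn_const
        exact fun θ hθ => hon hθ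
      · exact Eventually.of_forall fun θ => h0 _ (hdisc (ue_mem_disc z hs θ))
      · exact hcont.intervalIntegrable _ _
    filter_upwards [Metric.ball_mem_nhds z (show 0 < ρ / 2 by positivity)] with w hw
    rw [Metric.mem_ball, Prod.dist_eq, max_lt_iff, Real.dist_eq, Real.dist_eq] at hw
    set c : ℂ := ⟨w.1 - z.1, w.2 - z.2⟩ with hcdef
    have hw1 : w = z + ‖c‖ • ue (Complex.arg c) := by
      have h1 : ‖c‖ * Real.cos (Complex.arg c) = w.1 - z.1 := Complex.norm_mul_cos_arg c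
      have h2 : ‖c‖ * Real.sin (Complex.arg c) = w.2 - z.2 := Complex.norm_mul_sin_arg c
      ext
      · simp only [ue, Prod.smul_mk, smul_eq_mul, Prod.fst_add]; linarith
      · simp only [ue, Prod.smul_mk, smul_eq_mul, Prod.snd_add]; linarith
    have hcn : ‖c‖ ≤ ρ := by
      have h1 := Complex.norm_le_abs_re_add_abs_im c
      simp only [hcdef] at h1 ⊢
      linarith
    have harg := Complex.arg_mem_Ioc c
    have hgw : g w = 0 := by
      rw [hw1]
      exact hzero _ ⟨norm_nonneg _, hcn⟩ _ ⟨harg.1.le, harg.2⟩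
    refine ⟨?_, hgw⟩
    rw [hw1]
    exact hdisc (ue_mem_disc z ⟨norm_nonneg _, hcn⟩ _)
  have hcov : D ⊆ (D ∩ g ⁻¹' {x | x ≠ 0}) ∪ {z | z ∈ D ∧ g z = 0} := by
    intro z hz
    by_cases h : g z = 0
    · exact Or.inr ⟨hz, h⟩
    · exact Or.inl ⟨hz, h⟩
  obtain ⟨w, hw, hw1, hw2⟩ := hc _ _ hopen1 hopen2 hcov ⟨z2, hz2, hz2, hz2'⟩
    ⟨z1, hz1, hz1, le_antisymm hz1' (h0 z1 hz1)⟩
  exact hw1.2 hw2.2

/-- a curve avoiding the walls -/
noncomputable def mt (j : ℕ) (x : ℝ) : ℝ :=
  -(3 / 8) * Real.cos (Real.pi * Real.logb 2 (1 / (17 - 16 * max x (X (2 * j + 1)))))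

theorem mt_abs (j : ℕ) (x : ℝ) : |mt j x| ≤ 3 / 8 := by
  unfold mt
  rw [abs_mul]
  have := Real.abs_cos_le_one (Real.pi * Real.logb 2 (1 / (17 - 16 * max x (X (2 * j + 1)))))
  have h : |-(3 / 8 : ℝ)| = 3 / 8 := by norm_num
  rw [h]; nlinarith

theorem mt_X {j n : ℕ} (hn : 2 * j + 1 ≤ n) : mt j (X n) = -(3 / 8) * (-1) ^ n := by
  unfold mt
  rw [max_eq_left (X_strictMono.monotone hn)]
  have e1 : 1 / (17 - 16 * X n) = 2 ^ (n : ℝ) := by
    have : 17 - 16 * X n = (1 / 2) ^ n := by simp only [X]; ring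
    rw [this, Real.rpow_natCast, one_div_pow, one_div_one_div]
  rw [e1, Real.logb_rpow (by norm_num) (by norm_num), mul_comm Real.pi, Real.cos_nat_mul_pi]

theorem mt_left {j : ℕ} {x : ℝ} (hx : x ≤ X (2 * j + 1)) : mt j x = 3 / 8 := by
  have h1 : mt j x = mt j (X (2 * j + 1)) := by
    unfold mt
    rw [max_eq_right hx, max_self]
  rw [h1, mt_X le_rfl, pow_succ, pow_mul]; norm_num

theorem mt_cont (j : ℕ) : ContinuousOn (mt j) (Iio (17 / 16)) := by
  unfold mt
  have h1 : ∀ x ∈ Iio (17 / 16 : ℝ), 17 - 16 * max x (X (2 * j + 1)) ≠ 0 := by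
    intro x hx
    have : max x (X (2 * j + 1)) < 17 / 16 := max_lt hx (X_lt _)
    linarith
  have h2 : ContinuousOn (fun x => 1 / (17 - 16 * max x (X (2 * j + 1)))) (Iio (17 / 16)) := by
    apply ContinuousOn.div continuousOn_const (by fun_prop) h1
  have h3 : ContinuousOn (fun x => Real.logb 2 (1 / (17 - 16 * max x (X (2 * j + 1)))))
      (Iio (17 / 16)) := by
    unfold Real.logb
    apply ContinuousOn.div_const
    exact h2.log (fun x hx => one_div_ne_zero (h1 x hx))
  exact continuousOn_const.mul (Real.continuous_cos.comp_continuousOn (continuousOn_const.mul h3))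

theorem seg_mem_TT {j : ℕ} {y0 : ℝ} (hy : |y0| ≤ 1 / 8) {x y t : ℝ} (hx : X (2 * j) < x)
    (hx' : x < 17 / 16) (hyb : |y| < 1 / 2) (hw : ∀ n, (x, y) ∉ Wall n)
    (hc : X (2 * j + 1) < x ∨ y0 < y) (ht : t ∈ uIcc y (mt j x)) : (x, t) ∈ TT j y0 := by
  have hm := mt_abs j x
  rw [abs_le] at hy hm
  rw [abs_lt] at hyb
  have ht1 : min y (mt j x) ≤ t := ht.1
  have ht2 : t ≤ max y (mt j x) := ht.2
  refine ⟨⟨by simp only; linarith [one_le_X (2 * j)], hx', ?_, ?_⟩, hx, ?_⟩
  · simp only [abs_lt]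
    constructor
    · refine lt_of_lt_of_le (lt_min hyb.1 ?_) ht1
      linarith
    · refine lt_of_le_of_lt ht2 (max_lt hyb.2 ?_)
      linarith
  · intro n hn
    have hxn : x = X n := hn.1
    have hn2 : 2 * j + 1 ≤ n := by
      have : X (2 * j) < X n := by rw [← hxn]; exact hx
      exact X_strictMono.lt_iff_lt.1 this
    have hmt := mt_X hn2
    rw [← hxn] at hmt
    rcases hn.2 with ⟨he, h2⟩ | ⟨he, h2⟩
    · rw [he.neg_one_pow] at hmt
      simp only at h2
      have h3 : y < -(1 / 4) := by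
        by_contra hcon
        push Not at hcon
        exact hw n ⟨hxn, Or.inl ⟨he, hcon⟩⟩
      have h4 : max y (mt j x) < -(1 / 4) := max_lt h3 (by rw [hmt]; norm_num)
      linarith
    · rw [(Nat.not_even_iff_odd.1 he).neg_one_pow] at hmt
      simp only at h2
      have h3 : 1 / 4 < y := by
        by_contra hcon
        push Not at hcon
        exact hw n ⟨hxn, Or.inr ⟨he, hcon⟩⟩
      have h4 : 1 / 4 < min y (mt j x) := lt_min h3 (by rw [hmt]; norm_num)
      linarith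
  · rcases lt_or_ge (X (2 * j + 1)) x with h | h
    · exact Or.inl h
    · right
      have h3 : y0 < y := by
        rcases hc with h4 | h4
        · linarith
        · exact h4
      have h5 : y0 < mt j x := by rw [mt_left h]; linarith
      exact lt_of_lt_of_le (lt_min h3 h5) ht1

theorem graph_mem_TT {j : ℕ} {y0 : ℝ} (hy : |y0| ≤ 1 / 8) {x : ℝ} (hx : X (2 * j) < x)
    (hx' : x < 17 / 16) : (x, mt j x) ∈ TT j y0 := by
  apply seg_mem_TT hy hx hx' (y := mt j x)
  · exact lt_of_le_of_lt (mt_abs j x) (by norm_num)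
  · intro n hn
    have hxn : x = X n := hn.1
    have hn2 : 2 * j + 1 ≤ n := by
      have : X (2 * j) < X n := by rw [← hxn]; exact hx
      exact X_strictMono.lt_iff_lt.1 this
    have hmt := mt_X hn2
    rw [← hxn] at hmt
    rcases hn.2 with ⟨he, h2⟩ | ⟨he, h2⟩
    · rw [he.neg_one_pow] at hmt
      simp only [hmt] at h2
      norm_num at h2
    · rw [(Nat.not_even_iff_odd.1 he).neg_one_pow] at hmt
      simp only [hmt] at h2
      norm_num at h2
  · rcases lt_or_ge (X (2 * j + 1)) x with h | h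
    · exact Or.inl h
    · right
      rw [mt_left h]
      rw [abs_le] at hy
      linarith
  · exact left_mem_uIcc

theorem TT_preconnected {j : ℕ} {y0 : ℝ} (hy : |y0| ≤ 1 / 8) : IsPreconnected (TT j y0) := by
  set Γ : Set P := (fun x => (x, mt j x)) '' Ioo (X (2 * j)) (17 / 16) with hΓ
  have hΓc : IsPreconnected Γ := by
    apply isPreconnected_Ioo.image
    apply ContinuousOn.prodMk continuousOn_id
    exact (mt_cont j).mono (fun x hx => hx.2)
  have hΓs : Γ ⊆ TT j y0 := by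
    rintro _ ⟨x, hx, rfl⟩
    exact graph_mem_TT hy hx.1 hx.2
  have hx0 : (X (2 * j) + 17 / 16) / 2 ∈ Ioo (X (2 * j)) (17 / 16) := by
    have := X_lt (2 * j)
    constructor <;> linarith
  apply isPreconnected_of_forall ((X (2 * j) + 17 / 16) / 2, mt j ((X (2 * j) + 17 / 16) / 2))
  intro z hz
  refine ⟨Γ ∪ {z.1} ×ˢ uIcc z.2 (mt j z.1), ?_, Or.inl ⟨_, hx0, rfl⟩, Or.inr ⟨rfl, left_mem_uIcc⟩, ?_⟩
  · apply union_subset hΓs
    rintro ⟨x, t⟩ ⟨hx, ht⟩
    have hx : x = z.1 := hx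
    subst hx
    exact seg_mem_TT hy hz.2.1 hz.1.2.1 hz.1.2.2.1 hz.1.2.2.2 hz.2.2 ht
  · apply IsPreconnected.union (z.1, mt j z.1)
    · exact ⟨z.1, ⟨hz.2.1, hz.1.2.1⟩, rfl⟩
    · exact ⟨rfl, right_mem_uIcc⟩
    · exact hΓc
    · exact isPreconnected_singleton.prod isPreconnected_uIcc

end Pool.Agent.Lib.MP_dac83a
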