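import Pool.Agent.Lib.MP_dac83a.Basic

set_option autoImplicit false

open MeasureTheory Set Filter Topology
open scoped ContDiff

namespace Pool.Agent.Lib.MP_dac83a

/-- differentiation under the integral sign, globally continuous case -/
theorem hasDerivAt_param {F F' : ℝ → ℝ → ℝ} (hF : Continuous (Function.uncurry F))
    (hF' : Continuous (Function.uncurry F'))
    (hd : ∀ s θ, HasDerivAt (fun s => F s θ) (F' s θ) s) (a b s : ℝ) :
    HasDerivAt (fun s => ∫ θ in a..b, F s θ) (∫ θ in a..b, F' s θ) s := by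
  have hcomp : IsCompact (Metric.closedBall s 1 ×ˢ uIcc a b) :=
    (isCompact_closedBall s 1).prod isCompact_uIcc
  obtain ⟨C, hC⟩ := hcomp.exists_bound_of_continuousOn (f := Function.uncurry F') hF'.continuousOn
  have hsec : ∀ s, Continuous (F s) := fun s => hF.comp (Continuous.prodMk_right s)
  have hsec' : ∀ s, Continuous (F' s) := fun s => hF'.comp (Continuous.prodMk_right s)
  refine (intervalIntegral.hasDerivAt_integral_of_dominated_loc_of_deriv_le
    (F := F) (F' := F') (bound := fun _ => C) (s := Metric.closedBall s 1)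
    (Metric.closedBall_mem_nhds s one_pos) ?_ ?_ ?_ ?_ ?_ ?_).2
  · exact Eventually.of_forall fun s => (hsec s).aestronglyMeasurable
  · exact (hsec s).intervalIntegrable _ _
  · exact (hsec' s).aestronglyMeasurable
  · refine Eventually.of_forall fun t ht x hx => ?_
    exact hC (x, t) ⟨hx, uIoc_subset_uIcc ht⟩
  · exact intervalIntegrable_const
  · exact Eventually.of_forall fun t _ x _ => hd x t

theorem ode_zero {M M1 M2 : ℝ → ℝ} {μ ρ : ℝ} (hμ : 0 ≤ μ) (hρ0 : 0 ≤ ρ) (hρ : μ * ρ ^ 2 < 4)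
    (h1 : ∀ s, HasDerivAt M (M1 s) s) (h2 : ∀ s, HasDerivAt M1 (M2 s) s) (h0 : M 0 = 0)
    (hode : ∀ s ∈ Ioo 0 ρ, M1 s + s * M2 s = -μ * s * M s) :
    ∀ s ∈ Icc 0 ρ, M s = 0 := by
  have hMc : Continuous M := continuous_iff_continuousAt.2 fun s => (h1 s).continuousAt
  have hM1c : Continuous M1 := continuous_iff_continuousAt.2 fun s => (h2 s).continuousAt
  obtain ⟨t, ht, hmax⟩ := isCompact_Icc.exists_isMaxOn (s := Icc 0 ρ) (f := fun s => |M s|)
    ⟨0, by simp [hρ0]⟩ hMc.abs.continuousOn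
  set K := |M t| with hK
  have hK0 : 0 ≤ K := abs_nonneg _
  have hMK : ∀ s ∈ Icc 0 ρ, |M s| ≤ K := fun s hs => hmax hs
  have hNd : ∀ s, HasDerivAt (fun s => s * M1 s) (1 * M1 s + s * M2 s) s := fun s =>
    (hasDerivAt_id s).mul (h2 s)
  -- first step
  have step1 : ∀ σ : ℝ, |σ| ≤ 1 → ∀ s ∈ Icc 0 ρ, 0 ≤ μ * K * s ^ 2 / 2 + σ * (s * M1 s) := by
    intro σ hσ s hs
    have hdd : ∀ s, HasDerivAt (fun s => μ * K * s ^ 2 / 2 + σ * (s * M1 s))
        (μ * K * s + σ * (1 * M1 s + s * M2 s)) s := by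
      intro s
      have e1 : HasDerivAt (fun s : ℝ => μ * K * s ^ 2 / 2) (μ * K * s) s := by
        have := ((hasDerivAt_pow 2 s).const_mul (μ * K)).div_const 2
        refine this.congr_deriv ?_
        simp; ring
      exact e1.add ((hNd s).const_mul σ)
    have hmono : MonotoneOn (fun s => μ * K * s ^ 2 / 2 + σ * (s * M1 s)) (Icc 0 ρ) := by
      apply monotoneOn_of_deriv_nonneg (convex_Icc _ _)
      · exact (continuous_iff_continuousAt.2 fun s => (hdd s).continuousAt).continuousOn
      · intro s _; exact (hdd s).differentiableAt.differentiableWithinAt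
      · intro s hs
        rw [interior_Icc] at hs
        rw [(hdd s).deriv, one_mul, hode s hs]
        have hb := hMK s ⟨hs.1.le, hs.2.le⟩
        have : |σ * M s| ≤ 1 * K := by
          rw [abs_mul]; exact mul_le_mul hσ hb (abs_nonneg _) zero_le_one
        have h3 := (abs_le.1 this).2
        have : 0 ≤ μ * s := mul_nonneg hμ hs.1.le
        nlinarith
    have := hmono (left_mem_Icc.2 hρ0) hs hs.1
    simpa using this
  have step2 : ∀ s ∈ Ioc 0 ρ, |M1 s| ≤ μ * K * s / 2 := by
    intro s hs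
    have a1 := step1 1 (by simp) s ⟨hs.1.le, hs.2⟩
    have a2 := step1 (-1) (by simp) s ⟨hs.1.le, hs.2⟩
    have hs0 := hs.1
    rw [abs_le]
    constructor
    · have : 0 ≤ s * (μ * K * s / 2 + M1 s) := by nlinarith
      have := nonneg_of_mul_nonneg_right this hs0
      linarith
    · have : 0 ≤ s * (μ * K * s / 2 - M1 s) := by nlinarith
      have := nonneg_of_mul_nonneg_right this hs0
      linarith
  have step3 : ∀ σ : ℝ, |σ| ≤ 1 → ∀ s ∈ Icc 0 ρ, 0 ≤ μ * K * s ^ 2 / 4 + σ * M s := by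
    intro σ hσ s hs
    have hdd : ∀ s, HasDerivAt (fun s => μ * K * s ^ 2 / 4 + σ * M s)
        (μ * K * s / 2 + σ * M1 s) s := by
      intro s
      have e1 : HasDerivAt (fun s : ℝ => μ * K * s ^ 2 / 4) (μ * K * s / 2) s := by
        have := ((hasDerivAt_pow 2 s).const_mul (μ * K)).div_const 4
        refine this.congr_deriv ?_
        simp; ring
      exact e1.add ((h1 s).const_mul σ)
    have hmono : MonotoneOn (fun s => μ * K * s ^ 2 / 4 + σ * M s) (Icc 0 ρ) := by
      apply monotoneOn_of_deriv_nonneg (convex_Icc _ _)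
      · exact (continuous_iff_continuousAt.2 fun s => (hdd s).continuousAt).continuousOn
      · intro s _; exact (hdd s).differentiableAt.differentiableWithinAt
      · intro s hs
        rw [interior_Icc] at hs
        rw [(hdd s).deriv]
        have hb := step2 s ⟨hs.1, hs.2.le⟩
        have h0 : 0 ≤ μ * K * s / 2 := le_trans (abs_nonneg _) hb
        have : |σ * M1 s| ≤ 1 * (μ * K * s / 2) := by
          rw [abs_mul]; exact mul_le_mul hσ hb (abs_nonneg _) zero_le_one
        have h3 := (abs_le.1 this).1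
        linarith
    have := hmono (left_mem_Icc.2 hρ0) hs hs.1
    simpa [h0] using this
  have step4 : K ≤ μ * K * t ^ 2 / 4 := by
    have a1 := step3 1 (by simp) t ht
    have a2 := step3 (-1) (by simp) t ht
    rw [hK, abs_le]
    constructor <;> linarith
  have hKz : K = 0 := by
    by_contra hne
    have hpos : 0 < K := lt_of_le_of_ne hK0 (Ne.symm hne)
    have : μ * t ^ 2 ≤ μ * ρ ^ 2 := by
      have := pow_le_pow_left₀ ht.1 ht.2 2
      exact mul_le_mul_of_nonneg_left this hμ
    nlinarith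
  intro s hs
  have := hMK s hs
  rw [hKz] at this
  exact abs_eq_zero.1 (le_antisymm this (abs_nonneg _))

/-- unit vector -/
noncomputable def ue (θ : ℝ) : P := (Real.cos θ, Real.sin θ)

theorem continuous_ue : Continuous ue := by unfold ue; fun_prop

/-- circle means of a global `C²` function which solves the Helmholtz equation on a disc and
vanishes at the centre -/
theorem circle_mean_global {V : P → ℝ} (hV : ContDiff ℝ 2 V) {z : P} {μ ρ : ℝ} (hμ : 0 ≤ μ)
    (hρ0 : 0 ≤ ρ) (hρ : μ * ρ ^ 2 < 4)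
    (heq : ∀ s ∈ Icc 0 ρ, ∀ θ, lap V (z + s • ue θ) = -μ * V (z + s • ue θ)) (hz : V z = 0) :
    ∀ s ∈ Icc 0 ρ, ∫ θ in (-Real.pi)..Real.pi, V (z + s • ue θ) = 0 := by
  have hVd : Differentiable ℝ V := hV.differentiable (by norm_num)
  have hVv : ∀ v, ContDiff ℝ 1 (dd v V) := fun v => dd_contDiff hV (by norm_num) v
  have hVvd : ∀ v, Differentiable ℝ (dd v V) := fun v => (hVv v).differentiable (by norm_num)
  have hVc : Continuous V := hV.continuous
  have hVvc : ∀ v, Continuous (dd v V) := fun v => (hVv v).continuous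
  have hVvw : ∀ v w, Continuous (dd w (dd v V)) := fun v w =>
    (dd_contDiff (m := 0) (hVv v) (by norm_num) w).continuous
  -- linearity of directional derivative
  have hlin : ∀ (f : P → ℝ) (w : P) (a b : ℝ), fderiv ℝ f w (a, b) = a * dd ex f w + b * dd ey f w := by
    intro f w a b
    have : ((a, b) : P) = a • ex + b • ey := by simp
    rw [this, map_add, map_smul, map_smul]; rfl
  set p : ℝ → ℝ → P := fun s θ => z + s • ue θ with hp
  have hpc : Continuous (Function.uncurry p) := by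
    have := continuous_ue
    simp only [hp, Function.uncurry_def]; fun_prop
  have dps : ∀ s θ, HasDerivAt (fun s => p s θ) (Real.cos θ, Real.sin θ) s := by
    intro s θ
    have := ((hasDerivAt_id s).smul_const (ue θ)).const_add z
    exact this.congr_deriv (by simp [ue])
  have dpθ : ∀ s θ, HasDerivAt (fun θ => p s θ) (-(s * Real.sin θ), s * Real.cos θ) θ := by
    intro s θ
    have h1 : HasDerivAt ue (-Real.sin θ, Real.cos θ) θ :=
      (Real.hasDerivAt_cos θ).prodMk (Real.hasDerivAt_sin θ)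
    have := (h1.const_smul s).const_add z
    exact this.congr_deriv (by simp)
  -- chain rule
  have cs : ∀ f : P → ℝ, Differentiable ℝ f → ∀ s θ, HasDerivAt (fun s => f (p s θ))
      (Real.cos θ * dd ex f (p s θ) + Real.sin θ * dd ey f (p s θ)) s := by
    intro f hf s θ
    have := (hf (p s θ)).hasFDerivAt.comp_hasDerivAt s (dps s θ)
    rwa [hlin] at this
  have cθ : ∀ f : P → ℝ, Differentiable ℝ f → ∀ s θ, HasDerivAt (fun θ => f (p s θ))
      (-(s * Real.sin θ) * dd ex f (p s θ) + s * Real.cos θ * dd ey f (p s θ)) θ := by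
    intro f hf s θ
    have := (hf (p s θ)).hasFDerivAt.comp_hasDerivAt θ (dpθ s θ)
    rwa [hlin] at this
  set A : ℝ → ℝ → ℝ := fun s θ => Real.cos θ * dd ex V (p s θ) + Real.sin θ * dd ey V (p s θ) with hA
  set B : ℝ → ℝ → ℝ := fun s θ =>
    Real.cos θ * (Real.cos θ * dd ex (dd ex V) (p s θ) + Real.sin θ * dd ey (dd ex V) (p s θ))
    + Real.sin θ * (Real.cos θ * dd ex (dd ey V) (p s θ) + Real.sin θ * dd ey (dd ey V) (p s θ))
    with hB
  have hcont : ∀ f : P → ℝ, Continuous f → Continuous (fun q : ℝ × ℝ => f (p q.1 q.2)) := by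
    intro f hf
    exact hf.comp hpc
  have hcomp1 := hcont V hVc
  have hcx := hcont _ (hVvc ex)
  have hcy := hcont _ (hVvc ey)
  have hcxx := hcont _ (hVvw ex ex)
  have hcxy := hcont _ (hVvw ex ey)
  have hcyx := hcont _ (hVvw ey ex)
  have hcyy := hcont _ (hVvw ey ey)
  have hAc : Continuous (Function.uncurry A) := by
    simp only [hA, Function.uncurry_def]; fun_prop
  have hBc : Continuous (Function.uncurry B) := by
    simp only [hB, Function.uncurry_def]; fun_prop
  have hAd : ∀ s θ, HasDerivAt (fun s => A s θ) (B s θ) s := by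
    intro s θ
    exact ((cs _ (hVvd ex) s θ).const_mul (Real.cos θ)).add
      ((cs _ (hVvd ey) s θ).const_mul (Real.sin θ))
  -- the angular derivative
  set C : ℝ → ℝ → ℝ := fun s θ => -(s * Real.sin θ) * dd ex V (p s θ) + s * Real.cos θ * dd ey V (p s θ)
    with hC
  have hCd : ∀ s θ, HasDerivAt (fun θ => C s θ)
      (s ^ 2 * lap V (p s θ) - s * (A s θ + s * B s θ)) θ := by
    intro s θ
    have e1 : HasDerivAt (fun θ => -(s * Real.sin θ)) (-(s * Real.cos θ)) θ :=
      ((Real.hasDerivAt_sin θ).const_mul s).neg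
    have e2 : HasDerivAt (fun θ => s * Real.cos θ) (s * (-Real.sin θ)) θ :=
      (Real.hasDerivAt_cos θ).const_mul s
    have := (e1.mul (cθ _ (hVvd ex) s θ)).add (e2.mul (cθ _ (hVvd ey) s θ))
    refine this.congr_deriv ?_
    simp only [hA, hB, lap]
    linear_combination (s ^ 2 * (dd ex (dd ex V) (p s θ) + dd ey (dd ey V) (p s θ))) * (Real.sin_sq_add_cos_sq θ)
  have hCint : ∀ s, ∫ θ in (-Real.pi)..Real.pi,
      (s ^ 2 * lap V (p s θ) - s * (A s θ + s * B s θ)) = 0 := by
    intro s
    have hpc1 : Continuous (fun θ => p s θ) := hpc.comp (Continuous.prodMk_right s)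
    rw [intervalIntegral.integral_eq_sub_of_hasDerivAt (fun θ _ => hCd s θ)]
    · simp only [hC, hp, ue, Real.cos_neg, Real.sin_neg, Real.sin_pi, Real.cos_pi]
      simp
    · apply Continuous.intervalIntegrable
      simp only [lap]
      have c1 : Continuous (fun θ => A s θ) := hAc.comp (Continuous.prodMk_right s)
      have c2 : Continuous (fun θ => B s θ) := hBc.comp (Continuous.prodMk_right s)
      have c3 : Continuous (fun θ => dd ex (dd ex V) (p s θ)) := (hVvw ex ex).comp hpc1
      have c4 : Continuous (fun θ => dd ey (dd ey V) (p s θ)) := (hVvw ey ey).comp hpc1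
      fun_prop
  -- the ODE
  set M : ℝ → ℝ := fun s => ∫ θ in (-Real.pi)..Real.pi, V (p s θ) with hM
  set M1 : ℝ → ℝ := fun s => ∫ θ in (-Real.pi)..Real.pi, A s θ with hM1
  set M2 : ℝ → ℝ := fun s => ∫ θ in (-Real.pi)..Real.pi, B s θ with hM2
  have h1 : ∀ s, HasDerivAt M (M1 s) s := fun s =>
    hasDerivAt_param (F := fun s θ => V (p s θ)) (F' := A) hcomp1 hAc (fun s θ => cs V hVd s θ) _ _ s
  have h2 : ∀ s, HasDerivAt M1 (M2 s) s := fun s =>
    hasDerivAt_param (F := A) (F' := B) hAc hBc hAd _ _ s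
  have h0 : M 0 = 0 := by
    simp [hM, hp, hz]
  have hode : ∀ s ∈ Ioo 0 ρ, M1 s + s * M2 s = -μ * s * M s := by
    intro s hs
    have hI := hCint s
    have c1 : Continuous (fun θ => A s θ) := hAc.comp (Continuous.prodMk_right s)
    have c2 : Continuous (fun θ => B s θ) := hBc.comp (Continuous.prodMk_right s)
    have c5 : Continuous (fun θ => V (p s θ)) := hcomp1.comp (Continuous.prodMk_right s)
    have hI2 : ∫ θ in (-Real.pi)..Real.pi, (s ^ 2 * lap V (p s θ) - s * (A s θ + s * B s θ))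
        = ∫ θ in (-Real.pi)..Real.pi, (s ^ 2 * (-μ * V (p s θ)) - s * (A s θ + s * B s θ)) := by
      apply intervalIntegral.integral_congr
      intro θ _
      simp only
      rw [heq s ⟨hs.1.le, hs.2.le⟩ θ]
    rw [hI2, intervalIntegral.integral_sub, intervalIntegral.integral_const_mul,
      intervalIntegral.integral_const_mul, intervalIntegral.integral_const_mul,
      intervalIntegral.integral_add, intervalIntegral.integral_const_mul] at hI
    · have hs0 : s ≠ 0 := hs.1.ne'
      have : s * ((M1 s + s * M2 s) - (-μ * s * M s)) = 0 := by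
        simp only [hM, hM1, hM2]
        linarith
      rcases mul_eq_zero.1 this with h | h
      · exact absurd h hs0
      · linarith
    · exact c1.intervalIntegrable _ _
    · exact (continuous_const.mul c2).intervalIntegrable _ _
    · exact (continuous_const.mul (continuous_const.mul c5)).intervalIntegrable _ _
    · exact (continuous_const.mul (c1.add (continuous_const.mul c2))).intervalIntegrable _ _
  exact ode_zero hμ hρ0 hρ h1 h2 h0 hode

/-- smooth cutoff functions -/
theorem exists_cutoff {K U : Set P} (hK : IsCompact K) (hU : IsOpen U) (hKU : K ⊆ U) :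
    ∃ χ : P → ℝ, ContDiff ℝ ∞ χ ∧ HasCompactSupport χ ∧ tsupport χ ⊆ U ∧
      (∃ W, IsOpen W ∧ K ⊆ W ∧ ∀ x ∈ W, χ x = 1) ∧ ∀ x, χ x ∈ Icc (0 : ℝ) 1 := by
  obtain ⟨K', hK'c, hKK', hK'U⟩ := exists_compact_between hK hU hKU
  obtain ⟨f, hf1, hf2, hf3⟩ := exists_contMDiffMap_one_nhds_of_subset_interior
    (n := ⊤) (modelWithCornersSelf ℝ P) hK.isClosed hKK'
  refine ⟨f, f.contMDiff.contDiff, ?_, ?_, ?_, hf3⟩
  · exact HasCompactSupport.intro hK'c hf2
  · refine (closure_minimal ?_ hK'c.isClosed).trans hK'U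
    intro x hx
    by_contra h
    exact hx (hf2 x h)
  · rw [Filter.Eventually, mem_nhdsSet_iff_exists] at hf1
    obtain ⟨W, hW, hKW, hWs⟩ := hf1
    exact ⟨W, hW, hKW, fun x hx => hWs hx⟩

/-- closed Euclidean disc -/
def disc (z : P) (ρ : ℝ) : Set P := {w | (w.1 - z.1) ^ 2 + (w.2 - z.2) ^ 2 ≤ ρ ^ 2}

theorem disc_closed (z : P) (ρ : ℝ) : IsClosed (disc z ρ) := by
  unfold disc
  exact isClosed_le (by fun_prop) continuous_const

theorem disc_subset_closedBall (z : P) {ρ : ℝ} (hρ : 0 ≤ ρ) : disc z ρ ⊆ Metric.closedBall z ρ := by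
  intro w hw
  simp only [disc, mem_ofPred_eq] at hw
  rw [Metric.mem_closedBall, Prod.dist_eq, Real.dist_eq, Real.dist_eq]
  apply max_le
  · apply abs_le_of_sq_le_sq _ hρ
    nlinarith [sq_nonneg (w.2 - z.2)]
  · apply abs_le_of_sq_le_sq _ hρ
    nlinarith [sq_nonneg (w.1 - z.1)]

theorem disc_compact (z : P) {ρ : ℝ} (hρ : 0 ≤ ρ) : IsCompact (disc z ρ) :=
  (isCompact_closedBall z ρ).of_isClosed_subset (disc_closed z ρ) (disc_subset_closedBall z hρ)

theorem ue_mem_disc (z : P) {s ρ : ℝ} (hs : s ∈ Icc 0 ρ) (θ : ℝ) : z + s • ue θ ∈ disc z ρ := by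
  simp only [disc, mem_ofPred_eq, ue, Prod.smul_mk, smul_eq_mul, Prod.fst_add, Prod.snd_add]
  have h := Real.sin_sq_add_cos_sq θ
  have : (z.1 + s * Real.cos θ - z.1) ^ 2 + (z.2 + s * Real.sin θ - z.2) ^ 2 = s ^ 2 := by
    linear_combination s ^ 2 * h
  rw [this]
  exact pow_le_pow_left₀ hs.1 hs.2 2

theorem circle_mean {U : Set P} (hU : IsOpen U) {V : P → ℝ} (hV : ContDiffOn ℝ 2 V U) {z : P}
    {μ ρ : ℝ} (hμ : 0 ≤ μ) (hρ0 : 0 ≤ ρ) (hρ : μ * ρ ^ 2 < 4) (hd : disc z ρ ⊆ U)
    (heq : ∀ w ∈ U, lap V w = -μ * V w) (hz : V z = 0) :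
    ∀ s ∈ Icc 0 ρ, ∫ θ in (-Real.pi)..Real.pi, V (z + s • ue θ) = 0 := by
  obtain ⟨χ, hχ, hχc, hχU, ⟨W, hW, hKW, hW1⟩, -⟩ := exists_cutoff (disc_compact z hρ0) hU hd
  set V' : P → ℝ := fun w => χ w * V w with hV'
  have hV'c : ContDiff ℝ 2 V' := by
    refine (contDiff_of_vanish hU hχc hχU (f := V') ?_ ?_).1
    · exact ((hχ.of_le two_le_inf).contDiffOn).mul hV
    · intro w hw
      simp [hV', image_eq_zero_of_notMem_tsupport hw]
  have hagree : ∀ w ∈ W ∩ U, V' w = V w := by
    intro w hw; simp [hV', hW1 w hw.1]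
  have hWU : IsOpen (W ∩ U) := hW.inter hU
  have key := circle_mean_global hV'c (z := z) hμ hρ0 hρ ?_ ?_
  · intro s hs
    have := key s hs
    rw [← this]
    apply intervalIntegral.integral_congr
    intro θ _
    have hm := ue_mem_disc z hs θ
    exact (hagree _ ⟨hKW hm, hd hm⟩).symm
  · intro s hs θ
    have hm := ue_mem_disc z hs θ
    have hm' : z + s • ue θ ∈ W ∩ U := ⟨hKW hm, hd hm⟩
    rw [lap_congr hWU hagree _ hm', hagree _ hm']
    exact heq _ hm'.2
  · have hm : z ∈ disc z ρ := by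
      simp only [disc, mem_ofPred_eq, sub_self]; nlinarith [sq_nonneg ρ]
    rw [hagree z ⟨hKW hm, hd hm⟩, hz]

end Pool.Agent.Lib.MP_dac83a
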