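import Pool.Agent.Lib.MP_dac83a.Basic

set_option autoImplicit false

open Set

namespace Pool.Agent.Lib.MP_dac83a

/-- abscissa of the `n`-th wall -/
noncomputable def X (n : ℕ) : ℝ := 17 / 16 - (1 / 16) * (1 / 2) ^ n

/-- the `n`-th wall: even walls leave an opening at the bottom, odd ones an opening at the top -/
def Wall (n : ℕ) : Set P :=
  {z | z.1 = X n ∧ ((Even n ∧ -(1 / 4) ≤ z.2) ∨ (¬ Even n ∧ z.2 ≤ 1 / 4))}

/-- the right arm (including a piece of the square) -/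
def Arm : Set P := {z | 1 / 2 < z.1 ∧ z.1 < 17 / 16 ∧ |z.2| < 1 / 2 ∧ ∀ n, z ∉ Wall n}

/-- rotation by a quarter turn -/
def rot (z : P) : P := (-z.2, z.1)

/-- the open square -/
def Sq : Set P := {z | |z.1| < 1 ∧ |z.2| < 1}

/-- the domain: the square with four zigzag arms -/
def Om : Set P :=
  {z | z ∈ Sq ∨ z ∈ Arm ∨ rot z ∈ Arm ∨ rot (rot z) ∈ Arm ∨ rot (rot (rot z)) ∈ Arm}

end Pool.Agent.Lib.MP_dac83a
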