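import Pool.Agent.Lib.MP_dac83a.Basic

set_option autoImplicit false

open MeasureTheory Set Filter Topology
open scoped ContDiff

namespace Pool.Agent.Lib.MP_dac83a.Even

/-- one-dimensional Picone/Riccati inequality -/
theorem picone {a c κ s : ℝ} (hac : a ≤ c) (hκ : 0 < κ) (h1 : κ * (s - a) < Real.pi / 2)
    (h2 : κ * (c - s) < Real.pi / 2) {g g' : ℝ → ℝ} (hg : ∀ x, HasDerivAt g (g' x) x)
    (hg' : Continuous g') (ha : Real.tan (κ * (a - s)) * g a ^ 2 = 0)
    (hc : Real.tan (κ * (c - s)) * g c ^ 2 = 0) :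
    κ ^ 2 * ∫ x in a..c, g x ^ 2 ≤ ∫ x in a..c, g' x ^ 2 := by
  have hgc : Continuous g := continuous_iff_continuousAt.2 fun x => (hg x).continuousAt
  have hcos : ∀ x ∈ Icc a c, Real.cos (κ * (x - s)) ≠ 0 := by
    intro x hx
    apply (Real.cos_pos_of_mem_Ioo _).ne'
    constructor
    · have : κ * (s - x) ≤ κ * (s - a) := by
        apply mul_le_mul_of_nonneg_left _ hκ.le
        linarith [hx.1]
      nlinarith
    · have : κ * (x - s) ≤ κ * (c - s) := by
        apply mul_le_mul_of_nonneg_left _ hκ.le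
        linarith [hx.2]
      linarith
  set H : ℝ → ℝ := fun x => κ * Real.tan (κ * (x - s)) * g x ^ 2 with hH
  set H' : ℝ → ℝ := fun x => κ * (1 / Real.cos (κ * (x - s)) ^ 2 * κ) * g x ^ 2 +
    κ * Real.tan (κ * (x - s)) * (2 * g x * g' x) with hH'
  have hd : ∀ x ∈ Icc a c, HasDerivAt H (H' x) x := by
    intro x hx
    have e1 : HasDerivAt (fun x => κ * (x - s)) κ x := by
      simpa using ((hasDerivAt_id x).sub_const s).const_mul κ
    have e2 := ((Real.hasDerivAt_tan (hcos x hx)).comp x e1).const_mul κ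
    have e3 : HasDerivAt (fun x => g x ^ 2) (2 * g x * g' x) x := by
      simpa using (hg x).fun_pow 2
    exact e2.mul e3
  have hH'c : ContinuousOn H' (Icc a c) := by
    have t1 : ContinuousOn (fun x => 1 / Real.cos (κ * (x - s)) ^ 2) (Icc a c) := by
      apply ContinuousOn.div continuousOn_const (by fun_prop)
      intro x hx
      exact pow_ne_zero 2 (hcos x hx)
    have t2 : ContinuousOn (fun x => Real.tan (κ * (x - s))) (Icc a c) := by
      intro x hx
      have e1 : ContinuousAt (fun x => κ * (x - s)) x := by fun_prop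
      exact (ContinuousAt.comp (g := Real.tan) (f := fun x => κ * (x - s))
        (Real.hasDerivAt_tan (hcos x hx)).continuousAt e1).continuousWithinAt
    simp only [hH']
    fun_prop
  have hftc : ∫ x in a..c, H' x = H c - H a := by
    apply intervalIntegral.integral_eq_sub_of_hasDerivAt
    · intro x hx
      rw [uIcc_of_le hac] at hx
      exact hd x hx
    · apply ContinuousOn.intervalIntegrable
      rw [uIcc_of_le hac]
      exact hH'c
  have hHc : H c = 0 := by
    simp only [hH]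
    rw [mul_assoc, hc, mul_zero]
  have hHa : H a = 0 := by
    simp only [hH]
    rw [mul_assoc, ha, mul_zero]
  have i1 : IntervalIntegrable (fun x => g' x ^ 2) volume a c := (hg'.pow 2).intervalIntegrable _ _
  have i2 : IntervalIntegrable (fun x => κ ^ 2 * g x ^ 2) volume a c :=
    (continuous_const.mul (hgc.pow 2)).intervalIntegrable _ _
  have i3 : IntervalIntegrable (fun x => -H' x) volume a c := by
    apply ContinuousOn.intervalIntegrable
    rw [uIcc_of_le hac]
    exact hH'c.neg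
  have key : ∫ x in a..c, (-H' x) ≤ ∫ x in a..c, (g' x ^ 2 - κ ^ 2 * g x ^ 2) := by
    apply intervalIntegral.integral_mono_on hac i3 (i1.sub i2)
    intro x hx
    have hcx := hcos x hx
    have e : Real.tan (κ * (x - s)) * Real.cos (κ * (x - s)) = Real.sin (κ * (x - s)) :=
      Real.tan_mul_cos hcx
    have e4 : 1 / Real.cos (κ * (x - s)) ^ 2 = 1 + Real.tan (κ * (x - s)) ^ 2 := by
      have := Real.sin_sq_add_cos_sq (κ * (x - s))
      rw [← e] at this
      field_simp
      nlinarith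
    simp only [hH']
    rw [e4]
    nlinarith [sq_nonneg (g' x + κ * Real.tan (κ * (x - s)) * g x)]
  rw [intervalIntegral.integral_sub i1 i2, intervalIntegral.integral_neg, hftc, hHc, hHa,
    intervalIntegral.integral_const_mul] at key
  linarith

theorem sqrt7 : Real.sqrt 7 < 2.6458 := by
  rw [Real.sqrt_lt' (by norm_num)]; norm_num

theorem sqrt14 : Real.sqrt 14 < 3.7417 := by
  rw [Real.sqrt_lt' (by norm_num)]; norm_num

/-- vanishing at both ends of `[0, 17/16]` -/
theorem dir7 {g g' : ℝ → ℝ} (hg : ∀ x, HasDerivAt g (g' x) x) (hg' : Continuous g')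
    (h0 : g 0 = 0) (hL : g (17 / 16) = 0) :
    7 * ∫ x in (0 : ℝ)..(17 / 16), g x ^ 2 ≤ ∫ x in (0 : ℝ)..(17 / 16), g' x ^ 2 := by
  have h := picone (a := 0) (c := 17 / 16) (κ := Real.sqrt 7) (s := 17 / 32) (by norm_num)
    (by positivity) ?_ ?_ hg hg' (by rw [h0]; ring) (by rw [hL]; ring)
  · rwa [Real.sq_sqrt (by norm_num)] at h
  · have := sqrt7
    have := Real.pi_gt_d2
    nlinarith
  · have := sqrt7
    have := Real.pi_gt_d2
    nlinarith

/-- vanishing at the right end of `[3/4, 17/16]` -/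
theorem strip14 {g g' : ℝ → ℝ} (hg : ∀ x, HasDerivAt g (g' x) x) (hg' : Continuous g')
    (hL : g (17 / 16) = 0) :
    14 * ∫ x in (3 / 4 : ℝ)..(17 / 16), g x ^ 2 ≤ ∫ x in (3 / 4 : ℝ)..(17 / 16), g' x ^ 2 := by
  have h := picone (a := 3 / 4) (c := 17 / 16) (κ := Real.sqrt 14) (s := 3 / 4) (by norm_num)
    (by positivity) ?_ ?_ hg hg' (by simp) (by rw [hL]; ring)
  · rwa [Real.sq_sqrt (by norm_num)] at h
  · have := Real.pi_gt_d2
    nlinarith
  · have := sqrt14
    have := Real.pi_gt_d2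
    nlinarith

/-- vanishing at both ends of `[0, 3/4]` -/
theorem dir14 {g g' : ℝ → ℝ} (hg : ∀ x, HasDerivAt g (g' x) x) (hg' : Continuous g')
    (h0 : g 0 = 0) (hL : g (3 / 4) = 0) :
    14 * ∫ x in (0 : ℝ)..(3 / 4), g x ^ 2 ≤ ∫ x in (0 : ℝ)..(3 / 4), g' x ^ 2 := by
  have h := picone (a := 0) (c := 3 / 4) (κ := Real.sqrt 14) (s := 3 / 8) (by norm_num)
    (by positivity) ?_ ?_ hg hg' (by rw [h0]; ring) (by rw [hL]; ring)
  · rwa [Real.sq_sqrt (by norm_num)] at h
  · have := sqrt14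
    have := Real.pi_gt_d2
    nlinarith
  · have := sqrt14
    have := Real.pi_gt_d2
    nlinarith

/-- mean zero on `[0, 3/4]`, tested against another function -/
theorem mz_test {m g g' : ℝ → ℝ} (hm : Continuous m) (hg : ∀ x, HasDerivAt g (g' x) x)
    (hg' : Continuous g') (h0 : ∫ x in (0 : ℝ)..(3 / 4), m x = 0) :
    ∫ x in (0 : ℝ)..(3 / 4), m x * g x ≤
      1 / 2 * (∫ x in (0 : ℝ)..(3 / 4), m x ^ 2) + 1 / 28 * ∫ x in (0 : ℝ)..(3 / 4), g' x ^ 2 := by
  have hgc : Continuous g := continuous_iff_continuousAt.2 fun x => (hg x).continuousAt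
  set M : ℝ → ℝ := fun x => ∫ t in (0 : ℝ)..x, m t with hM
  have hMd : ∀ x, HasDerivAt M (m x) x := fun x =>
    intervalIntegral.integral_hasDerivAt_right (hm.intervalIntegrable _ _)
      (hm.stronglyMeasurableAtFilter _ _) hm.continuousAt
  have hMc : Continuous M := continuous_iff_continuousAt.2 fun x => (hMd x).continuousAt
  have hM0 : M 0 = 0 := by simp [hM]
  have hM1 : M (3 / 4) = 0 := h0
  have h14 := dir14 hMd hm hM0 hM1
  have hp : ∫ x in (0 : ℝ)..(3 / 4), (m x * g x + M x * g' x) = M (3 / 4) * g (3 / 4) - M 0 * g 0 := by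
    apply intervalIntegral.integral_eq_sub_of_hasDerivAt (f := fun x => M x * g x)
    · intro x _
      exact (hMd x).mul (hg x)
    · apply Continuous.intervalIntegrable
      fun_prop
  rw [hM0, hM1] at hp
  have i1 : IntervalIntegrable (fun x => m x * g x) volume 0 (3 / 4) :=
    (hm.mul hgc).intervalIntegrable _ _
  have i2 : IntervalIntegrable (fun x => M x * g' x) volume 0 (3 / 4) :=
    (hMc.mul hg').intervalIntegrable _ _
  rw [intervalIntegral.integral_add i1 i2] at hp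
  have i3 : IntervalIntegrable (fun x => 7 * M x ^ 2) volume 0 (3 / 4) := by
    apply Continuous.intervalIntegrable; fun_prop
  have i4 : IntervalIntegrable (fun x => 1 / 28 * g' x ^ 2) volume 0 (3 / 4) := by
    apply Continuous.intervalIntegrable; fun_prop
  have key : ∫ x in (0 : ℝ)..(3 / 4), -(M x * g' x) ≤
      ∫ x in (0 : ℝ)..(3 / 4), (7 * M x ^ 2 + 1 / 28 * g' x ^ 2) := by
    apply intervalIntegral.integral_mono_on (by norm_num) i2.neg (i3.add i4)
    intro x _
    show -(M x * g' x) ≤ 7 * M x ^ 2 + 1 / 28 * g' x ^ 2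
    nlinarith [sq_nonneg (14 * M x + g' x)]
  rw [intervalIntegral.integral_neg, intervalIntegral.integral_add i3 i4,
    intervalIntegral.integral_const_mul, intervalIntegral.integral_const_mul] at key
  linarith

/-- mean zero inequality on `[0, 3/4]` -/
theorem mz {g g' : ℝ → ℝ} (hg : ∀ x, HasDerivAt g (g' x) x)
    (hg' : Continuous g') (h0 : ∫ x in (0 : ℝ)..(3 / 4), g x = 0) :
    14 * ∫ x in (0 : ℝ)..(3 / 4), g x ^ 2 ≤ ∫ x in (0 : ℝ)..(3 / 4), g' x ^ 2 := by
  have hgc : Continuous g := continuous_iff_continuousAt.2 fun x => (hg x).continuousAt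
  have h := mz_test hgc hg hg' h0
  have e : ∀ x, g x * g x = g x ^ 2 := fun x => by ring
  simp only [e] at h
  linarith

/-- `C^1` functions vanishing outside the open square of half-side `17/16` -/
structure Nice (ψ : P → ℝ) : Prop where
  smooth : ContDiff ℝ 1 ψ
  van : ∀ z : P, 17 / 16 ≤ |z.1| ∨ 17 / 16 ≤ |z.2| → ψ z = 0

theorem slice_x {ψ : P → ℝ} (h : Nice ψ) (x y : ℝ) :
    HasDerivAt (fun x => ψ (x, y)) (dd ex ψ (x, y)) x := by
  have h1 : HasFDerivAt ψ (fderiv ℝ ψ (x, y)) (x, y) :=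
    ((h.smooth.differentiable (by norm_num)) (x, y)).hasFDerivAt
  have h2 : HasDerivAt (fun x : ℝ => ((x, y) : P)) (1, 0) x :=
    (hasDerivAt_id x).prodMk (hasDerivAt_const x y)
  exact h1.comp_hasDerivAt x h2

theorem slice_y {ψ : P → ℝ} (h : Nice ψ) (x y : ℝ) :
    HasDerivAt (fun y => ψ (x, y)) (dd ey ψ (x, y)) y := by
  have h1 : HasFDerivAt ψ (fderiv ℝ ψ (x, y)) (x, y) :=
    ((h.smooth.differentiable (by norm_num)) (x, y)).hasFDerivAt
  have h2 : HasDerivAt (fun y : ℝ => ((x, y) : P)) (0, 1) y :=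
    (hasDerivAt_const y x).prodMk (hasDerivAt_id y)
  exact h1.comp_hasDerivAt y h2

theorem Nice.dd_cont {ψ : P → ℝ} (h : Nice ψ) (v : P) : Continuous (dd v ψ) :=
  (dd_contDiff (m := 0) h.smooth (by norm_num) v).continuous

theorem Nice.dd_van {ψ : P → ℝ} (h : Nice ψ) (v : P) (z : P)
    (hz : 17 / 16 < |z.1| ∨ 17 / 16 < |z.2|) : dd v ψ z = 0 := by
  have : ψ =ᶠ[𝓝 z] (fun _ => (0 : ℝ)) := by
    rcases hz with hz | hz
    · have : ∀ᶠ w : P in 𝓝 z, 17 / 16 < |w.1| :=
        (continuous_fst.abs.continuousAt (x := z)).eventually (lt_mem_nhds hz)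
      filter_upwards [this] with w hw using h.van w (Or.inl hw.le)
    · have : ∀ᶠ w : P in 𝓝 z, 17 / 16 < |w.2| :=
        (continuous_snd.abs.continuousAt (x := z)).eventually (lt_mem_nhds hz)
      filter_upwards [this] with w hw using h.van w (Or.inr hw.le)
  simp only [dd, this.fderiv_eq, fderiv_fun_const]
  rfl

theorem integrable_sq {F : P → ℝ} (hc : Continuous F)
    (hv : ∀ z : P, 17 / 16 < |z.1| ∨ 17 / 16 < |z.2| → F z = 0) : Integrable F := by
  apply hc.integrable_of_hasCompactSupport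
  apply HasCompactSupport.intro (isCompact_Icc (a := (-(17 / 16) : ℝ)) (b := 17 / 16) |>.prod
    (isCompact_Icc (a := (-(17 / 16) : ℝ)) (b := 17 / 16)))
  intro z hz
  apply hv
  by_contra hcon
  push Not at hcon
  apply hz
  rw [abs_le, abs_le] at hcon
  exact ⟨hcon.1, hcon.2⟩

/-- functions of `y`, inequality on every horizontal line -/
theorem fub_x {s t : Set ℝ} (ht : MeasurableSet t) {F G : P → ℝ} (hF : IntegrableOn F (s ×ˢ t))
    (hG : IntegrableOn G (s ×ˢ t)) (h : ∀ y ∈ t, ∫ x in s, F (x, y) ≤ ∫ x in s, G (x, y)) :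
    ∫ z in s ×ˢ t, F z ≤ ∫ z in s ×ˢ t, G z := by
  have hF' : Integrable F ((volume.restrict s).prod (volume.restrict t)) := by
    rw [Measure.prod_restrict]; exact hF
  have hG' : Integrable G ((volume.restrict s).prod (volume.restrict t)) := by
    rw [Measure.prod_restrict]; exact hG
  have e : (volume : Measure P).restrict (s ×ˢ t) =
      (volume.restrict s).prod (volume.restrict t) := by
    rw [Measure.prod_restrict]; rfl
  rw [e, integral_prod_symm _ hF', integral_prod_symm _ hG']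
  apply integral_mono_ae hF'.integral_prod_right hG'.integral_prod_right
  filter_upwards [ae_restrict_mem ht] with y hy using h y hy

theorem fub_y {s t : Set ℝ} (hs : MeasurableSet s) {F G : P → ℝ} (hF : IntegrableOn F (s ×ˢ t))
    (hG : IntegrableOn G (s ×ˢ t)) (h : ∀ x ∈ s, ∫ y in t, F (x, y) ≤ ∫ y in t, G (x, y)) :
    ∫ z in s ×ˢ t, F z ≤ ∫ z in s ×ˢ t, G z := by
  have hF' : Integrable F ((volume.restrict s).prod (volume.restrict t)) := by
    rw [Measure.prod_restrict]; exact hF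
  have hG' : Integrable G ((volume.restrict s).prod (volume.restrict t)) := by
    rw [Measure.prod_restrict]; exact hG
  have e : (volume : Measure P).restrict (s ×ˢ t) =
      (volume.restrict s).prod (volume.restrict t) := by
    rw [Measure.prod_restrict]; rfl
  rw [e, integral_prod _ hF', integral_prod _ hG']
  apply integral_mono_ae hF'.integral_prod_left hG'.integral_prod_left
  filter_upwards [ae_restrict_mem hs] with x hx using h x hx

/-- half-line integrals of functions vanishing beyond `17/16` -/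
theorem Ioi_eq {a : ℝ} (ha : a ≤ 17 / 16) {f : ℝ → ℝ} (hf : ∀ x, 17 / 16 < x → f x = 0) :
    ∫ x in Ioi a, f x = ∫ x in a..(17 / 16), f x := by
  rw [intervalIntegral.integral_of_le ha]
  apply setIntegral_eq_of_subset_of_forall_sdiff_eq_zero measurableSet_Ioi
    (fun x hx => hx.1)
  intro x hx
  apply hf
  by_contra hcon
  push Not at hcon
  exact hx.2 ⟨hx.1, hcon⟩

theorem quad {F : P → ℝ} (hF : Integrable F) (h1 : ∀ x y, F (-x, y) = F (x, y))
    (h2 : ∀ x y, F (x, -y) = F (x, y)) :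
    ∫ z, F z = 4 * ∫ z in Ioi 0 ×ˢ Ioi 0, F z := by
  have hF' : Integrable F ((volume.restrict (Ioi (0:ℝ))).prod (volume.restrict (Ioi (0:ℝ)))) := by
    rw [Measure.prod_restrict]; exact hF.integrableOn
  have e : (volume : Measure P).restrict (Ioi 0 ×ˢ Ioi 0) =
      (volume.restrict (Ioi 0)).prod (volume.restrict (Ioi 0)) := by
    rw [Measure.prod_restrict]; rfl
  rw [e, integral_prod _ hF']
  have e1 : ∫ z, F z = ∫ x, ∫ y, F (x, y) := integral_prod _ hF
  rw [e1]
  have e2 : ∀ x, ∫ y, F (x, y) = 2 * ∫ y in Ioi 0, F (x, y) := by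
    intro x
    rw [← integral_comp_abs (f := fun y => F (x, y))]
    congr 1
    ext y
    rcases abs_choice y with h | h
    · rw [h]
    · rw [h, h2]
  simp only [e2]
  have e3 : ∫ x : ℝ, 2 * ∫ y in Ioi 0, F (x, y) = ∫ x : ℝ, (fun x : ℝ => 2 * ∫ y in Ioi 0, F (x, y)) |x| := by
    congr 1
    ext x
    rcases abs_choice x with h | h
    · simp only [h]
    · simp only [h, h1]
  rw [e3, integral_comp_abs (f := fun x => 2 * ∫ y in Ioi 0, F (x, y)), integral_const_mul]
  ring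

theorem parity_x {ψ : P → ℝ} (h : Nice ψ) {σ : ℝ} (hσ : ∀ x y, ψ (-x, y) = σ * ψ (x, y)) (x y : ℝ) :
    dd ex ψ (-x, y) = -(σ * dd ex ψ (x, y)) ∧ dd ey ψ (-x, y) = σ * dd ey ψ (x, y) := by
  constructor
  · have h1 : HasDerivAt (fun x => ψ (-x, y)) (dd ex ψ (-x, y) * (-1)) x :=
      HasDerivAt.comp x (slice_x h (-x) y) (hasDerivAt_neg x)
    have h2 : HasDerivAt (fun x => ψ (-x, y)) (σ * dd ex ψ (x, y)) x := by
      simp only [hσ]
      exact (slice_x h x y).const_mul σ
    have := h1.unique h2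
    linarith
  · have h1 : HasDerivAt (fun y => ψ (-x, y)) (dd ey ψ (-x, y)) y := slice_y h (-x) y
    have h2 : HasDerivAt (fun y => ψ (-x, y)) (σ * dd ey ψ (x, y)) y := by
      simp only [hσ]
      exact (slice_y h x y).const_mul σ
    exact h1.unique h2

theorem parity_y {ψ : P → ℝ} (h : Nice ψ) {σ : ℝ} (hσ : ∀ x y, ψ (x, -y) = σ * ψ (x, y)) (x y : ℝ) :
    dd ex ψ (x, -y) = σ * dd ex ψ (x, y) ∧ dd ey ψ (x, -y) = -(σ * dd ey ψ (x, y)) := by
  constructor
  · have h1 : HasDerivAt (fun x => ψ (x, -y)) (dd ex ψ (x, -y)) x := slice_x h x (-y)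
    have h2 : HasDerivAt (fun x => ψ (x, -y)) (σ * dd ex ψ (x, y)) x := by
      simp only [hσ]
      exact (slice_x h x y).const_mul σ
    exact h1.unique h2
  · have h1 : HasDerivAt (fun y => ψ (x, -y)) (dd ey ψ (x, -y) * (-1)) y :=
      HasDerivAt.comp y (slice_y h x (-y)) (hasDerivAt_neg y)
    have h2 : HasDerivAt (fun y => ψ (x, -y)) (σ * dd ey ψ (x, y)) y := by
      simp only [hσ]
      exact (slice_y h x y).const_mul σ
    have := h1.unique h2
    linarith

theorem Nice.cont {ψ : P → ℝ} (h : Nice ψ) : Continuous ψ := h.smooth.continuous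

theorem Nice.int_sq {ψ : P → ℝ} (h : Nice ψ) : Integrable (fun z => ψ z ^ 2) := by
  apply integrable_sq (h.cont.pow 2)
  intro z hz
  show ψ z ^ 2 = 0
  rw [h.van z (hz.imp le_of_lt le_of_lt)]
  ring

theorem Nice.int_dd {ψ : P → ℝ} (h : Nice ψ) (v : P) : Integrable (fun z => dd v ψ z ^ 2) := by
  apply integrable_sq ((h.dd_cont v).pow 2)
  intro z hz
  show dd v ψ z ^ 2 = 0
  rw [h.dd_van v z hz]
  ring

theorem Nice.int_self {ψ : P → ℝ} (h : Nice ψ) : Integrable ψ := by
  apply integrable_sq h.cont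
  intro z hz
  rw [h.van z (hz.imp le_of_lt le_of_lt)]

theorem lt_abs {x a : ℝ} (h : a < x) : a < |x| := h.trans_le (le_abs_self x)

theorem odd_part {ψ : P → ℝ} (h : Nice ψ) (hx : ∀ x y, ψ (-x, y) = -ψ (x, y))
    (hy : ∀ x y, ψ (x, -y) = -ψ (x, y)) :
    14 * ∫ z, ψ z ^ 2 ≤ ∫ z, (dd ex ψ z ^ 2 + dd ey ψ z ^ 2) := by
  have hx' : ∀ x y, ψ (-x, y) = (-1) * ψ (x, y) := fun x y => by rw [hx]; ring
  have hy' : ∀ x y, ψ (x, -y) = (-1) * ψ (x, y) := fun x y => by rw [hy]; ring
  have ix := h.int_dd ex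
  have iy := h.int_dd ey
  rw [integral_add ix iy]
  rw [quad h.int_sq (fun x y => by rw [hx]; ring) (fun x y => by rw [hy]; ring)]
  rw [quad ix (fun x y => by rw [(parity_x h hx' x y).1]; ring)
    (fun x y => by rw [(parity_y h hy' x y).1]; ring)]
  rw [quad iy (fun x y => by rw [(parity_x h hx' x y).2]; ring)
    (fun x y => by rw [(parity_y h hy' x y).2]; ring)]
  have k1 : ∫ z in Ioi 0 ×ˢ Ioi 0, 7 * ψ z ^ 2 ≤ ∫ z in Ioi 0 ×ˢ Ioi 0, dd ex ψ z ^ 2 := by
    apply fub_x measurableSet_Ioi (h.int_sq.const_mul 7).integrableOn ix.integrableOn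
    intro y _
    rw [integral_const_mul, Ioi_eq (by norm_num), Ioi_eq (by norm_num)]
    · apply dir7 (fun x => slice_x h x y)
      · exact (h.dd_cont ex).comp (by fun_prop)
      · have := hx 0 y
        rw [neg_zero] at this
        linarith
      · exact h.van _ (Or.inl (le_abs_self _))
    · intro x hx
      rw [h.dd_van ex (x, y) (Or.inl (lt_abs hx))]; ring
    · intro x hx
      rw [h.van (x, y) (Or.inl (lt_abs hx).le)]; ring
  have k2 : ∫ z in Ioi 0 ×ˢ Ioi 0, 7 * ψ z ^ 2 ≤ ∫ z in Ioi 0 ×ˢ Ioi 0, dd ey ψ z ^ 2 := by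
    apply fub_y measurableSet_Ioi (h.int_sq.const_mul 7).integrableOn iy.integrableOn
    intro x _
    rw [integral_const_mul, Ioi_eq (by norm_num), Ioi_eq (by norm_num)]
    · apply dir7 (fun y => slice_y h x y)
      · exact (h.dd_cont ey).comp (by fun_prop)
      · have := hy x 0
        rw [neg_zero] at this
        linarith
      · exact h.van _ (Or.inr (le_abs_self _))
    · intro y hy
      rw [h.dd_van ey (x, y) (Or.inr (lt_abs hy))]; ring
    · intro y hy
      rw [h.van (x, y) (Or.inr (lt_abs hy).le)]; ring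
  rw [integral_const_mul] at k1 k2
  linarith

/-- the core square -/
theorem core {ψ : P → ℝ} (h : Nice ψ)
    (h0 : ∫ z in Ioc (0 : ℝ) (3 / 4) ×ˢ Ioc (0 : ℝ) (3 / 4), ψ z = 0) :
    14 * ∫ z in Ioc (0 : ℝ) (3 / 4) ×ˢ Ioc (0 : ℝ) (3 / 4), ψ z ^ 2 ≤
      (∫ z in Ioc (0 : ℝ) (3 / 4) ×ˢ Ioc (0 : ℝ) (3 / 4), dd ex ψ z ^ 2) +
      ∫ z in Ioc (0 : ℝ) (3 / 4) ×ˢ Ioc (0 : ℝ) (3 / 4), dd ey ψ z ^ 2 := by
  have icont : ∀ {F : P → ℝ}, Continuous F →
      IntegrableOn F (Ioc (0 : ℝ) (3 / 4) ×ˢ Ioc (0 : ℝ) (3 / 4)) := by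
    intro F hF
    have : IntegrableOn F (Icc (0 : ℝ) (3 / 4) ×ˢ Icc (0 : ℝ) (3 / 4)) :=
      hF.continuousOn.integrableOn_compact (isCompact_Icc.prod isCompact_Icc)
    exact this.mono_set (Set.prod_mono Ioc_subset_Icc_self Ioc_subset_Icc_self)
  have hb : (0 : ℝ) ≤ 3 / 4 := by norm_num
  set m : ℝ → ℝ := fun y => (4 / 3) * ∫ x in (0 : ℝ)..(3 / 4), ψ (x, y) with hm
  have hmc : Continuous m := by
    apply continuous_const.mul
    apply intervalIntegral.continuous_parametric_intervalIntegral_of_continuous'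
    exact h.cont.comp (continuous_snd.prodMk continuous_fst)
  have hmy : ∀ y, ∫ x in Ioc (0 : ℝ) (3 / 4), ψ (x, y) = 3 / 4 * m y := by
    intro y
    rw [hm, ← intervalIntegral.integral_of_le hb]
    ring
  have cx : ∀ y, Continuous (fun x => ψ (x, y)) := fun y => h.cont.comp (by fun_prop)
  have cy : ∀ x, Continuous (fun y => ψ (x, y)) := fun x => h.cont.comp (by fun_prop)
  have cm2 : Continuous (fun z : P => m z.2 ^ 2) := by fun_prop
  have cψ := h.cont
  have cdx := h.dd_cont ex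
  have cdy := h.dd_cont ey
  -- (c')
  have hc1 : ∫ z in Ioc (0 : ℝ) (3 / 4) ×ˢ Ioc (0 : ℝ) (3 / 4), m z.2 ^ 2 ≤
      ∫ z in Ioc (0 : ℝ) (3 / 4) ×ˢ Ioc (0 : ℝ) (3 / 4), m z.2 * ψ z := by
    apply fub_x measurableSet_Ioc (icont cm2) (icont (by fun_prop))
    intro y _
    show ∫ x in Ioc (0 : ℝ) (3 / 4), m y ^ 2 ≤ ∫ x in Ioc (0 : ℝ) (3 / 4), m y * ψ (x, y)
    rw [integral_const_mul, hmy]
    simp
    apply le_of_eq
    rw [max_eq_left (by norm_num)]
    ring
  -- (a')
  have ha1 : ∫ z in Ioc (0 : ℝ) (3 / 4) ×ˢ Ioc (0 : ℝ) (3 / 4), 14 * ψ z ^ 2 ≤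
      ∫ z in Ioc (0 : ℝ) (3 / 4) ×ˢ Ioc (0 : ℝ) (3 / 4), (dd ex ψ z ^ 2 + 14 * m z.2 ^ 2) := by
    apply fub_x measurableSet_Ioc (icont (by fun_prop)) (icont (by fun_prop))
    intro y _
    show ∫ x in Ioc (0 : ℝ) (3 / 4), 14 * ψ (x, y) ^ 2 ≤
      ∫ x in Ioc (0 : ℝ) (3 / 4), (dd ex ψ (x, y) ^ 2 + 14 * m y ^ 2)
    rw [← intervalIntegral.integral_of_le hb, ← intervalIntegral.integral_of_le hb]
    have hmz := mz (g := fun x => ψ (x, y) - m y) (g' := fun x => dd ex ψ (x, y))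
      (fun x => (slice_x h x y).sub_const (m y)) ((h.dd_cont ex).comp (by fun_prop)) (by
        rw [intervalIntegral.integral_sub ((cx y).intervalIntegrable _ _)
          (continuous_const.intervalIntegrable _ _), intervalIntegral.integral_of_le hb, hmy y]
        simp)
    have e1 : ∫ x in (0 : ℝ)..(3 / 4), (ψ (x, y) - m y) ^ 2 =
        (∫ x in (0 : ℝ)..(3 / 4), ψ (x, y) ^ 2) - 3 / 4 * m y ^ 2 := by
      have e2 : ∀ x, (ψ (x, y) - m y) ^ 2 = ψ (x, y) ^ 2 - 2 * m y * ψ (x, y) + m y ^ 2 := by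
        intro x; ring
      simp only [e2]
      rw [intervalIntegral.integral_add, intervalIntegral.integral_sub,
        intervalIntegral.integral_const_mul, intervalIntegral.integral_const,
        intervalIntegral.integral_of_le hb (f := fun x => ψ (x, y)), hmy y]
      · simp
        ring
      · apply Continuous.intervalIntegrable; have := cx y; fun_prop
      · apply Continuous.intervalIntegrable; have := cx y; fun_prop
      · apply Continuous.intervalIntegrable; have := cx y; fun_prop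
      · apply Continuous.intervalIntegrable; fun_prop
    rw [e1] at hmz
    rw [intervalIntegral.integral_const_mul, intervalIntegral.integral_add,
      intervalIntegral.integral_const]
    · simp only [smul_eq_mul, sub_zero]
      linarith
    · apply Continuous.intervalIntegrable
      have : Continuous (fun x => dd ex ψ (x, y)) := cdx.comp (by fun_prop)
      fun_prop
    · apply Continuous.intervalIntegrable; fun_prop
  -- mean of m
  have hm0 : ∫ y in (0 : ℝ)..(3 / 4), m y = 0 := by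
    have hF' : Integrable ψ ((volume.restrict (Ioc (0:ℝ) (3 / 4))).prod
        (volume.restrict (Ioc (0:ℝ) (3 / 4)))) := by
      rw [Measure.prod_restrict]; exact icont cψ
    have e : (volume : Measure P).restrict (Ioc 0 (3 / 4) ×ˢ Ioc 0 (3 / 4)) =
        (volume.restrict (Ioc 0 (3 / 4))).prod (volume.restrict (Ioc 0 (3 / 4))) := by
      rw [Measure.prod_restrict]; rfl
    rw [e, integral_prod_symm _ hF'] at h0
    simp only [hmy] at h0
    rw [intervalIntegral.integral_of_le hb]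
    rw [integral_const_mul] at h0
    linarith
  -- (b')
  have hb1 : ∫ z in Ioc (0 : ℝ) (3 / 4) ×ˢ Ioc (0 : ℝ) (3 / 4), m z.2 * ψ z ≤
      ∫ z in Ioc (0 : ℝ) (3 / 4) ×ˢ Ioc (0 : ℝ) (3 / 4),
        (1 / 2 * m z.2 ^ 2 + 1 / 28 * dd ey ψ z ^ 2) := by
    apply fub_y measurableSet_Ioc (icont (by fun_prop)) (icont (by fun_prop))
    intro x _
    rw [← intervalIntegral.integral_of_le hb, ← intervalIntegral.integral_of_le hb]
    have hmz := mz_test hmc (slice_y h x) ((h.dd_cont ey).comp (by fun_prop)) hm0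
    rw [intervalIntegral.integral_add, intervalIntegral.integral_const_mul,
      intervalIntegral.integral_const_mul]
    · exact hmz
    · apply Continuous.intervalIntegrable; fun_prop
    · apply Continuous.intervalIntegrable
      have : Continuous (fun y => dd ey ψ (x, y)) := cdy.comp (by fun_prop)
      fun_prop
  rw [integral_const_mul, integral_add (icont (by fun_prop)) (icont (by fun_prop)),
    integral_const_mul] at ha1
  rw [integral_add (icont (by fun_prop)) (icont (by fun_prop)), integral_const_mul,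
    integral_const_mul] at hb1
  linarith

theorem even_part {ψ : P → ℝ} (h : Nice ψ) (hx : ∀ x y, ψ (-x, y) = ψ (x, y))
    (hy : ∀ x y, ψ (x, -y) = ψ (x, y))
    (h0 : ∫ z in Ioc (0 : ℝ) (3 / 4) ×ˢ Ioc (0 : ℝ) (3 / 4), ψ z = 0) :
    14 * ∫ z, ψ z ^ 2 ≤ ∫ z, (dd ex ψ z ^ 2 + dd ey ψ z ^ 2) := by
  have hx' : ∀ x y, ψ (-x, y) = 1 * ψ (x, y) := fun x y => by rw [hx]; ring
  have hy' : ∀ x y, ψ (x, -y) = 1 * ψ (x, y) := fun x y => by rw [hy]; ring
  have i0 := h.int_sq
  have ix := h.int_dd ex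
  have iy := h.int_dd ey
  rw [integral_add ix iy]
  rw [quad h.int_sq (fun x y => by rw [hx]) (fun x y => by rw [hy])]
  rw [quad ix (fun x y => by rw [(parity_x h hx' x y).1]; ring)
    (fun x y => by rw [(parity_y h hy' x y).1]; ring)]
  rw [quad iy (fun x y => by rw [(parity_x h hx' x y).2]; ring)
    (fun x y => by rw [(parity_y h hy' x y).2]; ring)]
  have hu : Ioi (0 : ℝ) = Ioc 0 (3 / 4) ∪ Ioi (3 / 4) := (Ioc_union_Ioi_eq_Ioi (by norm_num)).symm
  have hsplit : ∀ F : P → ℝ, Integrable F → ∫ z in Ioi (0:ℝ) ×ˢ Ioi (0:ℝ), F z =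
      (∫ z in Ioc (0 : ℝ) (3 / 4) ×ˢ Ioc (0 : ℝ) (3 / 4), F z) +
      (∫ z in Ioc (0 : ℝ) (3 / 4) ×ˢ Ioi (3 / 4 : ℝ), F z) +
      ∫ z in Ioi (3 / 4 : ℝ) ×ˢ Ioi (0 : ℝ), F z := by
    intro F hF
    have d1 : Disjoint (Ioc (0 : ℝ) (3 / 4)) (Ioi (3 / 4)) :=
      disjoint_left.2 fun x hx hx' => (not_lt.2 hx.2) hx'
    have e1 : (Ioi (0:ℝ) ×ˢ Ioi (0:ℝ) : Set P) =
        (Ioc (0 : ℝ) (3 / 4) ×ˢ Ioi (0:ℝ)) ∪ (Ioi (3 / 4 : ℝ) ×ˢ Ioi (0 : ℝ)) := by
      rw [← union_prod, ← hu]
    have e2 : (Ioc (0 : ℝ) (3 / 4) ×ˢ Ioi (0:ℝ) : Set P) =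
        (Ioc (0 : ℝ) (3 / 4) ×ˢ Ioc (0:ℝ) (3 / 4)) ∪ (Ioc (0 : ℝ) (3 / 4) ×ˢ Ioi (3 / 4 : ℝ)) := by
      rw [← prod_union, ← hu]
    rw [e1, setIntegral_union (d1.set_prod_left _ _) (measurableSet_Ioi.prod measurableSet_Ioi)
      hF.integrableOn hF.integrableOn, e2,
      setIntegral_union (d1.set_prod_right _ _) (measurableSet_Ioc.prod measurableSet_Ioi)
      hF.integrableOn hF.integrableOn]
  have hcore := core h h0
  have k2 : ∫ z in Ioi (3 / 4 : ℝ) ×ˢ Ioi (0 : ℝ), 14 * ψ z ^ 2 ≤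
      ∫ z in Ioi (3 / 4 : ℝ) ×ˢ Ioi (0 : ℝ), dd ex ψ z ^ 2 := by
    apply fub_x measurableSet_Ioi (i0.const_mul 14).integrableOn ix.integrableOn
    intro y _
    rw [integral_const_mul, Ioi_eq (by norm_num), Ioi_eq (by norm_num)]
    · apply strip14 (fun x => slice_x h x y)
      · exact (h.dd_cont ex).comp (by fun_prop)
      · exact h.van _ (Or.inl (le_abs_self _))
    · intro x hx
      rw [h.dd_van ex (x, y) (Or.inl (lt_abs hx))]; ring
    · intro x hx
      rw [h.van (x, y) (Or.inl (lt_abs hx).le)]; ring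
  have k3 : ∫ z in Ioc (0 : ℝ) (3 / 4) ×ˢ Ioi (3 / 4 : ℝ), 14 * ψ z ^ 2 ≤
      ∫ z in Ioc (0 : ℝ) (3 / 4) ×ˢ Ioi (3 / 4 : ℝ), dd ey ψ z ^ 2 := by
    apply fub_y measurableSet_Ioc (i0.const_mul 14).integrableOn iy.integrableOn
    intro x _
    rw [integral_const_mul, Ioi_eq (by norm_num), Ioi_eq (by norm_num)]
    · apply strip14 (fun y => slice_y h x y)
      · exact (h.dd_cont ey).comp (by fun_prop)
      · exact h.van _ (Or.inr (le_abs_self _))
    · intro y hy
      rw [h.dd_van ey (x, y) (Or.inr (lt_abs hy))]; ring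
    · intro y hy
      rw [h.van (x, y) (Or.inr (lt_abs hy).le)]; ring
  have k4 : 0 ≤ ∫ z in Ioi (3 / 4 : ℝ) ×ˢ Ioi (0 : ℝ), dd ey ψ z ^ 2 :=
    integral_nonneg fun z => sq_nonneg _
  have k5 : 0 ≤ ∫ z in Ioc (0 : ℝ) (3 / 4) ×ˢ Ioi (3 / 4 : ℝ), dd ex ψ z ^ 2 :=
    integral_nonneg fun z => sq_nonneg _
  rw [integral_const_mul] at k2 k3
  rw [hsplit _ i0, hsplit _ ix, hsplit _ iy]
  linarith

theorem fold {f : ℝ → ℝ} (hf : Continuous f) (b : ℝ) :
    ∫ x in (-b)..b, f x = ∫ x in (0 : ℝ)..b, (f x + f (-x)) := by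
  have i1 : IntervalIntegrable f volume 0 b := hf.intervalIntegrable _ _
  have i2 : IntervalIntegrable (fun x => f (-x)) volume 0 b :=
    (hf.comp continuous_neg).intervalIntegrable _ _
  rw [intervalIntegral.integral_add i1 i2, intervalIntegral.integral_comp_neg (f := f), neg_zero,
    add_comm]
  exact (intervalIntegral.integral_add_adjacent_intervals (hf.intervalIntegrable _ _)
    (hf.intervalIntegrable _ _)).symm

theorem mean_fold {φ : P → ℝ} (hc : Continuous φ) (he' : ∀ x y, φ (-x, -y) = φ (x, y))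
    (h0 : ∫ z in Set.Ioo (-(3/4):ℝ) (3/4) ×ˢ Set.Ioo (-(3/4):ℝ) (3/4), φ z = 0) :
    ∫ z in Ioc (0 : ℝ) (3 / 4) ×ˢ Ioc (0 : ℝ) (3 / 4), (1 / 2 * φ z + 1 / 2 * φ (-z.1, z.2)) = 0 := by
  have hb : (0 : ℝ) ≤ 3 / 4 := by norm_num
  have hb' : -(3 / 4 : ℝ) ≤ 3 / 4 := by norm_num
  have icont : ∀ {F : P → ℝ} (s : Set P), Continuous F →
      s ⊆ Icc (-(3 / 4) : ℝ) (3 / 4) ×ˢ Icc (-(3 / 4) : ℝ) (3 / 4) → IntegrableOn F s := by
    intro F s hF hs
    have : IntegrableOn F (Icc (-(3 / 4) : ℝ) (3 / 4) ×ˢ Icc (-(3 / 4) : ℝ) (3 / 4)) :=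
      hF.continuousOn.integrableOn_compact (isCompact_Icc.prod isCompact_Icc)
    exact this.mono_set hs
  have i1 := icont (Ioo (-(3 / 4) : ℝ) (3 / 4) ×ˢ Ioo (-(3 / 4) : ℝ) (3 / 4)) hc
    (Set.prod_mono Ioo_subset_Icc_self Ioo_subset_Icc_self)
  have e1 : ∫ z in Set.Ioo (-(3/4):ℝ) (3/4) ×ˢ Set.Ioo (-(3/4):ℝ) (3/4), φ z =
      ∫ x in Set.Ioo (-(3/4):ℝ) (3/4), ∫ y in Set.Ioo (-(3/4):ℝ) (3/4), φ (x, y) :=
    setIntegral_prod φ i1
  have sub : (Ioc (0 : ℝ) (3 / 4) ×ˢ Ioc (0 : ℝ) (3 / 4) : Set P) ⊆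
      Icc (-(3 / 4) : ℝ) (3 / 4) ×ˢ Icc (-(3 / 4) : ℝ) (3 / 4) := by
    apply Set.prod_mono <;>
    · intro x hx
      exact ⟨by linarith [hx.1], hx.2⟩
  have hc2 : Continuous (fun z : P => 1 / 2 * φ z + 1 / 2 * φ (-z.1, z.2)) := by fun_prop
  have i2 := icont (Ioc (0 : ℝ) (3 / 4) ×ˢ Ioc (0 : ℝ) (3 / 4)) hc2 sub
  have e2 : ∫ z in Ioc (0 : ℝ) (3 / 4) ×ˢ Ioc (0 : ℝ) (3 / 4), (1 / 2 * φ z + 1 / 2 * φ (-z.1, z.2)) =
      ∫ x in Ioc (0 : ℝ) (3 / 4), ∫ y in Ioc (0 : ℝ) (3 / 4),
        (1 / 2 * φ (x, y) + 1 / 2 * φ (-x, y)) :=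
    setIntegral_prod _ i2
  rw [e2]
  rw [e1] at h0
  simp only [← integral_Ioc_eq_integral_Ioo, ← intervalIntegral.integral_of_le hb'] at h0
  simp only [← intervalIntegral.integral_of_le hb]
  have cslice : ∀ x, Continuous (fun y => φ (x, y)) := fun x => hc.comp (by fun_prop)
  have cpar : Continuous (fun x => ∫ y in (-(3 / 4) : ℝ)..(3 / 4), φ (x, y)) := by
    apply intervalIntegral.continuous_parametric_intervalIntegral_of_continuous'
    exact hc
  rw [fold cpar] at h0
  have e3 : ∀ x, (∫ y in (-(3 / 4) : ℝ)..(3 / 4), φ (x, y)) + (∫ y in (-(3 / 4) : ℝ)..(3 / 4), φ (-x, y))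
      = 4 * ∫ y in (0 : ℝ)..(3 / 4), (1 / 2 * φ (x, y) + 1 / 2 * φ (-x, y)) := by
    intro x
    rw [fold (cslice x), fold (cslice (-x)), ← intervalIntegral.integral_add,
      ← intervalIntegral.integral_const_mul]
    · congr 1
      ext y
      have h1 := he' x y
      have h2 := he' (-x) y
      rw [neg_neg] at h2
      rw [h1, h2]; ring
    · apply Continuous.intervalIntegrable; fun_prop
    · apply Continuous.intervalIntegrable; fun_prop
  simp only [e3] at h0
  rw [intervalIntegral.integral_const_mul] at h0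
  linarith

/-- reflection in the second axis -/
def refl1 (z : P) : P := (-z.1, z.2)

theorem integral_refl1 (F : P → ℝ) : ∫ z, F (refl1 z) = ∫ z, F z := by
  have h : MeasurePreserving (fun z : P => ((-z.1, z.2) : P)) volume volume :=
    (Measure.measurePreserving_neg (volume : Measure ℝ)).prod (MeasurePreserving.id volume)
  have he : MeasurableEmbedding (fun z : P => ((-z.1, z.2) : P)) :=
    ((Homeomorph.neg ℝ).prodCongr (Homeomorph.refl ℝ)).measurableEmbedding
  exact h.integral_comp he F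

theorem nice_refl1 {φ : P → ℝ} (h : Nice φ) : Nice (fun z => φ (refl1 z)) := by
  constructor
  · apply h.smooth.comp
    unfold refl1
    fun_prop
  · intro z hz
    apply h.van
    simpa [refl1] using hz

theorem dd_refl1 {φ : P → ℝ} (h : Nice φ) (z : P) :
    dd ex (fun z => φ (refl1 z)) z = -dd ex φ (refl1 z) ∧
    dd ey (fun z => φ (refl1 z)) z = dd ey φ (refl1 z) := by
  obtain ⟨x, y⟩ := z
  constructor
  · have h1 := slice_x (nice_refl1 h) x y
    have h2 : HasDerivAt (fun x => φ (refl1 (x, y))) (dd ex φ (-x, y) * (-1)) x :=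
      HasDerivAt.comp x (slice_x h (-x) y) (hasDerivAt_neg x)
    rw [h1.unique h2]
    simp [refl1]
  · have h1 := slice_y (nice_refl1 h) x y
    have h2 : HasDerivAt (fun y => φ (refl1 (x, y))) (dd ey φ (-x, y)) y := slice_y h (-x) y
    rw [h1.unique h2]
    simp [refl1]

theorem nice_of_isTest {φ : P → ℝ} (h : IsTest {z | |z.1| < 17 / 16 ∧ |z.2| < 17 / 16} φ) :
    Nice φ := by
  refine ⟨h.smooth.of_le one_le_inf, fun z hz => ?_⟩
  apply image_eq_zero_of_notMem_tsupport
  intro hz'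
  have := h.sub hz'
  simp only [mem_ofPred_eq] at this
  rcases hz with hz | hz
  · linarith [this.1]
  · linarith [this.2]

/-- **Even bound.** -/
theorem even_bound {φ : P → ℝ} (h : IsTest {z | |z.1| < 17 / 16 ∧ |z.2| < 17 / 16} φ)
    (he : ∀ z, φ (-z) = φ z)
    (h0 : ∫ z in Set.Ioo (-(3/4):ℝ) (3/4) ×ˢ Set.Ioo (-(3/4):ℝ) (3/4), φ z = 0) :
    14 * ∫ z, φ z ^ 2 ≤ ∫ z, (dd ex φ z ^ 2 + dd ey φ z ^ 2) := by
  have hn := nice_of_isTest h
  have hr := nice_refl1 hn
  have he' : ∀ x y, φ (-x, -y) = φ (x, y) := fun x y => he (x, y)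
  set ψe : P → ℝ := fun z => 1 / 2 * φ z + 1 / 2 * φ (refl1 z) with hψe
  set ψo : P → ℝ := fun z => 1 / 2 * φ z + (-(1 / 2)) * φ (refl1 z) with hψo
  have ne : Nice ψe := by
    constructor
    · exact (contDiff_const.mul hn.smooth).add (contDiff_const.mul hr.smooth)
    · intro z hz
      simp only [hψe]
      rw [hn.van z hz, hr.van z hz]
      ring
  have no : Nice ψo := by
    constructor
    · exact (contDiff_const.mul hn.smooth).add (contDiff_const.mul hr.smooth)
    · intro z hz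
      simp only [hψo]
      rw [hn.van z hz, hr.van z hz]
      ring
  have dφ : ∀ z, DifferentiableAt ℝ φ z := fun z => hn.smooth.differentiable (by norm_num) z
  have dr : ∀ z, DifferentiableAt ℝ (fun z => φ (refl1 z)) z := fun z =>
    hr.smooth.differentiable (by norm_num) z
  have dde : ∀ v z, dd v ψe z = 1 / 2 * dd v φ z + 1 / 2 * dd v (fun z => φ (refl1 z)) z := by
    intro v z
    simp only [hψe]
    rw [dd_add ((dφ z).const_mul _) ((dr z).const_mul _), dd_const_mul (dφ z), dd_const_mul (dr z)]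
  have ddo : ∀ v z, dd v ψo z = 1 / 2 * dd v φ z + (-(1 / 2)) * dd v (fun z => φ (refl1 z)) z := by
    intro v z
    simp only [hψo]
    rw [dd_add ((dφ z).const_mul _) ((dr z).const_mul _), dd_const_mul (dφ z), dd_const_mul (dr z)]
  -- bounds
  have be := even_part ne (by
      intro x y
      simp only [hψe, refl1]
      rw [neg_neg]; ring) (by
      intro x y
      simp only [hψe, refl1]
      have h1 := he' x y
      have h2 := he' (-x) y
      rw [neg_neg] at h2
      rw [h1, h2]; ring) (mean_fold hn.cont he' h0)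
  have bo := odd_part no (by
      intro x y
      simp only [hψo, refl1]
      rw [neg_neg]; ring) (by
      intro x y
      simp only [hψo, refl1]
      have h1 := he' x y
      have h2 := he' (-x) y
      rw [neg_neg] at h2
      rw [h1, h2]; ring)
  -- sums
  have s1 : (∫ z, ψe z ^ 2) + ∫ z, ψo z ^ 2 = ∫ z, φ z ^ 2 := by
    rw [← integral_add ne.int_sq no.int_sq]
    have e : ∀ z, ψe z ^ 2 + ψo z ^ 2 = 1 / 2 * φ z ^ 2 + 1 / 2 * φ (refl1 z) ^ 2 := by
      intro z; simp only [hψe, hψo]; ring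
    simp only [e]
    rw [integral_add (hn.int_sq.const_mul _) (hr.int_sq.const_mul _), integral_const_mul,
      integral_const_mul, integral_refl1 (fun z => φ z ^ 2)]
    ring
  have s2 : ∀ v, (v = ex ∨ v = ey) → (∫ z, dd v ψe z ^ 2) + ∫ z, dd v ψo z ^ 2 = ∫ z, dd v φ z ^ 2 := by
    intro v hv
    rw [← integral_add (ne.int_dd v) (no.int_dd v)]
    have e : ∀ z, dd v ψe z ^ 2 + dd v ψo z ^ 2 =
        1 / 2 * dd v φ z ^ 2 + 1 / 2 * dd v φ (refl1 z) ^ 2 := by
      intro z
      rw [dde, ddo]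
      rcases hv with rfl | rfl
      · rw [(dd_refl1 hn z).1]; ring
      · rw [(dd_refl1 hn z).2]; ring
    simp only [e]
    have i2 : Integrable (fun z => dd v φ (refl1 z) ^ 2) := by
      have := hr.int_dd v
      rcases hv with rfl | rfl
      · simpa [(dd_refl1 hn _).1] using this
      · simpa [(dd_refl1 hn _).2] using this
    rw [integral_add ((hn.int_dd v).const_mul _) (i2.const_mul _), integral_const_mul,
      integral_const_mul, integral_refl1 (fun z => dd v φ z ^ 2)]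
    ring
  rw [integral_add (ne.int_dd ex) (ne.int_dd ey)] at be
  rw [integral_add (no.int_dd ex) (no.int_dd ey)] at bo
  rw [integral_add (hn.int_dd ex) (hn.int_dd ey), ← s1, ← s2 ex (Or.inl rfl), ← s2 ey (Or.inr rfl)]
  linarith

end Pool.Agent.Lib.MP_dac83a.Even
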