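import Pool.Agent.Lib.MP_dac83a.Even

set_option autoImplicit false

open MeasureTheory Set Filter Topology
open scoped ContDiff

namespace Pool.Agent.Lib.MP_dac83a.Rellich

open Pool.Agent.Lib.MP_dac83a.Even (picone fub_x fub_y)

/-- vanishing at both ends of `[a, a + h]` -/
theorem dirh {a h : ℝ} (hh : 0 < h) {g g' : ℝ → ℝ} (hg : ∀ x, HasDerivAt g (g' x) x)
    (hg' : Continuous g') (h0 : g a = 0) (hL : g (a + h) = 0) :
    9 / h ^ 2 * ∫ x in a..(a + h), g x ^ 2 ≤ ∫ x in a..(a + h), g' x ^ 2 := by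
  have hp := picone (a := a) (c := a + h) (κ := 3 / h) (s := a + h / 2) (by linarith)
    (by positivity) ?_ ?_ hg hg' (by rw [h0]; ring) (by rw [hL]; ring)
  · rwa [div_pow, show (3 : ℝ) ^ 2 = 9 by norm_num] at hp
  · have := Real.pi_gt_d2
    rw [show 3 / h * (a + h / 2 - a) = 3 / 2 by field_simp; ring]
    linarith
  · have := Real.pi_gt_d2
    rw [show 3 / h * (a + h - (a + h / 2)) = 3 / 2 by field_simp; ring]
    linarith

/-- mean zero, tested against another function -/
theorem mz_testh {a h : ℝ} (hh : 0 < h) {m g g' : ℝ → ℝ} (hm : Continuous m)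
    (hg : ∀ x, HasDerivAt g (g' x) x)
    (hg' : Continuous g') (h0 : ∫ x in a..(a + h), m x = 0) :
    ∫ x in a..(a + h), m x * g x ≤
      1 / 2 * (∫ x in a..(a + h), m x ^ 2) + h ^ 2 / 18 * ∫ x in a..(a + h), g' x ^ 2 := by
  have hgc : Continuous g := continuous_iff_continuousAt.2 fun x => (hg x).continuousAt
  set M : ℝ → ℝ := fun x => ∫ t in a..x, m t with hM
  have hMd : ∀ x, HasDerivAt M (m x) x := fun x =>
    intervalIntegral.integral_hasDerivAt_right (hm.intervalIntegrable _ _)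
      (hm.stronglyMeasurableAtFilter _ _) hm.continuousAt
  have hMc : Continuous M := continuous_iff_continuousAt.2 fun x => (hMd x).continuousAt
  have hM0 : M a = 0 := by simp [hM]
  have hM1 : M (a + h) = 0 := h0
  have h14 := dirh hh hMd hm hM0 hM1
  have hp : ∫ x in a..(a + h), (m x * g x + M x * g' x) = M (a + h) * g (a + h) - M a * g a := by
    apply intervalIntegral.integral_eq_sub_of_hasDerivAt (f := fun x => M x * g x)
    · intro x _
      exact (hMd x).mul (hg x)
    · apply Continuous.intervalIntegrable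
      fun_prop
  rw [hM0, hM1] at hp
  have i1 : IntervalIntegrable (fun x => m x * g x) volume a (a + h) :=
    (hm.mul hgc).intervalIntegrable _ _
  have i2 : IntervalIntegrable (fun x => M x * g' x) volume a (a + h) :=
    (hMc.mul hg').intervalIntegrable _ _
  rw [intervalIntegral.integral_add i1 i2] at hp
  have i3 : IntervalIntegrable (fun x => 1 / 2 * (9 / h ^ 2) * M x ^ 2) volume a (a + h) := by
    apply Continuous.intervalIntegrable; fun_prop
  have i4 : IntervalIntegrable (fun x => h ^ 2 / 18 * g' x ^ 2) volume a (a + h) := by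
    apply Continuous.intervalIntegrable; fun_prop
  have key : ∫ x in a..(a + h), -(M x * g' x) ≤
      ∫ x in a..(a + h), (1 / 2 * (9 / h ^ 2) * M x ^ 2 + h ^ 2 / 18 * g' x ^ 2) := by
    apply intervalIntegral.integral_mono_on (by linarith) i2.neg (i3.add i4)
    intro x _
    show -(M x * g' x) ≤ 1 / 2 * (9 / h ^ 2) * M x ^ 2 + h ^ 2 / 18 * g' x ^ 2
    have e : 1 / 2 * (9 / h ^ 2) * M x ^ 2 + h ^ 2 / 18 * g' x ^ 2 + M x * g' x =
        1 / 2 * (3 / h * M x + h / 3 * g' x) ^ 2 := by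
      field_simp
      ring
    nlinarith [sq_nonneg (3 / h * M x + h / 3 * g' x)]
  rw [intervalIntegral.integral_neg, intervalIntegral.integral_add i3 i4,
    intervalIntegral.integral_const_mul, intervalIntegral.integral_const_mul] at key
  have e5 : 1 / 2 * (9 / h ^ 2) * ∫ x in a..(a + h), M x ^ 2 =
    1 / 2 * (9 / h ^ 2 * ∫ x in a..(a + h), M x ^ 2) := by ring
  rw [e5] at key
  linarith

theorem slice_x {ψ : P → ℝ} (h : ContDiff ℝ 1 ψ) (x y : ℝ) :
    HasDerivAt (fun x => ψ (x, y)) (dd ex ψ (x, y)) x := by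
  have h1 : HasFDerivAt ψ (fderiv ℝ ψ (x, y)) (x, y) :=
    ((h.differentiable (by norm_num)) (x, y)).hasFDerivAt
  have h2 : HasDerivAt (fun x : ℝ => ((x, y) : P)) (1, 0) x :=
    (hasDerivAt_id x).prodMk (hasDerivAt_const x y)
  exact h1.comp_hasDerivAt x h2

theorem slice_y {ψ : P → ℝ} (h : ContDiff ℝ 1 ψ) (x y : ℝ) :
    HasDerivAt (fun y => ψ (x, y)) (dd ey ψ (x, y)) y := by
  have h1 : HasFDerivAt ψ (fderiv ℝ ψ (x, y)) (x, y) :=
    ((h.differentiable (by norm_num)) (x, y)).hasFDerivAt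
  have h2 : HasDerivAt (fun y : ℝ => ((x, y) : P)) (0, 1) y :=
    (hasDerivAt_const y x).prodMk (hasDerivAt_id y)
  exact h1.comp_hasDerivAt y h2

/-- Poincaré inequality on a square cell -/
theorem cell {ψ : P → ℝ} (hs : ContDiff ℝ 1 ψ) {a b h : ℝ} (hh : 0 < h) :
    ∫ z in Ioc a (a + h) ×ˢ Ioc b (b + h), ψ z ^ 2 ≤
      h ^ 2 / 9 * (∫ z in Ioc a (a + h) ×ˢ Ioc b (b + h), dd ex ψ z ^ 2) +
      h ^ 2 / 9 * (∫ z in Ioc a (a + h) ×ˢ Ioc b (b + h), dd ey ψ z ^ 2) +
      1 / h ^ 2 * (∫ z in Ioc a (a + h) ×ˢ Ioc b (b + h), ψ z) ^ 2 := by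
  have icont : ∀ {F : P → ℝ}, Continuous F →
      IntegrableOn F (Ioc a (a + h) ×ˢ Ioc b (b + h)) := by
    intro F hF
    have : IntegrableOn F (Icc a (a + h) ×ˢ Icc b (b + h)) :=
      hF.continuousOn.integrableOn_compact (isCompact_Icc.prod isCompact_Icc)
    exact this.mono_set (Set.prod_mono Ioc_subset_Icc_self Ioc_subset_Icc_self)
  have ha : a ≤ a + h := by linarith
  have hb : b ≤ b + h := by linarith
  have cψ : Continuous ψ := hs.continuous
  have cdx : Continuous (dd ex ψ) := (dd_contDiff (m := 0) hs (by norm_num) ex).continuous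
  have cdy : Continuous (dd ey ψ) := (dd_contDiff (m := 0) hs (by norm_num) ey).continuous
  set m : ℝ → ℝ := fun y => (1 / h) * ∫ x in a..(a + h), ψ (x, y) with hm
  have hmc : Continuous m := by
    apply continuous_const.mul
    apply intervalIntegral.continuous_parametric_intervalIntegral_of_continuous'
    exact cψ.comp (continuous_snd.prodMk continuous_fst)
  have hmy : ∀ y, ∫ x in Ioc a (a + h), ψ (x, y) = h * m y := by
    intro y
    rw [hm, ← intervalIntegral.integral_of_le ha]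
    field_simp
  have cx : ∀ y, Continuous (fun x => ψ (x, y)) := fun y => cψ.comp (by fun_prop)
  have cy : ∀ x, Continuous (fun y => ψ (x, y)) := fun x => cψ.comp (by fun_prop)
  set mb : ℝ := (1 / h) * ∫ y in b..(b + h), m y with hmb
  have hmb' : ∫ y in b..(b + h), m y = h * mb := by rw [hmb]; field_simp
  set m0 : ℝ → ℝ := fun y => m y - mb with hm0
  have hm0c : Continuous m0 := hmc.sub continuous_const
  have hm0z : ∫ y in b..(b + h), m0 y = 0 := by
    rw [hm0, intervalIntegral.integral_sub (hmc.intervalIntegrable _ _)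
      (continuous_const.intervalIntegrable _ _), hmb', intervalIntegral.integral_const]
    simp
  have vol : ∀ {a h : ℝ} (c : ℝ), 0 < h → ∫ _x in Ioc a (a + h), c = h * c := by
    intro a h c hh
    rw [← intervalIntegral.integral_of_le (by linarith), intervalIntegral.integral_const]
    simp
  -- total mean
  have htot : ∫ z in Ioc a (a + h) ×ˢ Ioc b (b + h), ψ z = h ^ 2 * mb := by
    have hF' : Integrable ψ ((volume.restrict (Ioc a (a + h))).prod
        (volume.restrict (Ioc b (b + h)))) := by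
      rw [Measure.prod_restrict]; exact icont cψ
    have e : (volume : Measure P).restrict (Ioc a (a + h) ×ˢ Ioc b (b + h)) =
        (volume.restrict (Ioc a (a + h))).prod (volume.restrict (Ioc b (b + h))) := by
      rw [Measure.prod_restrict]; rfl
    rw [e, integral_prod_symm _ hF']
    simp only [hmy]
    rw [integral_const_mul, ← intervalIntegral.integral_of_le hb, hmb']
    ring
  -- (a')
  have ha1 : ∫ z in Ioc a (a + h) ×ˢ Ioc b (b + h), ψ z ^ 2 ≤
      ∫ z in Ioc a (a + h) ×ˢ Ioc b (b + h), (h ^ 2 / 9 * dd ex ψ z ^ 2 + m z.2 ^ 2) := by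
    apply fub_x measurableSet_Ioc (icont (by fun_prop)) (icont (by fun_prop))
    intro y _
    show ∫ x in Ioc a (a + h), ψ (x, y) ^ 2 ≤
      ∫ x in Ioc a (a + h), (h ^ 2 / 9 * dd ex ψ (x, y) ^ 2 + m y ^ 2)
    rw [← intervalIntegral.integral_of_le ha, ← intervalIntegral.integral_of_le ha]
    have cgx : Continuous (fun x => dd ex ψ (x, y)) := cdx.comp (by fun_prop)
    have hmz := mz_testh (a := a) hh (m := fun x => ψ (x, y) - m y) (g := fun x => ψ (x, y) - m y)
      (g' := fun x => dd ex ψ (x, y)) ((cx y).sub continuous_const)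
      (fun x => (slice_x hs x y).sub_const (m y)) cgx (by
        rw [intervalIntegral.integral_sub ((cx y).intervalIntegrable _ _)
          (continuous_const.intervalIntegrable _ _), intervalIntegral.integral_of_le ha, hmy y]
        simp)
    have e0 : ∀ x, (ψ (x, y) - m y) * (ψ (x, y) - m y) = (ψ (x, y) - m y) ^ 2 := fun x => by ring
    simp only [e0] at hmz
    have e1 : ∫ x in a..(a + h), (ψ (x, y) - m y) ^ 2 =
        (∫ x in a..(a + h), ψ (x, y) ^ 2) - h * m y ^ 2 := by
      have e2 : ∀ x, (ψ (x, y) - m y) ^ 2 = ψ (x, y) ^ 2 - 2 * m y * ψ (x, y) + m y ^ 2 := by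
        intro x; ring
      simp only [e2]
      rw [intervalIntegral.integral_add, intervalIntegral.integral_sub,
        intervalIntegral.integral_const_mul, intervalIntegral.integral_const,
        intervalIntegral.integral_of_le ha (f := fun x => ψ (x, y)), hmy y]
      · simp
        ring
      · apply Continuous.intervalIntegrable; have := cx y; fun_prop
      · apply Continuous.intervalIntegrable; have := cx y; fun_prop
      · apply Continuous.intervalIntegrable; have := cx y; fun_prop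
      · apply Continuous.intervalIntegrable; fun_prop
    rw [e1] at hmz
    rw [intervalIntegral.integral_add, intervalIntegral.integral_const,
      intervalIntegral.integral_const_mul]
    · simp only [smul_eq_mul, add_sub_cancel_left]
      linarith
    · apply Continuous.intervalIntegrable
      fun_prop
    · apply Continuous.intervalIntegrable; fun_prop
  -- (b')
  have hb1 : ∫ z in Ioc a (a + h) ×ˢ Ioc b (b + h), m0 z.2 * ψ z ≤
      ∫ z in Ioc a (a + h) ×ˢ Ioc b (b + h),
        (1 / 2 * m0 z.2 ^ 2 + h ^ 2 / 18 * dd ey ψ z ^ 2) := by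
    apply fub_y measurableSet_Ioc (icont (by fun_prop)) (icont (by fun_prop))
    intro x _
    rw [← intervalIntegral.integral_of_le hb, ← intervalIntegral.integral_of_le hb]
    have cgy : Continuous (fun y => dd ey ψ (x, y)) := cdy.comp (by fun_prop)
    have hmz := mz_testh (a := b) hh hm0c (slice_y hs x) cgy hm0z
    rw [intervalIntegral.integral_add, intervalIntegral.integral_const_mul,
      intervalIntegral.integral_const_mul]
    · exact hmz
    · apply Continuous.intervalIntegrable; fun_prop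
    · apply Continuous.intervalIntegrable
      fun_prop
  -- (c')
  have hc1 : ∫ z in Ioc a (a + h) ×ˢ Ioc b (b + h), m0 z.2 * (m0 z.2 + mb) ≤
      ∫ z in Ioc a (a + h) ×ˢ Ioc b (b + h), m0 z.2 * ψ z := by
    apply fub_x measurableSet_Ioc (icont (by fun_prop)) (icont (by fun_prop))
    intro y _
    show ∫ _x in Ioc a (a + h), m0 y * (m0 y + mb) ≤ ∫ x in Ioc a (a + h), m0 y * ψ (x, y)
    rw [vol _ hh, integral_const_mul, hmy]
    apply le_of_eq
    simp only [hm0]
    ring
  have hd1 : ∀ F : ℝ → ℝ, Continuous F →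
      ∫ z in Ioc a (a + h) ×ˢ Ioc b (b + h), F z.2 = h * ∫ y in b..(b + h), F y := by
    intro F hF
    have hF' : Integrable (fun z : P => F z.2) ((volume.restrict (Ioc a (a + h))).prod
        (volume.restrict (Ioc b (b + h)))) := by
      rw [Measure.prod_restrict]; exact icont (by fun_prop)
    have e : (volume : Measure P).restrict (Ioc a (a + h) ×ˢ Ioc b (b + h)) =
        (volume.restrict (Ioc a (a + h))).prod (volume.restrict (Ioc b (b + h))) := by
      rw [Measure.prod_restrict]; rfl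
    rw [e, integral_prod_symm _ hF']
    show ∫ y in Ioc b (b + h), ∫ _x in Ioc a (a + h), F y = _
    simp only [vol _ hh]
    rw [integral_const_mul, ← intervalIntegral.integral_of_le hb]
  have e6 : ∫ z in Ioc a (a + h) ×ˢ Ioc b (b + h), m z.2 ^ 2 =
      (∫ z in Ioc a (a + h) ×ˢ Ioc b (b + h), m0 z.2 ^ 2) + h ^ 2 * mb ^ 2 := by
    rw [hd1 (fun y => m y ^ 2) (by fun_prop), hd1 (fun y => m0 y ^ 2) (by fun_prop)]
    have e7 : ∀ y, m y ^ 2 = m0 y ^ 2 + 2 * mb * m0 y + mb ^ 2 := by
      intro y; simp only [hm0]; ring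
    simp only [e7]
    rw [intervalIntegral.integral_add, intervalIntegral.integral_add,
      intervalIntegral.integral_const_mul, hm0z, intervalIntegral.integral_const]
    · simp
      ring
    · apply Continuous.intervalIntegrable; fun_prop
    · apply Continuous.intervalIntegrable; fun_prop
    · apply Continuous.intervalIntegrable; fun_prop
    · apply Continuous.intervalIntegrable; fun_prop
  have e8 : ∫ z in Ioc a (a + h) ×ˢ Ioc b (b + h), m0 z.2 * (m0 z.2 + mb) =
      ∫ z in Ioc a (a + h) ×ˢ Ioc b (b + h), m0 z.2 ^ 2 := by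
    rw [hd1 (fun y => m0 y * (m0 y + mb)) (by fun_prop), hd1 (fun y => m0 y ^ 2) (by fun_prop)]
    have e7 : ∀ y, m0 y * (m0 y + mb) = m0 y ^ 2 + mb * m0 y := by
      intro y; ring
    simp only [e7]
    rw [intervalIntegral.integral_add,
      intervalIntegral.integral_const_mul, hm0z]
    · simp
    · apply Continuous.intervalIntegrable; fun_prop
    · apply Continuous.intervalIntegrable; fun_prop
  rw [integral_add (icont (by fun_prop)) (icont (by fun_prop)), integral_const_mul, e6] at ha1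
  rw [integral_add (icont (by fun_prop)) (icont (by fun_prop)), integral_const_mul,
    integral_const_mul] at hb1
  rw [e8] at hc1
  rw [htot]
  have e9 : 1 / h ^ 2 * (h ^ 2 * mb) ^ 2 = h ^ 2 * mb ^ 2 := by field_simp
  rw [e9]
  nlinarith

/-- iterated integral over a cell -/
noncomputable def D (F : P → ℝ) (a b h : ℝ) : ℝ := ∫ x in a..(a + h), ∫ y in b..(b + h), F (x, y)

theorem D_eq {F : P → ℝ} (hF : Continuous F) {a b h : ℝ} (hh : 0 < h) :
    D F a b h = ∫ z in Ioc a (a + h) ×ˢ Ioc b (b + h), F z := by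
  have i1 : IntegrableOn F (Ioc a (a + h) ×ˢ Ioc b (b + h)) := by
    have : IntegrableOn F (Icc a (a + h) ×ˢ Icc b (b + h)) :=
      hF.continuousOn.integrableOn_compact (isCompact_Icc.prod isCompact_Icc)
    exact this.mono_set (Set.prod_mono Ioc_subset_Icc_self Ioc_subset_Icc_self)
  have e1 : ∫ z in Ioc a (a + h) ×ˢ Ioc b (b + h), F z =
      ∫ x in Ioc a (a + h), ∫ y in Ioc b (b + h), F (x, y) := setIntegral_prod F i1
  rw [e1]
  simp only [D, intervalIntegral.integral_of_le (by linarith : a ≤ a + h),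
    intervalIntegral.integral_of_le (by linarith : b ≤ b + h)]

theorem D_sub {F G : P → ℝ} (hF : Continuous F) (hG : Continuous G) {a b h : ℝ} (hh : 0 < h) :
    D (fun z => F z - G z) a b h = D F a b h - D G a b h := by
  rw [D_eq (by fun_prop) hh, D_eq hF hh, D_eq hG hh]
  have icont : ∀ {F : P → ℝ}, Continuous F →
      IntegrableOn F (Ioc a (a + h) ×ˢ Ioc b (b + h)) := by
    intro F hF
    have : IntegrableOn F (Icc a (a + h) ×ˢ Icc b (b + h)) :=
      hF.continuousOn.integrableOn_compact (isCompact_Icc.prod isCompact_Icc)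
    exact this.mono_set (Set.prod_mono Ioc_subset_Icc_self Ioc_subset_Icc_self)
  exact integral_sub (icont hF) (icont hG)

/-- the grid -/
theorem grid {R : ℝ} (hR : 0 < R) {F : P → ℝ} (hF : Continuous F)
    (hv : ∀ z : P, R ≤ |z.1| ∨ R ≤ |z.2| → F z = 0) {M : ℕ} (hM : 0 < M) {h : ℝ}
    (hh : h = 2 * R / M) :
    ∫ z, F z = ∑ i ∈ Finset.range M, ∑ j ∈ Finset.range M, D F (-R + i * h) (-R + j * h) h := by
  have hMR : (0 : ℝ) < M := by exact_mod_cast hM
  have hh0 : 0 < h := by rw [hh]; positivity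
  have hMh : (M : ℝ) * h = 2 * R := by rw [hh]; field_simp
  have hint : Integrable F := by
    apply hF.integrable_of_hasCompactSupport
    apply HasCompactSupport.intro ((isCompact_Icc (a := -R) (b := R)).prod
      (isCompact_Icc (a := -R) (b := R)))
    intro z hz
    apply hv
    by_contra hcon
    push Not at hcon
    apply hz
    rw [abs_lt, abs_lt] at hcon
    exact ⟨⟨hcon.1.1.le, hcon.1.2.le⟩, ⟨hcon.2.1.le, hcon.2.2.le⟩⟩
  have e1 : ∫ z, F z = ∫ x, ∫ y, F (x, y) := integral_prod _ hint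
  have sup : ∀ f : ℝ → ℝ, (∀ x, R ≤ |x| → f x = 0) → ∫ x, f x = ∫ x in (-R)..R, f x := by
    intro f hf
    symm
    apply intervalIntegral.integral_eq_integral_of_support_subset
    intro x hx
    by_contra hcon
    apply hx
    apply hf
    by_contra hcon2
    push Not at hcon2
    rw [abs_lt] at hcon2
    exact hcon ⟨hcon2.1, hcon2.2.le⟩
  have sums : ∀ f : ℝ → ℝ, Continuous f → ∫ x in (-R)..R, f x =
      ∑ i ∈ Finset.range M, ∫ x in (-R + i * h)..(-R + i * h + h), f x := by
    intro f hf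
    have := intervalIntegral.sum_integral_adjacent_intervals (f := f) (μ := volume)
      (a := fun k : ℕ => -R + k * h) (n := M) (fun k _ => hf.intervalIntegrable _ _)
    have e2 : -R + (M : ℝ) * h = R := by rw [hMh]; ring
    simp only [Nat.cast_zero, zero_mul, add_zero, e2] at this
    rw [← this]
    apply Finset.sum_congr rfl
    intro i _
    have : -R + ((i + 1 : ℕ) : ℝ) * h = -R + i * h + h := by push_cast; ring
    rw [this]
  have e3 : ∀ x, ∫ y, F (x, y) = ∫ y in (-R)..R, F (x, y) := fun x =>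
    sup _ (fun y hy => hv _ (Or.inr hy))
  simp only [e3] at e1
  have cpar : ∀ a b : ℝ, Continuous (fun x => ∫ y in a..b, F (x, y)) := fun a b => by
    apply intervalIntegral.continuous_parametric_intervalIntegral_of_continuous'
    exact hF
  have e4 : ∫ x, ∫ y in (-R)..R, F (x, y) = ∫ x in (-R)..R, ∫ y in (-R)..R, F (x, y) := by
    apply sup (fun x => ∫ y in (-R)..R, F (x, y))
    intro x hx
    have : ∀ y, F (x, y) = 0 := fun y => hv _ (Or.inl hx)
    simp [this]
  rw [e1, e4, sums _ (cpar _ _)]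
  apply Finset.sum_congr rfl
  intro i _
  have cs : ∀ x, Continuous (fun y => F (x, y)) := fun x => hF.comp (by fun_prop)
  simp only [fun x => sums _ (cs x)]
  rw [intervalIntegral.integral_finsetSum]
  · rfl
  · intro j _
    exact (cpar _ _).intervalIntegrable _ _

theorem grid_bound {R : ℝ} (hR : 0 < R) {f : P → ℝ} (hf : ContDiff ℝ 1 f)
    (hv : ∀ z : P, R ≤ |z.1| ∨ R ≤ |z.2| → f z = 0 ∧ dd ex f z = 0 ∧ dd ey f z = 0) {M : ℕ}
    (hM : 0 < M) {h : ℝ} (hh : h = 2 * R / M) :
    ∫ z, f z ^ 2 ≤ h ^ 2 / 9 * (∫ z, dd ex f z ^ 2) + h ^ 2 / 9 * (∫ z, dd ey f z ^ 2) +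
      1 / h ^ 2 * ∑ i ∈ Finset.range M, ∑ j ∈ Finset.range M,
        D f (-R + i * h) (-R + j * h) h ^ 2 := by
  have hMR : (0 : ℝ) < M := by exact_mod_cast hM
  have hh0 : 0 < h := by rw [hh]; positivity
  have cf := hf.continuous
  have cdx : Continuous (dd ex f) := (dd_contDiff (m := 0) hf (by norm_num) ex).continuous
  have cdy : Continuous (dd ey f) := (dd_contDiff (m := 0) hf (by norm_num) ey).continuous
  rw [grid hR (F := fun z => f z ^ 2) (by fun_prop) (fun z hz => by rw [(hv z hz).1]; ring) hM hh,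
    grid hR (F := fun z => dd ex f z ^ 2) (by fun_prop)
      (fun z hz => by rw [(hv z hz).2.1]; ring) hM hh,
    grid hR (F := fun z => dd ey f z ^ 2) (by fun_prop)
      (fun z hz => by rw [(hv z hz).2.2]; ring) hM hh]
  simp only [Finset.mul_sum]
  simp only [← Finset.sum_add_distrib]
  apply Finset.sum_le_sum
  intro i _
  apply Finset.sum_le_sum
  intro j _
  have hc := cell hf (a := -R + i * h) (b := -R + j * h) hh0
  rw [D_eq (by fun_prop) hh0, D_eq (by fun_prop) hh0, D_eq (by fun_prop) hh0, D_eq cf hh0]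
  exact hc

theorem dd_vanish {R : ℝ} {φ : P → ℝ} (h : IsTest (Set.Ioo (-R) R ×ˢ Set.Ioo (-R) R) φ) (z : P)
    (hz : R ≤ |z.1| ∨ R ≤ |z.2|) : φ z = 0 ∧ dd ex φ z = 0 ∧ dd ey φ z = 0 := by
  have hz' : z ∉ tsupport φ := by
    intro hz'
    have := h.sub hz'
    obtain ⟨⟨h1, h2⟩, h3, h4⟩ := this
    rcases hz with hz | hz
    · have := abs_lt.2 ⟨h1, h2⟩
      linarith
    · have := abs_lt.2 ⟨h3, h4⟩
      linarith
  exact ⟨image_eq_zero_of_notMem_tsupport hz', dd_zero_of_notMem_tsupport hz' _,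
    dd_zero_of_notMem_tsupport hz' _⟩

theorem test_integrable {U : Set P} {φ : P → ℝ} (h : IsTest U φ) :
    Integrable φ ∧ Integrable (fun z => φ z ^ 2) ∧ (∀ v, Integrable (fun z => dd v φ z ^ 2)) := by
  have key : ∀ {ψ : P → ℝ}, IsTest U ψ → Integrable (fun z => ψ z ^ 2) := by
    intro ψ h
    apply Continuous.integrable_of_hasCompactSupport
    · exact h.smooth.continuous.pow 2
    · have : HasCompactSupport (fun z => ψ z * ψ z) := h.cpt.mul_right
      simpa [pow_two] using this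
  exact ⟨h.smooth.continuous.integrable_of_hasCompactSupport h.cpt, key h, fun v => key (h.dd v)⟩

theorem rellich_pos {R C : ℝ} (hR : 0 < R) {φ : ℕ → P → ℝ}
    (ht : ∀ n, IsTest (Set.Ioo (-R) R ×ˢ Set.Ioo (-R) R) (φ n))
    (hC0 : ∀ n, ∫ z, φ n z ^ 2 ≤ C)
    (hC : ∀ n, ∫ z, (dd ex (φ n) z ^ 2 + dd ey (φ n) z ^ 2) ≤ C) :
    ∃ k : ℕ → ℕ, StrictMono k ∧ ∀ ε > 0, ∃ N, ∀ m ≥ N, ∀ n ≥ N,
      ∫ z, (φ (k m) z - φ (k n) z) ^ 2 ≤ ε := by
  -- cell averages
  set h : ℕ → ℝ := fun M => 2 * R / ((M + 1 : ℕ) : ℝ) with hh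
  have hhpos : ∀ M, 0 < h M := fun M => by simp only [hh]; positivity
  set A : ℕ → (ℕ × ℕ × ℕ → ℝ) := fun n p =>
    D (φ n) (-R + p.2.1 * h p.1) (-R + p.2.2 * h p.1) (h p.1) with hA
  have hbound : ∀ n p, A n p ∈ Icc (-(h p.1 ^ 2 + C)) (h p.1 ^ 2 + C) := by
    intro n p
    have hp := hhpos p.1
    set a := -R + p.2.1 * h p.1 with ha
    set b := -R + p.2.2 * h p.1 with hb
    have e1 : A n p = ∫ z in Ioc a (a + h p.1) ×ˢ Ioc b (b + h p.1), φ n z :=
      D_eq (ht n).smooth.continuous hp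
    have hvol : (volume : Measure P).real (Ioc a (a + h p.1) ×ˢ Ioc b (b + h p.1)) = h p.1 ^ 2 := by
      have : (volume : Measure P) = (volume : Measure ℝ).prod volume := rfl
      rw [this, measureReal_prod_prod, Real.volume_real_Ioc_of_le (by linarith),
        Real.volume_real_Ioc_of_le (by linarith)]
      ring
    have hfin : (volume : Measure P) (Ioc a (a + h p.1) ×ˢ Ioc b (b + h p.1)) ≠ ⊤ := by
      have : (volume : Measure P) = (volume : Measure ℝ).prod volume := rfl
      rw [this, Measure.prod_prod]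
      exact ENNReal.mul_ne_top (by simp) (by simp)
    obtain ⟨i1, i2, _⟩ := test_integrable (ht n)
    have e2 : |∫ z in Ioc a (a + h p.1) ×ˢ Ioc b (b + h p.1), φ n z| ≤
        ∫ z in Ioc a (a + h p.1) ×ˢ Ioc b (b + h p.1), (1 + φ n z ^ 2) := by
      refine (abs_integral_le_integral_abs).trans ?_
      apply integral_mono i1.abs.integrableOn
      · exact Integrable.add (integrableOn_const hfin) i2.integrableOn
      · intro z
        show |φ n z| ≤ 1 + φ n z ^ 2
        have := sq_abs (φ n z)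
        nlinarith [sq_nonneg (|φ n z| - 1), abs_nonneg (φ n z)]
    have i0 : IntegrableOn (fun _ : P => (1 : ℝ)) (Ioc a (a + h p.1) ×ˢ Ioc b (b + h p.1)) :=
      integrableOn_const hfin
    have e3 : ∫ z in Ioc a (a + h p.1) ×ˢ Ioc b (b + h p.1), (1 + φ n z ^ 2) ≤ h p.1 ^ 2 + C := by
      rw [integral_add i0 i2.integrableOn]
      apply add_le_add
      · rw [setIntegral_const, hvol]
        simp
      · refine le_trans ?_ (hC0 n)
        apply setIntegral_le_integral i2
        exact Eventually.of_forall fun z => sq_nonneg _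
    rw [mem_Icc, ← abs_le, e1]
    exact e2.trans e3
  have hcomp : IsCompact (Set.pi univ (fun p : ℕ × ℕ × ℕ => Icc (-(h p.1 ^ 2 + C)) (h p.1 ^ 2 + C))) :=
    isCompact_univ_pi fun p => isCompact_Icc
  obtain ⟨a, -, k, hk, hlim⟩ := hcomp.tendsto_subseq (x := A) (fun n p _ => hbound n p)
  refine ⟨k, hk, fun ε hε => ?_⟩
  have hC00 : 0 ≤ C := (integral_nonneg fun z => sq_nonneg _).trans (hC0 0)
  -- choose the mesh
  obtain ⟨M, hM⟩ : ∃ M : ℕ, h M ^ 2 / 9 * (4 * C) ≤ ε / 2 := by
    have t1 : Tendsto h atTop (𝓝 0) := by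
      have := (tendsto_const_div_atTop_nhds_zero_nat (2 * R)).comp (tendsto_add_atTop_nat 1)
      exact this
    have t2 : Tendsto (fun M => h M ^ 2 / 9 * (4 * C)) atTop (𝓝 0) := by
      have := ((t1.pow 2).div_const 9).mul_const (4 * C)
      simpa using this
    exact ((t2.eventually (ge_mem_nhds (half_pos hε))).exists)
  -- convergence of averages
  have hA' : ∀ p, Tendsto (fun n => A (k n) p) atTop (𝓝 (a p)) := by
    intro p
    exact (tendsto_pi_nhds.1 hlim) p
  have hcau : ∀ p, ∃ N, ∀ m ≥ N, ∀ n ≥ N,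
      (A (k m) p - A (k n) p) ^ 2 ≤ ε / 2 * h M ^ 2 / ((M + 1 : ℕ) : ℝ) ^ 2 := by
    intro p
    have hc : CauchySeq (fun n => A (k n) p) := (hA' p).cauchySeq
    have hMp := hhpos M
    obtain ⟨N, hN⟩ := (Metric.cauchySeq_iff.1 hc)
      (Real.sqrt (ε / 2 * h M ^ 2 / ((M + 1 : ℕ) : ℝ) ^ 2)) (by positivity)
    refine ⟨N, fun m hm n hn => ?_⟩
    have := hN m hm n hn
    rw [Real.dist_eq] at this
    rw [← sq_abs, ← Real.sq_sqrt (show 0 ≤ ε / 2 * h M ^ 2 / ((M + 1 : ℕ) : ℝ) ^ 2 by positivity)]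
    exact pow_le_pow_left₀ (abs_nonneg _) this.le 2
  choose Nf hNf using hcau
  refine ⟨(Finset.range (M + 1) ×ˢ Finset.range (M + 1)).sup (fun q => Nf (M, q.1, q.2)), ?_⟩
  intro m hm n hn
  have hf : ContDiff ℝ 1 (fun z => φ (k m) z - φ (k n) z) :=
    ((ht (k m)).smooth.sub (ht (k n)).smooth).of_le one_le_inf
  have dmd : ∀ i z, DifferentiableAt ℝ (φ i) z := fun i z =>
    (ht i).smooth.differentiable (by norm_num) z
  have hdd : ∀ v z, dd v (fun z => φ (k m) z - φ (k n) z) z = dd v (φ (k m)) z - dd v (φ (k n)) z :=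
    fun v z => dd_sub (dmd _ z) (dmd _ z) v
  have hgb := grid_bound hR hf (fun z hz => by
    obtain ⟨a1, a2, a3⟩ := dd_vanish (ht (k m)) z hz
    obtain ⟨b1, b2, b3⟩ := dd_vanish (ht (k n)) z hz
    refine ⟨by rw [a1, b1]; ring, ?_, ?_⟩
    · rw [hdd, a2, b2]; ring
    · rw [hdd, a3, b3]; ring) (Nat.succ_pos M) (h := h M) rfl
  -- gradient part
  have hgrad : (∫ z, dd ex (fun z => φ (k m) z - φ (k n) z) z ^ 2) +
      ∫ z, dd ey (fun z => φ (k m) z - φ (k n) z) z ^ 2 ≤ 4 * C := by
    obtain ⟨-, -, i1⟩ := test_integrable (ht (k m))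
    obtain ⟨-, -, i2⟩ := test_integrable (ht (k n))
    have h1 := hC (k m)
    have h2 := hC (k n)
    rw [integral_add (i1 ex) (i1 ey)] at h1
    rw [integral_add (i2 ex) (i2 ey)] at h2
    have h3 : ∀ v, ∫ z, dd v (fun z => φ (k m) z - φ (k n) z) z ^ 2 ≤
        2 * (∫ z, dd v (φ (k m)) z ^ 2) + 2 * ∫ z, dd v (φ (k n)) z ^ 2 := by
      intro v
      rw [← integral_const_mul, ← integral_const_mul,
        ← integral_add ((i1 v).const_mul 2) ((i2 v).const_mul 2)]
      simp only [hdd]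
      apply integral_mono_of_nonneg
      · exact Eventually.of_forall fun z => sq_nonneg _
      · exact ((i1 v).const_mul 2).add ((i2 v).const_mul 2)
      · refine Eventually.of_forall fun z => ?_
        show (dd v (φ (k m)) z - dd v (φ (k n)) z) ^ 2 ≤
          2 * dd v (φ (k m)) z ^ 2 + 2 * dd v (φ (k n)) z ^ 2
        nlinarith [sq_nonneg (dd v (φ (k m)) z + dd v (φ (k n)) z)]
    have := h3 ex
    have := h3 ey
    linarith
  -- averages part
  have hMp := hhpos M
  have hav : 1 / h M ^ 2 * ∑ i ∈ Finset.range (M + 1), ∑ j ∈ Finset.range (M + 1),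
        D (fun z => φ (k m) z - φ (k n) z) (-R + i * h M) (-R + j * h M) (h M) ^ 2 ≤ ε / 2 := by
    have h4 : ∑ i ∈ Finset.range (M + 1), ∑ j ∈ Finset.range (M + 1),
        D (fun z => φ (k m) z - φ (k n) z) (-R + i * h M) (-R + j * h M) (h M) ^ 2 ≤
        ∑ i ∈ Finset.range (M + 1), ∑ j ∈ Finset.range (M + 1),
          ε / 2 * h M ^ 2 / ((M + 1 : ℕ) : ℝ) ^ 2 := by
      apply Finset.sum_le_sum
      intro i hi
      apply Finset.sum_le_sum
      intro j hj
      rw [D_sub (ht (k m)).smooth.continuous (ht (k n)).smooth.continuous hMp]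
      have hle : Nf (M, i, j) ≤ (Finset.range (M + 1) ×ˢ Finset.range (M + 1)).sup
          (fun q => Nf (M, q.1, q.2)) :=
        Finset.le_sup (f := fun q : ℕ × ℕ => Nf (M, q.1, q.2)) (b := (i, j))
          (Finset.mem_product.2 ⟨hi, hj⟩)
      exact hNf (M, i, j) m (hle.trans hm) n (hle.trans hn)
    rw [Finset.sum_const, Finset.sum_const, Finset.card_range, nsmul_eq_mul, nsmul_eq_mul] at h4
    have h5 : ((M + 1 : ℕ) : ℝ) * (((M + 1 : ℕ) : ℝ) * (ε / 2 * h M ^ 2 / ((M + 1 : ℕ) : ℝ) ^ 2)) =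
        ε / 2 * h M ^ 2 := by
      have : ((M + 1 : ℕ) : ℝ) ≠ 0 := by positivity
      field_simp
    rw [h5] at h4
    calc 1 / h M ^ 2 * _ ≤ 1 / h M ^ 2 * (ε / 2 * h M ^ 2) := by gcongr
      _ = ε / 2 := by field_simp
  have h6 : h M ^ 2 / 9 * ((∫ z, dd ex (fun z => φ (k m) z - φ (k n) z) z ^ 2) +
      ∫ z, dd ey (fun z => φ (k m) z - φ (k n) z) z ^ 2) ≤ h M ^ 2 / 9 * (4 * C) := by gcongr
  have h7 : h M ^ 2 / 9 * (∫ z, dd ex (fun z => φ (k m) z - φ (k n) z) z ^ 2) +
      h M ^ 2 / 9 * (∫ z, dd ey (fun z => φ (k m) z - φ (k n) z) z ^ 2) =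
      h M ^ 2 / 9 * ((∫ z, dd ex (fun z => φ (k m) z - φ (k n) z) z ^ 2) +
      ∫ z, dd ey (fun z => φ (k m) z - φ (k n) z) z ^ 2) := by ring
  linarith

/-- **Rellich compactness.** -/
theorem rellich {R C : ℝ} {φ : ℕ → P → ℝ}
    (ht : ∀ n, IsTest (Set.Ioo (-R) R ×ˢ Set.Ioo (-R) R) (φ n))
    (hC0 : ∀ n, ∫ z, φ n z ^ 2 ≤ C)
    (hC : ∀ n, ∫ z, (dd ex (φ n) z ^ 2 + dd ey (φ n) z ^ 2) ≤ C) :
    ∃ k : ℕ → ℕ, StrictMono k ∧ ∀ ε > 0, ∃ N, ∀ m ≥ N, ∀ n ≥ N,
      ∫ z, (φ (k m) z - φ (k n) z) ^ 2 ≤ ε := by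
  have hR : R ≤ max R 1 := le_max_left _ _
  have hsub : (Set.Ioo (-R) R ×ˢ Set.Ioo (-R) R : Set P) ⊆
      Set.Ioo (-(max R 1)) (max R 1) ×ˢ Set.Ioo (-(max R 1)) (max R 1) := by
    apply Set.prod_mono <;>
    exact Ioo_subset_Ioo (neg_le_neg hR) hR
  exact rellich_pos (lt_max_of_lt_right one_pos) (fun n => (ht n).mono hsub) hC0 hC

end Pool.Agent.Lib.MP_dac83a.Rellich
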