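import Pool.Agent.Lib.MP_dac83a.Ground
import Pool.Agent.Lib.MP_dac83a.MaxP
import Pool.Agent.Lib.MP_dac83a.Rellich

set_option autoImplicit false

open MeasureTheory Set Filter Topology
open scoped ContDiff

namespace Pool.Agent.Lib.MP_dac83a

theorem Nm2_comb_right {U V W : Set P} {φ ψ χ : P → ℝ} (h : IsTest U φ) (h' : IsTest V ψ)
    (h'' : IsTest W χ) (a b : ℝ) :
    Nm2 φ (fun z => a * ψ z + b * χ z) = a * Nm2 φ ψ + b * Nm2 φ χ := by
  have := int3 (h.int_mul h') (h.int_mul h'') (h.int_mul h'') a b 0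
  simp only [Nm2]
  rw [zero_mul, add_zero] at this
  rw [← this]
  congr 1; ext z; ring

theorem En2_comb_right {U V W : Set P} {φ ψ χ : P → ℝ} (h : IsTest U φ) (h' : IsTest V ψ)
    (h'' : IsTest W χ) (a b : ℝ) :
    En2 φ (fun z => a * ψ z + b * χ z) = a * En2 φ ψ + b * En2 φ χ := by
  have := int3 (tint_en2 h h') (tint_en2 h h'') (tint_en2 h h'') a b 0
  simp only [En2]
  rw [zero_mul, add_zero] at this
  rw [← this]
  congr 1; ext z; rw [dd_comb h' h'', dd_comb h' h'']; ring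

theorem test_neg_arg {Ω : Set P} (hΩ : ∀ z, rot z ∈ Ω → z ∈ Ω) {φ : P → ℝ} (h : IsTest Ω φ) :
    IsTest Ω (fun z => φ (-z)) := by
  have := (h.rot hΩ).rot hΩ
  simpa only [rot_rot] using this

theorem dd_neg_arg {U : Set P} {φ : P → ℝ} (h : IsTest U φ) (v z : P) :
    dd v (fun z => φ (-z)) z = - dd v φ (-z) := by
  have := dd_reflect (h.smooth.differentiable (by simp)) 0 v z
  simpa using this

/-- Cauchy-Schwarz for the form `E - μ N` on odd functions -/
theorem form_cs {Ω : Set P} {μ : ℝ}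
    (hμ : ∀ φ, IsTest Ω φ → (∀ z, φ (-z) = -φ z) → μ * Nm φ ≤ En φ) {φ ψ : P → ℝ}
    (h : IsTest Ω φ) (ho : ∀ z, φ (-z) = -φ z) (h' : IsTest Ω ψ) (ho' : ∀ z, ψ (-z) = -ψ z) :
    (En2 φ ψ - μ * Nm2 φ ψ) ^ 2 ≤ (En φ - μ * Nm φ) * (En ψ - μ * Nm ψ) := by
  have key : ∀ t : ℝ, 0 ≤ (En ψ - μ * Nm ψ) * (t * t) + (2 * (En2 φ ψ - μ * Nm2 φ ψ)) * t
      + (En φ - μ * Nm φ) := by
    intro t
    have h1 := hμ _ (h.comb h' 1 t) (fun z => by rw [ho, ho']; ring)
    rw [En_comb h h', Nm_comb h h'] at h1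
    nlinarith
  have := discrim_le_zero key
  unfold discrim at this
  nlinarith

theorem weak_odd {Ω : Set P} (hr : ∀ z, rot z ∈ Ω → z ∈ Ω) {μ : ℝ}
    (hμ : ∀ φ, IsTest Ω φ → (∀ z, φ (-z) = -φ z) → μ * Nm φ ≤ En φ) {φ : P → ℝ}
    (h : IsTest Ω φ) (ho : ∀ z, φ (-z) = -φ z) {ψ : P → ℝ} (h' : IsTest Ω ψ) :
    ∃ C, (En2 φ ψ - μ * Nm2 φ ψ) ^ 2 ≤ (En φ - μ * Nm φ) * C ∧
      C = En (fun z => (1 / 2) * ψ z + (-1 / 2) * ψ (-z))
        - μ * Nm (fun z => (1 / 2) * ψ z + (-1 / 2) * ψ (-z)) := by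
  refine ⟨_, ?_, rfl⟩
  have hn := test_neg_arg hr h'
  have ht := h'.comb hn (1 / 2) (-1 / 2)
  have h1 := form_cs hμ h ho ht (fun z => by simp only [neg_neg]; ring)
  have e1 : Nm2 φ (fun z => ψ (-z)) = - Nm2 φ ψ := by
    simp only [Nm2]
    rw [← integral_neg_eq_self, ← integral_neg]
    congr 1; ext z; rw [ho, neg_neg]; ring
  have e2 : En2 φ (fun z => ψ (-z)) = - En2 φ ψ := by
    have hd : ∀ v z, dd v φ (-z) = dd v φ z := by
      intro v z
      have e : (fun z => φ (-z)) = fun z => (-1) * φ z := by ext w; rw [ho]; ring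
      have h2 := dd_neg_arg h v z
      rw [e, dd_const_mul (h.diffAt z)] at h2
      linarith
    simp only [En2]
    rw [← integral_neg_eq_self, ← integral_neg]
    congr 1; ext z
    rw [dd_neg_arg h', dd_neg_arg h', neg_neg, hd, hd]; ring
  rw [Nm2_comb_right h h' hn, En2_comb_right h h' hn, e1, e2] at h1
  have e3 : (1 / 2 : ℝ) * En2 φ ψ + -1 / 2 * -En2 φ ψ - μ * (1 / 2 * Nm2 φ ψ + -1 / 2 * -Nm2 φ ψ)
      = En2 φ ψ - μ * Nm2 φ ψ := by ring
  rw [e3] at h1
  exact h1

theorem exists_ground {Ω : Set P} (hΩ : IsOpen Ω) {R : ℝ} (hR : Ω ⊆ Ioo (-R) R ×ˢ Ioo (-R) R)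
    (hr : ∀ z, rot z ∈ Ω ↔ z ∈ Ω) {μ : ℝ} (hμ0 : 0 ≤ μ)
    (hμ : ∀ φ, IsTest Ω φ → (∀ z, φ (-z) = -φ z) → μ * Nm φ ≤ En φ)
    (hinf : ∀ ε > 0, ∃ φ, IsTest Ω φ ∧ (∀ z, φ (-z) = -φ z) ∧ Nm φ = 1 ∧ En φ < μ + ε) :
    ∃ u : P → ℝ, Eig Ω μ u ∧ (∀ z, u (-z) = -u z) ∧ ∃ z ∈ Ω, u z ≠ 0 := by
  choose φ' hφ' using fun n : ℕ => hinf (1 / ((n : ℝ) + 1)) (by positivity)
  have hE : ∀ n, En (φ' n) ≤ μ + 1 := by
    intro n
    have h1 := (hφ' n).2.2.2
    have h2 : 1 / ((n : ℝ) + 1) ≤ 1 := by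
      rw [div_le_one (by positivity)]; linarith [Nat.cast_nonneg (α := ℝ) n]
    linarith
  obtain ⟨k, hk, hcau⟩ := Rellich.rellich (R := R) (C := μ + 1) (φ := φ')
    (fun n => (hφ' n).1.mono hR) (fun n => by
      have := (hφ' n).2.2.1
      unfold Nm at this
      rw [this]; linarith) (fun n => hE n)
  set φ : ℕ → P → ℝ := fun n => φ' (k n) with hφ
  have ht : ∀ n, IsTest Ω (φ n) := fun n => (hφ' _).1
  have ho : ∀ n z, φ n (-z) = - φ n z := fun n => (hφ' _).2.1
  have h1 : ∀ n, Nm (φ n) = 1 := fun n => (hφ' _).2.2.1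
  have hElim : ∀ n, En (φ n) < μ + 1 / ((n : ℝ) + 1) := by
    intro n
    have h2 := (hφ' (k n)).2.2.2
    have h3 : 1 / ((k n : ℝ) + 1) ≤ 1 / ((n : ℝ) + 1) := by
      apply one_div_le_one_div_of_le (by positivity)
      have : (n : ℝ) ≤ k n := by exact_mod_cast hk.id_le n
      linarith
    simp only [hφ]; linarith
  have hElow : ∀ n, μ ≤ En (φ n) := by
    intro n
    have := hμ _ (ht n) (ho n)
    rw [h1, mul_one] at this; exact this
  have hgap : Tendsto (fun n => En (φ n) - μ * Nm (φ n)) atTop (𝓝 0) := by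
    refine squeeze_zero (fun n => ?_) (fun n => ?_) tendsto_one_div_add_atTop_nhds_zero_nat
    · rw [h1]; linarith [hElow n]
    · rw [h1]; linarith [hElim n]
  -- the energies are Cauchy
  have hNc : ∀ ε > 0, ∃ N, ∀ m ≥ N, ∀ n ≥ N, Nm (fun z => 1 * φ m z + (-1) * φ n z) ≤ ε := by
    intro ε hε
    obtain ⟨N, hN⟩ := hcau ε hε
    refine ⟨N, fun m hm n hn => ?_⟩
    have := hN m hm n hn
    refine le_trans (le_of_eq ?_) this
    simp only [Nm]
    congr 1; ext z; simp only [hφ]; ring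
  have hEc : ∀ ε > 0, ∃ N, ∀ m ≥ N, ∀ n ≥ N, En (fun z => 1 * φ m z + (-1) * φ n z) ≤ ε := by
    intro ε hε
    obtain ⟨N1, hN1⟩ := hNc (ε / (2 * (μ + 1))) (by positivity)
    obtain ⟨N2, hN2⟩ := exists_nat_gt (8 / ε)
    refine ⟨max N1 N2, fun m hm n hn => ?_⟩
    have hm1 : N1 ≤ m := le_trans (le_max_left _ _) hm
    have hn1 : N1 ≤ n := le_trans (le_max_left _ _) hn
    have hm2 : N2 ≤ m := le_trans (le_max_right _ _) hm
    have hn2 : N2 ≤ n := le_trans (le_max_right _ _) hn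
    have hb : ∀ j, N2 ≤ j → 1 / ((j : ℝ) + 1) ≤ ε / 8 := by
      intro j hj
      have : (N2 : ℝ) ≤ j := by exact_mod_cast hj
      have h8 : 8 / ε < (j : ℝ) + 1 := by linarith
      rw [div_le_div_iff₀ (by positivity) (by norm_num)]
      rw [div_lt_iff₀ hε] at h8
      linarith
    have eE1 := En_comb (ht m) (ht n) 1 (-1)
    have eE2 := En_comb (ht m) (ht n) 1 1
    have eN1 := Nm_comb (ht m) (ht n) 1 (-1)
    have eN2 := Nm_comb (ht m) (ht n) 1 1
    have hlow := hμ _ ((ht m).comb (ht n) 1 1) (fun z => by rw [ho, ho]; ring)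
    rw [eE2, eN2, h1, h1] at hlow
    have hN := hN1 m hm1 n hn1
    rw [eN1, h1, h1] at hN
    rw [eE1]
    have hEm := hElim m
    have hEn := hElim n
    have hbm := hb m hm2
    have hbn := hb n hn2
    have hmul : μ * (1 ^ 2 * 1 + 2 * 1 * -1 * Nm2 (φ m) (φ n) + (-1) ^ 2 * 1) ≤ ε / 2 := by
      have h5 : μ * (1 ^ 2 * 1 + 2 * 1 * -1 * Nm2 (φ m) (φ n) + (-1) ^ 2 * 1)
          ≤ μ * (ε / (2 * (μ + 1))) := by gcongr
      refine h5.trans ?_
      rw [mul_div_assoc', div_le_div_iff₀ (by positivity) (by norm_num)]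
      nlinarith
    nlinarith
  have hmul : ∀ n v, MemLp (dd v (φ n)) 2 (volume.restrict Ω) := fun n v =>
    ((ht n).dd v).memLp.mono_measure Measure.restrict_le_self
  have hdc : ∀ v, (v = ex ∨ v = ey) → ∃ p, Conv2 (volume.restrict Ω) (fun n => dd v (φ n)) p := by
    intro v hv
    apply cauchy_conv2 (fun n => hmul n v)
    intro ε hε
    obtain ⟨N, hN⟩ := hEc ε hε
    refine ⟨N, fun m hm n hn => ?_⟩
    refine le_trans ?_ (hN m hm n hn)
    have htd := (ht m).comb (ht n) 1 (-1)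
    have e : ∀ z, dd v (φ m) z - dd v (φ n) z = dd v (fun z => 1 * φ m z + (-1) * φ n z) z := by
      intro z; rw [dd_comb (ht m) (ht n)]; ring
    simp only [e]
    refine (setIntegral_le_integral (htd.dd v).int_sq
      (Eventually.of_forall fun z => by positivity)).trans ?_
    apply integral_mono (htd.dd v).int_sq (tint_en htd)
    intro z
    rcases hv with rfl | rfl
    · simp only; linarith [sq_nonneg (dd ey (fun z => 1 * φ m z + (-1) * φ n z) z)]
    · simp only; linarith [sq_nonneg (dd ex (fun z => 1 * φ m z + (-1) * φ n z) z)]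
  obtain ⟨p, hp⟩ := hdc ex (Or.inl rfl)
  obtain ⟨q, hq⟩ := hdc ey (Or.inr rfl)
  obtain ⟨u0, hu0⟩ : ∃ u0, Conv2 (volume.restrict Ω) φ u0 := by
    apply cauchy_conv2 (fun n => (ht n).memLp.mono_measure Measure.restrict_le_self)
    intro ε hε
    obtain ⟨N, hN⟩ := hcau ε hε
    refine ⟨N, fun m hm n hn => ?_⟩
    refine le_trans ?_ (hN m hm n hn)
    refine (setIntegral_le_integral ?_ (Eventually.of_forall fun z => by positivity)).trans le_rfl
    exact ((ht m).memLp.sub (ht n).memLp).integrable_sq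
  -- `Ω` has finite measure
  have hfin : volume Ω < ⊤ := by
    refine lt_of_le_of_lt (measure_mono hR) ?_
    rw [Measure.volume_eq_prod, Measure.prod_prod, Real.volume_Ioo]
    exact ENNReal.mul_lt_top ENNReal.ofReal_lt_top ENNReal.ofReal_lt_top
  have : IsFiniteMeasure (volume.restrict Ω) := ⟨by rwa [Measure.restrict_apply_univ]⟩
  have hmeas : MeasurableSet Ω := hΩ.measurableSet
  have hout : ∀ {ψ : P → ℝ}, IsTest Ω ψ → ∀ z, z ∉ Ω → ψ z = 0 := fun h z hz =>
    image_eq_zero_of_notMem_tsupport (fun h' => hz (h.sub h'))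
  have hres : ∀ {ψ : P → ℝ} (f : P → ℝ), IsTest Ω ψ → ∫ z, f z * ψ z = ∫ z in Ω, f z * ψ z :=
    fun f h => integral_eq_restrict (fun z hz => by simp [hout h z hz])
  obtain ⟨v, hv1, hv2, hv3⟩ := regularity hΩ hμ0 (u := Ω.indicator u0)
    ((integrable_indicator_iff hmeas).2 (hu0.mem.integrable (by norm_num))) (by
      intro ψ hψ
      have hψl : IsTest Ω (fun z => (1 : ℝ) * lap ψ z + μ * ψ z) := by
        have : IsTest Ω (lap ψ) := ((hψ.dd ex).dd ex).add ((hψ.dd ey).dd ey)
        exact this.comb hψ 1 μ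
      have e1 : ∫ z, Ω.indicator u0 z * (lap ψ z + μ * ψ z)
          = ∫ z in Ω, u0 z * (1 * lap ψ z + μ * ψ z) := by
        rw [← integral_indicator hmeas]
        congr 1; ext z
        by_cases hz : z ∈ Ω
        · simp [indicator_of_mem hz]
        · simp [indicator_of_notMem hz]
      rw [e1]
      have l1 := hu0.integral_mul (Conv2.const (hψl.memLp.mono_measure Measure.restrict_le_self))
      have l2 : Tendsto (fun n => ∫ z in Ω, φ n z * (1 * lap ψ z + μ * ψ z)) atTop (𝓝 0) := by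
        have e2 : ∀ n, ∫ z in Ω, φ n z * (1 * lap ψ z + μ * ψ z)
            = -(En2 (φ n) ψ - μ * Nm2 (φ n) ψ) := by
          intro n
          rw [← hres _ hψl]
          have h3 := int3 ((ht n).int_mul hψ) ((ht n).int_mul hψ) ((ht n).int_mul
            (((hψ.dd ex).dd ex).add ((hψ.dd ey).dd ey))) μ 0 1
          have h4 : ∫ z, φ n z * lap ψ z = - En2 (φ n) ψ := int_mul_lap (ht n) hψ
          have h5 : ∫ z, φ n z * (1 * lap ψ z + μ * ψ z) = μ * (∫ z, φ n z * ψ z)
              + 0 * (∫ z, φ n z * ψ z) + 1 * ∫ z, φ n z * lap ψ z := by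
            simp only [lap]
            rw [← h3]; congr 1; ext z; ring
          rw [h5, h4]
          simp only [Nm2]; ring
        simp only [e2]
        rw [← neg_zero]
        apply Tendsto.neg
        have h6 : Tendsto (fun n => (En2 (φ n) ψ - μ * Nm2 (φ n) ψ) ^ 2) atTop (𝓝 0) := by
          have h7 := hgap.mul_const (En (fun z => (1 / 2) * ψ z + (-1 / 2) * ψ (-z))
            - μ * Nm (fun z => (1 / 2) * ψ z + (-1 / 2) * ψ (-z)))
          rw [zero_mul] at h7
          refine squeeze_zero (fun n => by positivity) (fun n => ?_) h7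
          obtain ⟨C, hC, rfl⟩ := weak_odd (fun z hz => (hr z).1 hz) hμ (ht n) (ho n) hψ
          exact hC
        have h8 := (Real.continuous_sqrt.tendsto 0).comp h6
        rw [Real.sqrt_zero] at h8
        simp only [Function.comp_def, Real.sqrt_sq_eq_abs] at h8
        exact (tendsto_zero_iff_abs_tendsto_zero _).2 h8
      exact tendsto_nhds_unique l1 l2)
  have hvu : v =ᵐ[volume.restrict Ω] u0 := by
    rw [EventuallyEq, ae_restrict_iff' hmeas]
    filter_upwards [hv2] with z hz hzΩ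
    rw [hz hzΩ, indicator_of_mem hzΩ]
  have hcv : Conv2 (volume.restrict Ω) φ v := hu0.congr (fun n => ae_eq_rfl) hvu.symm
  have hder : ∀ w p, Conv2 (volume.restrict Ω) (fun n => dd w (φ n)) p →
      Conv2 (volume.restrict Ω) (fun n => dd w (φ n)) (dd w v) := by
    intro w p hp
    refine hp.congr (fun n => ae_eq_rfl) ?_
    rw [EventuallyEq, ae_restrict_iff' hmeas]
    have hli : LocallyIntegrableOn (fun z => p z - dd w v z) Ω volume := by
      apply LocallyIntegrableOn.sub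
      · exact (IntegrableOn.locallyIntegrableOn (hp.mem.integrable (by norm_num)))
      · exact (dd_contDiffOn (m := 0) hΩ (hv1.of_le one_le_inf) (by norm_num)
          w).continuousOn.locallyIntegrableOn hmeas
    have := hΩ.ae_eq_zero_of_integral_contDiff_smul_eq_zero hli ?_
    · filter_upwards [this] with z hz hzΩ
      have := hz hzΩ
      linarith
    · intro ψ hψ hψc hψs
      have hψt : IsTest Ω ψ := ⟨hψ, hψc, hψs⟩
      have l1 := hp.integral_mul (Conv2.const (hψt.memLp.mono_measure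
        (Measure.restrict_le_self (s := Ω))))
      have l2 := hcv.integral_mul (Conv2.const ((hψt.dd w).memLp.mono_measure
        (Measure.restrict_le_self (s := Ω))))
      have e3 : ∀ n, ∫ z in Ω, dd w (φ n) z * ψ z = - ∫ z in Ω, φ n z * dd w ψ z := by
        intro n
        rw [← hres _ hψt, ← hres _ (hψt.dd w)]
        have := ibp isOpen_univ ((ht n).mono (subset_univ _)).isTest1
          ((hψ.of_le one_le_inf).contDiffOn) w
        linarith
      simp only [e3] at l1
      have l3 := tendsto_nhds_unique l1 l2.neg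
      have e4 := ibp hΩ hψt.isTest1 (hv1.of_le one_le_inf) w
      have i1 : Integrable (fun z => ψ z * p z) := by
        have : IntegrableOn (fun z => p z * ψ z) Ω :=
          integrable_mul2 hp.mem (hψt.memLp.mono_measure (Measure.restrict_le_self))
        rw [integrableOn_iff_integrable_of_support_subset] at this
        · refine this.congr (Eventually.of_forall fun z => ?_)
          simp only; ring
        · intro z hz
          by_contra h
          exact hz (by simp [hout hψt z h])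
      have i2 : Integrable (fun z => ψ z * dd w v z) := by
        apply integrable_of_vanish hΩ hψc hψs
        · exact hψ.continuous.continuousOn.mul (dd_contDiffOn (m := 0) hΩ (hv1.of_le one_le_inf)
            (by norm_num) w).continuousOn
        · intro z hz; simp [image_eq_zero_of_notMem_tsupport hz]
      have e5 : ∫ z, ψ z • (p z - dd w v z) = (∫ z, ψ z * p z) - ∫ z, ψ z * dd w v z := by
        rw [← integral_sub i1 i2]
        congr 1; ext z; simp only [smul_eq_mul]; ring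
      rw [e5, e4]
      have e6 : ∫ z, ψ z * p z = ∫ z in Ω, p z * ψ z := by
        rw [← hres _ hψt]; congr 1; ext z; ring
      have e7 : ∫ z, dd w ψ z * v z = ∫ z in Ω, v z * dd w ψ z := by
        rw [← hres _ (hψt.dd w)]; congr 1; ext z; ring
      rw [e6, e7, l3]; ring
  have hEig : Eig Ω μ v := ⟨hv1, hv3, φ, ht, hcv, hder ex p hp, hder ey q hq⟩
  have hEig2 := hEig.comb hΩ ((hEig.rot hΩ hr).rot hΩ hr) (1 / 2) (-1 / 2)
  refine ⟨_, hEig2, fun z => ?_, ?_⟩
  · simp only [rot_rot, neg_neg]; ring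
  · by_contra hcon
    push Not at hcon
    have hmp := rot_mp_restrict hr
    have hc2 := hcv.comb ((hcv.comp hmp rot_emb).comp hmp rot_emb) (1 / 2) (-1 / 2)
    have hsq := hc2.integral_sq
    have e8 : ∫ z in Ω, (1 / 2 * v z + -1 / 2 * v (rot (rot z))) ^ 2 = 0 := by
      apply setIntegral_eq_zero_of_forall_eq_zero
      intro z hz
      rw [hcon z hz]; norm_num
    have e9 : ∀ n, ∫ z in Ω, (1 / 2 * φ n z + -1 / 2 * φ n (rot (rot z))) ^ 2 = 1 := by
      intro n
      refine Eq.trans ?_ (h1 n)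
      simp only [Nm]
      rw [integral_eq_restrict (D := Ω) (f := fun z => φ n z ^ 2)
        (fun z hz => by simp [hout (ht n) z hz])]
      congr 1; ext z; rw [rot_rot, ho]; ring
    simp only [e8, e9] at hsq
    have := tendsto_nhds_unique hsq tendsto_const_nhds
    norm_num at this

end Pool.Agent.Lib.MP_dac83a
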