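import Pool.Agent.Lib.MP_dac83a.Circle

set_option autoImplicit false

open MeasureTheory Set Filter Topology
open scoped ContDiff

namespace Pool.Agent.Lib.MP_dac83a

/-- convolution of a kernel with an integrable function -/
noncomputable def cv (f u : P → ℝ) (z : P) : ℝ := ∫ t, f (z - t) * u t

theorem cv_eq (f u : P → ℝ) :
    cv f u = convolution f u (ContinuousLinearMap.mul ℝ ℝ) volume := by
  ext z
  rw [convolution_eq_swap]
  rfl

theorem cv_contDiff {f u : P → ℝ} (hf : ContDiff ℝ ∞ f) (hc : HasCompactSupport f)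
    (hu : Integrable u) : ContDiff ℝ ∞ (cv f u) := by
  rw [cv_eq]
  exact hc.contDiff_convolution_left _ hf hu.locallyIntegrable

theorem dd_cv {f u : P → ℝ} (hf : ContDiff ℝ ∞ f) (hc : HasCompactSupport f)
    (hu : Integrable u) (v : P) : dd v (cv f u) = cv (dd v f) u := by
  ext z
  have h := hc.hasFDerivAt_convolution_left (μ := volume) (ContinuousLinearMap.mul ℝ ℝ)
    (hf.of_le one_le_inf) hu.locallyIntegrable z
  simp only [dd]
  rw [cv_eq, h.fderiv, cv_eq]
  have hc' : HasCompactSupport (fderiv ℝ f) := hc.fderiv (𝕜 := ℝ)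
  have hex := (hc'.convolutionExists_left
    (ContinuousLinearMap.precompL P (ContinuousLinearMap.mul ℝ ℝ)) (μ := volume)
    (hf.continuous_fderiv (by simp)) hu.locallyIntegrable) z
  have e : (convolution (fderiv ℝ f) u
      (ContinuousLinearMap.precompL P (ContinuousLinearMap.mul ℝ ℝ)) volume z) v
      = ∫ t, ((ContinuousLinearMap.precompL P (ContinuousLinearMap.mul ℝ ℝ)) (fderiv ℝ f t)
        (u (z - t))) v := by
    rw [convolution_def]
    exact ContinuousLinearMap.integral_apply hex v
  rw [e, convolution_def]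
  rfl

theorem lap_cv {f u : P → ℝ} (hf : ContDiff ℝ ∞ f) (hc : HasCompactSupport f)
    (hu : Integrable u) (z : P) : lap (cv f u) z = cv (lap f) u z := by
  have h1 : ∀ v, ContDiff ℝ ∞ (dd v f) := fun v => dd_contDiff hf (by simp) v
  have h2 : ∀ v, HasCompactSupport (dd v f) := fun v => dd_hasCompactSupport hc v
  have h3 : ∀ v, ContDiff ℝ ∞ (dd v (dd v f)) := fun v => dd_contDiff (h1 v) (by simp) v
  have h4 : ∀ v, HasCompactSupport (dd v (dd v f)) := fun v => dd_hasCompactSupport (h2 v) v
  simp only [lap]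
  rw [dd_cv hf hc hu, dd_cv hf hc hu, dd_cv (h1 _) (h2 _) hu, dd_cv (h1 _) (h2 _) hu]
  simp only [cv, lap]
  have i : ∀ v, Integrable (fun t => dd v (dd v f) (z - t) * u t) := by
    intro v
    have hex := ((h4 v).convolutionExists_left
      (ContinuousLinearMap.mul ℝ ℝ) (μ := volume)
      (h3 v).continuous hu.locallyIntegrable) z
    have := hex.integrable_swap
    simpa using this
  rw [← integral_add (i _) (i _)]
  congr 1
  ext t
  ring

/-- derivatives after reflecting through a point -/
theorem dd_reflect {f : P → ℝ} (hf : Differentiable ℝ f) (z : P) (v : P) (t : P) :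
    dd v (fun t => f (z - t)) t = - dd v f (z - t) := by
  simp only [dd]
  have h1 : HasFDerivAt (fun t : P => z - t) (-(ContinuousLinearMap.id ℝ P)) t := by
    simpa using (hasFDerivAt_id t).const_sub z
  have := (hf (z - t)).hasFDerivAt.comp t h1
  rw [show (fun t => f (z - t)) = f ∘ (fun t => z - t) from rfl, this.fderiv]
  simp

theorem lap_reflect {f : P → ℝ} (hf : ContDiff ℝ 2 f) (z : P) (t : P) :
    lap (fun t => f (z - t)) t = lap f (z - t) := by
  have hd : Differentiable ℝ f := hf.differentiable (by norm_num)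
  have hdv : ∀ v, Differentiable ℝ (dd v f) := fun v =>
    (dd_contDiff (m := 1) hf (by norm_num) v).differentiable (by norm_num)
  have h : ∀ v, dd v (dd v (fun t => f (z - t))) t = dd v (dd v f) (z - t) := by
    intro v
    have e : dd v (fun t => f (z - t)) = fun t => (-1) * dd v f (z - t) := by
      ext s; rw [dd_reflect hd]; ring
    rw [e, dd_const_mul, dd_reflect (hdv v)]
    · ring
    · exact (hdv v).comp (differentiable_const z |>.sub differentiable_id) t
  simp only [lap]
  rw [h, h]

/-- radial kernel -/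
noncomputable def eta (r : ℝ) (z : P) : ℝ := Real.smoothTransition (1 - (z.1 ^ 2 + z.2 ^ 2) / r ^ 2)

theorem eta_contDiff (r : ℝ) : ContDiff ℝ ∞ (eta r) := by
  unfold eta
  have h : ContDiff ℝ ∞ (fun z : P => 1 - (z.1 ^ 2 + z.2 ^ 2) / r ^ 2) := by fun_prop
  exact (Real.smoothTransition.contDiff (n := ⊤)).comp h

theorem eta_nonneg (r : ℝ) (z : P) : 0 ≤ eta r z := Real.smoothTransition.nonneg _

theorem eta_le_one (r : ℝ) (z : P) : eta r z ≤ 1 := Real.smoothTransition.le_one _

theorem eta_neg (r : ℝ) (z : P) : eta r (-z) = eta r z := by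
  simp [eta]

theorem eta_zero {r : ℝ} (hr : 0 < r) {z : P} (hz : z ∉ disc 0 r) : eta r z = 0 := by
  simp only [disc, mem_ofPred_eq, Prod.fst_zero, Prod.snd_zero, sub_zero, not_le] at hz
  apply Real.smoothTransition.zero_of_nonpos
  have : 1 ≤ (z.1 ^ 2 + z.2 ^ 2) / r ^ 2 := by
    rw [le_div_iff₀ (by positivity)]; linarith
  linarith

theorem eta_tsupport {r : ℝ} (hr : 0 < r) : tsupport (eta r) ⊆ disc 0 r := by
  apply closure_minimal _ (disc_closed 0 r)
  intro z hz
  by_contra h
  exact hz (eta_zero hr h)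

theorem eta_cpt {r : ℝ} (hr : 0 < r) : HasCompactSupport (eta r) :=
  HasCompactSupport.intro (disc_compact 0 hr.le) (fun _ hz => eta_zero hr hz)

theorem eta_integrable {r : ℝ} (hr : 0 < r) : Integrable (eta r) :=
  (eta_contDiff r).continuous.integrable_of_hasCompactSupport (eta_cpt hr)

theorem mem_disc_sub {z t : P} {r : ℝ} : z - t ∈ disc 0 r ↔ t ∈ disc z r := by
  simp only [disc, mem_ofPred_eq, Prod.fst_zero, Prod.snd_zero, sub_zero, Prod.fst_sub, Prod.snd_sub]
  constructor <;> intro h <;> nlinarith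

/-- mollification of a very weak solution is a classical solution -/
theorem cv_eta_solution {Ω : Set P} {μ : ℝ} {u : P → ℝ} (hu : Integrable u)
    (hw : ∀ ψ, IsTest Ω ψ → ∫ z, u z * (lap ψ z + μ * ψ z) = 0) {r : ℝ} (hr : 0 < r) {z : P}
    (hz : disc z r ⊆ Ω) : lap (cv (eta r) u) z = -μ * cv (eta r) u z := by
  rw [lap_cv (eta_contDiff r) (eta_cpt hr) hu]
  set ψ : P → ℝ := fun t => eta r (z - t) with hψ
  have hψs : ContDiff ℝ ∞ ψ := (eta_contDiff r).comp (contDiff_const.sub contDiff_id)
  have hψ0 : ∀ t, t ∉ disc z r → ψ t = 0 := by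
    intro t ht
    exact eta_zero hr (fun h => ht (mem_disc_sub.1 h))
  have ht : IsTest Ω ψ := by
    refine ⟨hψs, HasCompactSupport.intro (disc_compact z hr.le) hψ0, ?_⟩
    refine (closure_minimal ?_ (disc_closed z r)).trans hz
    intro t ht
    by_contra h
    exact ht (hψ0 t h)
  have h := hw ψ ht
  have hl : ∀ t, lap ψ t = lap (eta r) (z - t) := fun t =>
    lap_reflect ((eta_contDiff r).of_le two_le_inf) z t
  simp only [cv]
  have hlc : Continuous (lap ψ) := by
    have : ∀ v, Continuous (dd v (dd v ψ)) := fun v =>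
      (dd_contDiff (m := ∞) (dd_contDiff (m := ∞) hψs (by simp) v) (by simp) v).continuous
    exact (this ex).add (this ey)
  have hlb : ∃ C, ∀ t, |lap ψ t| ≤ C := by
    have hcs : HasCompactSupport (lap ψ) :=
      (dd_hasCompactSupport (dd_hasCompactSupport ht.cpt ex) ex).add
        (dd_hasCompactSupport (dd_hasCompactSupport ht.cpt ey) ey)
    obtain ⟨C, hC⟩ := hcs.exists_bound_of_continuous hlc
    exact ⟨C, fun t => by simpa using hC t⟩
  obtain ⟨C, hC⟩ := hlb
  have i1 : Integrable (fun t => lap ψ t * u t) :=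
    hu.bdd_mul hlc.aestronglyMeasurable (c := C) (Eventually.of_forall fun t => by simpa using hC t)
  have i2 : Integrable (fun t => ψ t * u t) :=
    hu.bdd_mul hψs.continuous.aestronglyMeasurable (c := 1) (Eventually.of_forall fun t => by
      rw [Real.norm_eq_abs, abs_of_nonneg (eta_nonneg _ _)]; exact eta_le_one _ _)
  have e : ∫ t, u t * (lap ψ t + μ * ψ t) = (∫ t, lap ψ t * u t) + μ * ∫ t, ψ t * u t := by
    rw [← integral_const_mul, ← integral_add i1 (i2.const_mul μ)]
    congr 1; ext t; ring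
  rw [e] at h
  have e1 : ∫ t, lap (eta r) (z - t) * u t = ∫ t, lap ψ t * u t := by
    congr 1; ext t; rw [hl]
  rw [e1]
  simp only [hψ] at h ⊢
  linarith

/-- normalising constant -/
noncomputable def cc (μ r : ℝ) : ℝ := ∫ t : P, eta r t * Real.cos (√μ * t.1)

theorem eta_ue (r s θ : ℝ) : eta r (s • ue θ) = Real.smoothTransition (1 - s ^ 2 / r ^ 2) := by
  simp only [eta, ue, Prod.smul_mk, smul_eq_mul]
  have h := Real.sin_sq_add_cos_sq θ
  have : (s * Real.cos θ) ^ 2 + (s * Real.sin θ) ^ 2 = s ^ 2 := by linear_combination s ^ 2 * h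
  rw [this]

theorem radial_zero {U : Set P} (hU : IsOpen U) {D : P → ℝ} (hD : ContDiffOn ℝ 2 D U) {z : P}
    {μ r : ℝ} (hμ : 0 ≤ μ) (hr : 0 < r) (hμr : μ * r ^ 2 < 4) (hd : disc z r ⊆ U)
    (heq : ∀ w ∈ U, lap D w = -μ * D w) (hz : D z = 0) :
    ∫ t, eta r t * D (z + t) = 0 := by
  set W : P → ℝ := fun t => eta r t * D (z + t) with hW
  have hU' : IsOpen {t : P | z + t ∈ U} := hU.preimage (by fun_prop)
  have hsub : disc 0 r ⊆ {t : P | z + t ∈ U} := by
    intro t ht
    apply hd
    simp only [disc, mem_ofPred_eq, Prod.fst_zero, Prod.snd_zero, sub_zero, Prod.fst_add,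
      Prod.snd_add] at ht ⊢
    nlinarith
  have hW0 : ∀ t, t ∉ disc 0 r → W t = 0 := by
    intro t ht; simp [hW, eta_zero hr ht]
  have hWc : Continuous W := by
    refine (contDiff_of_vanish (n := 0) hU' (disc_compact 0 hr.le) hsub ?_ hW0).1.continuous
    have h1 : ContDiffOn ℝ 0 (fun t => D (z + t)) {t : P | z + t ∈ U} :=
      (hD.of_le (by norm_num)).comp (contDiffOn_const.add contDiffOn_id) (fun t ht => ht)
    exact ((eta_contDiff r).of_le (by simp)).contDiffOn.mul h1
  rw [← integral_comp_polarCoord_symm]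
  set G : P → ℝ := fun p => p.1 * W (p.1 • ue p.2) with hG
  have hGeq : ∀ p : P, p.1 • W (polarCoord.symm p) = G p := by
    intro p; simp [hG, ue, polarCoord]
  have hGc : Continuous G := by
    have := continuous_ue
    simp only [hG]; fun_prop
  rw [show (fun p : P => p.1 • W (polarCoord.symm p)) = G from funext hGeq]
  have hG0 : ∀ p : P, 0 < p.1 → r < p.1 → G p = 0 := by
    intro p h0 h
    simp only [hG]
    rw [hW0, mul_zero]
    simp only [disc, mem_ofPred_eq, ue, Prod.smul_mk, smul_eq_mul, Prod.fst_zero, Prod.snd_zero,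
      sub_zero, not_le]
    have h1 := Real.sin_sq_add_cos_sq p.2
    have : (p.1 * Real.cos p.2) ^ 2 + (p.1 * Real.sin p.2) ^ 2 = p.1 ^ 2 := by
      linear_combination p.1 ^ 2 * h1
    rw [this]
    exact pow_lt_pow_left₀ h hr.le (by norm_num)
  have htar : (polarCoord.target : Set P) = Ioi 0 ×ˢ Ioo (-Real.pi) Real.pi := rfl
  rw [htar]
  have hsub2 : Ioc 0 r ×ˢ Ioo (-Real.pi) Real.pi ⊆ (Ioi 0 ×ˢ Ioo (-Real.pi) Real.pi : Set P) :=
    prod_mono Ioc_subset_Ioi_self subset_rfl
  have hred : ∫ p in (Ioi 0 ×ˢ Ioo (-Real.pi) Real.pi : Set P), G p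
      = ∫ p in (Ioc 0 r ×ˢ Ioo (-Real.pi) Real.pi : Set P), G p := by
    apply setIntegral_eq_of_subset_of_forall_sdiff_eq_zero
      (measurableSet_Ioi.prod measurableSet_Ioo) hsub2
    rintro ⟨s, θ⟩ hx
    simp only [Set.mem_sdiff, mem_prod, mem_Ioi, mem_Ioo, mem_Ioc, not_and] at hx
    apply hG0
    · exact hx.1.1
    · by_contra h
      push Not at h
      exact absurd (hx.2 ⟨hx.1.1, h⟩ hx.1.2.1) (not_not.2 hx.1.2.2)
  rw [hred]
  have hint : IntegrableOn G (Ioc 0 r ×ˢ Ioo (-Real.pi) Real.pi) (volume.prod volume) := by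
    have : IntegrableOn G (Icc 0 r ×ˢ Icc (-Real.pi) Real.pi) (volume.prod volume) :=
      hGc.continuousOn.integrableOn_compact (isCompact_Icc.prod isCompact_Icc)
    exact this.mono_set (prod_mono Ioc_subset_Icc_self Ioo_subset_Icc_self)
  rw [Measure.volume_eq_prod, setIntegral_prod G hint]
  apply setIntegral_eq_zero_of_forall_eq_zero
  intro s hs
  have e : ∀ θ, G (s, θ) = (s * Real.smoothTransition (1 - s ^ 2 / r ^ 2)) * D (z + s • ue θ) := by
    intro θ
    simp only [hG, hW]
    rw [eta_ue]; ring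
  simp only [e]
  rw [integral_const_mul, ← integral_Ioc_eq_integral_Ioo,
    ← intervalIntegral.integral_of_le (by linarith [Real.pi_pos]),
    circle_mean hU hD hμ hr.le hμr hd heq hz s ⟨hs.1.le, hs.2⟩, mul_zero]

theorem radial_mean {U : Set P} (hU : IsOpen U) {V : P → ℝ} (hV : ContDiffOn ℝ 2 V U) {z : P}
    {μ r : ℝ} (hμ : 0 ≤ μ) (hr : 0 < r) (hμr : μ * r ^ 2 < 4) (hd : disc z r ⊆ U)
    (heq : ∀ w ∈ U, lap V w = -μ * V w) :
    ∫ t, eta r t * V (z + t) = cc μ r * V z := by
  -- the plane wave
  set w0 : P → ℝ := fun w => Real.cos (√μ * (w.1 - z.1)) with hw0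
  have hw0s : ContDiff ℝ 2 w0 := by
    simp only [hw0]; fun_prop
  have hw0l : ∀ w, lap w0 w = -μ * w0 w := by
    intro w
    have hs : √μ * √μ = μ := Real.mul_self_sqrt hμ
    have h1 : ∀ w : P, HasFDerivAt (fun w : P => √μ * (w.1 - z.1))
        (√μ • ContinuousLinearMap.fst ℝ ℝ ℝ) w := by
      intro w
      have : HasFDerivAt (fun w : P => w.1 - z.1) (ContinuousLinearMap.fst ℝ ℝ ℝ) w :=
        (hasFDerivAt_fst (𝕜 := ℝ) (p := w)).sub_const _
      exact this.const_mul _
    have h2 : ∀ v w, dd v w0 w = -(√μ * v.1) * Real.sin (√μ * (w.1 - z.1)) := by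
      intro v w
      simp only [dd, hw0]
      have := (h1 w).cos
      rw [this.fderiv]
      simp; ring
    have h3 : ∀ v w, dd v (dd v w0) w = -(√μ * v.1) ^ 2 * Real.cos (√μ * (w.1 - z.1)) := by
      intro v w
      have e : dd v w0 = fun w => -(√μ * v.1) * Real.sin (√μ * (w.1 - z.1)) := by
        ext w; exact h2 v w
      rw [e]
      simp only [dd]
      have := ((h1 w).sin).const_mul (-(√μ * v.1))
      rw [this.fderiv]
      simp; ring
    simp only [lap]
    rw [h3, h3]
    simp only [hw0]
    have : √μ ^ 2 = μ := by rw [sq, hs]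
    linear_combination (-Real.cos (√μ * (w.1 - z.1))) * this
  set D : P → ℝ := fun w => 1 * V w + (-V z) * w0 w with hD
  have hDs : ContDiffOn ℝ 2 D U := (contDiffOn_const.mul hV).add (contDiffOn_const.mul hw0s.contDiffOn)
  have hDeq : ∀ w ∈ U, lap D w = -μ * D w := by
    intro w hw
    rw [lap_comb hU hV hw0s.contDiffOn 1 (-V z) w hw, heq w hw, hw0l]
    simp only [hD]; ring
  have hDz : D z = 0 := by simp [hD, hw0]
  have h0 := radial_zero hU hDs hμ hr hμr hd hDeq hDz
  -- integrability
  have hU' : IsOpen {t : P | z + t ∈ U} := hU.preimage (by fun_prop)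
  have hsub : disc 0 r ⊆ {t : P | z + t ∈ U} := by
    intro t ht
    apply hd
    simp only [disc, mem_ofPred_eq, Prod.fst_zero, Prod.snd_zero, sub_zero, Prod.fst_add,
      Prod.snd_add] at ht ⊢
    nlinarith
  have i1 : Integrable (fun t => eta r t * V (z + t)) := by
    refine integrable_of_vanish hU' (disc_compact 0 hr.le) hsub ?_ (fun t ht => by
      simp [eta_zero hr ht])
    have h1 : ContinuousOn (fun t => V (z + t)) {t : P | z + t ∈ U} :=
      hV.continuousOn.comp (by fun_prop) (fun t ht => ht)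
    exact (eta_contDiff r).continuous.continuousOn.mul h1
  have i2 : Integrable (fun t : P => eta r t * Real.cos (√μ * t.1)) := by
    refine integrable_of_vanish hU' (disc_compact 0 hr.le) hsub ?_ (fun t ht => by
      simp [eta_zero hr ht])
    exact (eta_contDiff r).continuous.continuousOn.mul (by fun_prop)
  have e : ∀ t, eta r t * D (z + t) = eta r t * V (z + t) - V z * (eta r t * Real.cos (√μ * t.1)) := by
    intro t
    simp only [hD, hw0, Prod.fst_add, add_sub_cancel_left]; ring
  simp only [e] at h0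
  rw [integral_sub i1 (i2.const_mul _), integral_const_mul] at h0
  simp only [cc]
  linarith

theorem cc_pos {μ r : ℝ} (hr : 0 < r) (hμr : μ * r ^ 2 ≤ 1) (hμ : 0 ≤ μ) :
    (∫ t, eta r t) / 2 ≤ cc μ r ∧ |cc μ r - ∫ t, eta r t| ≤ (μ * r ^ 2 / 2) * ∫ t, eta r t := by
  have i1 := eta_integrable hr
  have i2 : Integrable (fun t : P => eta r t * Real.cos (√μ * t.1)) :=
    i1.mul_bdd (c := 1) (by fun_prop) (Eventually.of_forall fun t => by
      simpa using Real.abs_cos_le_one _)
  have hb : ∀ t : P, eta r t * (1 - μ * r ^ 2 / 2) ≤ eta r t * Real.cos (√μ * t.1) := by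
    intro t
    by_cases ht : t ∈ disc 0 r
    · apply mul_le_mul_of_nonneg_left _ (eta_nonneg _ _)
      refine le_trans ?_ Real.one_sub_sq_div_two_le_cos
      simp only [disc, mem_ofPred_eq, Prod.fst_zero, Prod.snd_zero, sub_zero] at ht
      rw [mul_pow, Real.sq_sqrt hμ]
      have : μ * t.1 ^ 2 ≤ μ * r ^ 2 := by
        apply mul_le_mul_of_nonneg_left _ hμ
        nlinarith [sq_nonneg t.2]
      linarith
    · simp [eta_zero hr ht]
  have hb2 : ∀ t : P, eta r t * Real.cos (√μ * t.1) ≤ eta r t := by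
    intro t
    have := Real.cos_le_one (√μ * t.1)
    have h := eta_nonneg r t
    nlinarith
  have e1 : (∫ t, eta r t) * (1 - μ * r ^ 2 / 2) ≤ cc μ r := by
    rw [← integral_mul_const]
    exact integral_mono (i1.mul_const _) i2 hb
  have e2 : cc μ r ≤ ∫ t, eta r t := integral_mono i2 i1 hb2
  have e3 : 0 ≤ ∫ t, eta r t := integral_nonneg (eta_nonneg r)
  constructor
  · nlinarith
  · rw [abs_le]
    constructor <;> nlinarith

/-- lower bound for the mass of the kernel -/
theorem eta_mass {r : ℝ} (hr : 0 < r) :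
    Real.smoothTransition (1 / 2) * r ^ 2 ≤ ∫ t, eta r t := by
  have hs : ∀ t ∈ Metric.closedBall (0 : P) (r / 2), Real.smoothTransition (1 / 2) ≤ eta r t := by
    intro t ht
    rw [Metric.mem_closedBall, Prod.dist_eq, Real.dist_eq, Real.dist_eq] at ht
    simp only [Prod.fst_zero, Prod.snd_zero, sub_zero, max_le_iff] at ht
    unfold eta
    have hm : Monotone Real.smoothTransition := by
      exact Real.smoothTransition.monotone
    apply hm
    have h1 : t.1 ^ 2 ≤ (r / 2) ^ 2 := by
      rw [← sq_abs]; exact pow_le_pow_left₀ (abs_nonneg _) ht.1 2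
    have h2 : t.2 ^ 2 ≤ (r / 2) ^ 2 := by
      rw [← sq_abs]; exact pow_le_pow_left₀ (abs_nonneg _) ht.2 2
    have : (t.1 ^ 2 + t.2 ^ 2) / r ^ 2 ≤ 1 / 2 := by
      rw [div_le_iff₀ (by positivity)]; nlinarith
    linarith
  have h1 : ∫ t in Metric.closedBall (0 : P) (r / 2), Real.smoothTransition (1 / 2) ≤ ∫ t, eta r t := by
    calc _ ≤ ∫ t in Metric.closedBall (0 : P) (r / 2), eta r t := by
          apply setIntegral_mono_on
          · exact integrableOn_const (measure_closedBall_lt_top.ne)
          · exact (eta_integrable hr).integrableOn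
          · exact measurableSet_closedBall
          · exact hs
      _ ≤ _ := setIntegral_le_integral (eta_integrable hr) (Eventually.of_forall (eta_nonneg r))
  refine le_trans (le_of_eq ?_) h1
  rw [setIntegral_const]
  have : volume.real (Metric.closedBall (0 : P) (r / 2)) = r ^ 2 := by
    rw [← closedBall_prod_same, Measure.real, Measure.volume_eq_prod, Measure.prod_prod,
      Real.volume_closedBall, Real.volume_closedBall, ← ENNReal.ofReal_mul (by positivity),
      ENNReal.toReal_ofReal (by positivity)]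
    ring
  rw [this, smul_eq_mul]; ring

theorem cv_comm {u : P → ℝ} (hu : Integrable u) {r ε : ℝ} (hr : 0 < r) (hε : 0 < ε) (z : P) :
    ∫ t, eta r t * cv (eta ε) u (z + t) = ∫ w, eta ε (z - w) * cv (eta r) u w := by
  simp only [cv, ← integral_const_mul]
  have i1 : Integrable (Function.uncurry fun t s => eta r t * (eta ε (z + t - s) * u s))
      ((volume : Measure P).prod (volume : Measure P)) := by
    have h1 : Integrable (fun p : P × P => eta r p.1 * u p.2) (volume.prod volume) :=
      (eta_integrable hr).mul_prod hu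
    have h2 := h1.bdd_mul (f := fun p : P × P => eta ε (z + p.1 - p.2)) (c := 1)
      ((eta_contDiff ε).continuous.comp (by fun_prop)).aestronglyMeasurable
      (Eventually.of_forall fun p => by
        rw [Real.norm_eq_abs, abs_of_nonneg (eta_nonneg _ _)]; exact eta_le_one _ _)
    refine h2.congr (Eventually.of_forall fun p => ?_)
    simp only [Function.uncurry]; ring
  have i2 : Integrable (Function.uncurry fun w s => eta ε (z - w) * (eta r (w - s) * u s))
      ((volume : Measure P).prod (volume : Measure P)) := by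
    have h0 : Integrable (fun w : P => eta ε (z - w)) := (eta_integrable hε).comp_sub_left z
    have h1 : Integrable (fun p : P × P => eta ε (z - p.1) * u p.2) (volume.prod volume) :=
      h0.mul_prod hu
    have h2 := h1.bdd_mul (f := fun p : P × P => eta r (p.1 - p.2)) (c := 1)
      ((eta_contDiff r).continuous.comp (by fun_prop)).aestronglyMeasurable
      (Eventually.of_forall fun p => by
        rw [Real.norm_eq_abs, abs_of_nonneg (eta_nonneg _ _)]; exact eta_le_one _ _)
    refine h2.congr (Eventually.of_forall fun p => ?_)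
    simp only [Function.uncurry]; ring
  rw [integral_integral_swap i1, integral_integral_swap i2]
  congr 1
  ext s
  rw [← integral_sub_left_eq_self (fun w => eta ε (z - w) * (eta r (w - s) * u s)) volume s]
  congr 1
  ext t
  have e1 : s - t - s = -t := by abel
  have e2 : z - (s - t) = z + t - s := by abel
  rw [e1, e2, eta_neg]; ring

/-- mass of the kernel -/
noncomputable def mass (ε : ℝ) : ℝ := ∫ t : P, eta ε t

theorem st_half_pos : 0 < Real.smoothTransition (1 / 2) :=
  Real.smoothTransition.pos_of_pos (by norm_num)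

theorem mass_pos {ε : ℝ} (hε : 0 < ε) : 0 < mass ε :=
  lt_of_lt_of_le (mul_pos st_half_pos (by positivity)) (eta_mass hε)

/-- the mollification at a point of continuity, or more generally at a Lebesgue point -/
theorem moll_bound {g : P → ℝ} (hg : LocallyIntegrable g) {ε : ℝ} (hε : 0 < ε) (z : P) (c : ℝ) :
    |(∫ w, eta ε (z - w) * g w) / mass ε - c| ≤
      (4 / Real.smoothTransition (1 / 2)) * ⨍ w in Metric.closedBall z ε, |g w - c| := by
  have hm := mass_pos hε
  have hout : ∀ w, w ∉ Metric.closedBall z ε → eta ε (z - w) = 0 := by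
    intro w hw
    apply eta_zero hε
    intro h
    exact hw (disc_subset_closedBall z hε.le (mem_disc_sub.1 h))
  have ig : IntegrableOn g (Metric.closedBall z ε) :=
    hg.integrableOn_isCompact (isCompact_closedBall z ε)
  have ic : IntegrableOn (fun _ : P => c) (Metric.closedBall z ε) :=
    integrableOn_const measure_closedBall_lt_top.ne
  have hb : ∀ᵐ w ∂(volume.restrict (Metric.closedBall z ε)), ‖eta ε (z - w)‖ ≤ 1 :=
    Eventually.of_forall fun w => by
      rw [Real.norm_eq_abs, abs_of_nonneg (eta_nonneg _ _)]; exact eta_le_one _ _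
  have hms : AEStronglyMeasurable (fun w => eta ε (z - w)) (volume.restrict (Metric.closedBall z ε)) :=
    ((eta_contDiff ε).continuous.comp (by fun_prop)).aestronglyMeasurable
  have e0 : ∫ w, eta ε (z - w) = mass ε := by
    rw [integral_sub_left_eq_self (fun w => eta ε w) volume z]; rfl
  have e1 : (∫ w, eta ε (z - w) * g w) - c * mass ε
      = ∫ w in Metric.closedBall z ε, eta ε (z - w) * (g w - c) := by
    have h1 : ∫ w, eta ε (z - w) * g w = ∫ w in Metric.closedBall z ε, eta ε (z - w) * g w :=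
      (setIntegral_eq_integral_of_forall_compl_eq_zero (fun w hw => by simp [hout w hw])).symm
    have h2 : mass ε = ∫ w in Metric.closedBall z ε, eta ε (z - w) := by
      rw [← e0]
      exact (setIntegral_eq_integral_of_forall_compl_eq_zero (fun w hw => by simp [hout w hw])).symm
    rw [h1, h2, ← integral_const_mul, ← integral_sub]
    · congr 1; ext w; ring
    · exact ig.bdd_mul hms hb
    · have := ic.bdd_mul hms hb
      refine this.congr (Eventually.of_forall fun w => ?_)
      simp only; ring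
  have e2 : (∫ w, eta ε (z - w) * g w) / mass ε - c
      = (∫ w in Metric.closedBall z ε, eta ε (z - w) * (g w - c)) / mass ε := by
    rw [← e1]; field_simp
  rw [e2, abs_div, abs_of_pos hm]
  have e3 : |∫ w in Metric.closedBall z ε, eta ε (z - w) * (g w - c)|
      ≤ ∫ w in Metric.closedBall z ε, |g w - c| := by
    have i1 : IntegrableOn (fun w => eta ε (z - w) * (g w - c)) (Metric.closedBall z ε) :=
      (ig.sub ic).bdd_mul hms hb
    have i3 : Integrable (fun w => |g w - c|) (volume.restrict (Metric.closedBall z ε)) := by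
      have := (Integrable.sub ig ic).norm
      exact this
    have i2 : Integrable (fun w => |eta ε (z - w) * (g w - c)|)
      (volume.restrict (Metric.closedBall z ε)) := Integrable.abs i1
    refine abs_integral_le_integral_abs.trans ?_
    refine integral_mono i2 i3 ?_
    intro w
    simp only [Real.norm_eq_abs, abs_mul, abs_of_nonneg (eta_nonneg _ _), Pi.sub_apply]
    have := eta_le_one ε (z - w)
    nlinarith [abs_nonneg (g w - c), eta_nonneg ε (z - w)]
  have hvol : volume.real (Metric.closedBall z ε) = 4 * ε ^ 2 := by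
    rw [← Prod.mk.eta (p := z), ← closedBall_prod_same, Measure.real, Measure.volume_eq_prod,
      Measure.prod_prod, Real.volume_closedBall, Real.volume_closedBall,
      ← ENNReal.ofReal_mul (by positivity), ENNReal.toReal_ofReal (by positivity)]
    ring
  rw [setAverage_eq, hvol, smul_eq_mul]
  have hI : 0 ≤ ∫ w in Metric.closedBall z ε, |g w - c| := integral_nonneg fun _ => abs_nonneg _
  calc |∫ w in Metric.closedBall z ε, eta ε (z - w) * (g w - c)| / mass ε
      ≤ (∫ w in Metric.closedBall z ε, |g w - c|) / (Real.smoothTransition (1 / 2) * ε ^ 2) := by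
        apply div_le_div₀ hI e3 (mul_pos st_half_pos (by positivity)) (eta_mass hε)
    _ = _ := by
        have := st_half_pos
        field_simp

theorem moll_cont {g : P → ℝ} (hg : Continuous g) (z : P) :
    Tendsto (fun ε => (∫ w, eta ε (z - w) * g w) / mass ε) (𝓝[>] 0) (𝓝 (g z)) := by
  rw [Metric.tendsto_nhdsWithin_nhds]
  intro e he
  set C := 4 / Real.smoothTransition (1 / 2) with hC
  have hCpos : 0 < C := div_pos (by norm_num) st_half_pos
  obtain ⟨δ, hδ, h⟩ := Metric.continuousAt_iff.1 hg.continuousAt (e / (2 * C)) (by positivity)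
  refine ⟨δ, hδ, fun {ε} hε hεδ => ?_⟩
  have hε' : 0 < ε := hε
  rw [Real.dist_eq, sub_zero, abs_of_pos hε'] at hεδ
  rw [Real.dist_eq]
  refine lt_of_le_of_lt (moll_bound hg.locallyIntegrable hε' z (g z)) ?_
  have hav : ⨍ w in Metric.closedBall z ε, |g w - g z| ≤ e / (2 * C) := by
    have hvol : 0 < volume.real (Metric.closedBall z ε) := by
      rw [Measure.real, ENNReal.toReal_pos_iff]
      exact ⟨Metric.measure_closedBall_pos _ _ hε', measure_closedBall_lt_top⟩
    rw [setAverage_eq, smul_eq_mul, inv_mul_le_iff₀ hvol]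
    have : ∫ w in Metric.closedBall z ε, |g w - g z|
        ≤ ∫ w in Metric.closedBall z ε, e / (2 * C) := by
      apply setIntegral_mono_on
      · exact ((hg.sub continuous_const).abs).continuousOn.integrableOn_compact
          (isCompact_closedBall z ε)
      · exact integrableOn_const measure_closedBall_lt_top.ne
      · exact measurableSet_closedBall
      · intro w hw
        have := h (lt_of_le_of_lt (Metric.mem_closedBall.1 hw) hεδ)
        rw [Real.dist_eq] at this
        exact this.le
    rwa [setIntegral_const, smul_eq_mul] at this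
  calc C * ⨍ w in Metric.closedBall z ε, |g w - g z| ≤ C * (e / (2 * C)) := by gcongr
    _ = e / 2 := by field_simp
    _ < e := by linarith

theorem cc_pos' {μ r : ℝ} (hr : 0 < r) (hμr : μ * r ^ 2 ≤ 1) (hμ : 0 ≤ μ) : 0 < cc μ r := by
  have := (cc_pos hr hμr hμ).1
  have h := mass_pos hr
  unfold mass at h
  linarith

/-- the mollifications converge at every point -/
theorem moll_lim {Ω : Set P} {μ : ℝ} (hμ : 0 ≤ μ) {u : P → ℝ} (hu : Integrable u)
    (hw : ∀ ψ, IsTest Ω ψ → ∫ z, u z * (lap ψ z + μ * ψ z) = 0) {z : P} {δ r : ℝ}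
    (hz : Metric.ball z δ ⊆ Ω) (hr : 0 < r) (hrδ : r < δ) (hμr : μ * r ^ 2 ≤ 1) :
    Tendsto (fun ε => cv (eta ε) u z / mass ε) (𝓝[>] 0) (𝓝 (cv (eta r) u z / cc μ r)) := by
  have h1 := (moll_cont (cv_contDiff (eta_contDiff r) (eta_cpt hr) hu).continuous z).div_const
    (cc μ r)
  refine h1.congr' ?_
  have hlt : ∀ᶠ ε in 𝓝[>] (0 : ℝ), ε < δ - r := by
    apply Filter.Eventually.filter_mono nhdsWithin_le_nhds
    exact Iio_mem_nhds (by linarith)
  filter_upwards [hlt, self_mem_nhdsWithin] with ε hε1 hε0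
  have hε0 : 0 < ε := hε0
  have hc := cc_pos' hr hμr hμ
  have hm := mass_pos hε0
  set U : Set P := Metric.ball z (δ - ε) with hU
  have hUo : IsOpen U := Metric.isOpen_ball
  have hsub : disc z r ⊆ U := by
    intro w hw
    have := disc_subset_closedBall z hr.le hw
    rw [Metric.mem_closedBall] at this
    rw [hU, Metric.mem_ball]; linarith
  have hsol : ∀ w ∈ U, lap (cv (eta ε) u) w = -μ * cv (eta ε) u w := by
    intro w hwU
    apply cv_eta_solution hu hw hε0
    intro t ht
    apply hz
    have h2 := disc_subset_closedBall w hε0.le ht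
    rw [Metric.mem_closedBall] at h2
    rw [hU, Metric.mem_ball] at hwU
    rw [Metric.mem_ball]
    calc dist t z ≤ dist t w + dist w z := dist_triangle _ _ _
      _ < δ := by linarith
  have hcd : ContDiff ℝ ∞ (cv (eta ε) u) := cv_contDiff (eta_contDiff ε) (eta_cpt hε0) hu
  have key := radial_mean hUo (hcd.of_le two_le_inf).contDiffOn hμ hr (by linarith) hsub hsol
  rw [cv_comm hu hr hε0] at key
  rw [key]; field_simp

/-- interior regularity of very weak solutions of the Helmholtz equation -/
theorem regularity {Ω : Set P} (hΩ : IsOpen Ω) {μ : ℝ} (hμ : 0 ≤ μ) {u : P → ℝ}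
    (hu : Integrable u)
    (hw : ∀ ψ, IsTest Ω ψ → ∫ z, u z * (lap ψ z + μ * ψ z) = 0) :
    ∃ v : P → ℝ, ContDiffOn ℝ ∞ v Ω ∧ (∀ᵐ z, z ∈ Ω → v z = u z) ∧
      ∀ z ∈ Ω, lap v z = -μ * v z := by
  set v : P → ℝ := fun z => limUnder (𝓝[>] (0 : ℝ)) (fun ε => cv (eta ε) u z / mass ε) with hv
  have hloc : ∀ z ∈ Ω, ∃ r, 0 < r ∧ μ * r ^ 2 ≤ 1 ∧ Metric.ball z (2 * r) ⊆ Ω ∧
      ∀ w ∈ Metric.ball z r, Metric.ball w r ⊆ Ω ∧ v w = (1 / cc μ (r / 2)) * cv (eta (r / 2)) u w := by
    intro z hz
    obtain ⟨δ, hδ, hball⟩ := Metric.isOpen_iff.1 hΩ z hz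
    obtain ⟨r, hr, hrδ, hr1⟩ : ∃ r, 0 < r ∧ 2 * r ≤ δ ∧ μ * r ^ 2 ≤ 1 := by
      refine ⟨min (δ / 2) (1 / (1 + μ)), ?_, ?_, ?_⟩
      · apply lt_min (by positivity) (by positivity)
      · have := min_le_left (δ / 2) (1 / (1 + μ)); linarith
      · have h1 := min_le_right (δ / 2) (1 / (1 + μ))
        have h0 : 0 < min (δ / 2) (1 / (1 + μ)) := lt_min (by positivity) (by positivity)
        have h2 : (min (δ / 2) (1 / (1 + μ))) ^ 2 ≤ (1 / (1 + μ)) ^ 2 :=
          pow_le_pow_left₀ h0.le h1 2
        have h3 : μ * (1 / (1 + μ)) ^ 2 ≤ 1 := by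
          rw [div_pow, one_pow, mul_one_div, div_le_one (by positivity)]
          nlinarith
        calc _ ≤ μ * (1 / (1 + μ)) ^ 2 := by gcongr
          _ ≤ 1 := h3
    refine ⟨r, hr, hr1, (Metric.ball_subset_ball hrδ).trans hball, fun w hwz => ?_⟩
    have hsub : Metric.ball w r ⊆ Ω := by
      refine Subset.trans ?_ hball
      intro t ht
      rw [Metric.mem_ball] at ht hwz ⊢
      calc dist t z ≤ dist t w + dist w z := dist_triangle _ _ _
        _ < δ := by linarith
    refine ⟨hsub, ?_⟩
    have := moll_lim hμ hu hw hsub (r := r / 2) (by positivity) (by linarith) (by nlinarith)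
    rw [hv]
    simp only
    rw [this.limUnder_eq]; ring
  refine ⟨v, ?_, ?_, ?_⟩
  · intro z hz
    obtain ⟨r, hr, hr1, hb, h⟩ := hloc z hz
    apply ContDiffAt.contDiffWithinAt
    have hs : ContDiff ℝ ∞ (fun w => (1 / cc μ (r / 2)) * cv (eta (r / 2)) u w) :=
      contDiff_const.mul (cv_contDiff (eta_contDiff _) (eta_cpt (by positivity)) hu)
    apply hs.contDiffAt.congr_of_eventuallyEq
    filter_upwards [Metric.ball_mem_nhds z hr] with w hw using (h w hw).2
  · have hae := IsUnifLocDoublingMeasure.ae_tendsto_average_norm_sub (μ := (volume : Measure P))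
      (f := u) hu.locallyIntegrable 1
    filter_upwards [hae] with z hz hzΩ
    obtain ⟨δ, hδ, hball⟩ := Metric.isOpen_iff.1 hΩ z hzΩ
    have hleb : Tendsto (fun ε => ⨍ w in Metric.closedBall z ε, ‖u w - u z‖) (𝓝[>] 0) (𝓝 0) := by
      apply hz (w := fun _ => z) (δ := fun ε => ε) tendsto_id
      filter_upwards [self_mem_nhdsWithin] with ε hε
      have : (0 : ℝ) < ε := hε
      simp [this.le]
    have h2 : Tendsto (fun ε => cv (eta ε) u z / mass ε) (𝓝[>] 0) (𝓝 (u z)) := by
      rw [tendsto_iff_norm_sub_tendsto_zero]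
      have h3 := hleb.const_mul (4 / Real.smoothTransition (1 / 2))
      rw [mul_zero] at h3
      refine squeeze_zero' (Eventually.of_forall fun _ => norm_nonneg _) ?_ h3
      filter_upwards [self_mem_nhdsWithin] with ε hε
      exact moll_bound hu.locallyIntegrable hε z (u z)
    rw [hv]
    simp only
    rw [h2.limUnder_eq]
  · intro z hz
    obtain ⟨r, hr, hr1, hb, h⟩ := hloc z hz
    have e : ∀ w ∈ Metric.ball z r, v w = (1 / cc μ (r / 2)) * cv (eta (r / 2)) u w
        + 0 * (fun _ => (0 : ℝ)) w := by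
      intro w hw; rw [(h w hw).2]; ring
    have hcd : ContDiff ℝ ∞ (cv (eta (r / 2)) u) :=
      cv_contDiff (eta_contDiff _) (eta_cpt (by positivity)) hu
    rw [lap_congr Metric.isOpen_ball e z (Metric.mem_ball_self hr)]
    rw [lap_comb isOpen_univ (hcd.of_le two_le_inf).contDiffOn contDiffOn_const _ _ z (mem_univ _)]
    rw [(h z (Metric.mem_ball_self hr)).2, cv_eta_solution hu hw (by positivity)]
    · ring
    · intro t ht
      apply (h z (Metric.mem_ball_self hr)).1
      have := disc_subset_closedBall z (by positivity) ht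
      rw [Metric.mem_closedBall] at this
      rw [Metric.mem_ball]; linarith

end Pool.Agent.Lib.MP_dac83a
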