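import Pool.Agent.Lib.MP_dac83a.Conv
import Pool.Agent.Lib.MP_dac83a.Reg
import Pool.Agent.Lib.MP_dac83a.Dom

set_option autoImplicit false

open MeasureTheory Set Filter Topology
open scoped ContDiff

namespace Pool.Agent.Lib.MP_dac83a

/-- a Cauchy sequence in `L²` converges -/
theorem cauchy_conv2 {α : Type} [MeasurableSpace α] {ν : Measure α} {f : ℕ → α → ℝ}
    (hf : ∀ n, MemLp (f n) 2 ν)
    (hc : ∀ ε > 0, ∃ N, ∀ m ≥ N, ∀ n ≥ N, ∫ a, (f m a - f n a) ^ 2 ∂ν ≤ ε) :
    ∃ g, Conv2 ν f g := by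
  have key : ∀ (u v : α → ℝ) (hu : MemLp u 2 ν) (hv : MemLp v 2 ν),
      dist (hu.toLp u) (hv.toLp v) = √(∫ a, (u a - v a) ^ 2 ∂ν) := by
    intro u v hu hv
    rw [Lp.dist_def]
    have e1 : eLpNorm (⇑(hu.toLp u) - ⇑(hv.toLp v)) 2 ν = eLpNorm (u - v) 2 ν := by
      apply eLpNorm_congr_ae
      filter_upwards [hu.coeFn_toLp, hv.coeFn_toLp] with a h1 h2
      simp [h1, h2]
    rw [e1, (hu.sub hv).eLpNorm_eq_integral_rpow_norm (by norm_num) (by norm_num)]
    rw [ENNReal.toReal_ofReal (by positivity)]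
    simp [Real.sqrt_eq_rpow]
  set F : ℕ → Lp ℝ 2 ν := fun n => (hf n).toLp (f n) with hF
  have hcs : CauchySeq F := by
    rw [Metric.cauchySeq_iff]
    intro ε hε
    obtain ⟨N, hN⟩ := hc ((ε / 2) ^ 2) (by positivity)
    refine ⟨N, fun m hm n hn => ?_⟩
    simp only [hF]
    rw [key]
    calc √(∫ a, (f m a - f n a) ^ 2 ∂ν) ≤ √((ε / 2) ^ 2) := Real.sqrt_le_sqrt (hN m hm n hn)
      _ = ε / 2 := Real.sqrt_sq (by positivity)
      _ < ε := by linarith
  obtain ⟨G, hG⟩ := cauchySeq_tendsto_of_complete hcs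
  refine ⟨G, hf, Lp.memLp G, ?_⟩
  have h1 : Tendsto (fun n => dist (F n) G ^ 2) atTop (𝓝 0) := by
    have := (tendsto_iff_dist_tendsto_zero.1 hG).pow 2
    simpa using this
  refine h1.congr fun n => ?_
  have e2 : G = (Lp.memLp G).toLp G := (Lp.toLp_coeFn G (Lp.memLp G)).symm
  have h3 : dist (F n) G = √(∫ a, (f n a - G a) ^ 2 ∂ν) := by
    conv_lhs => rw [e2]
    simp only [hF]
    rw [key]
  rw [h3, Real.sq_sqrt (integral_nonneg fun a => by positivity)]

/-- Dirichlet energy -/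
noncomputable def En (φ : P → ℝ) : ℝ := ∫ z, (dd ex φ z ^ 2 + dd ey φ z ^ 2)

/-- Dirichlet form -/
noncomputable def En2 (φ ψ : P → ℝ) : ℝ := ∫ z, (dd ex φ z * dd ex ψ z + dd ey φ z * dd ey ψ z)

/-- square of the `L²` norm -/
noncomputable def Nm (φ : P → ℝ) : ℝ := ∫ z, φ z ^ 2

/-- `L²` scalar product -/
noncomputable def Nm2 (φ ψ : P → ℝ) : ℝ := ∫ z, φ z * ψ z

theorem IsTest.memLp {U : Set P} {φ : P → ℝ} (h : IsTest U φ) : MemLp φ 2 volume :=
  h.smooth.continuous.memLp_of_hasCompactSupport h.cpt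

theorem IsTest.integrable {U : Set P} {φ : P → ℝ} (h : IsTest U φ) : Integrable φ :=
  h.smooth.continuous.integrable_of_hasCompactSupport h.cpt

theorem IsTest.int_mul {U V : Set P} {φ ψ : P → ℝ} (h : IsTest U φ) (h' : IsTest V ψ) :
    Integrable (fun z => φ z * ψ z) := integrable_mul2 h.memLp h'.memLp

theorem Nm_nonneg (φ : P → ℝ) : 0 ≤ Nm φ := integral_nonneg fun z => by positivity
theorem En_nonneg (φ : P → ℝ) : 0 ≤ En φ := integral_nonneg fun z => by positivity

theorem IsTest.diffAt {U : Set P} {φ : P → ℝ} (h : IsTest U φ) (z : P) : DifferentiableAt ℝ φ z :=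
  (h.smooth.differentiable (by simp)) z

theorem dd_comb {U V : Set P} {φ ψ : P → ℝ} (h : IsTest U φ) (h' : IsTest V ψ) (a b : ℝ)
    (v z : P) : dd v (fun z => a * φ z + b * ψ z) z = a * dd v φ z + b * dd v ψ z := by
  rw [dd_add ((h.diffAt z).const_mul a) ((h'.diffAt z).const_mul b), dd_const_mul (h.diffAt z),
    dd_const_mul (h'.diffAt z)]

theorem int3 {α : Type} [MeasurableSpace α] {ν : Measure α} {f g h : α → ℝ}
    (hf : Integrable f ν) (hg : Integrable g ν)
    (hh : Integrable h ν) (a b c : ℝ) :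
    ∫ z, (a * f z + b * g z + c * h z) ∂ν
      = a * (∫ z, f z ∂ν) + b * (∫ z, g z ∂ν) + c * ∫ z, h z ∂ν := by
  have i1 : Integrable (fun z => a * f z + b * g z) ν := (hf.const_mul a).add (hg.const_mul b)
  rw [integral_add i1 (hh.const_mul c), integral_add (hf.const_mul a) (hg.const_mul b),
    integral_const_mul, integral_const_mul, integral_const_mul]

theorem IsTest.int_sq {U : Set P} {φ : P → ℝ} (h : IsTest U φ) :
    Integrable (fun z => φ z ^ 2) := h.memLp.integrable_sq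

theorem tint_en {U : Set P} {φ : P → ℝ} (h : IsTest U φ) :
    Integrable (fun z => dd ex φ z ^ 2 + dd ey φ z ^ 2) := (h.dd ex).int_sq.add (h.dd ey).int_sq

theorem tint_en2 {U V : Set P} {φ ψ : P → ℝ} (h : IsTest U φ) (h' : IsTest V ψ) :
    Integrable (fun z => dd ex φ z * dd ex ψ z + dd ey φ z * dd ey ψ z) :=
  ((h.dd ex).int_mul (h'.dd ex)).add ((h.dd ey).int_mul (h'.dd ey))

theorem En_comb {U V : Set P} {φ ψ : P → ℝ} (h : IsTest U φ) (h' : IsTest V ψ) (a b : ℝ) :
    En (fun z => a * φ z + b * ψ z) = a ^ 2 * En φ + 2 * a * b * En2 φ ψ + b ^ 2 * En ψ := by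
  simp only [En, En2]
  rw [← int3 (tint_en h) (tint_en2 h h') (tint_en h')]
  congr 1
  ext z
  rw [dd_comb h h', dd_comb h h']; ring

theorem Nm_comb {U V : Set P} {φ ψ : P → ℝ} (h : IsTest U φ) (h' : IsTest V ψ) (a b : ℝ) :
    Nm (fun z => a * φ z + b * ψ z) = a ^ 2 * Nm φ + 2 * a * b * Nm2 φ ψ + b ^ 2 * Nm ψ := by
  simp only [Nm, Nm2]
  rw [← int3 h.int_sq (h.int_mul h') h'.int_sq]
  congr 1
  ext z
  ring

/-- integration by parts for test functions: `∫ φ Δψ = -E(φ,ψ)` -/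
theorem int_mul_lap {U V : Set P} {φ ψ : P → ℝ} (h : IsTest U φ) (h' : IsTest V ψ) :
    ∫ z, φ z * lap ψ z = - En2 φ ψ := by
  have e : ∀ v, ∫ z, φ z * dd v (dd v ψ) z = - ∫ z, dd v φ z * dd v ψ z := fun v =>
    ibp isOpen_univ (h.mono (subset_univ _)).isTest1
      (((h'.dd v).smooth.of_le one_le_inf).contDiffOn) v
  simp only [lap, En2, mul_add]
  rw [integral_add (h.int_mul ((h'.dd ex).dd ex)) (h.int_mul ((h'.dd ey).dd ey)), e, e,
    integral_add ((h.dd ex).int_mul (h'.dd ex)) ((h.dd ey).int_mul (h'.dd ey))]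
  ring

/-- the rotation as a continuous linear equivalence -/
noncomputable def rotL : P ≃L[ℝ] P :=
  LinearEquiv.toContinuousLinearEquiv
    { toFun := rot
      map_add' := by intro a b; ext <;> simp [rot]; ring
      map_smul' := by intro a b; ext <;> simp [rot]
      invFun := fun z => (z.2, -z.1)
      left_inv := by intro z; ext <;> simp [rot]
      right_inv := by intro z; ext <;> simp [rot] }

theorem rotL_apply (z : P) : rotL z = rot z := rfl

theorem rot_rot (z : P) : rot (rot z) = -z := by ext <;> simp [rot]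

theorem rot_ex : rot ex = ey := by ext <;> simp [rot]

theorem rot_ey : rot ey = -ex := by ext <;> simp [rot]

theorem dd_neg_dir (v : P) (f : P → ℝ) (z : P) : dd (-v) f z = - dd v f z := by simp [dd]

theorem dd_rot {U : Set P} (hU : IsOpen U) {f : P → ℝ} (hf : ContDiffOn ℝ 1 f U) (v z : P)
    (hz : rot z ∈ U) : dd v (fun z => f (rot z)) z = dd (rot v) f (rot z) := by
  have h1 : DifferentiableAt ℝ f (rot z) := (hf.contDiffAt (hU.mem_nhds hz)).differentiableAt
    (by norm_num)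
  have h2 : HasFDerivAt rot (rotL : P →L[ℝ] P) z := rotL.hasFDerivAt
  have := h1.hasFDerivAt.comp z h2
  simp only [dd]
  rw [show (fun z => f (rot z)) = f ∘ rot from rfl, this.fderiv]
  rfl

theorem lap_rot {U : Set P} (hU : IsOpen U) {f : P → ℝ} (hf : ContDiffOn ℝ 2 f U) (z : P)
    (hz : rot z ∈ U) : lap (fun z => f (rot z)) z = lap f (rot z) := by
  have hU' : IsOpen (rot ⁻¹' U) := hU.preimage rotL.continuous
  have h1 : ∀ v, dd v (dd v (fun z => f (rot z))) z = dd (rot v) (dd (rot v) f) (rot z) := by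
    intro v
    rw [dd_congr hU' (g := fun z => dd (rot v) f (rot z))
      (fun w hw => dd_rot hU (hf.of_le (by norm_num)) v w hw) v z hz]
    exact dd_rot hU (dd_contDiffOn (m := 1) hU hf (by norm_num) _) v z hz
  simp only [lap]
  rw [h1, h1, rot_ex, rot_ey]
  have h2 : dd (-ex) f = fun z => (-1) * dd ex f z := by
    ext w; rw [dd_neg_dir]; ring
  rw [h2, dd_neg_dir, dd_const_mul]
  · ring
  · exact ((dd_contDiffOn (m := 1) hU hf (by norm_num) _).contDiffAt (hU.mem_nhds hz)).differentiableAt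
      (by norm_num)

theorem IsTest.rot {Ω : Set P} (hΩ : ∀ z, rot z ∈ Ω → z ∈ Ω) {φ : P → ℝ} (h : IsTest Ω φ) :
    IsTest Ω (fun z => φ (Pool.Agent.Lib.MP_dac83a.rot z)) := by
  refine ⟨h.smooth.comp rotL.contDiff, h.cpt.comp_homeomorph rotL.toHomeomorph, ?_⟩
  intro z hz
  apply hΩ
  apply h.sub
  have : tsupport (φ ∘ rotL.toHomeomorph) = rotL.toHomeomorph ⁻¹' tsupport φ :=
    tsupport_comp_eq_preimage φ rotL.toHomeomorph
  have hz' : z ∈ tsupport (φ ∘ rotL.toHomeomorph) := hz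
  rw [this] at hz'
  exact hz'

theorem rot_mp : MeasurePreserving rot volume volume := by
  have h1 : MeasurePreserving (fun z : P => (z.2, z.1)) volume volume :=
    Measure.measurePreserving_swap
  have h2 : MeasurePreserving (fun z : P => (-z.1, z.2)) volume volume := by
    have : MeasurePreserving (fun x : ℝ => -x) volume volume := Measure.measurePreserving_neg volume
    exact this.prod (MeasurePreserving.id volume)
  exact h2.comp h1

theorem rot_emb : MeasurableEmbedding rot := rotL.toHomeomorph.measurableEmbedding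

theorem integral_rot (f : P → ℝ) : ∫ z, f (rot z) = ∫ z, f z := rot_mp.integral_comp rot_emb f

theorem rot_mp_restrict {Ω : Set P} (hΩ : ∀ z, rot z ∈ Ω ↔ z ∈ Ω) :
    MeasurePreserving rot (volume.restrict Ω) (volume.restrict Ω) := by
  have h := rot_mp.restrict_preimage_emb rot_emb Ω
  have e : rot ⁻¹' Ω = Ω := by ext z; exact hΩ z
  rwa [e] at h

/-- a Dirichlet eigenfunction -/
structure Eig (Ω : Set P) (μ : ℝ) (u : P → ℝ) : Prop where
  smooth : ContDiffOn ℝ ∞ u Ω
  eq : ∀ z ∈ Ω, lap u z = -μ * u z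
  approx : ∃ φ : ℕ → P → ℝ, (∀ n, IsTest Ω (φ n)) ∧ Conv2 (volume.restrict Ω) φ u ∧
    Conv2 (volume.restrict Ω) (fun n => dd ex (φ n)) (dd ex u) ∧
    Conv2 (volume.restrict Ω) (fun n => dd ey (φ n)) (dd ey u)

theorem Eig.comb {Ω : Set P} (hΩ : IsOpen Ω) {μ : ℝ} {u v : P → ℝ} (hu : Eig Ω μ u)
    (hv : Eig Ω μ v) (a b : ℝ) : Eig Ω μ (fun z => a * u z + b * v z) := by
  obtain ⟨φ, h1, h2, h3, h4⟩ := hu.approx
  obtain ⟨ψ, k1, k2, k3, k4⟩ := hv.approx
  have hd : ∀ w, ∀ z ∈ Ω, dd w (fun z => a * u z + b * v z) z = a * dd w u z + b * dd w v z := by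
    intro w z hz
    have d1 : DifferentiableAt ℝ u z := (hu.smooth.contDiffAt (hΩ.mem_nhds hz)).differentiableAt
      (by simp)
    have d2 : DifferentiableAt ℝ v z := (hv.smooth.contDiffAt (hΩ.mem_nhds hz)).differentiableAt
      (by simp)
    rw [dd_add (d1.const_mul a) (d2.const_mul b), dd_const_mul d1, dd_const_mul d2]
  refine ⟨(contDiffOn_const.mul hu.smooth).add (contDiffOn_const.mul hv.smooth), ?_,
    fun n z => a * φ n z + b * ψ n z, fun n => (h1 n).comb (k1 n) a b, h2.comb k2 a b, ?_, ?_⟩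
  · intro z hz
    rw [lap_comb hΩ (hu.smooth.of_le two_le_inf) (hv.smooth.of_le two_le_inf) a b z hz,
      hu.eq z hz, hv.eq z hz]
    ring
  · refine (h3.comb k3 a b).congr (fun n => Eventually.of_forall fun z => ?_) ?_
    · exact (dd_comb (h1 n) (k1 n) a b ex z).symm
    · filter_upwards [ae_restrict_mem hΩ.measurableSet] with z hz using (hd ex z hz).symm
  · refine (h4.comb k4 a b).congr (fun n => Eventually.of_forall fun z => ?_) ?_
    · exact (dd_comb (h1 n) (k1 n) a b ey z).symm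
    · filter_upwards [ae_restrict_mem hΩ.measurableSet] with z hz using (hd ey z hz).symm

theorem Eig.rot {Ω : Set P} (hΩ : IsOpen Ω)
    (hr : ∀ z, Pool.Agent.Lib.MP_dac83a.rot z ∈ Ω ↔ z ∈ Ω) {μ : ℝ} {u : P → ℝ}
    (hu : Eig Ω μ u) : Eig Ω μ (fun z => u (Pool.Agent.Lib.MP_dac83a.rot z)) := by
  obtain ⟨φ, h1, h2, h3, h4⟩ := hu.approx
  have hmp := rot_mp_restrict hr
  have hs : ContDiffOn ℝ ∞ (fun z => u (Pool.Agent.Lib.MP_dac83a.rot z)) Ω :=
    hu.smooth.comp rotL.contDiff.contDiffOn (fun z hz => (hr z).2 hz)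
  have hd : ∀ v, ∀ z ∈ Ω, dd v (fun z => u (Pool.Agent.Lib.MP_dac83a.rot z)) z
      = dd (Pool.Agent.Lib.MP_dac83a.rot v) u (Pool.Agent.Lib.MP_dac83a.rot z) := fun v z hz =>
    dd_rot hΩ (hu.smooth.of_le one_le_inf) v z ((hr z).2 hz)
  have hdn : ∀ n v z, dd v (fun z => φ n (Pool.Agent.Lib.MP_dac83a.rot z)) z
      = dd (Pool.Agent.Lib.MP_dac83a.rot v) (φ n) (Pool.Agent.Lib.MP_dac83a.rot z) := fun n v z =>
    dd_rot isOpen_univ ((h1 n).smooth.of_le one_le_inf).contDiffOn v z (mem_univ _)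
  refine ⟨hs, ?_, fun n z => φ n (Pool.Agent.Lib.MP_dac83a.rot z),
    fun n => (h1 n).rot (fun z hz => (hr z).1 hz), h2.comp hmp rot_emb, ?_, ?_⟩
  · intro z hz
    rw [lap_rot hΩ (hu.smooth.of_le two_le_inf) z ((hr z).2 hz)]
    exact hu.eq _ ((hr z).2 hz)
  · refine (h4.comp hmp rot_emb).congr (fun n => Eventually.of_forall fun z => ?_) ?_
    · rw [hdn, rot_ex]
    · filter_upwards [ae_restrict_mem hΩ.measurableSet] with z hz
      rw [hd ex z hz, rot_ex]
  · refine ((h3.comp hmp rot_emb).comb (h3.comp hmp rot_emb) (-1) 0).congr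
      (fun n => Eventually.of_forall fun z => ?_) ?_
    · rw [hdn, rot_ey, dd_neg_dir]; ring
    · filter_upwards [ae_restrict_mem hΩ.measurableSet] with z hz
      rw [hd ey z hz, rot_ey, dd_neg_dir]; ring

end Pool.Agent.Lib.MP_dac83a
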