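import Pool.Agent.Lib.MP_dac83a.Dom
import Pool.Agent.Lib.MP_dac83a.Ground

set_option autoImplicit false

open MeasureTheory Set Filter Topology
open scoped ContDiff

namespace Pool.Agent.Lib.MP_dac83a

theorem X_zero : X 0 = 1 := by norm_num [X]

theorem X_lt_succ (n : ℕ) : X n < X (n + 1) := by
  have : (0 : ℝ) < (1 / 2) ^ n := by positivity
  simp only [X, pow_succ]; linarith

theorem X_strictMono : StrictMono X := strictMono_nat_of_lt_succ X_lt_succ

theorem X_lt (n : ℕ) : X n < 17 / 16 := by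
  have : (0 : ℝ) < (1 / 2) ^ n := by positivity
  simp only [X]; linarith

theorem one_le_X (n : ℕ) : 1 ≤ X n := by
  rw [← X_zero]; exact X_strictMono.monotone (Nat.zero_le n)

theorem X_tendsto : Tendsto X atTop (𝓝 (17 / 16)) := by
  have h : Tendsto (fun n : ℕ => (1 / 2 : ℝ) ^ n) atTop (𝓝 0) :=
    tendsto_pow_atTop_nhds_zero_of_lt_one (by norm_num) (by norm_num)
  have h2 := (h.const_mul (1 / 16)).const_sub (17 / 16)
  rw [mul_zero, sub_zero] at h2
  exact h2

theorem X_gap (n : ℕ) : X (n + 2) - X n ≤ 3 / 64 := by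
  have : (1 / 2 : ℝ) ^ n ≤ 1 := pow_le_one₀ (by norm_num) (by norm_num)
  simp only [X, pow_succ]; linarith

theorem X_gap1 (n : ℕ) : X (n + 1) - X n ≤ 1 / 32 := by
  have : (1 / 2 : ℝ) ^ n ≤ 1 := pow_le_one₀ (by norm_num) (by norm_num)
  simp only [X, pow_succ]; linarith

theorem Wall_closed (n : ℕ) : IsClosed (Wall n) := by
  have h1 : IsClosed {z : P | z.1 = X n} := isClosed_eq continuous_fst continuous_const
  by_cases hn : Even n
  · have : Wall n = {z : P | z.1 = X n} ∩ {z : P | -(1 / 4) ≤ z.2} := by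
      ext z; simp [Wall, hn]
    rw [this]
    exact h1.inter (isClosed_le continuous_const continuous_snd)
  · have : Wall n = {z : P | z.1 = X n} ∩ {z : P | z.2 ≤ 1 / 4} := by
      ext z; simp [Wall, hn]
    rw [this]
    exact h1.inter (isClosed_le continuous_snd continuous_const)

theorem isOpen_Arm : IsOpen Arm := by
  rw [isOpen_iff_mem_nhds]
  rintro z ⟨h1, h2, h3, h4⟩
  obtain ⟨N, hN⟩ := (X_tendsto.eventually (lt_mem_nhds h2)).exists
  have e1 : ∀ᶠ w : P in 𝓝 z, 1 / 2 < w.1 := continuous_fst.continuousAt.eventually (lt_mem_nhds h1)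
  have e2 : ∀ᶠ w : P in 𝓝 z, w.1 < X N := continuous_fst.continuousAt.eventually (gt_mem_nhds hN)
  have e3 : ∀ᶠ w : P in 𝓝 z, |w.2| < 1 / 2 :=
    (continuous_snd.abs.continuousAt).eventually (gt_mem_nhds h3)
  have e4 : ∀ᶠ w : P in 𝓝 z, ∀ n ∈ Finset.range N, w ∉ Wall n := by
    rw [Filter.eventually_all_finset]
    intro n _
    exact (Wall_closed n).isOpen_compl.mem_nhds (h4 n)
  filter_upwards [e1, e2, e3, e4] with w g1 g2 g3 g4
  refine ⟨g1, g2.trans (X_lt N), g3, fun n hw => ?_⟩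
  rcases lt_or_ge n N with hn | hn
  · exact g4 n (Finset.mem_range.2 hn) hw
  · have : X N ≤ X n := X_strictMono.monotone hn
    have := hw.1
    linarith

theorem continuous_rot : Continuous rot := rotL.continuous

theorem isOpen_Om : IsOpen Om := by
  have h1 : IsOpen Sq := by
    have e : Sq = {z : P | |z.1| < 1} ∩ {z : P | |z.2| < 1} := rfl
    rw [e]
    exact (isOpen_lt (by fun_prop) continuous_const).inter (isOpen_lt (by fun_prop) continuous_const)
  have e : Om = Sq ∪ (Arm ∪ (rot ⁻¹' Arm ∪ ((fun z => rot (rot z)) ⁻¹' Arm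
      ∪ (fun z => rot (rot (rot z))) ⁻¹' Arm))) := rfl
  rw [e]
  exact h1.union (isOpen_Arm.union ((isOpen_Arm.preimage continuous_rot).union
    ((isOpen_Arm.preimage (continuous_rot.comp continuous_rot)).union
      (isOpen_Arm.preimage (continuous_rot.comp (continuous_rot.comp continuous_rot))))))

theorem Arm_subset : Arm ⊆ Om := fun _ hz => Or.inr (Or.inl hz)

theorem Arm_box {z : P} (hz : z ∈ Arm) : |z.1| < 17 / 16 ∧ |z.2| < 17 / 16 := by
  obtain ⟨h1, h2, h3, -⟩ := hz
  constructor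
  · rw [abs_of_pos (by linarith)]; exact h2
  · linarith

theorem Om_box {z : P} (hz : z ∈ Om) : |z.1| < 17 / 16 ∧ |z.2| < 17 / 16 := by
  rcases hz with h | h | h | h | h
  · exact ⟨h.1.trans (by norm_num), h.2.trans (by norm_num)⟩
  · exact Arm_box h
  · have := Arm_box h
    simp only [rot, abs_neg] at this
    exact ⟨this.2, this.1⟩
  · have := Arm_box h
    simp only [rot, abs_neg] at this
    exact ⟨this.1, this.2⟩
  · have := Arm_box h
    simp only [rot, abs_neg] at this
    exact ⟨this.2, this.1⟩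

theorem Om_subset : Om ⊆ Ioo (-(17 / 16)) (17 / 16) ×ˢ Ioo (-(17 / 16)) (17 / 16) := by
  intro z hz
  have h := Om_box hz
  exact ⟨abs_lt.1 h.1, abs_lt.1 h.2⟩

theorem Sq_rot {z : P} : rot z ∈ Sq ↔ z ∈ Sq := by
  simp only [Sq, rot, mem_ofPred_eq, abs_neg]
  exact and_comm

theorem rot4 (z : P) : rot (rot (rot (rot z))) = z := by
  simp only [rot]; ext <;> simp

theorem Om_rot (z : P) : rot z ∈ Om ↔ z ∈ Om := by
  simp only [Om, mem_ofPred_eq, Sq_rot, rot4]
  tauto

theorem Om_right {z : P} (hz : z ∈ Om) (h1 : 1 ≤ z.1) : z ∈ Arm := by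
  rcases hz with h | h | h | h | h
  · have := h.1; rw [abs_lt] at this; linarith [this.2]
  · exact h
  · have := h.2.2.1
    simp only [rot] at this
    rw [abs_lt] at this; linarith [this.2]
  · have := h.1
    simp only [rot] at this
    linarith
  · have := h.2.2.1
    simp only [rot, abs_neg] at this
    rw [abs_lt] at this; linarith [this.2]

theorem mem_Arm_between {n : ℕ} {z : P} (h1 : X n < z.1) (h2 : z.1 < X (n + 1))
    (h3 : |z.2| < 1 / 2) : z ∈ Arm := by
  refine ⟨by linarith [one_le_X n], h2.trans (X_lt _), h3, fun m hm => ?_⟩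
  have h := hm.1
  rw [h] at h1 h2
  have h4 := X_strictMono.lt_iff_lt.1 h1
  have h5 := X_strictMono.lt_iff_lt.1 h2
  omega

theorem Arm_even {n : ℕ} (hn : Even n) {z : P} (hz : z ∈ Arm) (h : z.1 = X n) : z.2 < -(1 / 4) := by
  by_contra hcon
  push Not at hcon
  exact hz.2.2.2 n ⟨h, Or.inl ⟨hn, hcon⟩⟩

theorem Arm_odd {n : ℕ} (hn : ¬ Even n) {z : P} (hz : z ∈ Arm) (h : z.1 = X n) : 1 / 4 < z.2 := by
  by_contra hcon
  push Not at hcon
  exact hz.2.2.2 n ⟨h, Or.inr ⟨hn, hcon⟩⟩

theorem mem_Arm_even {n : ℕ} (hn : Even n) {z : P} (h : z.1 = X n) (h1 : -(1 / 2) < z.2)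
    (h2 : z.2 < -(1 / 4)) : z ∈ Arm := by
  refine ⟨by rw [h]; linarith [one_le_X n], by rw [h]; exact X_lt _, ?_, fun m hm => ?_⟩
  · rw [abs_lt]; constructor <;> linarith
  · have h3 := hm.1
    rw [h] at h3
    have : n = m := X_strictMono.injective h3
    subst this
    rcases hm.2 with h4 | h4
    · linarith [h4.2]
    · exact h4.1 hn

theorem mem_Arm_odd {n : ℕ} (hn : ¬ Even n) {z : P} (h : z.1 = X n) (h1 : z.2 < 1 / 2)
    (h2 : 1 / 4 < z.2) : z ∈ Arm := by
  refine ⟨by rw [h]; linarith [one_le_X n], by rw [h]; exact X_lt _, ?_, fun m hm => ?_⟩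
  · rw [abs_lt]; constructor <;> linarith
  · have h3 := hm.1
    rw [h] at h3
    have : n = m := X_strictMono.injective h3
    subst this
    rcases hm.2 with h4 | h4
    · exact hn h4.1
    · linarith [h4.2]

theorem thin_arm {D : Set P} (hD : D ⊆ Arm) (h1 : ∀ z ∈ D, 1 < z.1) :
    ∀ z ∈ D, ∃ x' ∈ Icc (z.1 - 3 / 64) z.1, (x', z.2) ∉ D := by
  intro z hz
  have hzA := hD hz
  -- the last wall to the left of z
  obtain ⟨N, hN⟩ := (X_tendsto.eventually (lt_mem_nhds hzA.2.1)).exists
  have hex : ∃ n, z.1 < X n := ⟨N, hN⟩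
  classical
  set m := Nat.find hex with hm
  have hm1 : z.1 < X m := Nat.find_spec hex
  have hm0 : m ≠ 0 := by
    intro h0
    rw [h0, X_zero] at hm1
    linarith [h1 z hz]
  obtain ⟨n, hn⟩ := Nat.exists_eq_succ_of_ne_zero hm0
  have hn1 : z.1 < X (n + 1) := by rw [hn] at hm1; exact hm1
  have hn2 : X n ≤ z.1 := by
    have := Nat.find_min hex (m := n) (by omega)
    push Not at this; exact this
  have key : ∀ k, k ≤ n → n ≤ k + 1 → (X k, z.2) ∈ Wall k →
      ∃ x' ∈ Icc (z.1 - 3 / 64) z.1, (x', z.2) ∉ D := by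
    intro k hk hk' hw
    refine ⟨X k, ⟨?_, ?_⟩, fun hmem => (hD hmem).2.2.2 k hw⟩
    · have g1 := X_gap k
      have g2 : X (n + 1) ≤ X (k + 2) := X_strictMono.monotone (by omega)
      linarith
    · exact (X_strictMono.monotone hk).trans hn2
  by_cases hev : Even n
  · by_cases hy : -(1 / 4) ≤ z.2
    · exact key n le_rfl (by omega) ⟨rfl, Or.inl ⟨hev, hy⟩⟩
    · push Not at hy
      rcases Nat.eq_zero_or_pos n with h0 | hpos
      · refine ⟨1, ⟨?_, ?_⟩, fun hmem => ?_⟩
        · have g1 := X_gap1 0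
          rw [X_zero] at g1
          rw [h0] at hn1
          linarith
        · exact (h1 z hz).le
        · have := h1 _ hmem
          simp at this
      · obtain ⟨k, hk⟩ := Nat.exists_eq_succ_of_ne_zero hpos.ne'
        refine key k (by omega) (by omega) ⟨rfl, Or.inr ⟨?_, by linarith⟩⟩
        rw [hk, Nat.succ_eq_add_one, Nat.even_add_one] at hev
        exact hev
  · by_cases hy : z.2 ≤ 1 / 4
    · exact key n le_rfl (by omega) ⟨rfl, Or.inr ⟨hev, hy⟩⟩
    · push Not at hy
      have hpos : n ≠ 0 := by rintro rfl; exact hev (by simp)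
      obtain ⟨k, hk⟩ := Nat.exists_eq_succ_of_ne_zero hpos
      refine key k (by omega) (by omega) ⟨rfl, Or.inl ⟨?_, by linarith⟩⟩
      rw [hk, Nat.succ_eq_add_one, Nat.even_add_one, not_not] at hev
      exact hev

theorem frontier_pt {y : ℝ} (h : |y| < 1 / 2) : ((17 / 16 : ℝ), y) ∈ frontier Om := by
  rw [isOpen_Om.frontier_eq]
  constructor
  · -- midpoints between consecutive walls converge
    have h1 : Tendsto (fun n => (((X n + X (n + 1)) / 2 : ℝ), y)) atTop (𝓝 ((17 / 16 : ℝ), y)) := by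
      apply Tendsto.prodMk_nhds _ tendsto_const_nhds
      have h2 := X_tendsto.comp (tendsto_add_atTop_nat 1)
      have h3 := (X_tendsto.add h2).div_const 2
      have e : (17 / 16 + 17 / 16 : ℝ) / 2 = 17 / 16 := by norm_num
      rw [e] at h3
      exact h3
    apply mem_closure_of_tendsto h1
    refine Eventually.of_forall fun n => Arm_subset (mem_Arm_between (n := n) ?_ ?_ h)
    · simp only; linarith [X_lt_succ n]
    · simp only; linarith [X_lt_succ n]
  · intro hmem
    have := (Om_box hmem).1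
    norm_num at this

end Pool.Agent.Lib.MP_dac83a
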