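import Pool.Agent.Lib.MP_dac83a.Wallbd

set_option autoImplicit false

open MeasureTheory Set Filter Topology
open scoped ContDiff

namespace Pool.Agent.Lib.MP_dac83a.Trial

/-- derivative of the truncation -/
noncomputable def kk (t : ℝ) : ℝ := Real.smoothTransition (4000000 * t ^ 2 - 1)

/-- truncation with threshold `1/2000` -/
noncomputable def chi (s : ℝ) : ℝ := ∫ t in (0 : ℝ)..s, kk t

theorem kk_smooth : ContDiff ℝ ∞ kk := by
  unfold kk
  exact (Real.smoothTransition.contDiff (n := ⊤)).comp (by fun_prop : ContDiff ℝ ∞ _)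

theorem kk_nonneg (t : ℝ) : 0 ≤ kk t := Real.smoothTransition.nonneg _
theorem kk_le (t : ℝ) : kk t ≤ 1 := Real.smoothTransition.le_one _
theorem kk_neg (t : ℝ) : kk (-t) = kk t := by simp [kk]

theorem kk_zero {t : ℝ} (h : |t| ≤ 1 / 2000) : kk t = 0 := by
  apply Real.smoothTransition.zero_of_nonpos
  have : t ^ 2 ≤ (1 / 2000) ^ 2 := by
    rw [← sq_abs]; exact pow_le_pow_left₀ (abs_nonneg _) h 2
  linarith

theorem kk_one {t : ℝ} (h : 1 / 1000 ≤ t) : kk t = 1 := by
  apply Real.smoothTransition.one_of_one_le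
  have : (1 / 1000) ^ 2 ≤ t ^ 2 := pow_le_pow_left₀ (by norm_num) h 2
  linarith

theorem kk_int (a b : ℝ) : IntervalIntegrable kk volume a b :=
  kk_smooth.continuous.intervalIntegrable _ _

theorem chi_deriv (s : ℝ) : HasDerivAt chi (kk s) s :=
  intervalIntegral.integral_hasDerivAt_right (kk_int _ _)
    (kk_smooth.continuous.stronglyMeasurableAtFilter _ _) kk_smooth.continuous.continuousAt

theorem chi_smooth : ContDiff ℝ ∞ chi := by
  rw [contDiff_infty_iff_deriv]
  refine ⟨fun s => (chi_deriv s).differentiableAt, ?_⟩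
  have : deriv chi = kk := by ext s; exact (chi_deriv s).deriv
  rw [this]; exact kk_smooth

theorem chi_neg (s : ℝ) : chi (-s) = - chi s := by
  unfold chi
  have h := intervalIntegral.integral_comp_neg (fun t => kk t) (a := 0) (b := s)
  simp only [kk_neg, neg_zero] at h
  rw [h, intervalIntegral.integral_symm]

theorem chi_zero {s : ℝ} (h : |s| ≤ 1 / 2000) : chi s = 0 := by
  have key : ∀ s : ℝ, 0 ≤ s → s ≤ 1 / 2000 → chi s = 0 := by
    intro s h0 h1
    unfold chi
    have : EqOn kk (fun _ => 0) (uIcc 0 s) := by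
      intro t ht
      rw [uIcc_of_le h0] at ht
      exact kk_zero (by rw [abs_of_nonneg ht.1]; linarith [ht.2])
    rw [intervalIntegral.integral_congr this]; simp
  rcases le_total 0 s with h0 | h0
  · exact key s h0 (by rwa [abs_of_nonneg h0] at h)
  · have := key (-s) (by linarith) (by rwa [abs_of_nonpos h0] at h)
    rw [chi_neg] at this; linarith

theorem chi_pos_bounds {s : ℝ} (h : 0 ≤ s) : s - 1 / 1000 ≤ chi s ∧ 0 ≤ chi s := by
  constructor
  · have e : s - chi s = ∫ t in (0 : ℝ)..s, (1 - kk t) := by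
      rw [intervalIntegral.integral_sub (by simp) (kk_int _ _)]
      simp [chi]
    have hb : ∀ a b : ℝ, a ≤ b → ∫ t in a..b, (1 - kk t) ≤ b - a := by
      intro a b hab
      have h1 : ∫ t in a..b, (1 - kk t) ≤ ∫ t in a..b, (1 : ℝ) := by
        apply intervalIntegral.integral_mono_on hab
        · exact (by simp : IntervalIntegrable (fun _ => (1 : ℝ)) volume a b).sub (kk_int _ _)
        · simp
        · intro t _; linarith [kk_nonneg t]
      simpa using h1
    rcases le_total s (1 / 1000) with h1 | h1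
    · have := hb 0 s h; linarith
    · have hi : ∀ a b : ℝ, IntervalIntegrable (fun t => 1 - kk t) volume a b := fun a b =>
        (by simp : IntervalIntegrable (fun _ => (1 : ℝ)) volume a b).sub (kk_int _ _)
      have h2 := intervalIntegral.integral_add_adjacent_intervals (hi 0 (1 / 1000)) (hi (1 / 1000) s)
      have h3 : ∫ t in (1 / 1000 : ℝ)..s, (1 - kk t) = 0 := by
        have : EqOn (fun t => 1 - kk t) (fun _ => 0) (uIcc (1 / 1000) s) := by
          intro t ht
          rw [uIcc_of_le h1] at ht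
          simp only [kk_one ht.1, sub_self]
        rw [intervalIntegral.integral_congr this]; simp
      have h4 := hb 0 (1 / 1000) (by norm_num)
      linarith
  · exact intervalIntegral.integral_nonneg h (fun t _ => kk_nonneg t)

theorem chi_sq (s : ℝ) : s ^ 2 - 1 / 500 * |s| ≤ chi s ^ 2 := by
  have key : ∀ s : ℝ, 0 ≤ s → s ^ 2 - 1 / 500 * s ≤ chi s ^ 2 := by
    intro s h0
    obtain ⟨h1, h2⟩ := chi_pos_bounds h0
    rcases le_total s (1 / 1000) with h3 | h3
    · have : s ^ 2 - 1 / 500 * s ≤ 0 := by nlinarith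
      have := sq_nonneg (chi s)
      linarith
    · have : (s - 1 / 1000) ^ 2 ≤ chi s ^ 2 := pow_le_pow_left₀ (by linarith) h1 2
      nlinarith
  rcases le_total 0 s with h0 | h0
  · rw [abs_of_nonneg h0]; exact key s h0
  · have := key (-s) (by linarith)
    rw [chi_neg] at this
    rw [abs_of_nonpos h0]; linarith

/-- the trial function on the square -/
noncomputable def ff (z : P) : ℝ := (z.1 - z.1 ^ 3) * (1 - z.2 ^ 2)

theorem ff_smooth : ContDiff ℝ ∞ ff := by unfold ff; fun_prop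

theorem dd_ff (v z : P) : dd v ff z = v.1 * ((1 - 3 * z.1 ^ 2) * (1 - z.2 ^ 2))
    + v.2 * ((z.1 - z.1 ^ 3) * (-2 * z.2)) := by
  have h1 : ∀ x : ℝ, HasDerivAt (fun x : ℝ => x - x ^ 3) ((fun x => 1 - 3 * x ^ 2) x) x := by
    intro x
    have := (hasDerivAt_id x).sub (hasDerivAt_pow 3 x)
    exact this.congr_deriv (by simp)
  have h2 : ∀ y : ℝ, HasDerivAt (fun y : ℝ => 1 - y ^ 2) ((fun y => -2 * y) y) y := by
    intro y
    have := (hasDerivAt_pow 2 y).const_sub 1
    exact this.congr_deriv (by simp)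
  have := dd_prod h1 h2 v
  exact congrFun this z

theorem ff_abs {z : P} (hz : z ∈ Sq) : |ff z| ≤ 1 := by
  obtain ⟨h1, h2⟩ := hz
  unfold ff
  rw [abs_mul]
  have e1 : |z.1 - z.1 ^ 3| ≤ 1 := by
    have : z.1 - z.1 ^ 3 = z.1 * (1 - z.1 ^ 2) := by ring
    rw [this, abs_mul]
    have h3 : z.1 ^ 2 < 1 := by rw [← sq_abs]; nlinarith [abs_nonneg z.1]
    have h4 : |1 - z.1 ^ 2| ≤ 1 := by rw [abs_le]; constructor <;> nlinarith [sq_nonneg z.1]
    nlinarith [abs_nonneg z.1, abs_nonneg (1 - z.1 ^ 2)]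
  have e2 : |1 - z.2 ^ 2| ≤ 1 := by
    have h3 : z.2 ^ 2 < 1 := by rw [← sq_abs]; nlinarith [abs_nonneg z.2]
    rw [abs_le]; constructor <;> nlinarith [sq_nonneg z.2]
  calc |z.1 - z.1 ^ 3| * |1 - z.2 ^ 2| ≤ 1 * 1 := by gcongr
    _ = 1 := by norm_num

theorem Sq_eq : Sq = Ioo (-1) 1 ×ˢ Ioo (-1) 1 := by
  ext z; simp only [Sq, mem_ofPred_eq, mem_prod, mem_Ioo, abs_lt]

theorem isOpen_Sq : IsOpen Sq := by rw [Sq_eq]; exact isOpen_Ioo.prod isOpen_Ioo

/-- the compact set where the truncated function may be nonzero -/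
def KK : Set P := (Icc (-1) 1 ×ˢ Icc (-1) 1) ∩ {z | 1 / 2000 ≤ |ff z|}

theorem KK_compact : IsCompact KK :=
  IsCompact.inter_right (isCompact_Icc.prod isCompact_Icc)
    (isClosed_le continuous_const ff_smooth.continuous.abs)

theorem KK_sub : KK ⊆ Sq := by
  rintro z ⟨⟨⟨h1, h2⟩, h3, h4⟩, h5⟩
  rw [Sq_eq]
  have hne : ff z ≠ 0 := by
    intro h0
    simp only [mem_ofPred_eq, h0, abs_zero] at h5
    norm_num at h5
  refine ⟨⟨?_, ?_⟩, ?_, ?_⟩
  · rcases h1.eq_or_lt with h | h
    · exfalso; apply hne; unfold ff; rw [← h]; norm_num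
    · exact h
  · rcases h2.eq_or_lt with h | h
    · exfalso; apply hne; unfold ff; rw [h]; norm_num
    · exact h
  · rcases h3.eq_or_lt with h | h
    · exfalso; apply hne; unfold ff; rw [← h]; norm_num
    · exact h
  · rcases h4.eq_or_lt with h | h
    · exfalso; apply hne; unfold ff; rw [h]; norm_num
    · exact h

/-- the trial function -/
noncomputable def tr : P → ℝ := Sq.indicator (fun z => chi (ff z))

theorem tr_in {z : P} (hz : z ∈ Sq) : tr z = chi (ff z) := indicator_of_mem hz _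
theorem tr_out {z : P} (hz : z ∉ Sq) : tr z = 0 := indicator_of_notMem hz _

theorem tr_vanish : ∀ z, z ∉ KK → tr z = 0 := by
  intro z hz
  by_cases h : z ∈ Sq
  · rw [tr_in h]
    apply chi_zero
    by_contra hcon
    push Not at hcon
    apply hz
    refine ⟨?_, hcon.le⟩
    rw [Sq_eq] at h
    exact ⟨Ioo_subset_Icc_self h.1, Ioo_subset_Icc_self h.2⟩
  · exact tr_out h

theorem tr_test : IsTest Sq tr := by
  have hs : ContDiffOn ℝ ∞ tr Sq := by
    have : ContDiffOn ℝ ∞ (fun z => chi (ff z)) Sq := (chi_smooth.comp ff_smooth).contDiffOn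
    exact this.congr (fun z hz => tr_in hz)
  obtain ⟨h1, h2, h3⟩ := contDiff_of_vanish isOpen_Sq KK_compact KK_sub hs tr_vanish
  exact ⟨h1, h2, h3.trans KK_sub⟩

theorem tr_odd (z : P) : tr (-z) = - tr z := by
  have hS : -z ∈ Sq ↔ z ∈ Sq := by simp [Sq]
  by_cases h : z ∈ Sq
  · rw [tr_in h, tr_in (hS.2 h), ← chi_neg]
    congr 1
    simp only [ff, Prod.fst_neg, Prod.snd_neg]; ring
  · rw [tr_out h, tr_out (fun h' => h (hS.1 h'))]; ring

theorem dd_tr (v : P) {z : P} (hz : z ∈ Sq) : dd v tr z = kk (ff z) * dd v ff z := by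
  have e := dd_congr isOpen_Sq (f := tr) (g := fun z => chi (ff z)) (fun w hw => tr_in hw) v z hz
  rw [e]
  have h1 : HasFDerivAt ff (fderiv ℝ ff z) z := (ff_smooth.differentiable (by simp) z).hasFDerivAt
  have h2 := (chi_deriv (ff z)).comp_hasFDerivAt z h1
  simp only [dd]
  rw [show (fun z => chi (ff z)) = chi ∘ ff from rfl, h2.fderiv]
  rfl

theorem dd_tr_out (v : P) {z : P} (hz : z ∉ Sq) : dd v tr z = 0 :=
  dd_zero_of_notMem_tsupport (fun h => hz (tr_test.sub h)) v

theorem poly1 : ∫ x in Ioo (-1 : ℝ) 1, (x - x ^ 3) ^ 2 = 16 / 105 := by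
  rw [← integral_Ioc_eq_integral_Ioo, ← intervalIntegral.integral_of_le (by norm_num)]
  have : (fun x : ℝ => (x - x ^ 3) ^ 2) = fun x => x ^ 2 - 2 * x ^ 4 + x ^ 6 := by ext x; ring
  rw [this, intervalIntegral.integral_add, intervalIntegral.integral_sub,
    intervalIntegral.integral_const_mul]
  · norm_num [integral_pow]
  all_goals apply Continuous.intervalIntegrable; fun_prop

theorem poly2 : ∫ y in Ioo (-1 : ℝ) 1, (1 - y ^ 2) ^ 2 = 16 / 15 := by
  rw [← integral_Ioc_eq_integral_Ioo, ← intervalIntegral.integral_of_le (by norm_num)]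
  have : (fun x : ℝ => (1 - x ^ 2) ^ 2) = fun x => 1 - 2 * x ^ 2 + x ^ 4 := by ext x; ring
  rw [this, intervalIntegral.integral_add, intervalIntegral.integral_sub,
    intervalIntegral.integral_const_mul]
  · norm_num [integral_pow]
  all_goals apply Continuous.intervalIntegrable; fun_prop

theorem poly3 : ∫ x in Ioo (-1 : ℝ) 1, (1 - 3 * x ^ 2) ^ 2 = 8 / 5 := by
  rw [← integral_Ioc_eq_integral_Ioo, ← intervalIntegral.integral_of_le (by norm_num)]
  have : (fun x : ℝ => (1 - 3 * x ^ 2) ^ 2) = fun x => 1 - 6 * x ^ 2 + 9 * x ^ 4 := by ext x; ring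
  rw [this, intervalIntegral.integral_add, intervalIntegral.integral_sub,
    intervalIntegral.integral_const_mul, intervalIntegral.integral_const_mul]
  · norm_num [integral_pow]
  all_goals apply Continuous.intervalIntegrable; fun_prop

theorem poly4 : ∫ y in Ioo (-1 : ℝ) 1, (-2 * y) ^ 2 = 8 / 3 := by
  rw [← integral_Ioc_eq_integral_Ioo, ← intervalIntegral.integral_of_le (by norm_num)]
  have : (fun x : ℝ => (-2 * x) ^ 2) = fun x => 4 * x ^ 2 := by ext x; ring
  rw [this, intervalIntegral.integral_const_mul]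
  norm_num [integral_pow]

theorem prod_int (f g : ℝ → ℝ) : ∫ z in Sq, f z.1 * g z.2
    = (∫ x in Ioo (-1 : ℝ) 1, f x) * ∫ y in Ioo (-1 : ℝ) 1, g y := by
  rw [Sq_eq, Measure.volume_eq_prod]
  exact setIntegral_prod_mul f g _ _

theorem cont_intOn {f : P → ℝ} (hf : Continuous f) : IntegrableOn f Sq := by
  have h : IntegrableOn f (Icc (-1) 1 ×ˢ Icc (-1) 1) :=
    hf.continuousOn.integrableOn_compact (isCompact_Icc.prod isCompact_Icc)
  rw [Sq_eq]
  exact h.mono_set (prod_mono Ioo_subset_Icc_self Ioo_subset_Icc_self)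

theorem int_ff : ∫ z in Sq, ff z ^ 2 = 256 / 1575 := by
  have := prod_int (fun x => (x - x ^ 3) ^ 2) (fun y => (1 - y ^ 2) ^ 2)
  rw [poly1, poly2] at this
  have e : ∀ z : P, ff z ^ 2 = (z.1 - z.1 ^ 3) ^ 2 * (1 - z.2 ^ 2) ^ 2 := by
    intro z; unfold ff; ring
  simp only [e]
  rw [this]; norm_num

theorem int_dff : ∫ z in Sq, (dd ex ff z ^ 2 + dd ey ff z ^ 2) = 3328 / 1575 := by
  have h1 := prod_int (fun x => (1 - 3 * x ^ 2) ^ 2) (fun y => (1 - y ^ 2) ^ 2)
  have h2 := prod_int (fun x => (x - x ^ 3) ^ 2) (fun y => (-2 * y) ^ 2)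
  rw [poly3, poly2] at h1
  rw [poly1, poly4] at h2
  have e : ∀ z : P, dd ex ff z ^ 2 + dd ey ff z ^ 2
      = (1 - 3 * z.1 ^ 2) ^ 2 * (1 - z.2 ^ 2) ^ 2 + (z.1 - z.1 ^ 3) ^ 2 * (-2 * z.2) ^ 2 := by
    intro z; rw [dd_ff, dd_ff]; simp only; ring
  simp only [e]
  rw [integral_add (cont_intOn (by fun_prop)) (cont_intOn (by fun_prop)), h1, h2]
  norm_num

theorem vol_Sq : volume.real Sq = 4 := by
  rw [Sq_eq, Measure.real, Measure.volume_eq_prod, Measure.prod_prod, Real.volume_Ioo,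
    ← ENNReal.ofReal_mul (by norm_num), ENNReal.toReal_ofReal (by norm_num)]
  norm_num

theorem Nm_tr : 256 / 1575 - 1 / 125 ≤ ∫ z, tr z ^ 2 := by
  have e1 : ∫ z, tr z ^ 2 = ∫ z in Sq, tr z ^ 2 :=
    integral_eq_restrict (fun z hz => by rw [tr_out hz]; norm_num)
  rw [e1]
  have h1 : ∫ z in Sq, (ff z ^ 2 - 1 / 500) ≤ ∫ z in Sq, tr z ^ 2 := by
    apply setIntegral_mono_on
    · exact (cont_intOn (ff_smooth.continuous.pow 2)).sub (cont_intOn continuous_const)
    · exact cont_intOn (tr_test.smooth.continuous.pow 2)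
    · exact isOpen_Sq.measurableSet
    · intro z hz
      rw [tr_in hz]
      have h2 := chi_sq (ff z)
      have h3 := ff_abs hz
      linarith
  refine le_trans (le_of_eq ?_) h1
  have i1 : IntegrableOn (fun z => ff z ^ 2) Sq := cont_intOn (ff_smooth.continuous.pow 2)
  have i2 : IntegrableOn (fun _ : P => (1 / 500 : ℝ)) Sq := cont_intOn continuous_const
  rw [integral_sub i1 i2, int_ff, setIntegral_const, vol_Sq]; norm_num

theorem En_tr : ∫ z, (dd ex tr z ^ 2 + dd ey tr z ^ 2) ≤ 3328 / 1575 := by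
  have e1 : ∫ z, (dd ex tr z ^ 2 + dd ey tr z ^ 2) = ∫ z in Sq, (dd ex tr z ^ 2 + dd ey tr z ^ 2) :=
    integral_eq_restrict (fun z hz => by rw [dd_tr_out ex hz, dd_tr_out ey hz]; norm_num)
  rw [e1, ← int_dff]
  have hc : ∀ v, Continuous (dd v tr) := fun v => (tr_test.dd v).smooth.continuous
  have hc' : ∀ v, Continuous (dd v ff) := fun v =>
    (dd_contDiff (m := ∞) ff_smooth (by simp) v).continuous
  apply setIntegral_mono_on
  · exact cont_intOn (((hc ex).pow 2).add ((hc ey).pow 2))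
  · exact cont_intOn (((hc' ex).pow 2).add ((hc' ey).pow 2))
  · exact isOpen_Sq.measurableSet
  · intro z hz
    have hk : kk (ff z) ^ 2 ≤ 1 := by
      have h1 := kk_nonneg (ff z)
      have h2 := kk_le (ff z)
      nlinarith
    have h3 : ∀ v, dd v tr z ^ 2 ≤ dd v ff z ^ 2 := by
      intro v
      rw [dd_tr v hz, mul_pow]
      nlinarith [sq_nonneg (dd v ff z)]
    linarith [h3 ex, h3 ey]

theorem trial : ∃ φ : P → ℝ, IsTest Sq φ ∧ (∀ z, φ (-z) = -φ z) ∧ 0 < ∫ z, φ z^2 ∧
    ∫ z, (dd ex φ z^2 + dd ey φ z^2) ≤ 14 * ∫ z, φ z^2 := by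
  have h1 := Nm_tr
  have h2 := En_tr
  refine ⟨tr, tr_test, tr_odd, ?_, ?_⟩
  · refine lt_of_lt_of_le ?_ h1; norm_num
  · linarith

end Pool.Agent.Lib.MP_dac83a.Trial
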