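import Pool.Agent.Lib.MP_dac83a.Exist
import Pool.Agent.Lib.MP_dac83a.Geom
import Pool.Agent.Lib.MP_dac83a.Even
import Pool.Agent.Lib.MP_dac83a.Trial

set_option autoImplicit false

open MeasureTheory Set Filter Topology
open scoped ContDiff

namespace Pool.Agent.Lib.MP_dac83a

/-- energies of normalised odd test functions -/
def OddE : Set ℝ := {e | ∃ φ, IsTest Om φ ∧ (∀ z, φ (-z) = -φ z) ∧ Nm φ = 1 ∧ e = En φ}

/-- lowest odd eigenvalue -/
noncomputable def muO : ℝ := sInf OddE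

/-- the admissible numbers in the min-max formula for the second eigenvalue -/
def MinMax (Ω : Set P) : Set ℝ := {m | ∃ φ₁ φ₂ : P → ℝ, IsTest Ω φ₁ ∧ IsTest Ω φ₂ ∧
  LinearIndependent ℝ ![φ₁, φ₂] ∧
  ∀ a b : ℝ, En (fun z => a * φ₁ z + b * φ₂ z) ≤ m * Nm (fun z => a * φ₁ z + b * φ₂ z)}

theorem En_scale {U : Set P} {φ : P → ℝ} (h : IsTest U φ) (a : ℝ) :
    En (fun z => a * φ z) = a ^ 2 * En φ := by
  have := En_comb h h a 0
  simp only [zero_mul, add_zero, mul_zero, ne_eq, OfNat.ofNat_ne_zero, not_false_eq_true,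
    zero_pow] at this
  exact this

theorem Nm_scale (φ : P → ℝ) (a : ℝ) : Nm (fun z => a * φ z) = a ^ 2 * Nm φ := by
  simp only [Nm, mul_pow]
  rw [integral_const_mul]

theorem normalise {φ : P → ℝ} (h : IsTest Om φ) (ho : ∀ z, φ (-z) = -φ z) (hpos : 0 < Nm φ) :
    En φ / Nm φ ∈ OddE := by
  refine ⟨fun z => (1 / √(Nm φ)) * φ z, h.const_mul _, fun z => by simp only [ho]; ring, ?_, ?_⟩
  · rw [Nm_scale, div_pow, one_pow, Real.sq_sqrt hpos.le]; field_simp
  · rw [En_scale h, div_pow, one_pow, Real.sq_sqrt hpos.le]; field_simp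

theorem Sq_subset : Sq ⊆ Om := fun _ hz => Or.inl hz

theorem OddE_le : ∃ e ∈ OddE, e ≤ 14 := by
  obtain ⟨φ, h1, h2, h3, h4⟩ := Trial.trial
  have h3' : 0 < Nm φ := h3
  refine ⟨_, normalise (h1.mono Sq_subset) h2 h3', ?_⟩
  rw [div_le_iff₀ h3']
  exact h4

theorem OddE_nonneg : ∀ e ∈ OddE, 0 ≤ e := by
  rintro e ⟨φ, -, -, -, rfl⟩
  exact En_nonneg φ

theorem OddE_bdd : BddBelow OddE := ⟨0, OddE_nonneg⟩

theorem OddE_ne : OddE.Nonempty := by
  obtain ⟨e, he, -⟩ := OddE_le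
  exact ⟨e, he⟩

theorem muO_nonneg : 0 ≤ muO := le_csInf OddE_ne OddE_nonneg

theorem muO_le : muO ≤ 14 := by
  obtain ⟨e, he, he2⟩ := OddE_le
  exact (csInf_le OddE_bdd he).trans he2

theorem muO_odd {φ : P → ℝ} (h : IsTest Om φ) (ho : ∀ z, φ (-z) = -φ z) :
    muO * Nm φ ≤ En φ := by
  rcases (Nm_nonneg φ).eq_or_lt with h0 | h0
  · rw [← h0, mul_zero]; exact En_nonneg φ
  · have := csInf_le OddE_bdd (normalise h ho h0)
    rwa [le_div_iff₀ h0] at this

theorem muO_inf (ε : ℝ) (hε : 0 < ε) :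
    ∃ φ, IsTest Om φ ∧ (∀ z, φ (-z) = -φ z) ∧ Nm φ = 1 ∧ En φ < muO + ε := by
  obtain ⟨e, ⟨φ, h1, h2, h3, rfl⟩, he⟩ := exists_lt_of_csInf_lt OddE_ne
    (show muO < muO + ε by linarith)
  exact ⟨φ, h1, h2, h3, he⟩

theorem ground : ∃ u : P → ℝ, Eig Om muO u ∧ (∀ z, u (-z) = -u z) ∧ ∃ z ∈ Om, u z ≠ 0 :=
  exists_ground isOpen_Om Om_subset Om_rot muO_nonneg (fun _ h ho => muO_odd h ho) muO_inf

theorem Nm_pos_of_ne {U : Set P} {φ : P → ℝ} (h : IsTest U φ) {z : P} (hz : φ z ≠ 0) :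
    0 < Nm φ := by
  have h1 : Continuous (fun z => φ z * φ z) := h.smooth.continuous.mul h.smooth.continuous
  have h2 : HasCompactSupport (fun z => φ z * φ z) := h.cpt.mul_left
  have h3 := h1.integral_pos_of_hasCompactSupport_nonneg_nonzero (μ := volume) h2
    (fun z => mul_self_nonneg _) (x := z) (mul_self_ne_zero.2 hz)
  simpa only [Nm, sq] using h3

theorem En_rot {φ : P → ℝ} (h : IsTest Om φ) : En (fun z => φ (rot z)) = En φ := by
  simp only [En]
  rw [← integral_rot (fun z => dd ex φ z ^ 2 + dd ey φ z ^ 2)]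
  congr 1; ext z
  rw [dd_rot isOpen_univ (h.smooth.of_le one_le_inf).contDiffOn ex z (mem_univ _),
    dd_rot isOpen_univ (h.smooth.of_le one_le_inf).contDiffOn ey z (mem_univ _),
    rot_ex, rot_ey, dd_neg_dir]
  ring

theorem Nm_rot (φ : P → ℝ) : Nm (fun z => φ (rot z)) = Nm φ := by
  simp only [Nm]
  rw [← integral_rot (fun z => φ z ^ 2)]

theorem Nm2_rot {φ : P → ℝ} (ho : ∀ z, φ (-z) = -φ z) :
    Nm2 φ (fun z => φ (rot z)) = 0 := by
  have h1 : Nm2 φ (fun z => φ (rot z)) = - Nm2 φ (fun z => φ (rot z)) := by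
    conv_lhs => rw [Nm2, ← integral_rot]
    rw [Nm2, ← integral_neg]
    congr 1; ext z
    rw [rot_rot, ho]; ring
  linarith

theorem En2_rot {φ : P → ℝ} (h : IsTest Om φ) (ho : ∀ z, φ (-z) = -φ z) :
    En2 φ (fun z => φ (rot z)) = 0 := by
  have hd : ∀ v z, dd v φ (-z) = dd v φ z := by
    intro v z
    have e : (fun z => φ (-z)) = fun z => (-1) * φ z := by ext w; rw [ho]; ring
    have h2 := dd_neg_arg h v z
    rw [e, dd_const_mul (h.diffAt z)] at h2
    linarith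
  have e0 : En2 φ (fun z => φ (rot z))
      = ∫ z, (dd ex φ z * dd ey φ (rot z) - dd ey φ z * dd ex φ (rot z)) := by
    simp only [En2]
    congr 1; ext z
    rw [dd_rot isOpen_univ (h.smooth.of_le one_le_inf).contDiffOn ex z (mem_univ _),
      dd_rot isOpen_univ (h.smooth.of_le one_le_inf).contDiffOn ey z (mem_univ _),
      rot_ex, rot_ey, dd_neg_dir]
    ring
  have h1 : En2 φ (fun z => φ (rot z)) = - En2 φ (fun z => φ (rot z)) := by
    conv_lhs => rw [e0, ← integral_rot]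
    rw [e0, ← integral_neg]
    congr 1; ext z
    rw [rot_rot, hd, hd]; ring
  linarith

theorem minmax_upper (ε : ℝ) (hε : 0 < ε) : muO + ε ∈ MinMax Om := by
  obtain ⟨φ, h1, h2, h3, h4⟩ := muO_inf ε hε
  have hr : IsTest Om (fun z => φ (rot z)) := h1.rot (fun z hz => (Om_rot z).1 hz)
  have hE : ∀ a b : ℝ, En (fun z => a * φ z + b * φ (rot z)) = (a ^ 2 + b ^ 2) * En φ := by
    intro a b
    rw [En_comb h1 hr, En2_rot h1 h2, En_rot h1]; ring
  have hN : ∀ a b : ℝ, Nm (fun z => a * φ z + b * φ (rot z)) = a ^ 2 + b ^ 2 := by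
    intro a b
    rw [Nm_comb h1 hr, Nm2_rot h2, Nm_rot, h3]; ring
  refine ⟨φ, fun z => φ (rot z), h1, hr, ?_, ?_⟩
  · rw [LinearIndependent.pair_iff]
    intro s t hst
    have h5 : Nm (fun z => s * φ z + t * φ (rot z)) = 0 := by
      have : (fun z => s * φ z + t * φ (rot z)) = fun _ => (0 : ℝ) := hst
      rw [this]
      simp [Nm]
    rw [hN] at h5
    constructor <;> nlinarith [sq_nonneg s, sq_nonneg t]
  · intro a b
    rw [hE, hN]
    nlinarith [sq_nonneg a, sq_nonneg b]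

theorem En_neg_arg {φ : P → ℝ} (h : IsTest Om φ) : En (fun z => φ (-z)) = En φ := by
  have := En_rot (h.rot (fun z hz => (Om_rot z).1 hz))
  simp only [rot_rot] at this
  rw [this, En_rot h]

theorem Nm_neg_arg (φ : P → ℝ) : Nm (fun z => φ (-z)) = Nm φ := by
  have := Nm_rot (fun z => φ (rot z))
  simp only [rot_rot] at this
  rw [this, Nm_rot]

theorem rayleigh_ge {φ : P → ℝ} (h : IsTest Om φ)
    (h0 : ∫ z in Set.Ioo (-(3/4):ℝ) (3/4) ×ˢ Set.Ioo (-(3/4):ℝ) (3/4), φ z = 0) :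
    muO * Nm φ ≤ En φ := by
  have hr : ∀ z, rot z ∈ Om → z ∈ Om := fun z hz => (Om_rot z).1 hz
  have hn := test_neg_arg hr h
  have hO := h.comb hn (1 / 2) (-1 / 2)
  have hE := h.comb hn (1 / 2) (1 / 2)
  have hOl := muO_odd hO (fun z => by simp only [neg_neg]; ring)
  set S : Set P := Set.Ioo (-(3/4):ℝ) (3/4) ×ˢ Set.Ioo (-(3/4):ℝ) (3/4) with hS
  have hSr : ∀ z, rot z ∈ S ↔ z ∈ S := by
    intro z
    simp only [hS, rot, mem_prod, mem_Ioo]
    constructor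
    · rintro ⟨⟨h1, h2⟩, h3, h4⟩
      exact ⟨⟨h3, h4⟩, by linarith, by linarith⟩
    · rintro ⟨⟨h1, h2⟩, h3, h4⟩
      exact ⟨⟨by linarith, by linarith⟩, h1, h2⟩
  have hmp := rot_mp_restrict hSr
  have hint : ∫ z in S, φ (-z) = ∫ z in S, φ z := by
    have e1 : ∫ z in S, φ (rot (rot z)) = ∫ z in S, φ (rot z) :=
      hmp.integral_comp rot_emb (fun z => φ (rot z))
    have e2 : ∫ z in S, φ (rot z) = ∫ z in S, φ z := hmp.integral_comp rot_emb φ
    simp only [rot_rot] at e1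
    rw [e1, e2]
  have h0E : ∫ z in S, (1 / 2 * φ z + 1 / 2 * φ (-z)) = 0 := by
    rw [integral_add (h.integrable.integrableOn.const_mul _)
      (hn.integrable.integrableOn.const_mul _), integral_const_mul, integral_const_mul, hint, h0]
    ring
  have hEl := Even.even_bound (φ := fun z => 1 / 2 * φ z + 1 / 2 * φ (-z))
    (hE.mono (fun z hz => Om_box hz)) (fun z => by simp only [neg_neg]; ring) h0E
  have hEl' : 14 * Nm (fun z => 1 / 2 * φ z + 1 / 2 * φ (-z))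
      ≤ En (fun z => 1 / 2 * φ z + 1 / 2 * φ (-z)) := hEl
  have hEl2 : muO * Nm (fun z => 1 / 2 * φ z + 1 / 2 * φ (-z))
      ≤ En (fun z => 1 / 2 * φ z + 1 / 2 * φ (-z)) := by
    refine le_trans ?_ hEl'
    have := Nm_nonneg (fun z => 1 / 2 * φ z + 1 / 2 * φ (-z))
    have := muO_le
    gcongr
  rw [En_comb h hn, Nm_comb h hn, En_neg_arg h, Nm_neg_arg] at hOl hEl2
  linarith

theorem minmax_lower {m : ℝ} (hm : m ∈ MinMax Om) : muO ≤ m := by
  obtain ⟨φ₁, φ₂, h1, h2, hli, hb⟩ := hm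
  set I1 := ∫ z in Set.Ioo (-(3/4):ℝ) (3/4) ×ˢ Set.Ioo (-(3/4):ℝ) (3/4), φ₁ z with hI1
  set I2 := ∫ z in Set.Ioo (-(3/4):ℝ) (3/4) ×ˢ Set.Ioo (-(3/4):ℝ) (3/4), φ₂ z with hI2
  obtain ⟨a, b, hab, hab0⟩ : ∃ a b : ℝ, (a ≠ 0 ∨ b ≠ 0) ∧ a * I1 + b * I2 = 0 := by
    by_cases h : I1 = 0
    · exact ⟨1, 0, Or.inl one_ne_zero, by rw [h]; ring⟩
    · exact ⟨-I2, I1, Or.inr h, by ring⟩
  have ht := h1.comb h2 a b
  have hne : ∃ z, a * φ₁ z + b * φ₂ z ≠ 0 := by
    by_contra hcon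
    push Not at hcon
    rw [LinearIndependent.pair_iff] at hli
    have := hli a b (by ext z; simpa using hcon z)
    rcases hab with h | h
    · exact h this.1
    · exact h this.2
  obtain ⟨z, hz⟩ := hne
  have hpos := Nm_pos_of_ne ht hz
  have h0 : ∫ z in Set.Ioo (-(3/4):ℝ) (3/4) ×ˢ Set.Ioo (-(3/4):ℝ) (3/4),
      (a * φ₁ z + b * φ₂ z) = 0 := by
    rw [integral_add (h1.integrable.integrableOn.const_mul _)
      (h2.integrable.integrableOn.const_mul _), integral_const_mul, integral_const_mul]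
    exact hab0
  have h3 := rayleigh_ge ht h0
  have h4 := hb a b
  exact le_of_mul_le_mul_right (h3.trans h4) hpos

theorem lambda2 : sInf (MinMax Om) = muO := by
  apply le_antisymm
  · apply le_of_forall_pos_le_add
    intro ε hε
    exact csInf_le ⟨muO, fun m hm => minmax_lower hm⟩ (minmax_upper ε hε)
  · exact le_csInf ⟨_, minmax_upper 1 one_pos⟩ (fun m hm => minmax_lower hm)

end Pool.Agent.Lib.MP_dac83a
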