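import Pool.Agent.Lib.MP_dac83a.Wallup

set_option autoImplicit false

open MeasureTheory Set Filter Topology
open scoped ContDiff

namespace Pool.Agent.Lib.MP_dac83a

theorem sign_const {g : P → ℝ} {S : Set P} (hS : IsPreconnected S) (hg : ContinuousOn g S)
    (hne : ∀ z ∈ S, g z ≠ 0) : ∃ σ : ℝ, (σ = 1 ∨ σ = -1) ∧ ∀ z ∈ S, 0 < σ * g z := by
  by_cases h : ∀ z ∈ S, 0 < g z
  · exact ⟨1, Or.inl rfl, fun z hz => by rw [one_mul]; exact h z hz⟩
  · refine ⟨-1, Or.inr rfl, ?_⟩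
    push Not at h
    obtain ⟨z1, hz1, h1⟩ := h
    intro z hz
    by_contra hcon
    push Not at hcon
    have h2 : 0 ≤ g z := by linarith
    obtain ⟨w, hw, hw0⟩ := hS.intermediate_value hz1 hz hg ⟨h1, h2⟩
    exact hne w hw hw0

theorem corridor_mem_TT {J n : ℕ} {y0 : ℝ} (hn : 2 * J + 1 ≤ n) {z : P} (h1 : X n < z.1)
    (h2 : z.1 < X (n + 1)) (h3 : |z.2| < 1 / 2) : z ∈ TT J y0 := by
  refine ⟨mem_Arm_between h1 h2 h3, ?_, Or.inl ?_⟩
  · exact lt_of_le_of_lt (X_strictMono.monotone (by omega)) h1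
  · exact lt_of_le_of_lt (X_strictMono.monotone hn) h1

theorem nodal_main {μ : ℝ} (hμ0 : 0 ≤ μ) (hμ : μ ≤ 14) {u : P → ℝ} (hu : Eig Om μ u)
    (hodd : ∀ z, u (-z) = -u z) (hne : ∃ z ∈ Om, u z ≠ 0) :
    ∃ w : P → ℝ, Eig Om μ w ∧ (∃ z ∈ Om, w z ≠ 0) ∧
      ¬ ∃ p q : P, p ≠ q ∧ closure {z | z ∈ Om ∧ w z = 0} ∩ frontier Om = {p, q} := by
  set v : P → ℝ := fun z => u (rot z) with hv
  have hvE : Eig Om μ v := hu.rot isOpen_Om Om_rot
  -- the points in the corridors
  set zz : ℕ → P := fun j => ((X (2 * j) + X (2 * j + 1)) / 2, 0) with hzz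
  have hcoef : ∀ j, ∃ c : P, c ∈ {c : P | c.1 ^ 2 + c.2 ^ 2 = 1} ∧
      c.1 * u (zz j) + c.2 * v (zz j) = 0 := by
    intro j
    by_cases h : u (zz j) = 0 ∧ v (zz j) = 0
    · exact ⟨(1, 0), by norm_num, by rw [h.1, h.2]; ring⟩
    · have hpos : 0 < u (zz j) ^ 2 + v (zz j) ^ 2 := by
        by_contra hcon
        push Not at hcon
        apply h
        constructor <;> nlinarith [sq_nonneg (u (zz j)), sq_nonneg (v (zz j))]
      set r := √(u (zz j) ^ 2 + v (zz j) ^ 2) with hr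
      have hr0 : 0 < r := Real.sqrt_pos.2 hpos
      have hr2 : r ^ 2 = u (zz j) ^ 2 + v (zz j) ^ 2 := Real.sq_sqrt hpos.le
      refine ⟨(v (zz j) / r, -u (zz j) / r), ?_, ?_⟩
      · simp only [mem_ofPred_eq]
        rw [div_pow, div_pow, ← add_div, hr2, div_eq_one_iff_eq hpos.ne']
        ring
      · simp only; ring
  choose c hc1 hc2 using hcoef
  have hcomp : IsCompact {c : P | c.1 ^ 2 + c.2 ^ 2 = 1} := by
    apply IsCompact.of_isClosed_subset (isCompact_Icc.prod isCompact_Icc :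
      IsCompact (Icc (-1 : ℝ) 1 ×ˢ Icc (-1 : ℝ) 1))
    · exact isClosed_eq (by fun_prop) continuous_const
    · intro c hc
      simp only [mem_ofPred_eq] at hc
      refine ⟨⟨?_, ?_⟩, ?_, ?_⟩ <;> nlinarith [sq_nonneg c.1, sq_nonneg c.2]
  obtain ⟨c0, hc0, k, hk, hlim⟩ := hcomp.tendsto_subseq hc1
  set a := c0.1 with ha
  set b := c0.2 with hb
  have hab : a ^ 2 + b ^ 2 = 1 := hc0
  have hlim1 : Tendsto (fun i => (c (k i)).1) atTop (𝓝 a) :=
    (continuous_fst.tendsto c0).comp hlim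
  have hlim2 : Tendsto (fun i => (c (k i)).2) atTop (𝓝 b) :=
    (continuous_snd.tendsto c0).comp hlim
  set w : P → ℝ := fun z => a * u z + b * v z with hw
  set w' : P → ℝ := fun z => (-b) * u z + a * v z with hw'
  have hwE : Eig Om μ w := hu.comb isOpen_Om hvE a b
  have hwE' : Eig Om μ w' := hu.comb isOpen_Om hvE (-b) a
  refine ⟨w, hwE, ?_, ?_⟩
  · by_contra hcon
    push Not at hcon
    obtain ⟨z, hz, hz'⟩ := hne
    apply hz'
    have h1 := hcon z hz
    have h2 := hcon (rot z) ((Om_rot z).2 hz)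
    simp only [hw, hv, rot_rot, hodd] at h1 h2
    have : u z = (a ^ 2 + b ^ 2) * u z := by rw [hab, one_mul]
    rw [this]
    linear_combination a * h1 - b * h2
  rintro ⟨p, q, -, hpq⟩
  -- choose the height of the cross-section
  obtain ⟨y0, hy0, hy0n⟩ : ∃ y0 : ℝ, |y0| ≤ 1 / 8 ∧ ((17 / 16 : ℝ), y0) ∉ ({p, q} : Set P) := by
    by_contra hcon
    push Not at hcon
    have h1 := hcon (-(1 / 8)) (by rw [abs_neg]; norm_num [abs_of_pos])
    have h2 := hcon 0 (by norm_num)
    have h3 := hcon (1 / 8) (by norm_num [abs_of_pos])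
    simp only [mem_insert_iff, mem_singleton_iff] at h1 h2 h3
    have e1 : (((17 / 16 : ℝ), (-(1 / 8) : ℝ)) : P).2 = -(1 / 8) := rfl
    have e2 : (((17 / 16 : ℝ), (0 : ℝ)) : P).2 = 0 := rfl
    have e3 : (((17 / 16 : ℝ), (1 / 8 : ℝ)) : P).2 = 1 / 8 := rfl
    rcases h1 with h1 | h1 <;> rcases h2 with h2 | h2 <;> rcases h3 with h3 | h3 <;>
      rw [h1] at e1 <;> rw [h2] at e2 <;> rw [h3] at e3 <;> linarith
  have hfr := frontier_pt (y := y0) (lt_of_le_of_lt hy0 (by norm_num))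
  have hncl : ((17 / 16 : ℝ), y0) ∉ closure {z | z ∈ Om ∧ w z = 0} := by
    intro h
    exact hy0n (by rw [← hpq]; exact ⟨h, hfr⟩)
  rw [Metric.mem_closure_iff] at hncl
  push Not at hncl
  obtain ⟨ε, hε, hfar⟩ := hncl
  obtain ⟨N, hN⟩ := (X_tendsto.eventually (lt_mem_nhds (show 17 / 16 - ε < 17 / 16 by linarith))).exists
  set J := N with hJ
  have hXJ : 17 / 16 - ε < X (2 * J) :=
    hN.trans_le (X_strictMono.monotone (by omega))
  have hCSne : ∀ z ∈ CS J y0, w z ≠ 0 := by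
    intro z hz h0
    have h1 : z ∈ Om := CS_subset_Om (lt_of_le_of_lt hy0 (by norm_num)) hz
    have h2 := hfar z ⟨h1, h0⟩
    rw [Prod.dist_eq, Real.dist_eq, Real.dist_eq, hz.2.2, sub_self, abs_zero] at h2
    have h3 : |17 / 16 - z.1| < ε := by
      have h4 := hz.1
      have h5 := hz.2.1
      have h6 := X_lt (2 * J + 1)
      rw [abs_lt]; constructor <;> linarith
    have h7 : max |17 / 16 - z.1| 0 < ε := max_lt h3 hε
    linarith
  have hCSpre : IsPreconnected (CS J y0) := by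
    have e : CS J y0 = Ioo (X (2 * J)) (X (2 * J + 1)) ×ˢ {y0} := by
      ext z
      simp only [CS, mem_ofPred_eq, mem_prod, mem_Ioo, mem_singleton_iff, and_assoc]
    rw [e]
    exact isPreconnected_Ioo.prod isPreconnected_singleton
  obtain ⟨σ, hσ, hσpos⟩ := sign_const hCSpre
    (hwE.smooth.continuousOn.mono (CS_subset_Om (lt_of_le_of_lt hy0 (by norm_num)))) hCSne
  set W : P → ℝ := fun z => σ * w z + 0 * w z with hW
  have hWE : Eig Om μ W := hwE.comb isOpen_Om hwE σ 0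
  have hWeq : ∀ z, W z = σ * w z := fun z => by simp only [hW]; ring
  have hWCS : ∀ z ∈ CS J y0, 0 < W z := fun z hz => by rw [hWeq]; exact hσpos z hz
  have hWnn := TT_comparison hy0 (by linarith) hWE hWCS
  have hWsome : ∃ z ∈ TT J y0, W z ≠ 0 := by
    set z0 : P := ((X (2 * J) + X (2 * J + 1)) / 2, y0) with hz0
    have hXlt := X_lt_succ (2 * J)
    have hz0CS : z0 ∈ CS J y0 := ⟨by simp only [hz0]; linarith, by simp only [hz0]; linarith, rfl⟩
    have hz0O : z0 ∈ Om := CS_subset_Om (lt_of_le_of_lt hy0 (by norm_num)) hz0CS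
    have hcont : ContinuousAt W z0 := hWE.smooth.continuousOn.continuousAt (isOpen_Om.mem_nhds hz0O)
    have hev : ∀ᶠ z in 𝓝 z0, 0 < W z := hcont.eventually (lt_mem_nhds (hWCS z0 hz0CS))
    have hpath : Tendsto (fun t : ℝ => ((z0.1, y0 + t) : P)) (𝓝[>] 0) (𝓝 z0) := by
      have hc : Continuous (fun t : ℝ => ((z0.1, y0 + t) : P)) := by fun_prop
      have := hc.tendsto 0
      rw [add_zero] at this
      exact this.mono_left nhdsWithin_le_nhds
    have hev2 := hpath.eventually hev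
    have hlt : ∀ᶠ t in 𝓝[>] (0 : ℝ), t < 1 / 4 :=
      Filter.Eventually.filter_mono nhdsWithin_le_nhds (Iio_mem_nhds (by norm_num))
    obtain ⟨t, ht1, ht2, ht3⟩ := (hev2.and (hlt.and self_mem_nhdsWithin)).exists
    have ht3 : 0 < t := ht3
    rw [abs_le] at hy0
    refine ⟨(z0.1, y0 + t), ⟨mem_Arm_between hz0CS.1 hz0CS.2.1 ?_, hz0CS.1, Or.inr ?_⟩, ht1.ne'⟩
    · simp only [abs_lt]; constructor <;> linarith
    · simp only; linarith
  have hWpos : ∀ z ∈ TT J y0, 0 < W z :=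
    pos_of_nonneg (TT_open J y0) (TT_preconnected hy0) hμ0
      ((hWE.smooth.of_le two_le_inf).mono (TT_subset_Om J y0))
      (fun z hz => hWE.eq z (TT_subset_Om J y0 hz)) hWnn hWsome
  -- the next corridor
  set A := X (2 * (J + 1)) with hA
  set B := X (2 * (J + 1) + 1) with hB
  have hAB : A < B := X_lt_succ _
  have hgap : B - A ≤ 1 / 32 := X_gap1 _
  have hin : ∀ z : P, A < z.1 → z.1 < B → |z.2| ≤ 1 / 8 → z ∈ TT J y0 := fun z h1 h2 h3 =>
    corridor_mem_TT (n := 2 * (J + 1)) (by omega) h1 h2 (lt_of_le_of_lt h3 (by norm_num))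
  obtain ⟨ε1, hε1, hl1⟩ := low_bound (TT_open J y0) hμ
    ((hWE.smooth.of_le two_le_inf).mono (TT_subset_Om J y0))
    (fun z hz => hWE.eq z (TT_subset_Om J y0 hz)) hWpos (τ := 1) (x0 := A) (h := (B - A) / 2)
    (Or.inl rfl) (by linarith) (by linarith)
    (fun z h1 h2 h3 => hin z (by linarith) (by linarith) h3)
  obtain ⟨ε2, hε2, hl2⟩ := low_bound (TT_open J y0) hμ
    ((hWE.smooth.of_le two_le_inf).mono (TT_subset_Om J y0))
    (fun z hz => hWE.eq z (TT_subset_Om J y0 hz)) hWpos (τ := -1) (x0 := B) (h := (B - A) / 2)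
    (Or.inr rfl) (by linarith) (by linarith)
    (fun z h1 h2 h3 => hin z (by linarith) (by linarith) h3)
  obtain ⟨C1, hC1, hu1⟩ := up_bound hμ0 hμ hwE' (j := J + 1) (τ := 1) (x0 := A) (Or.inl ⟨rfl, rfl⟩)
  obtain ⟨C2, hC2, hu2⟩ := up_bound hμ0 hμ hwE' (j := J + 1) (τ := -1) (x0 := B) (Or.inr ⟨rfl, rfl⟩)
  set K := max (C1 / ε1) (C2 / ε2) with hK
  have hK0 : 0 ≤ K := le_max_of_le_left (by positivity)
  have hratio : ∀ x ∈ Ioo A B, |w' (x, 0)| ≤ K * W (x, 0) := by
    intro x hx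
    have hWx : 0 < W (x, 0) := hWpos _ (hin _ hx.1 hx.2 (by norm_num))
    rcases le_total x ((A + B) / 2) with h | h
    · have h1 := hl1 x (by linarith [hx.1]) (by linarith)
      have h2 := hu1 x hx
      have hx1 : 0 < x - A := by linarith [hx.1]
      calc |w' (x, 0)| ≤ C1 * (1 * (x - A)) := h2
        _ = C1 / ε1 * (ε1 * (1 * (x - A))) := by field_simp
        _ ≤ C1 / ε1 * W (x, 0) := by gcongr
        _ ≤ K * W (x, 0) := by gcongr; exact le_max_left _ _
    · have h1 := hl2 x (by linarith [hx.2]) (by linarith)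
      have h2 := hu2 x hx
      have hx1 : 0 < B - x := by linarith [hx.2]
      calc |w' (x, 0)| ≤ C2 * (-1 * (x - B)) := h2
        _ = C2 / ε2 * (ε2 * (-1 * (x - B))) := by field_simp
        _ ≤ C2 / ε2 * W (x, 0) := by gcongr
        _ ≤ K * W (x, 0) := by gcongr; exact le_max_right _ _
  have hcompare : ∀ ρ : ℝ, |ρ| ≤ 1 → ∀ z ∈ TT (J + 1) 0, 0 ≤ (K + 1) * W z + ρ * w' z := by
    intro ρ hρ
    have hGE := hWE.comb isOpen_Om hwE' (K + 1) ρ
    refine TT_comparison (y0 := 0) (by norm_num) (by linarith) hGE ?_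
    intro z hz
    have hz1 : z = (z.1, 0) := by ext; rfl; exact hz.2.2
    have h1 := hratio z.1 ⟨hz.1, hz.2.1⟩
    rw [← hz1] at h1
    have h2 : 0 < W z := hWpos z (hin z hz.1 hz.2.1 (by rw [hz.2.2]; norm_num))
    have h3 : |ρ * w' z| ≤ |w' z| := by
      rw [abs_mul]
      calc |ρ| * |w' z| ≤ 1 * |w' z| := by gcongr
        _ = |w' z| := one_mul _
    have h4 := neg_abs_le (ρ * w' z)
    nlinarith
  have hbd : ∀ z ∈ TT (J + 1) 0, |w' z| ≤ (K + 1) * W z := by
    intro z hz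
    have h1 := hcompare 1 (by norm_num) z hz
    have h2 := hcompare (-1) (by norm_num) z hz
    rw [abs_le]; constructor <;> linarith
  -- the contradiction
  have hev : ∀ᶠ i in atTop, |(c (k i)).1 * a + (c (k i)).2 * b|
      ≤ |-(c (k i)).1 * b + (c (k i)).2 * a| * (K + 1) := by
    filter_upwards [eventually_gt_atTop (J + 1)] with i hi
    have hki : J + 1 < k i := lt_of_lt_of_le hi (hk.id_le i)
    set z := zz (k i) with hz
    have hlt := X_lt_succ (2 * k i)
    have g1 : X (2 * k i) < z.1 := by simp only [hz, hzz]; linarith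
    have g2 : z.1 < X (2 * k i + 1) := by simp only [hz, hzz]; linarith
    have g3 : |z.2| < 1 / 2 := by simp only [hz, hzz]; norm_num
    have m1 : z ∈ TT (J + 1) 0 := corridor_mem_TT (n := 2 * k i) (by omega) g1 g2 g3
    have m2 : z ∈ TT J y0 := corridor_mem_TT (n := 2 * k i) (by omega) g1 g2 g3
    have h1 := hbd z m1
    have h2 := hWpos z m2
    have h3 := hc2 (k i)
    rw [← hz] at h3
    have h4 : ((c (k i)).1 * a + (c (k i)).2 * b) * w z
        = -(-(c (k i)).1 * b + (c (k i)).2 * a) * w' z := by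
      simp only [hw, hw']
      linear_combination (a ^ 2 + b ^ 2) * h3
    have h5 : |w z| = W z := by
      rw [hWeq] at h2 ⊢
      rcases hσ with rfl | rfl
      · rw [one_mul] at h2 ⊢; exact abs_of_pos h2
      · have : w z < 0 := by linarith
        rw [abs_of_neg this]; ring
    have h6 : |(c (k i)).1 * a + (c (k i)).2 * b| * W z
        ≤ |-(c (k i)).1 * b + (c (k i)).2 * a| * ((K + 1) * W z) := by
      calc |(c (k i)).1 * a + (c (k i)).2 * b| * W z
          = |((c (k i)).1 * a + (c (k i)).2 * b) * w z| := by rw [abs_mul, h5]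
        _ = |-(c (k i)).1 * b + (c (k i)).2 * a| * |w' z| := by rw [h4, abs_mul, abs_neg]
        _ ≤ _ := by gcongr
    have h7 : |(c (k i)).1 * a + (c (k i)).2 * b| * W z
        ≤ (|-(c (k i)).1 * b + (c (k i)).2 * a| * (K + 1)) * W z := by linarith
    exact le_of_mul_le_mul_right h7 h2
  have t1 : Tendsto (fun i => |(c (k i)).1 * a + (c (k i)).2 * b|) atTop (𝓝 1) := by
    have := ((hlim1.mul_const a).add (hlim2.mul_const b)).abs
    have e : |a * a + b * b| = 1 := by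
      have : a * a + b * b = 1 := by linarith
      rw [this, abs_one]
    rwa [e] at this
  have t2 : Tendsto (fun i => |-(c (k i)).1 * b + (c (k i)).2 * a| * (K + 1)) atTop (𝓝 0) := by
    have := (((hlim1.neg.mul_const b).add (hlim2.mul_const a)).abs).mul_const (K + 1)
    have e : |-a * b + b * a| * (K + 1) = 0 := by
      have : -a * b + b * a = 0 := by ring
      rw [this, abs_zero, zero_mul]
    rwa [e] at this
  have := le_of_tendsto_of_tendsto t1 t2 hev
  linarith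

end Pool.Agent.Lib.MP_dac83a
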