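import Pool.Agent.Lib.MP_dac83a.Dom

set_option autoImplicit false

open Set

namespace Pool.Agent.Lib.MP_dac83a.Topo

/-- a curve running through all openings -/
noncomputable def mm (x : ℝ) : ℝ := -(3 / 8) * Real.cos (Real.pi * (Real.log (17 - 16 * x) / Real.log 2))

theorem abs_mm_le (x : ℝ) : |mm x| ≤ 3 / 8 := by
  unfold mm
  rw [abs_mul, abs_neg, abs_of_pos (by norm_num : (0 : ℝ) < 3 / 8)]
  have := Real.abs_cos_le_one (Real.pi * (Real.log (17 - 16 * x) / Real.log 2))
  linarith

theorem mm_X (n : ℕ) : mm (X n) = -(3 / 8) * (-1) ^ n := by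
  unfold mm
  have h1 : 17 - 16 * X n = ((2 : ℝ) ^ n)⁻¹ := by
    unfold X
    have h0 : (1 / 2 : ℝ) ^ n = ((2 : ℝ) ^ n)⁻¹ := by rw [one_div, inv_pow]
    rw [h0]
    ring
  have h2 : Real.log (17 - 16 * X n) / Real.log 2 = -(n : ℝ) := by
    rw [h1, Real.log_inv, Real.log_pow]
    have : Real.log 2 ≠ 0 := (Real.log_pos (by norm_num)).ne'
    field_simp
  rw [h2, mul_neg, Real.cos_neg, mul_comm Real.pi, Real.cos_nat_mul_pi]

theorem mm_X_even {n : ℕ} (h : Even n) : mm (X n) = -(3 / 8) := by
  rw [mm_X, h.neg_one_pow, mul_one]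

theorem mm_X_odd {n : ℕ} (h : ¬ Even n) : mm (X n) = 3 / 8 := by
  rw [mm_X, (Nat.not_even_iff_odd.1 h).neg_one_pow]
  ring

theorem continuousOn_mm : ContinuousOn mm (Iio (17 / 16)) := by
  unfold mm
  have : ContinuousOn (fun x : ℝ => Real.log (17 - 16 * x)) (Iio (17 / 16)) := by
    apply ContinuousOn.log
    · fun_prop
    · intro x hx
      have : x < 17 / 16 := hx
      linarith
  fun_prop

noncomputable def tau (x : ℝ) : ℝ := max 0 (min 1 (2 * x - 1))

theorem continuous_tau : Continuous tau := by unfold tau; fun_prop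

theorem tau_nonneg (x : ℝ) : 0 ≤ tau x := le_max_left _ _

theorem tau_le_one (x : ℝ) : tau x ≤ 1 := max_le zero_le_one (min_le_left _ _)

theorem tau_eq_zero {x : ℝ} (h : x ≤ 1 / 2) : tau x = 0 := by
  unfold tau
  apply max_eq_left
  exact (min_le_right _ _).trans (by linarith)

theorem tau_eq_one {x : ℝ} (h : 1 ≤ x) : tau x = 1 := by
  unfold tau
  rw [min_eq_left (by linarith)]
  norm_num

/-- first phase -/
noncomputable def phA (s : ℝ) (z : P) : P := (z.1, (1 - s * tau z.1) * z.2 + s * tau z.1 * mm z.1)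

/-- shift -/
noncomputable def sh (s x : ℝ) : ℝ := x - s * max 0 (x - 3 / 4)

/-- second phase -/
noncomputable def phB (s : ℝ) (z : P) : P :=
  (sh s z.1, (1 - tau z.1) * z.2 + tau z.1 * mm (sh s z.1))

theorem rot_arm_bound {z : P} (h : rot z ∈ Arm) : |z.1| < 1 / 2 := by
  have := h.2.2.1
  simpa [rot] using this

theorem rot2_arm_bound {z : P} (h : rot (rot z) ∈ Arm) : z.1 < -(1 / 2) := by
  have := h.1
  simp only [rot] at this
  linarith

theorem rot3_arm_bound {z : P} (h : rot (rot (rot z)) ∈ Arm) : |z.1| < 1 / 2 := by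
  have := h.2.2.1
  simpa [rot] using this

theorem Om_fst_lt {z : P} (h : z ∈ Om) : z.1 < 17 / 16 := by
  rcases h with h | h | h | h | h
  · have := (abs_lt.1 h.1).2
    linarith
  · exact h.2.1
  · have := (abs_lt.1 (rot_arm_bound h)).2
    linarith
  · have := rot2_arm_bound h
    linarith
  · have := (abs_lt.1 (rot3_arm_bound h)).2
    linarith

theorem Om_right {z : P} (h : z ∈ Om) (h2 : 1 / 2 < z.1) : z ∈ Sq ∨ z ∈ Arm := by
  rcases h with h | h | h | h | h
  · exact Or.inl h
  · exact Or.inr h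
  · have := (abs_lt.1 (rot_arm_bound h)).2
    linarith
  · have := rot2_arm_bound h
    linarith
  · have := (abs_lt.1 (rot3_arm_bound h)).2
    linarith

theorem Om_right_sq {z : P} (h : z ∈ Om) (h2 : 1 / 2 < z.1) (h3 : z.1 < 1) : z ∈ Sq := by
  rcases Om_right h h2 with h | h
  · exact h
  · refine ⟨abs_lt.2 ⟨by linarith, h3⟩, ?_⟩
    have := h.2.2.1
    linarith

theorem Om_right_arm {z : P} (h : z ∈ Om) (h3 : 1 ≤ z.1) : z ∈ Arm := by
  rcases Om_right h (by linarith) with h | h
  · have := (abs_lt.1 h.1).2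
    linarith
  · exact h

/-- convex combinations -/
theorem comb_abs {a b t c : ℝ} (ha : |a| < c) (hb : |b| < c) (h0 : 0 ≤ t) (h1 : t ≤ 1) :
    |(1 - t) * a + t * b| < c := by
  rw [abs_lt] at *
  constructor
  · rcases eq_or_lt_of_le h0 with h | h
    · subst h; linarith
    · nlinarith [mul_lt_mul_of_pos_left hb.1 h, mul_le_mul_of_nonneg_left ha.1.le (sub_nonneg.2 h1)]
  · rcases eq_or_lt_of_le h0 with h | h
    · subst h; linarith
    · nlinarith [mul_lt_mul_of_pos_left hb.2 h, mul_le_mul_of_nonneg_left ha.2.le (sub_nonneg.2 h1)]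

theorem curve_arm {x : ℝ} (h1 : 1 / 2 < x) (h2 : x < 17 / 16) : (x, mm x) ∈ Arm := by
  refine ⟨h1, h2, ?_, ?_⟩
  · have := abs_mm_le x
    show |mm x| < 1 / 2
    linarith
  · rintro n ⟨hx, h⟩
    have hx' : x = X n := hx
    subst hx'
    rcases h with ⟨he, h⟩ | ⟨he, h⟩
    · have h' : -(1 / 4) ≤ mm (X n) := h
      rw [mm_X_even he] at h'
      linarith
    · have h' : mm (X n) ≤ 1 / 4 := h
      rw [mm_X_odd he] at h'
      linarith

theorem phA_mem {s : ℝ} (hs0 : 0 ≤ s) (hs1 : s ≤ 1) {z : P} (hz : z ∈ Om) : phA s z ∈ Om := by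
  rcases le_or_gt z.1 (1 / 2) with h | h
  · have : phA s z = z := by
      unfold phA
      rw [tau_eq_zero h]
      ext <;> simp
    rw [this]; exact hz
  · have hst0 : 0 ≤ s * tau z.1 := mul_nonneg hs0 (tau_nonneg _)
    have hst1 : s * tau z.1 ≤ 1 := by
      have := mul_le_mul hs1 (tau_le_one z.1) (tau_nonneg _) zero_le_one
      simpa using this
    rcases lt_or_ge z.1 1 with h3 | h3
    · have hsq := Om_right_sq hz h h3
      left
      refine ⟨hsq.1, ?_⟩
      apply comb_abs hsq.2 _ hst0 hst1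
      have := abs_mm_le z.1
      linarith
    · have ha := Om_right_arm hz h3
      right; left
      refine ⟨ha.1, ha.2.1, ?_, ?_⟩
      · apply comb_abs ha.2.2.1 _ hst0 hst1
        have := abs_mm_le z.1
        linarith
      · rintro n ⟨hx, hw⟩
        have hx' : z.1 = X n := hx
        have hn := ha.2.2.2 n
        have hn' : ¬ ((Even n ∧ -(1 / 4) ≤ z.2) ∨ (¬ Even n ∧ z.2 ≤ 1 / 4)) := fun h => hn ⟨hx', h⟩
        push Not at hn'
        rcases hw with ⟨he, hw⟩ | ⟨he, hw⟩
        · have hy := hn'.1 he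
          have hw' : -(1 / 4) ≤ (1 - s * tau z.1) * z.2 + s * tau z.1 * mm z.1 := hw
          rw [hx', mm_X_even he] at hw'
          rw [← hx'] at hw'
          generalize s * tau z.1 = t at hst0 hst1 hw'
          rcases eq_or_lt_of_le hst0 with h0 | h0
          · subst h0; linarith
          · have := mul_nonneg (sub_nonneg.2 hst1) (sub_nonneg.2 hy.le)
            nlinarith
        · have hy := hn'.2 he
          have hw' : (1 - s * tau z.1) * z.2 + s * tau z.1 * mm z.1 ≤ 1 / 4 := hw
          rw [hx', mm_X_odd he] at hw'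
          rw [← hx'] at hw'
          generalize s * tau z.1 = t at hst0 hst1 hw'
          rcases eq_or_lt_of_le hst0 with h0 | h0
          · subst h0; linarith
          · have := mul_nonneg (sub_nonneg.2 hst1) (sub_nonneg.2 hy.le)
            nlinarith

theorem sh_le {s : ℝ} (hs0 : 0 ≤ s) (x : ℝ) : sh s x ≤ x := by
  unfold sh
  have := mul_nonneg hs0 (le_max_left 0 (x - 3 / 4))
  linarith

theorem sh_ge {s : ℝ} (hs1 : s ≤ 1) {x : ℝ} (h : 1 / 2 < x) : 1 / 2 < sh s x := by
  unfold sh
  rcases max_cases 0 (x - 3 / 4) with ⟨h1, h2⟩ | ⟨h1, h2⟩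
  · rw [h1]; linarith
  · rw [h1]
    nlinarith

theorem sh_eq {x : ℝ} (s : ℝ) (h : x ≤ 3 / 4) : sh s x = x := by
  unfold sh
  rw [max_eq_left (by linarith)]
  ring

theorem sh_one_le (x : ℝ) : sh 1 x ≤ 3 / 4 := by
  unfold sh
  have := le_max_right 0 (x - 3 / 4)
  linarith

theorem phB_sq {s : ℝ} (hs0 : 0 ≤ s) (hs1 : s ≤ 1) {z : P} (hz : z ∈ Sq) : phB s z ∈ Sq := by
  refine ⟨?_, ?_⟩
  · show |sh s z.1| < 1
    have h := abs_lt.1 hz.1
    rw [abs_lt]
    have h1 := sh_le hs0 z.1
    rcases le_or_gt z.1 (1 / 2) with h2 | h2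
    · rw [sh_eq s (by linarith)]; exact h
    · have := sh_ge hs1 h2
      constructor <;> linarith
  · apply comb_abs hz.2 _ (tau_nonneg _) (tau_le_one _)
    have := abs_mm_le (sh s z.1)
    linarith

theorem phB_mem {s : ℝ} (hs0 : 0 ≤ s) (hs1 : s ≤ 1) {z : P} (hz : z ∈ Om) : phB s z ∈ Om := by
  rcases le_or_gt z.1 (1 / 2) with h | h
  · have : phB s z = z := by
      unfold phB
      rw [tau_eq_zero h, sh_eq s (by linarith)]
      ext <;> simp
    rw [this]; exact hz
  · rcases lt_or_ge z.1 1 with h3 | h3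
    · left
      exact phB_sq hs0 hs1 (Om_right_sq hz h h3)
    · right; left
      have e : phB s z = (sh s z.1, mm (sh s z.1)) := by
        unfold phB
        rw [tau_eq_one h3]
        simp
      rw [e]
      apply curve_arm
      · exact sh_ge hs1 h
      · have := sh_le hs0 z.1
        have := Om_fst_lt hz
        linarith

theorem phB_one_sq {z : P} (hz : z ∈ Om) (h : 1 / 2 < z.1) : phB 1 z ∈ Sq := by
  rcases lt_or_ge z.1 1 with h3 | h3
  · exact phB_sq zero_le_one le_rfl (Om_right_sq hz h h3)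
  · refine ⟨?_, ?_⟩
    · show |sh 1 z.1| < 1
      rw [abs_lt]
      have h1 := sh_one_le z.1
      have h2 := sh_ge le_rfl h
      constructor <;> linarith
    · apply comb_abs _ _ (tau_nonneg _) (tau_le_one _)
      · have := (Om_right_arm hz h3).2.2.1
        linarith
      · have := abs_mm_le (sh 1 z.1)
        linarith

theorem phB_one_left {z : P} (h : z.1 ≤ 1 / 2) (s : ℝ) : phB s z = z := by
  unfold phB
  rw [tau_eq_zero h, sh_eq s (by linarith)]
  ext <;> simp

/-- rotation as a continuous self-map of the domain -/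
theorem rot4 (z : P) : rot (rot (rot (rot z))) = z := by
  simp [rot]

theorem rot_mem {z : P} (hz : z ∈ Om) : rot z ∈ Om := by
  rcases hz with h | h | h | h | h
  · left
    exact ⟨by simpa [rot] using h.2, by simpa [rot] using h.1⟩
  · right; right; right; right
    rw [rot4]; exact h
  · right; left; exact h
  · right; right; left; exact h
  · right; right; right; left; exact h

theorem rot_sq {z : P} (h : z ∈ Sq) : rot z ∈ Sq :=
  ⟨by simpa [rot] using h.2, by simpa [rot] using h.1⟩

def rho : C(Om, Om) where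
  toFun z := ⟨rot z.1, rot_mem z.2⟩
  continuous_toFun := by
    apply Continuous.subtype_mk
    unfold rot
    fun_prop

theorem continuous_mmfst {T : Type} [TopologicalSpace T] {f : T → ℝ} (hf : Continuous f)
    (h : ∀ t, f t < 17 / 16) : Continuous (fun t => mm (f t)) :=
  continuousOn_mm.comp_continuous hf h

noncomputable def HA : C(unitInterval × Om, Om) where
  toFun p := ⟨phA p.1 p.2.1, phA_mem p.1.2.1 p.1.2.2 p.2.2⟩
  continuous_toFun := by
    apply Continuous.subtype_mk
    unfold phA
    have h1 : Continuous (fun p : unitInterval × Om => tau (p.2.1 : P).1) :=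
      continuous_tau.comp (by fun_prop)
    have h2 : Continuous (fun p : unitInterval × Om => mm (p.2.1 : P).1) :=
      continuous_mmfst (by fun_prop) (fun p => Om_fst_lt p.2.2)
    fun_prop

noncomputable def HB : C(unitInterval × Om, Om) where
  toFun p := ⟨phB p.1 p.2.1, phB_mem p.1.2.1 p.1.2.2 p.2.2⟩
  continuous_toFun := by
    apply Continuous.subtype_mk
    unfold phB
    have h1 : Continuous (fun p : unitInterval × Om => tau (p.2.1 : P).1) :=
      continuous_tau.comp (by fun_prop)
    have h3 : Continuous (fun p : unitInterval × Om => sh p.1 (p.2.1 : P).1) := by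
      unfold sh
      fun_prop
    have h2 : Continuous (fun p : unitInterval × Om => mm (sh p.1 (p.2.1 : P).1)) :=
      continuous_mmfst h3 (fun p => (sh_le p.1.2.1 _).trans_lt (Om_fst_lt p.2.2))
    fun_prop

/-- the end map of the two phases -/
noncomputable def g0 : C(Om, Om) where
  toFun z := HB (1, z)
  continuous_toFun := by fun_prop

noncomputable def gA : C(Om, Om) where
  toFun z := HA (1, z)
  continuous_toFun := by fun_prop

theorem homotopic_A : ContinuousMap.Homotopic (ContinuousMap.id Om) gA := by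
  refine ⟨⟨HA, ?_, ?_⟩⟩
  · intro z
    apply Subtype.ext
    show phA 0 z.1 = z.1
    unfold phA
    ext <;> simp
  · intro z
    rfl

theorem homotopic_B : ContinuousMap.Homotopic gA g0 := by
  refine ⟨⟨HB, ?_, ?_⟩⟩
  · intro z
    apply Subtype.ext
    show phB 0 z.1 = phA 1 z.1
    unfold phA phB sh
    ext <;> simp
  · intro z
    rfl

theorem homotopic_g0 : ContinuousMap.Homotopic (ContinuousMap.id Om) g0 :=
  homotopic_A.trans homotopic_B

/-- one step: push the right arm into the square, then rotate -/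
noncomputable def st : C(Om, Om) := rho.comp g0

theorem homotopic_st : ContinuousMap.Homotopic rho st := by
  have := (ContinuousMap.Homotopic.refl rho).comp homotopic_g0
  simpa [st] using this

theorem rho4 : rho.comp (rho.comp (rho.comp rho)) = ContinuousMap.id Om := by
  ext1 z
  apply Subtype.ext
  exact rot4 z.1

noncomputable def st4 : C(Om, Om) := st.comp (st.comp (st.comp st))

theorem homotopic_st4 : ContinuousMap.Homotopic (ContinuousMap.id Om) st4 := by
  rw [← rho4]
  exact homotopic_st.comp (homotopic_st.comp (homotopic_st.comp homotopic_st))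

theorem st_sq {z : Om} (h : z.1 ∈ Sq) : (st z).1 ∈ Sq :=
  rot_sq (phB_sq zero_le_one le_rfl h)

theorem st_arm {z : Om} (h : z.1 ∈ Arm) : (st z).1 ∈ Sq :=
  rot_sq (phB_one_sq z.2 h.1)

theorem st_left {z : Om} (h : z.1.1 ≤ 1 / 2) : (st z).1 = rot z.1 := by
  show rot (phB 1 z.1) = rot z.1
  rw [phB_one_left h]

theorem st_rot {z : Om} (h : rot z.1 ∈ Arm) : (st z).1 ∈ Arm := by
  rw [st_left (by have := (abs_lt.1 (rot_arm_bound h)).2; linarith)]
  exact h

theorem st_rot2 {z : Om} (h : rot (rot z.1) ∈ Arm) : rot (st z).1 ∈ Arm := by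
  rw [st_left (by have := rot2_arm_bound h; linarith)]
  exact h

theorem st_rot3 {z : Om} (h : rot (rot (rot z.1)) ∈ Arm) : rot (rot (st z).1) ∈ Arm := by
  rw [st_left (by have := (abs_lt.1 (rot3_arm_bound h)).2; linarith)]
  exact h

theorem st4_sq (z : Om) : (st4 z).1 ∈ Sq := by
  show (st (st (st (st z)))).1 ∈ Sq
  rcases z.2 with h | h | h | h | h
  · exact st_sq (st_sq (st_sq (st_sq h)))
  · exact st_sq (st_sq (st_sq (st_arm h)))
  · exact st_sq (st_sq (st_arm (st_rot h)))
  · exact st_sq (st_arm (st_rot (st_rot2 h)))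
  · exact st_arm (st_rot (st_rot2 (st_rot3 h)))

theorem zero_mem : ((0, 0) : P) ∈ Om := Or.inl ⟨by norm_num, by norm_num⟩

noncomputable def HC : C(unitInterval × Om, Om) where
  toFun p := ⟨((1 - (p.1 : ℝ)) * (st4 p.2).1.1, (1 - (p.1 : ℝ)) * (st4 p.2).1.2), by
    left
    have h := st4_sq p.2
    have h0 := p.1.2.1
    have h1 := p.1.2.2
    have key : ∀ a : ℝ, |a| < 1 → |(1 - (p.1 : ℝ)) * a| < 1 := by
      intro a ha
      rw [abs_mul, abs_of_nonneg (by linarith)]
      nlinarith [abs_nonneg a]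
    exact ⟨key _ h.1, key _ h.2⟩⟩
  continuous_toFun := by
    apply Continuous.subtype_mk
    have h : Continuous (fun p : unitInterval × Om => ((st4 p.2 : Om) : P)) :=
      continuous_subtype_val.comp (st4.continuous.comp continuous_snd)
    have h2 : Continuous (fun p : unitInterval × Om => 1 - (p.1 : ℝ)) :=
      continuous_const.sub (continuous_subtype_val.comp continuous_fst)
    exact (h2.mul h.fst).prodMk (h2.mul h.snd)

theorem homotopic_const : ContinuousMap.Homotopic st4 (ContinuousMap.const Om ⟨(0, 0), zero_mem⟩) := by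
  refine ⟨⟨HC, ?_, ?_⟩⟩
  · intro z
    apply Subtype.ext
    show ((1 - ((0 : unitInterval) : ℝ)) * (st4 z).1.1, (1 - ((0 : unitInterval) : ℝ)) * (st4 z).1.2)
      = (st4 z).1
    simp
  · intro z
    apply Subtype.ext
    show ((1 - ((1 : unitInterval) : ℝ)) * (st4 z).1.1, (1 - ((1 : unitInterval) : ℝ)) * (st4 z).1.2)
      = (0, 0)
    simp

theorem contractible : ContractibleSpace Om := by
  rw [contractible_iff_id_nullhomotopic]
  exact ⟨⟨(0, 0), zero_mem⟩, homotopic_st4.trans homotopic_const⟩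

/-- the domain is simply connected -/
theorem simply : SimplyConnectedSpace Om := by
  have := contractible
  infer_instance

end Pool.Agent.Lib.MP_dac83a.Topo
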