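import Pool.Agent.Lib.MP_dac83a.Lambda
import Pool.Agent.Lib.MP_dac83a.Nodal
import Pool.Agent.Lib.MP_dac83a.Topo

set_option autoImplicit false

open MeasureTheory Set Filter Topology
open scoped ContDiff

namespace Pool.Agent.Lib.MP_dac83a

/-- the Euclidean plane -/
abbrev E2 : Type := EuclideanSpace ℝ (Fin 2)

/-- coordinates -/
noncomputable def ee : E2 ≃L[ℝ] P :=
  (EuclideanSpace.equiv (Fin 2) ℝ).trans (ContinuousLinearEquiv.finTwoArrow ℝ ℝ)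

theorem ee_apply (x : E2) : ee x = (x 0, x 1) := rfl

theorem ee_single0 : ee (EuclideanSpace.single 0 1) = ex := by
  rw [ee_apply]; simp

theorem ee_single1 : ee (EuclideanSpace.single 1 1) = ey := by
  rw [ee_apply]; simp

theorem ee_mp : MeasurePreserving ee volume volume := by
  have h1 := PiLp.volume_preserving_ofLp (Fin 2)
  have h2 := volume_preserving_finTwoArrow ℝ
  exact h2.comp h1

theorem ee_emb : MeasurableEmbedding ee := ee.toHomeomorph.measurableEmbedding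

theorem ee_fderiv (f : P → ℝ) (x v : E2) : fderiv ℝ (f ∘ ee) x v = dd (ee v) f (ee x) := by
  rw [ContinuousLinearEquiv.comp_right_fderiv]
  rfl

/-- squared norm of a functional on the Euclidean plane -/
theorem norm_functional (L : E2 →L[ℝ] ℝ) :
    ‖L‖ ^ 2 = L (EuclideanSpace.single 0 1) ^ 2 + L (EuclideanSpace.single 1 1) ^ 2 := by
  obtain ⟨y, rfl⟩ := (InnerProductSpace.toDual ℝ E2).surjective L
  rw [LinearIsometryEquiv.norm_map, EuclideanSpace.norm_sq_eq, Fin.sum_univ_two]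
  simp only [InnerProductSpace.toDual_apply_apply, EuclideanSpace.inner_single_right]
  simp

theorem lap_transfer {f : P → ℝ} {U : Set P} (hU : IsOpen U) (hf : ContDiffOn ℝ 2 f U) {x : E2}
    (hx : ee x ∈ U) :
    ∑ i : Fin 2, iteratedFDeriv ℝ 2 (f ∘ ee) x (fun _ => EuclideanSpace.single i (1 : ℝ))
      = lap f (ee x) := by
  have hO : IsOpen (ee ⁻¹' U) := hU.preimage ee.continuous
  have hfE : ContDiffOn ℝ 2 (f ∘ ee) (ee ⁻¹' U) :=
    hf.comp ee.contDiff.contDiffOn (fun y hy => hy)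
  have hd : DifferentiableAt ℝ (fderiv ℝ (f ∘ ee)) x :=
    ((hfE.fderiv_of_isOpen (m := 1) hO (by norm_num)).contDiffAt (hO.mem_nhds hx)).differentiableAt
      (by norm_num)
  have key : ∀ v : E2, iteratedFDeriv ℝ 2 (f ∘ ee) x (fun _ => v)
      = dd (ee v) (dd (ee v) f) (ee x) := by
    intro v
    rw [iteratedFDeriv_two_apply]
    have e1 : fderiv ℝ (fderiv ℝ (f ∘ ee)) x v v = fderiv ℝ (fun y => fderiv ℝ (f ∘ ee) y v) x v := by
      have := (hd.hasFDerivAt.clm_apply (hasFDerivAt_const v x)).fderiv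
      rw [this]; simp
    rw [e1]
    have e2 : (fun y => fderiv ℝ (f ∘ ee) y v) = (dd (ee v) f) ∘ ee := by
      ext y; exact ee_fderiv f y v
    rw [e2, ee_fderiv]
  rw [Fin.sum_univ_two, key, key, ee_single0, ee_single1]
  rfl

theorem test_transfer {Ω : Set P} {φ : P → ℝ} :
    (ContDiff ℝ ∞ (φ ∘ ee) ∧ HasCompactSupport (φ ∘ ee) ∧ tsupport (φ ∘ ee) ⊆ ee ⁻¹' Ω)
      ↔ IsTest Ω φ := by
  have hts : tsupport (φ ∘ ee) = ee ⁻¹' tsupport φ :=
    tsupport_comp_eq_preimage φ ee.toHomeomorph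
  constructor
  · rintro ⟨h1, h2, h3⟩
    have e : φ = (φ ∘ ee) ∘ ee.symm := by ext z; simp
    refine ⟨?_, ?_, ?_⟩
    · rw [e]; exact h1.comp ee.symm.contDiff
    · rw [e]; exact h2.comp_homeomorph ee.symm.toHomeomorph
    · intro z hz
      have : ee.symm z ∈ tsupport (φ ∘ ee) := by rw [hts]; simpa using hz
      simpa using h3 this
  · intro h
    refine ⟨h.smooth.comp ee.contDiff, h.cpt.comp_homeomorph ee.toHomeomorph, ?_⟩
    rw [hts]
    exact preimage_mono h.sub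

theorem norm_transfer (f : P → ℝ) (x : E2) :
    ‖fderiv ℝ (f ∘ ee) x‖ ^ 2 = dd ex f (ee x) ^ 2 + dd ey f (ee x) ^ 2 := by
  rw [norm_functional, ee_fderiv, ee_fderiv, ee_single0, ee_single1]

theorem norm_transfer_sub (f g : P → ℝ) (x : E2) :
    ‖fderiv ℝ (f ∘ ee) x - fderiv ℝ (g ∘ ee) x‖ ^ 2
      = (dd ex f (ee x) - dd ex g (ee x)) ^ 2 + (dd ey f (ee x) - dd ey g (ee x)) ^ 2 := by
  rw [norm_functional, _root_.sub_apply, _root_.sub_apply,
    ee_fderiv, ee_fderiv, ee_fderiv, ee_fderiv, ee_single0, ee_single1]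

theorem En_transfer (φ : P → ℝ) : ∫ y : E2, ‖fderiv ℝ (φ ∘ ee) y‖ ^ 2 = En φ := by
  simp only [norm_transfer]
  exact ee_mp.integral_comp ee_emb (fun z => dd ex φ z ^ 2 + dd ey φ z ^ 2)

theorem Nm_transfer (φ : P → ℝ) : ∫ y : E2, (φ (ee y)) ^ 2 = Nm φ :=
  ee_mp.integral_comp ee_emb (fun z => φ z ^ 2)

theorem li_transfer (φ₁ φ₂ : P → ℝ) :
    LinearIndependent ℝ ![φ₁ ∘ ee, φ₂ ∘ ee] ↔ LinearIndependent ℝ ![φ₁, φ₂] := by
  rw [LinearIndependent.pair_iff, LinearIndependent.pair_iff]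
  have key : ∀ s t : ℝ, (s • (φ₁ ∘ ee) + t • (φ₂ ∘ ee) = 0) ↔ (s • φ₁ + t • φ₂ = 0) := by
    intro s t
    constructor
    · intro h
      ext z
      have := congrFun h (ee.symm z)
      simpa using this
    · intro h
      ext x
      have := congrFun h (ee x)
      simpa using this
  simp only [key]

theorem minmax_transfer :
    {m : ℝ | ∃ φ₁ φ₂ : E2 → ℝ,
      ContDiff ℝ ((⊤ : ℕ∞) : WithTop ℕ∞) φ₁ ∧ HasCompactSupport φ₁ ∧ tsupport φ₁ ⊆ ee ⁻¹' Om ∧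
      ContDiff ℝ ((⊤ : ℕ∞) : WithTop ℕ∞) φ₂ ∧ HasCompactSupport φ₂ ∧ tsupport φ₂ ⊆ ee ⁻¹' Om ∧
      LinearIndependent ℝ ![φ₁, φ₂] ∧
      ∀ a b : ℝ,
        ∫ y, ‖fderiv ℝ (fun z => a * φ₁ z + b * φ₂ z) y‖ ^ 2 ≤
          m * ∫ y, (a * φ₁ y + b * φ₂ y) ^ 2} = MinMax Om := by
  ext m
  simp only [MinMax, mem_ofPred_eq]
  have hcomb : ∀ (φ₁ φ₂ : P → ℝ) (a b : ℝ),
      (fun z : E2 => a * (φ₁ ∘ ee) z + b * (φ₂ ∘ ee) z) = (fun z => a * φ₁ z + b * φ₂ z) ∘ ee :=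
    fun _ _ _ _ => rfl
  constructor
  · rintro ⟨φ₁, φ₂, h1, h2, h3, h4, h5, h6, h7, h8⟩
    have e1 : φ₁ = (φ₁ ∘ ee.symm) ∘ ee := by ext z; simp
    have e2 : φ₂ = (φ₂ ∘ ee.symm) ∘ ee := by ext z; simp
    rw [e1, e2] at h7
    refine ⟨φ₁ ∘ ee.symm, φ₂ ∘ ee.symm, test_transfer.1 ⟨?_, ?_, ?_⟩,
      test_transfer.1 ⟨?_, ?_, ?_⟩, (li_transfer _ _).1 h7, ?_⟩
    · rw [← e1]; exact h1
    · rw [← e1]; exact h2
    · rw [← e1]; exact h3
    · rw [← e2]; exact h4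
    · rw [← e2]; exact h5
    · rw [← e2]; exact h6
    · intro a b
      have h9 := h8 a b
      rw [← En_transfer, ← Nm_transfer, ← hcomb, ← e1, ← e2]
      have e3 : ∀ y : E2, (a * (φ₁ ∘ ee.symm) (ee y) + b * (φ₂ ∘ ee.symm) (ee y)) ^ 2
          = (a * φ₁ y + b * φ₂ y) ^ 2 := by intro y; simp
      simp only [e3]
      exact h9
  · rintro ⟨φ₁, φ₂, h1, h2, h3, h4⟩
    obtain ⟨a1, a2, a3⟩ := test_transfer.2 h1
    obtain ⟨b1, b2, b3⟩ := test_transfer.2 h2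
    refine ⟨φ₁ ∘ ee, φ₂ ∘ ee, a1, a2, a3, b1, b2, b3, (li_transfer _ _).2 h3, fun a b => ?_⟩
    have h5 := h4 a b
    rw [← En_transfer, ← Nm_transfer, ← hcomb] at h5
    exact h5

theorem approx_transfer {w : P → ℝ} {μ : ℝ} (hw : Eig Om μ w) :
    ∃ φ : ℕ → E2 → ℝ,
      (∀ n, ContDiff ℝ ((⊤ : ℕ∞) : WithTop ℕ∞) (φ n) ∧ HasCompactSupport (φ n) ∧
          tsupport (φ n) ⊆ ee ⁻¹' Om ∧
          MeasureTheory.IntegrableOn
            (fun x => (φ n x - (w ∘ ee) x) ^ 2 + ‖fderiv ℝ (φ n) x - fderiv ℝ (w ∘ ee) x‖ ^ 2)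
              (ee ⁻¹' Om)) ∧
      Filter.Tendsto
        (fun n => ∫ x in ee ⁻¹' Om,
          ((φ n x - (w ∘ ee) x) ^ 2 + ‖fderiv ℝ (φ n) x - fderiv ℝ (w ∘ ee) x‖ ^ 2))
        Filter.atTop (nhds 0) := by
  obtain ⟨φ, h1, h2, h3, h4⟩ := hw.approx
  set F : ℕ → P → ℝ := fun n z => (φ n z - w z) ^ 2 + ((dd ex (φ n) z - dd ex w z) ^ 2
    + (dd ey (φ n) z - dd ey w z) ^ 2) with hF
  have hFe : ∀ n (x : E2), ((φ n ∘ ee) x - (w ∘ ee) x) ^ 2
      + ‖fderiv ℝ (φ n ∘ ee) x - fderiv ℝ (w ∘ ee) x‖ ^ 2 = F n (ee x) := by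
    intro n x
    rw [norm_transfer_sub]
    rfl
  have hFi : ∀ n, Integrable (F n) (volume.restrict Om) := fun n =>
    (h2.sub_mem n).integrable_sq.add ((h3.sub_mem n).integrable_sq.add (h4.sub_mem n).integrable_sq)
  have hmpr : MeasurePreserving ee (volume.restrict (ee ⁻¹' Om)) (volume.restrict Om) :=
    ee_mp.restrict_preimage_emb ee_emb Om
  refine ⟨fun n => φ n ∘ ee, fun n => ?_, ?_⟩
  · obtain ⟨a1, a2, a3⟩ := test_transfer.2 (h1 n)
    refine ⟨a1, a2, a3, ?_⟩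
    simp only [hFe]
    exact (hmpr.integrable_comp_emb ee_emb).2 (hFi n)
  · simp only [hFe]
    have e1 : ∀ n, ∫ x in ee ⁻¹' Om, F n (ee x) = ∫ z in Om, F n z := fun n =>
      hmpr.integral_comp ee_emb (F n)
    simp only [e1]
    have e2 : ∀ n, ∫ z in Om, F n z = (∫ z in Om, (φ n z - w z) ^ 2)
        + ((∫ z in Om, (dd ex (φ n) z - dd ex w z) ^ 2)
          + ∫ z in Om, (dd ey (φ n) z - dd ey w z) ^ 2) := by
      intro n
      have i2 : Integrable (fun z => (dd ex (φ n) z - dd ex w z) ^ 2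
        + (dd ey (φ n) z - dd ey w z) ^ 2) (volume.restrict Om) :=
        (h3.sub_mem n).integrable_sq.add (h4.sub_mem n).integrable_sq
      simp only [hF]
      rw [integral_add (h2.sub_mem n).integrable_sq i2,
        integral_add (h3.sub_mem n).integrable_sq (h4.sub_mem n).integrable_sq]
    simp only [e2]
    have := h2.lim.add (h3.lim.add h4.lim)
    simpa using this

theorem simply_transfer : SimplyConnectedSpace (ee ⁻¹' Om) := by
  have h : (ee ⁻¹' Om) ≃ₜ Om := ee.toHomeomorph.subtype (fun x => Iff.rfl)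
  have := Topo.simply
  exact ContinuousMap.HomotopyEquiv.simplyConnectedSpace h.toHomotopyEquiv

theorem bounded_transfer : Bornology.IsBounded (ee ⁻¹' Om) := by
  have h1 : Bornology.IsBounded Om :=
    (Bornology.IsBounded.prod (Metric.isBounded_Ioo _ _) (Metric.isBounded_Ioo _ _)).subset
      Om_subset
  have h2 : ee ⁻¹' Om = ee.symm '' Om := by
    ext x
    constructor
    · intro hx; exact ⟨ee x, hx, by simp⟩
    · rintro ⟨z, hz, rfl⟩; simpa using hz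
  rw [h2]
  exact (ee.symm : P →L[ℝ] E2).lipschitz.isBounded_image h1

theorem payne_false :
    ¬ (∀ (Ω : Set (EuclideanSpace ℝ (Fin 2))), IsOpen Ω → Bornology.IsBounded Ω →
      SimplyConnectedSpace Ω →
      ∀ (u : EuclideanSpace ℝ (Fin 2) → ℝ),
        ContDiffOn ℝ ((⊤ : ℕ∞) : WithTop ℕ∞) u Ω →
        (∃ x ∈ Ω, u x ≠ 0) →
        (∀ x ∈ Ω,
          -(∑ i : Fin 2, iteratedFDeriv ℝ 2 u x (fun _ => EuclideanSpace.single i (1 : ℝ))) =
            sInf {m : ℝ | ∃ φ₁ φ₂ : EuclideanSpace ℝ (Fin 2) → ℝ,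
              ContDiff ℝ ((⊤ : ℕ∞) : WithTop ℕ∞) φ₁ ∧ HasCompactSupport φ₁ ∧ tsupport φ₁ ⊆ Ω ∧
              ContDiff ℝ ((⊤ : ℕ∞) : WithTop ℕ∞) φ₂ ∧ HasCompactSupport φ₂ ∧ tsupport φ₂ ⊆ Ω ∧
              LinearIndependent ℝ ![φ₁, φ₂] ∧
              ∀ a b : ℝ,
                ∫ y, ‖fderiv ℝ (fun z => a * φ₁ z + b * φ₂ z) y‖ ^ 2 ≤
                  m * ∫ y, (a * φ₁ y + b * φ₂ y) ^ 2} * u x) →
        (∃ φ : ℕ → EuclideanSpace ℝ (Fin 2) → ℝ,
          (∀ n, ContDiff ℝ ((⊤ : ℕ∞) : WithTop ℕ∞) (φ n) ∧ HasCompactSupport (φ n) ∧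
              tsupport (φ n) ⊆ Ω ∧
              MeasureTheory.IntegrableOn
                (fun x => (φ n x - u x) ^ 2 + ‖fderiv ℝ (φ n) x - fderiv ℝ u x‖ ^ 2) Ω) ∧
          Filter.Tendsto
            (fun n => ∫ x in Ω, ((φ n x - u x) ^ 2 + ‖fderiv ℝ (φ n) x - fderiv ℝ u x‖ ^ 2))
            Filter.atTop (nhds 0)) →
        ∃ p q : EuclideanSpace ℝ (Fin 2), p ≠ q ∧
          closure {x | x ∈ Ω ∧ u x = 0} ∩ frontier Ω = {p, q}) := by
  intro H
  obtain ⟨u, hu, hodd, hne⟩ := ground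
  obtain ⟨w, hw, ⟨z0, hz0, hz0'⟩, hno⟩ := nodal_main muO_nonneg muO_le hu hodd hne
  apply hno
  obtain ⟨p, q, hpq, hS⟩ := H (ee ⁻¹' Om) (isOpen_Om.preimage ee.continuous) bounded_transfer
    simply_transfer (w ∘ ee) (hw.smooth.comp ee.contDiff.contDiffOn (fun x hx => hx))
    ⟨ee.symm z0, by simpa using hz0, by simpa using hz0'⟩
    (by
      intro x hx
      rw [minmax_transfer, lambda2, lap_transfer isOpen_Om (hw.smooth.of_le two_le_inf) hx,
        hw.eq _ hx]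
      simp only [Function.comp_apply]; ring)
    (approx_transfer hw)
  refine ⟨ee p, ee q, fun h => hpq (ee.injective h), ?_⟩
  have e1 : {x | x ∈ ee ⁻¹' Om ∧ (w ∘ ee) x = 0} = ee ⁻¹' {z | z ∈ Om ∧ w z = 0} := rfl
  have e2 : closure (ee ⁻¹' {z | z ∈ Om ∧ w z = 0}) = ee ⁻¹' closure {z | z ∈ Om ∧ w z = 0} :=
    (ee.toHomeomorph.preimage_closure _).symm
  have e3 : frontier (ee ⁻¹' Om) = ee ⁻¹' frontier Om := (ee.toHomeomorph.preimage_frontier _).symm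
  rw [e1, e2, e3, ← preimage_inter] at hS
  have e4 : closure {z | z ∈ Om ∧ w z = 0} ∩ frontier Om = ee '' {p, q} := by
    rw [← hS, image_preimage_eq _ ee.surjective]
  rw [e4, image_pair]

end Pool.Agent.Lib.MP_dac83a
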