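import Pool.Agent.Lib.MP_dac83a.Beyond

set_option autoImplicit false

open MeasureTheory Set Filter Topology
open scoped ContDiff

namespace Pool.Agent.Lib.MP_dac83a

theorem fst_fd (z : P) : HasFDerivAt (fun z : P => z.1) (ContinuousLinearMap.fst ℝ ℝ ℝ) z :=
  hasFDerivAt_fst
theorem snd_fd (z : P) : HasFDerivAt (fun z : P => z.2) (ContinuousLinearMap.snd ℝ ℝ ℝ) z :=
  hasFDerivAt_snd

theorem dd_prod {A A1 B B1 : ℝ → ℝ} (hA : ∀ x, HasDerivAt A (A1 x) x)
    (hB : ∀ x, HasDerivAt B (B1 x) x) (v : P) :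
    dd v (fun z => A z.1 * B z.2) = fun z => v.1 * (A1 z.1 * B z.2) + v.2 * (A z.1 * B1 z.2) := by
  ext z
  have h1 : HasFDerivAt (fun z : P => A z.1) (A1 z.1 • ContinuousLinearMap.fst ℝ ℝ ℝ) z :=
    (hA z.1).comp_hasFDerivAt z (fst_fd z)
  have h2 : HasFDerivAt (fun z : P => B z.2) (B1 z.2 • ContinuousLinearMap.snd ℝ ℝ ℝ) z :=
    (hB z.2).comp_hasFDerivAt z (snd_fd z)
  have h3 := h1.mul h2
  simp only [dd]
  rw [show (fun z : P => A z.1 * B z.2) = (fun z : P => A z.1) * (fun z : P => B z.2) from rfl,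
    h3.fderiv]
  simp only [_root_.add_apply, _root_.smul_apply, ContinuousLinearMap.coe_fst',
    ContinuousLinearMap.coe_snd', smul_eq_mul]
  ring

theorem lap_prod {A A1 A2 B B1 B2 : ℝ → ℝ} (hA : ∀ x, HasDerivAt A (A1 x) x)
    (hA1 : ∀ x, HasDerivAt A1 (A2 x) x)
    (hB : ∀ x, HasDerivAt B (B1 x) x) (hB1 : ∀ x, HasDerivAt B1 (B2 x) x) (z : P) :
    lap (fun z => A z.1 * B z.2) z = A2 z.1 * B z.2 + A z.1 * B2 z.2 := by
  simp only [lap]
  have e1 : dd ex (fun z => A z.1 * B z.2) = fun z => A1 z.1 * B z.2 := by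
    rw [dd_prod hA hB]; ext z; simp
  have e2 : dd ey (fun z => A z.1 * B z.2) = fun z => A z.1 * B1 z.2 := by
    rw [dd_prod hA hB]; ext z; simp
  rw [e1, e2, dd_prod hA1 hB, dd_prod hA hB1]
  simp

theorem memLp_of_compact {f : P → ℝ} {K D : Set P} (hK : IsCompact K) (hD : D ⊆ K)
    (hf : ContinuousOn f K) : MemLp f 2 (volume.restrict D) := by
  have h1 : MemLp f 2 (volume.restrict K) := by
    rw [memLp_two_iff_integrable_sq (hf.aestronglyMeasurable hK.measurableSet)]
    exact (hf.pow 2).integrableOn_compact hK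
  exact h1.mono_measure (Measure.restrict_mono hD le_rfl)

/-- lower bound near a straight wall -/
theorem low_bound {U : Set P} (hU : IsOpen U) {μ : ℝ} (hμ : μ ≤ 14) {g : P → ℝ}
    (hg : ContDiffOn ℝ 2 g U) (heq : ∀ z ∈ U, lap g z = -μ * g z) (hpos : ∀ z ∈ U, 0 < g z)
    {τ x0 h : ℝ} (hτ : τ = 1 ∨ τ = -1) (hh : 0 < h) (hh' : h ≤ 1 / 32)
    (hsub : ∀ z : P, 0 < τ * (z.1 - x0) → τ * (z.1 - x0) ≤ h → |z.2| ≤ 1 / 8 → z ∈ U) :
    ∃ ε > 0, ∀ x, 0 < τ * (x - x0) → τ * (x - x0) ≤ h → ε * (τ * (x - x0)) ≤ g (x, 0) := by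
  have hττ : τ * τ = 1 := by rcases hτ with rfl | rfl <;> norm_num
  -- the segment
  have hSc : IsCompact ({x0 + τ * h} ×ˢ Icc (-(1 / 8)) (1 / 8) : Set P) :=
    isCompact_singleton.prod isCompact_Icc
  have hSU : ({x0 + τ * h} ×ˢ Icc (-(1 / 8)) (1 / 8) : Set P) ⊆ U := by
    rintro ⟨x, y⟩ ⟨hx, hy⟩
    have hx : x = x0 + τ * h := hx
    have e : τ * (x - x0) = h := by rw [hx]; linear_combination h * hττ
    exact hsub _ (by simp only; rw [e]; exact hh) (by simp only; rw [e]) (abs_le.2 hy)
  have hSne : ({x0 + τ * h} ×ˢ Icc (-(1 / 8)) (1 / 8) : Set P).Nonempty :=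
    ⟨(x0 + τ * h, 0), rfl, by constructor <;> norm_num⟩
  obtain ⟨zc, hzc, hmin⟩ := hSc.exists_isMinOn hSne (hg.continuousOn.mono hSU)
  set c := g zc with hc
  have hcpos : 0 < c := hpos _ (hSU hzc)
  have hmin' : ∀ y, |y| ≤ 1 / 8 → c ≤ g (x0 + τ * h, y) := fun y hy =>
    hmin (a := (x0 + τ * h, y)) ⟨rfl, abs_le.1 hy⟩
  set α := 4 * Real.pi with hα
  have hα2 : 144 ≤ α ^ 2 := by
    have := Real.pi_gt_three; rw [hα]; nlinarith
  set β := √(α ^ 2 - μ) with hβ
  have hβ2 : β ^ 2 = α ^ 2 - μ := Real.sq_sqrt (by linarith)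
  have hβpos : 0 < β := Real.sqrt_pos.2 (by linarith)
  have hsh : 0 < Real.sinh (β * h) := Real.sinh_pos_iff.2 (by positivity)
  set ε0 := c / (2 * Real.sinh (β * h)) with hε0
  have hε0pos : 0 < ε0 := by positivity
  -- comparison on the smaller rectangles
  have key : ∀ η, 0 < η → η < h → ∀ x, η < τ * (x - x0) → τ * (x - x0) < h →
      ε0 * Real.sinh (β * (τ * (x - x0) - η)) ≤ g (x, 0) := by
    intro η hη hηh
    set D : Set P := {z | (η < τ * (z.1 - x0) ∧ τ * (z.1 - x0) < h) ∧ |z.2| < 1 / 8} with hD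
    set B : Set P := {z | (η ≤ τ * (z.1 - x0) ∧ τ * (z.1 - x0) ≤ h) ∧ |z.2| ≤ 1 / 8} with hB
    have hDo : IsOpen D := by
      have e : D = ({z : P | η < τ * (z.1 - x0)} ∩ {z : P | τ * (z.1 - x0) < h}) ∩
        {z : P | |z.2| < 1 / 8} := rfl
      rw [e]
      exact ((isOpen_lt continuous_const (by fun_prop)).inter (isOpen_lt (by fun_prop)
        continuous_const)).inter (isOpen_lt (by fun_prop) continuous_const)
    have hBcl : IsClosed B := by
      have e : B = ({z : P | η ≤ τ * (z.1 - x0)} ∩ {z : P | τ * (z.1 - x0) ≤ h}) ∩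
        {z : P | |z.2| ≤ 1 / 8} := rfl
      rw [e]
      exact ((isClosed_le continuous_const (by fun_prop)).inter (isClosed_le (by fun_prop)
        continuous_const)).inter (isClosed_le (by fun_prop) continuous_const)
    have hBc : IsCompact B := by
      apply IsCompact.of_isClosed_subset (isCompact_Icc.prod isCompact_Icc :
        IsCompact (Icc (x0 - h) (x0 + h) ×ˢ Icc (-(1 / 8 : ℝ)) (1 / 8))) hBcl
      rintro ⟨x, y⟩ ⟨⟨h1, h2⟩, h3⟩
      simp only at h1 h2 h3
      refine ⟨?_, abs_le.1 h3⟩
      rcases hτ with rfl | rfl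
      · constructor <;> linarith
      · constructor <;> linarith
    have hBU : B ⊆ U := fun z hz => hsub z (lt_of_lt_of_le hη hz.1.1) hz.1.2 hz.2
    have hDB : D ⊆ B := fun z hz => ⟨⟨hz.1.1.le, hz.1.2.le⟩, hz.2.le⟩
    have hDU : D ⊆ U := hDB.trans hBU
    -- the comparison function
    set A : ℝ → ℝ := fun x => Real.sinh (β * (τ * (x - x0) - η)) with hA
    set A1 : ℝ → ℝ := fun x => β * τ * Real.cosh (β * (τ * (x - x0) - η)) with hA1
    set A2 : ℝ → ℝ := fun x => β ^ 2 * Real.sinh (β * (τ * (x - x0) - η)) with hA2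
    have hl : ∀ x, HasDerivAt (fun x => β * (τ * (x - x0) - η)) (β * τ) x := by
      intro x
      have := ((((hasDerivAt_id x).sub_const x0).const_mul τ).sub_const η).const_mul β
      simpa using this
    have dA : ∀ x, HasDerivAt A (A1 x) x := by
      intro x
      exact (hl x).sinh.congr_deriv (by simp only [hA1]; ring)
    have dA1 : ∀ x, HasDerivAt A1 (A2 x) x := by
      intro x
      refine (((hl x).cosh).const_mul (β * τ)).congr_deriv ?_
      simp only [hA2]
      linear_combination (β ^ 2 * Real.sinh (β * (τ * (x - x0) - η))) * hττ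
    set Bf : ℝ → ℝ := fun y => Real.cos (α * y) with hBf
    set B1 : ℝ → ℝ := fun y => -α * Real.sin (α * y) with hB1
    set B2 : ℝ → ℝ := fun y => -α ^ 2 * Real.cos (α * y) with hB2
    have hm : ∀ x, HasDerivAt (fun y => α * y) α x := by
      intro x
      simpa using (hasDerivAt_id x).const_mul α
    have dB : ∀ x, HasDerivAt Bf (B1 x) x := by
      intro x
      exact (hm x).cos.congr_deriv (by simp only [hB1]; ring)
    have dB1 : ∀ x, HasDerivAt B1 (B2 x) x := by
      intro x
      exact (((hm x).sin).const_mul (-α)).congr_deriv (by simp only [hB2]; ring)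
    set s : P → ℝ := fun z => A z.1 * Bf z.2 with hs
    have hss : ContDiff ℝ 2 s := by
      simp only [hs, hA, hBf]
      apply ContDiff.mul
      · apply Real.contDiff_sinh.comp; fun_prop
      · apply Real.contDiff_cos.comp; fun_prop
    have hsl : ∀ z, lap s z = -μ * s z := by
      intro z
      rw [hs, lap_prod dA dA1 dB dB1]
      simp only [hA, hA2, hBf, hB2]
      rw [hβ2]; ring
    set G : P → ℝ := fun z => 1 * g z + (-ε0) * s z with hG
    have hGU : ContDiffOn ℝ 2 G U :=
      (contDiffOn_const.mul hg).add (contDiffOn_const.mul hss.contDiffOn)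
    have hGeq : ∀ z ∈ U, lap G z = -μ * G z := by
      intro z hz
      rw [lap_comb hU hg hss.contDiffOn 1 (-ε0) z hz, heq z hz, hsl]
      simp only [hG]; ring
    have hGv : ∀ v, ContinuousOn (dd v G) U := fun v =>
      (dd_contDiffOn (m := 1) hU hGU (by norm_num) v).continuousOn
    have hbd : ∀ z ∈ B, G z ≤ 0 → z ∈ D := by
      rintro z ⟨⟨h1, h2⟩, h3⟩ hGz
      have hgz : 0 < g z := hBU.trans (subset_refl U) ⟨⟨h1, h2⟩, h3⟩ |> hpos z
      refine ⟨⟨?_, ?_⟩, ?_⟩
      · rcases h1.eq_or_lt with h4 | h4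
        · exfalso
          have : G z = g z := by
            simp only [hG, hs, hA]
            rw [← h4, sub_self, mul_zero, Real.sinh_zero]; ring
          linarith
        · exact h4
      · rcases h2.eq_or_lt with h4 | h4
        · exfalso
          have hx : z.1 = x0 + τ * h := by
            have : τ * (τ * (z.1 - x0)) = τ * h := by rw [h4]
            rw [← mul_assoc, hττ] at this
            linarith
          have hgc : c ≤ g z := by
            have := hmin' z.2 h3
            rw [← hx] at this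
            exact this
          have hs1 : s z ≤ Real.sinh (β * h) := by
            simp only [hs, hA, hBf]
            rw [h4]
            have h5 : Real.sinh (β * (h - η)) ≤ Real.sinh (β * h) := by
              apply Real.sinh_le_sinh.2
              nlinarith
            have h6 : 0 ≤ Real.sinh (β * (h - η)) := by
              apply Real.sinh_nonneg_iff.2
              have : 0 ≤ h - η := by linarith
              positivity
            have h7 := Real.cos_le_one (α * z.2)
            nlinarith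
          have : ε0 * s z ≤ c / 2 := by
            calc ε0 * s z ≤ ε0 * Real.sinh (β * h) := by gcongr
              _ = c / 2 := by rw [hε0]; field_simp
          simp only [hG] at hGz
          linarith
        · exact h4
      · rcases h3.eq_or_lt with h4 | h4
        · exfalso
          have hcos : Real.cos (α * z.2) = 0 := by
            have : Real.cos (α * z.2) = Real.cos (α * |z.2|) := by
              rcases abs_choice z.2 with h5 | h5
              · rw [h5]
              · rw [h5, mul_neg, Real.cos_neg]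
            rw [this, h4, hα]
            have : 4 * Real.pi * (1 / 8) = Real.pi / 2 := by ring
            rw [this, Real.cos_pi_div_two]
          have : G z = g z := by
            simp only [hG, hs, hBf]
            rw [hcos]; ring
          linarith
        · exact h4
    have hmp := max_principle hDo (μ := μ) (Λ := 400) (by linarith) (fun ψ hψ =>
        thin_of hh (by nlinarith) (by
          rintro z ⟨⟨h1, h2⟩, h3⟩
          refine ⟨z.1 - h, ⟨le_rfl, by linarith⟩, ?_⟩
          rintro ⟨⟨h4, h5⟩, h6⟩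
          simp only at h4 h5
          rcases hτ with rfl | rfl
          · linarith
          · linarith) ψ hψ)
      (hGU.mono hDU) (fun z hz => hGeq z (hDU hz)) (gn := fun _ => G)
      (fun _ => (hGU.of_le (by norm_num)).mono hDU)
      (Conv2.const (memLp_of_compact hBc hDB (hGU.continuousOn.mono hBU)))
      (Conv2.const (memLp_of_compact hBc hDB ((hGv ex).mono hBU)))
      (Conv2.const (memLp_of_compact hBc hDB ((hGv ey).mono hBU)))
      (fun _ => ⟨B ∩ G ⁻¹' Iic 0, hBc.of_isClosed_subset
        ((hGU.continuousOn.mono hBU).preimage_isClosed_of_isClosed hBcl isClosed_Iic)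
        inter_subset_left, fun z hz => hbd z hz.1 hz.2, fun z hz h1 _ => ⟨hDB hz, h1.le⟩⟩)
    intro x hx1 hx2
    have := hmp (x, 0) ⟨⟨hx1, hx2⟩, by norm_num⟩
    simp only [hG, hs, hA, hBf, mul_zero, Real.cos_zero, mul_one, one_mul] at this
    linarith
  refine ⟨min (ε0 * β) (c / h), lt_min (by positivity) (by positivity), fun x hx1 hx2 => ?_⟩
  rcases hx2.eq_or_lt with h1 | h1
  · have hx : x = x0 + τ * h := by
      have : τ * (τ * (x - x0)) = τ * h := by rw [h1]
      rw [← mul_assoc, hττ] at this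
      linarith
    have hgc : c ≤ g (x, 0) := by rw [hx]; exact hmin' 0 (by norm_num)
    have h2 := min_le_right (ε0 * β) (c / h)
    rw [h1]
    calc min (ε0 * β) (c / h) * h ≤ c / h * h := by gcongr
      _ = c := by field_simp
      _ ≤ _ := hgc
  · have h2 := min_le_left (ε0 * β) (c / h)
    have h3 : ε0 * β * (τ * (x - x0)) ≤ g (x, 0) := by
      set t := τ * (x - x0) with ht
      have h4 : ∀ η ∈ Ioo 0 t, ε0 * β * (t - η) ≤ g (x, 0) := by
        intro η hη
        have h5 := key η hη.1 (hη.2.trans h1) x hη.2 h1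
        have h6 : β * (t - η) ≤ Real.sinh (β * (t - η)) := by
          apply Real.self_le_sinh_iff.2
          have : 0 ≤ t - η := by linarith [hη.2]
          positivity
        calc ε0 * β * (t - η) = ε0 * (β * (t - η)) := by ring
          _ ≤ ε0 * Real.sinh (β * (t - η)) := by gcongr
          _ ≤ _ := h5
      by_contra hcon
      push Not at hcon
      set η := min (t / 2) ((ε0 * β * t - g (x, 0)) / (2 * (ε0 * β))) with hη
      have hp : 0 < ε0 * β := by positivity
      have hη0 : 0 < η := lt_min (by positivity) (div_pos (by linarith) (by positivity))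
      have hη1 : η < t := lt_of_le_of_lt (min_le_left _ _) (by linarith)
      have h7 := h4 η ⟨hη0, hη1⟩
      have h8 : ε0 * β * η ≤ (ε0 * β * t - g (x, 0)) / 2 := by
        calc ε0 * β * η ≤ ε0 * β * ((ε0 * β * t - g (x, 0)) / (2 * (ε0 * β))) := by
              gcongr; exact min_le_right _ _
          _ = _ := by field_simp
      nlinarith
    calc min (ε0 * β) (c / h) * (τ * (x - x0)) ≤ ε0 * β * (τ * (x - x0)) := by gcongr
      _ ≤ _ := h3

end Pool.Agent.Lib.MP_dac83a
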