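import Pool.Agent.Lib.MP_dac83a.Wallbd

set_option autoImplicit false

open MeasureTheory Set Filter Topology
open scoped ContDiff

namespace Pool.Agent.Lib.MP_dac83a

/-- a function with `∂ₓ g ∈ L²` is bounded on almost every horizontal slice -/
theorem slice_bound {g : P → ℝ} {Ω : Set P} (hΩ : IsOpen Ω) (hg : ContDiffOn ℝ 1 g Ω)
    (hL : MemLp (dd ex g) 2 (volume.restrict Ω)) {a b c d : ℝ} (hab : a < b) (hcd : c < d)
    (hbox : Ioo a b ×ˢ Ioo c d ⊆ Ω) :
    ∃ y ∈ Ioo c d, ∃ M, ∀ x ∈ Ioo a b, |g (x, y)| ≤ M := by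
  have hi : IntegrableOn (fun z => dd ex g z ^ 2) (Ioo a b ×ˢ Ioo c d) := by
    have h1 : IntegrableOn (fun z => dd ex g z ^ 2) Ω := hL.integrable_sq
    exact h1.mono_set hbox
  rw [IntegrableOn, Measure.volume_eq_prod, ← Measure.prod_restrict] at hi
  have hae := hi.prod_left_ae
  rw [ae_restrict_iff' measurableSet_Ioo] at hae
  obtain ⟨y, hy, hyi⟩ : ∃ y ∈ Ioo c d, Integrable (fun x => dd ex g (x, y) ^ 2)
      (volume.restrict (Ioo a b)) := by
    by_contra hcon
    push Not at hcon
    have h2 : ∀ᵐ y ∂(volume : Measure ℝ), y ∉ Ioo c d := by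
      filter_upwards [hae] with y hy hmem
      exact hcon y hmem (hy hmem)
    have h3 : volume (Ioo c d) = 0 := by
      rw [ae_iff] at h2
      have e : {y | ¬ y ∉ Ioo c d} = Ioo c d := by ext y; simp
      rwa [e] at h2
    rw [Real.volume_Ioo] at h3
    have := ENNReal.ofReal_eq_zero.1 h3
    linarith
  refine ⟨y, hy, |g ((a + b) / 2, y)| + ((b - a) + ∫ x in Ioo a b, dd ex g (x, y) ^ 2), ?_⟩
  intro x hx
  have hm : (a + b) / 2 ∈ Ioo a b := by constructor <;> linarith
  have hdiff : ∀ t ∈ Ioo a b, HasDerivAt (fun t => g (t, y)) (dd ex g (t, y)) t := by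
    intro t ht
    have h1 : HasFDerivAt g (fderiv ℝ g (t, y)) (t, y) :=
      ((hg.contDiffAt (hΩ.mem_nhds (hbox ⟨ht, hy⟩))).differentiableAt (by norm_num)).hasFDerivAt
    have h2 : HasDerivAt (fun t : ℝ => (t, y)) ((1 : ℝ), (0 : ℝ)) t :=
      (hasDerivAt_id t).prodMk (hasDerivAt_const t y)
    exact h1.comp_hasDerivAt t h2
  have hsub : uIcc ((a + b) / 2) x ⊆ Ioo a b := by
    intro t ht
    exact ⟨lt_of_lt_of_le (lt_min hm.1 hx.1) ht.1, lt_of_le_of_lt ht.2 (max_lt hm.2 hx.2)⟩
  have hcont : ContinuousOn (fun t => dd ex g (t, y)) (Ioo a b) := by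
    have h1 : ContinuousOn (dd ex g) Ω := (dd_contDiffOn (m := 0) hΩ hg (by norm_num) ex).continuousOn
    exact h1.comp (by fun_prop) (fun t ht => hbox ⟨ht, hy⟩)
  have hftc : ∫ t in ((a + b) / 2)..x, dd ex g (t, y) = g (x, y) - g ((a + b) / 2, y) := by
    apply intervalIntegral.integral_eq_sub_of_hasDerivAt
    · intro t ht; exact hdiff t (hsub ht)
    · exact (hcont.mono hsub).intervalIntegrable
  have hio : Integrable (fun t => 1 + dd ex g (t, y) ^ 2) (volume.restrict (Ioo a b)) :=
    (integrable_const _).add hyi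
  have hnorm : |∫ t in ((a + b) / 2)..x, dd ex g (t, y)|
      ≤ ∫ t in Ioo a b, (1 + dd ex g (t, y) ^ 2) := by
    rw [intervalIntegral.abs_intervalIntegral_eq]
    have hsub2 : uIoc ((a + b) / 2) x ⊆ Ioo a b := uIoc_subset_uIcc.trans hsub
    refine abs_integral_le_integral_abs.trans ?_
    have i1 : IntegrableOn (fun t => |dd ex g (t, y)|) (uIoc ((a + b) / 2) x) := by
      have := ((hcont.mono hsub).integrableOn_compact isCompact_uIcc (μ := volume)).mono_set
        (uIoc_subset_uIcc (a := (a + b) / 2) (b := x))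
      exact Integrable.abs this
    calc ∫ t in uIoc ((a + b) / 2) x, |dd ex g (t, y)|
        ≤ ∫ t in uIoc ((a + b) / 2) x, (1 + dd ex g (t, y) ^ 2) := by
          refine integral_mono i1 (Integrable.mono_measure hio
            (Measure.restrict_mono hsub2 le_rfl)) ?_
          intro t
          simp only
          nlinarith [sq_nonneg (|dd ex g (t, y)| - 1), sq_abs (dd ex g (t, y)),
            abs_nonneg (dd ex g (t, y))]
      _ ≤ ∫ t in Ioo a b, (1 + dd ex g (t, y) ^ 2) := by
          apply setIntegral_mono_set hio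
          · exact Eventually.of_forall fun t => by simp only [Pi.zero_apply]; positivity
          · exact hsub2.eventuallyLE
  have e2 : ∫ t in Ioo a b, (1 + dd ex g (t, y) ^ 2)
      = (b - a) + ∫ x in Ioo a b, dd ex g (x, y) ^ 2 := by
    rw [integral_add (integrable_const _) hyi]
    simp [hab.le]
  rw [hftc, e2] at hnorm
  have := abs_sub_abs_le_abs_sub (g (x, y)) (g ((a + b) / 2, y))
  linarith

/-- upper bound near a straight wall -/
theorem up_bound {μ : ℝ} (hμ0 : 0 ≤ μ) (hμ : μ ≤ 14) {g : P → ℝ} (hg : Eig Om μ g) {j : ℕ}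
    {τ x0 : ℝ} (hτ : (τ = 1 ∧ x0 = X (2 * j)) ∨ (τ = -1 ∧ x0 = X (2 * j + 1))) :
    ∃ C, 0 ≤ C ∧ ∀ x ∈ Ioo (X (2 * j)) (X (2 * j + 1)), |g (x, 0)| ≤ C * (τ * (x - x0)) := by
  set a := X (2 * j) with ha
  set b := X (2 * j + 1) with hb
  have hab : a < b := X_lt_succ _
  have hgap : b - a ≤ 1 / 32 := X_gap1 _
  have hττ : τ * τ = 1 := by rcases hτ with ⟨rfl, -⟩ | ⟨rfl, -⟩ <;> norm_num
  obtain ⟨φ, h1, h2, h3, h4⟩ := hg.approx
  have hbox : ∀ c d : ℝ, -(1 / 2) ≤ c → d ≤ 1 / 2 → Ioo a b ×ˢ Ioo c d ⊆ Om := by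
    rintro c d hc hd ⟨x, y⟩ ⟨hx, hy⟩
    exact Arm_subset (mem_Arm_between (n := 2 * j) hx.1 hx.2
      (abs_lt.2 ⟨lt_of_le_of_lt hc hy.1, lt_of_lt_of_le hy.2 hd⟩))
  obtain ⟨y1, hy1, M1, hM1⟩ := slice_bound isOpen_Om (hg.smooth.of_le one_le_inf) h3.mem hab
    (show (1 / 16 : ℝ) < 1 / 8 by norm_num) (hbox _ _ (by norm_num) (by norm_num))
  obtain ⟨y2, hy2, M2, hM2⟩ := slice_bound isOpen_Om (hg.smooth.of_le one_le_inf) h3.mem hab
    (show (-(1 / 8) : ℝ) < -(1 / 16) by norm_num) (hbox _ _ (by norm_num) (by norm_num))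
  set M := max (max M1 M2) 0 with hM
  have hM0 : 0 ≤ M := le_max_right _ _
  have hM1' : M1 ≤ M := (le_max_left _ _).trans (le_max_left _ _)
  have hM2' : M2 ≤ M := (le_max_right _ _).trans (le_max_left _ _)
  set c0 := Real.cosh (1 / 16) - 1 with hc0
  have hc0pos : 0 < c0 := by
    have : 1 < Real.cosh (1 / 16) := Real.one_lt_cosh.2 (by norm_num)
    linarith
  set K := (M + 1) / c0 with hK
  have hKpos : 0 < K := by positivity
  set γ := √(1 + μ) with hγ
  have hγ2 : γ ^ 2 = 1 + μ := Real.sq_sqrt (by linarith)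
  have hγpos : 0 < γ := Real.sqrt_pos.2 (by linarith)
  have hγ4 : γ ≤ 4 := by
    rw [hγ]; apply Real.sqrt_le_iff.2; constructor <;> linarith
  set ν := √μ with hν
  have hν2 : ν ^ 2 = μ := Real.sq_sqrt hμ0
  have hν0 : 0 ≤ ν := Real.sqrt_nonneg _
  have hνγ : ν ≤ γ := Real.sqrt_le_sqrt (by linarith)
  -- the barrier
  set t : ℝ → ℝ := fun x => τ * (x - x0) with ht
  have dt : ∀ k x : ℝ, HasDerivAt (fun x => k * (τ * (x - x0))) (k * τ) x := by
    intro k x
    have := ((((hasDerivAt_id x).sub_const x0).const_mul τ)).const_mul k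
    simpa using this
  set A : ℝ → ℝ := fun x => Real.cos (γ * (τ * (x - x0))) + Real.sin (γ * (τ * (x - x0))) with hA
  set A1 : ℝ → ℝ := fun x => (γ * τ) * (Real.cos (γ * (τ * (x - x0))) -
    Real.sin (γ * (τ * (x - x0)))) with hA1
  set A2 : ℝ → ℝ := fun x => -(γ ^ 2) * (Real.cos (γ * (τ * (x - x0))) +
    Real.sin (γ * (τ * (x - x0)))) with hA2
  have dA : ∀ x, HasDerivAt A (A1 x) x := by
    intro x
    refine ((dt γ x).cos.add (dt γ x).sin).congr_deriv ?_
    simp only [hA1]; ring
  have dA1 : ∀ x, HasDerivAt A1 (A2 x) x := by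
    intro x
    refine (((dt γ x).cos.sub (dt γ x).sin).const_mul (γ * τ)).congr_deriv ?_
    simp only [hA2]
    linear_combination (-(γ ^ 2) * (Real.cos (γ * (τ * (x - x0))) +
      Real.sin (γ * (τ * (x - x0))))) * hττ
  have dB : ∀ y, HasDerivAt Real.cosh (Real.sinh y) y := Real.hasDerivAt_cosh
  have dB1 : ∀ y, HasDerivAt Real.sinh (Real.cosh y) y := Real.hasDerivAt_sinh
  set A' : ℝ → ℝ := fun x => Real.cos (ν * (τ * (x - x0))) with hA'
  set A1' : ℝ → ℝ := fun x => -(ν * τ) * Real.sin (ν * (τ * (x - x0))) with hA1'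
  set A2' : ℝ → ℝ := fun x => -(ν ^ 2) * Real.cos (ν * (τ * (x - x0))) with hA2'
  have dA' : ∀ x, HasDerivAt A' (A1' x) x := by
    intro x
    refine ((dt ν x).cos).congr_deriv ?_
    simp only [hA1']; ring
  have dA1' : ∀ x, HasDerivAt A1' (A2' x) x := by
    intro x
    refine (((dt ν x).sin).const_mul (-(ν * τ))).congr_deriv ?_
    simp only [hA2']
    linear_combination (-(ν ^ 2) * (Real.cos (ν * (τ * (x - x0))))) * hττ
  have dO : ∀ y, HasDerivAt (fun _ : ℝ => (1 : ℝ)) ((fun _ => (0 : ℝ)) y) y := fun y =>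
    hasDerivAt_const y 1
  have dO1 : ∀ y, HasDerivAt (fun _ : ℝ => (0 : ℝ)) ((fun _ => (0 : ℝ)) y) y := fun y =>
    hasDerivAt_const y 0
  set F1 : P → ℝ := fun z => A z.1 * Real.cosh z.2 with hF1
  set F2 : P → ℝ := fun z => A' z.1 * (fun _ => (1 : ℝ)) z.2 with hF2
  have hF1s : ContDiff ℝ 2 F1 := by
    simp only [hF1, hA]
    apply ContDiff.mul
    · apply ContDiff.add
      · apply Real.contDiff_cos.comp; fun_prop
      · apply Real.contDiff_sin.comp; fun_prop
    · apply Real.contDiff_cosh.comp; fun_prop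
  have hF2s : ContDiff ℝ 2 F2 := by
    simp only [hF2, hA', mul_one]
    apply Real.contDiff_cos.comp; fun_prop
  set F : P → ℝ := fun z => 1 * F1 z + (-1) * F2 z with hF
  have hFs : ContDiff ℝ 2 F := (contDiff_const.mul hF1s).add (contDiff_const.mul hF2s)
  have hFl : ∀ z, lap F z = -μ * F z := by
    intro z
    rw [hF, lap_comb isOpen_univ hF1s.contDiffOn hF2s.contDiffOn 1 (-1) z (mem_univ _), hF1, hF2,
      lap_prod dA dA1 dB dB1, lap_prod dA' dA1' dO dO1]
    simp only [hA, hA2, hA', hA2']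
    rw [hγ2, hν2]; ring
  have htr : ∀ x, a ≤ x → x ≤ b → 0 ≤ τ * (x - x0) ∧ τ * (x - x0) ≤ 1 / 32 := by
    intro x hx1 hx2
    rcases hτ with ⟨rfl, rfl⟩ | ⟨rfl, rfl⟩
    · constructor <;> linarith
    · constructor <;> linarith
  have hFlow : ∀ z : P, a ≤ z.1 → z.1 ≤ b → Real.cosh z.2 - 1 ≤ F z := by
    intro z hz1 hz2
    obtain ⟨g1, g2⟩ := htr z.1 hz1 hz2
    set θ := γ * (τ * (z.1 - x0)) with hθ
    have hθ0 : 0 ≤ θ := by positivity
    have hθ1 : θ ≤ 1 / 8 := by
      have : γ * (τ * (z.1 - x0)) ≤ 4 * (1 / 32) := by gcongr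
      linarith
    have hsin : 0 ≤ Real.sin θ := Real.sin_nonneg_of_nonneg_of_le_pi hθ0
      (by linarith [Real.pi_gt_three])
    have hcos : 0 ≤ Real.cos θ := Real.cos_nonneg_of_mem_Icc
      ⟨by linarith [Real.pi_gt_three], by linarith [Real.pi_gt_three]⟩
    have hsc : 1 ≤ Real.cos θ + Real.sin θ := by
      have := Real.sin_sq_add_cos_sq θ
      have h5 := Real.sin_le_one θ
      have h6 := Real.cos_le_one θ
      nlinarith
    have hc1 := Real.one_le_cosh z.2
    have hc2 := Real.cos_le_one (ν * (τ * (z.1 - x0)))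
    simp only [hF, hF1, hF2, hA, hA']
    rw [← hθ]
    nlinarith
  have hFup : ∀ x, a ≤ x → x ≤ b → F (x, 0) ≤ γ * (τ * (x - x0)) := by
    intro x hx1 hx2
    obtain ⟨g1, g2⟩ := htr x hx1 hx2
    set θ := γ * (τ * (x - x0)) with hθ
    have hθ0 : 0 ≤ θ := by positivity
    have hθ1 : θ ≤ 1 / 8 := by
      have : γ * (τ * (x - x0)) ≤ 4 * (1 / 32) := by gcongr
      linarith
    have h5 : Real.sin θ ≤ θ := Real.sin_le hθ0
    have h6 : Real.cos θ ≤ Real.cos (ν * (τ * (x - x0))) := by
      apply Real.cos_le_cos_of_nonneg_of_le_pi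
      · positivity
      · linarith [Real.pi_gt_three]
      · rw [hθ]; gcongr
    simp only [hF, hF1, hF2, hA, hA', Real.cosh_zero]
    rw [← hθ]
    linarith
  -- the rectangle
  have hy12 : y2 < y1 := by linarith [hy1.1, hy2.2]
  set D : Set P := Ioo a b ×ˢ Ioo y2 y1 with hD
  set B : Set P := Icc a b ×ˢ Icc y2 y1 with hB
  have hDo : IsOpen D := isOpen_Ioo.prod isOpen_Ioo
  have hBc : IsCompact B := isCompact_Icc.prod isCompact_Icc
  have hDB : D ⊆ B := prod_mono Ioo_subset_Icc_self Ioo_subset_Icc_self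
  have hDOm : D ⊆ Om := hbox _ _ (by linarith [hy2.1]) (by linarith [hy1.2])
  have hFv : ∀ v, Continuous (dd v F) := fun v => (dd_contDiff (m := 1) hFs (by norm_num) v).continuous
  have key : ∀ σ : ℝ, (σ = 1 ∨ σ = -1) → ∀ z ∈ D, 0 ≤ K * F z + σ * g z := by
    intro σ hσ
    have hg2 : ContDiffOn ℝ 2 g Om := hg.smooth.of_le two_le_inf
    have hGs : ContDiffOn ℝ 2 (fun z => K * F z + σ * g z) Om :=
      (contDiffOn_const.mul hFs.contDiffOn).add (contDiffOn_const.mul hg2)
    have hdd : ∀ v, ∀ z ∈ Om, dd v (fun z => K * F z + σ * g z) z = K * dd v F z + σ * dd v g z := by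
      intro v z hz
      have d1 : DifferentiableAt ℝ F z := (hFs.differentiable (by norm_num)) z
      have d2 : DifferentiableAt ℝ g z := (hg2.contDiffAt (isOpen_Om.mem_nhds hz)).differentiableAt
        (by norm_num)
      rw [dd_add (d1.const_mul K) (d2.const_mul σ), dd_const_mul d1, dd_const_mul d2]
    have hddn : ∀ n v z, dd v (fun z => K * F z + σ * φ n z) z = K * dd v F z + σ * dd v (φ n) z := by
      intro n v z
      have d1 : DifferentiableAt ℝ F z := (hFs.differentiable (by norm_num)) z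
      have d2 : DifferentiableAt ℝ (φ n) z := (h1 n).diffAt z
      rw [dd_add (d1.const_mul K) (d2.const_mul σ), dd_const_mul d1, dd_const_mul d2]
    refine max_principle hDo (μ := μ) (Λ := 400) (by linarith) (fun ψ hψ =>
        thin_of (h := 1 / 32) (by norm_num) (by norm_num) (by
          rintro z ⟨hz1, hz2⟩
          refine ⟨z.1 - 1 / 32, ⟨le_rfl, by linarith⟩, ?_⟩
          rintro ⟨hz3, -⟩
          have h5 := hz3.1
          have h6 := hz1.2
          simp only at h5
          linarith) ψ hψ)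
      (hGs.mono hDOm) ?_ (gn := fun n z => K * F z + σ * φ n z)
      (fun n => ((contDiff_const.mul (hFs.of_le (by norm_num))).add (contDiff_const.mul
        ((h1 n).smooth.of_le one_le_inf))).contDiffOn) ?_ ?_ ?_ ?_
    · intro z hz
      rw [lap_comb isOpen_Om hFs.contDiffOn hg2 K σ z (hDOm hz), hFl, hg.eq z (hDOm hz)]
      ring
    · exact (Conv2.const (memLp_of_compact hBc hDB hFs.continuous.continuousOn)).comb
        (h2.mono hDOm) K σ
    · refine ((Conv2.const (memLp_of_compact hBc hDB (hFv ex).continuousOn)).comb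
        (h3.mono hDOm) K σ).congr (fun n => Eventually.of_forall fun z => ?_) ?_
      · exact (hddn n ex z).symm
      · filter_upwards [ae_restrict_mem hDo.measurableSet] with z hz using (hdd ex z (hDOm hz)).symm
    · refine ((Conv2.const (memLp_of_compact hBc hDB (hFv ey).continuousOn)).comb
        (h4.mono hDOm) K σ).congr (fun n => Eventually.of_forall fun z => ?_) ?_
      · exact (hddn n ey z).symm
      · filter_upwards [ae_restrict_mem hDo.measurableSet] with z hz using (hdd ey z (hDOm hz)).symm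
    · intro n
      have hK1 : IsCompact (tsupport (φ n) ∩ B) := IsCompact.inter_right (h1 n).cpt hBc.isClosed
      have hK1s : tsupport (φ n) ∩ B ⊆ Om := fun z hz => (h1 n).sub hz.1
      refine ⟨(tsupport (φ n) ∩ B) ∩ (fun z => K * F z + σ * g z) ⁻¹' (Iic 0), ?_, ?_, ?_⟩
      · apply hK1.of_isClosed_subset _ inter_subset_left
        exact (hGs.continuousOn.mono hK1s).preimage_isClosed_of_isClosed hK1.isClosed isClosed_Iic
      · rintro z ⟨⟨hz1, ⟨hz2, hz2'⟩, hz3, hz3'⟩, hz4⟩
        have hzO := (h1 n).sub hz1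
        have hz4' : K * F z + σ * g z ≤ 0 := hz4
        have hzA : z ∈ Arm := Om_right hzO ((one_le_X _).trans hz2)
        have hxa : a < z.1 := by
          rcases hz2.eq_or_lt with h5 | h5
          · exfalso
            have := Arm_even (even_two_mul j) hzA h5.symm
            linarith [hy2.1]
          · exact h5
        have hxb : z.1 < b := by
          rcases hz2'.eq_or_lt with h5 | h5
          · exfalso
            have := Arm_odd (not_even_odd j) hzA h5
            linarith [hy1.2]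
          · exact h5
        have hslice : ∀ y M', M' ≤ M → (1 / 16 : ℝ) ≤ |y| → (∀ x ∈ Ioo a b, |g (x, y)| ≤ M') →
            z.2 = y → False := by
          intro y M' hM' hy hbd hzy
          have h5 : |g z| ≤ M := by
            have := hbd z.1 ⟨hxa, hxb⟩
            rw [← hzy] at this
            exact this.trans hM'
          have h6 : c0 ≤ F z := by
            refine le_trans ?_ (hFlow z hz2 hz2')
            have : Real.cosh (1 / 16) ≤ Real.cosh z.2 := by
              apply Real.cosh_le_cosh.2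
              rw [hzy, abs_of_pos (by norm_num : (0 : ℝ) < 1 / 16)]; exact hy
            linarith
          have h7 : M + 1 ≤ K * F z := by
            calc M + 1 = K * c0 := by rw [hK]; field_simp
              _ ≤ K * F z := by gcongr
          have h8 : -|g z| ≤ σ * g z := by
            rcases hσ with rfl | rfl
            · rw [one_mul]; exact neg_abs_le _
            · have := le_abs_self (g z); linarith
          linarith
        refine ⟨⟨hxa, hxb⟩, ?_, ?_⟩
        · rcases hz3.eq_or_lt with h5 | h5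
          · exfalso
            refine hslice y2 M2 hM2' ?_ hM2 h5.symm
            rw [abs_of_neg (by linarith [hy2.2])]; linarith [hy2.2]
          · exact h5
        · rcases hz3'.eq_or_lt with h5 | h5
          · exfalso
            refine hslice y1 M1 hM1' ?_ hM1 h5
            rw [abs_of_pos (by linarith [hy1.1])]; linarith [hy1.1]
          · exact h5
      · intro z hz hz1 hz2
        refine ⟨⟨?_, hDB hz⟩, hz1.le⟩
        apply subset_tsupport
        intro h0
        have h5 := hFlow z hz.1.1.le hz.1.2.le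
        have h6 := Real.one_le_cosh z.2
        simp only [h0, mul_zero, add_zero] at hz2
        nlinarith
  refine ⟨K * γ, by positivity, fun x hx => ?_⟩
  have hmem : ((x, 0) : P) ∈ D := ⟨hx, by constructor <;> linarith [hy1.1, hy2.2]⟩
  have k1 := key 1 (Or.inl rfl) _ hmem
  have k2 := key (-1) (Or.inr rfl) _ hmem
  have h5 := hFup x hx.1.le hx.2.le
  have h6 : K * F (x, 0) ≤ K * (γ * (τ * (x - x0))) := by gcongr
  rw [abs_le]
  constructor <;> linarith

end Pool.Agent.Lib.MP_dac83a
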